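import Pool.Agent.H28.BR.Stm5

set_option autoImplicit false

/-! Project BR4: AV0. -/

namespace Pool.Agent.H28.BR4

open Finset Filter Topology MeasureTheory Pool.Agent.H306R2.RZ Pool.Agent.H306R2.RG
  Pool.Agent.Q122.FM Pool.Agent.H28.BR Pool.Agent.H28.BR3
open Pool.Agent.Helper112 (ee)

noncomputable section

theorem t_AV0 (sq0 : S_SQ0) (bd0 : S_BD0) (dia : S_DIA) (sgm : S_SGM) (lima : S_LIMA) : S_AV0 := by
  obtain ⟨C1, hC1, sq0⟩ := sq0
  obtain ⟨C2, hC2, bd0⟩ := bd0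
  obtain ⟨C3, hC3, dia⟩ := dia
  obtain ⟨C4, hC4, sgm⟩ := sgm
  refine ⟨C1 * C2 + C3 * C4, by positivity, ?_⟩
  intro p hp c hc8 hco a ha X hX
  have hr : (1 : ℝ) ≤ p.r := by exact_mod_cast hp.2.1.1
  have hX0 : (0 : ℝ) < X := by exact_mod_cast hX
  set Da := (Icc 1 X).filter (fun d => a ^ 2 ∣ d ∧ d % 8 = c) with hDa
  have hlg : ∀ d ∈ Da, lg d ^ 2 ≤ lg X ^ 2 := by
    intro d hd
    rw [hDa, mem_filter, mem_Icc] at hd
    have hd0 : (0 : ℝ) < d := by exact_mod_cast hd.1.1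
    have hd1 : (1 : ℝ) ≤ d := by exact_mod_cast hd.1.1
    have h1 : 0 ≤ Real.log d := Real.log_nonneg hd1
    have h2 : Real.log d ≤ Real.log X := Real.log_le_log hd0 (by exact_mod_cast hd.1.2)
    unfold lg
    apply pow_le_pow_left₀ (by linarith) (by linarith)
  have hfin : ∀ N : ℕ, p.r * X ≤ N →
      |∑ d ∈ Da, (EA p N d (1 / (p.r * (d : ℝ))) ^ 2 - MD p d)| ≤ (C1 * C2 + C3 * C4) * (X * lg X ^ 2) := by
    intro N hN
    have e1 : ∑ d ∈ Da, (EA p N d (1 / (p.r * (d : ℝ))) ^ 2 - MD p d) =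
        ∑ d ∈ Da, (EA p N d (1 / (p.r * (d : ℝ))) ^ 2 - Dg p N d (1 / (p.r * (d : ℝ)))) +
        ∑ d ∈ Da, (Dg p N d (1 / (p.r * (d : ℝ))) - MD p d) := by
      rw [← Finset.sum_add_distrib]
      apply sum_congr rfl
      intro d _
      ring
    rw [e1]
    refine (abs_add_le _ _).trans ?_
    have h1 : |∑ d ∈ Da, (EA p N d (1 / (p.r * (d : ℝ))) ^ 2 - Dg p N d (1 / (p.r * (d : ℝ))))| ≤
        C1 * (C2 * (X * lg X ^ 2)) :=
      (sq0 p hp c hc8 hco a ha X N hX).trans
        (mul_le_mul_of_nonneg_left (bd0 a X (N ^ 2) ha hX) hC1.le)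
    have h2 : |∑ d ∈ Da, (Dg p N d (1 / (p.r * (d : ℝ))) - MD p d)| ≤ C3 * (C4 * X) * lg X ^ 2 := by
      refine (Finset.abs_sum_le_sum_abs _ _).trans ?_
      calc ∑ d ∈ Da, |Dg p N d (1 / (p.r * (d : ℝ))) - MD p d|
          ≤ ∑ d ∈ Da, C3 * sg d ^ 2 * lg X ^ 2 := by
            apply sum_le_sum
            intro d hd
            have hd' := hd
            rw [hDa, mem_filter, mem_Icc] at hd'
            have hodd : Odd d := by
              obtain ⟨j, hj⟩ := hco
              rw [Nat.odd_iff]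
              omega
            have h3 := dia p hp d hodd N ((Nat.mul_le_mul le_rfl hd'.1.2).trans hN)
            refine h3.trans ?_
            apply mul_le_mul_of_nonneg_left (hlg d hd)
            positivity
        _ = C3 * lg X ^ 2 * ∑ d ∈ Da, sg d ^ 2 := by
            rw [Finset.mul_sum]
            apply sum_congr rfl
            intro d _
            ring
        _ ≤ C3 * lg X ^ 2 * ∑ d ∈ Icc 1 X, sg d ^ 2 := by
            apply mul_le_mul_of_nonneg_left _ (by positivity)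
            exact Finset.sum_le_sum_of_subset_of_nonneg (Finset.filter_subset _ _) (fun _ _ _ => sq_nonneg _)
        _ ≤ C3 * lg X ^ 2 * (C4 * X) := by
            apply mul_le_mul_of_nonneg_left (sgm X) (by positivity)
        _ = _ := by ring
    nlinarith [h1, h2]
  have ht : Tendsto (fun N : ℕ => |∑ d ∈ Da, (EA p N d (1 / (p.r * (d : ℝ))) ^ 2 - MD p d)|) atTop
      (𝓝 |∑ d ∈ Da, (Einf p d (1 / (p.r * (d : ℝ))) ^ 2 - MD p d)|) := by
    refine (tendsto_finsetSum _ fun d hd => ?_).abs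
    rw [hDa, mem_filter, mem_Icc] at hd
    have hd1 : (1 : ℝ) ≤ d := by exact_mod_cast hd.1.1
    have hz : 0 < 1 / (p.r * (d : ℝ)) := by positivity
    exact ((lima p hp d _ hz).pow 2).sub_const _
  exact le_of_tendsto ht (by
    filter_upwards [eventually_ge_atTop (p.r * X)] with N hN
    exact hfin N hN)

end

end Pool.Agent.H28.BR4
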