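import Pool.Agent.H28.BR.Mid
import Pool.Agent.H50.BR.Fm0
import Pool.Agent.H75.BR.BHR
import Pool.Agent.H75.BR.Kin

set_option autoImplicit false

/-! Project BR: all the statements, without hypotheses -/

namespace Pool.Agent.H28.BR

open Pool.Agent.Q122.FM

theorem kin : S_KIN := Pool.Agent.H75.BR.t_KIN
theorem vsm : S_VSM := Pool.Agent.H75.BR.t_VSM
theorem exp : S_EXP := mexp kin vsm
theorem fm0 : S_FM0 := Pool.Agent.H50.BR.t_FM0 fin gwl
theorem irr : S_IRR := t_IRR exp
theorem wie : S_WIE := t_WIE exp fm0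
theorem pos : S_POS := Pool.Agent.H75.BR.t_POS wie gwl
theorem bhr : S_BHR := Pool.Agent.H75.BR.t_BHR exp fm0 trap gwl arc

end Pool.Agent.H28.BR
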