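import Pool.Agent.H28.BR.Stm

set_option autoImplicit false

/-! Project BR: one residue class. -/

namespace Pool.Agent.H28.BR

open Finset Filter Topology MeasureTheory Pool.Agent.H306R2.RZ Pool.Agent.H306R2.RG
  Pool.Agent.Q122.FM
open Pool.Agent.Helper112 (ee)

noncomputable section

theorem norm_ee (x : ℝ) : ‖ee x‖ = 1 := by
  unfold Pool.Agent.Helper112.ee
  have h1 : (2 * (Real.pi : ℂ) * (x : ℂ) * Complex.I) = ((2 * Real.pi * x : ℝ) : ℂ) * Complex.I := by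
    push_cast
    ring
  rw [h1, Complex.norm_exp_ofReal_mul_I]

theorem lg_one_le {X : ℕ} (hX : 1 ≤ X) : 1 ≤ lg X := by
  unfold lg
  have : 0 ≤ Real.log X := Real.log_nonneg (by exact_mod_cast hX)
  linarith

theorem t_CLX (nsw : S_NSW) (ags : S_AGS) (gwe : S_GWE) (ra : S_RA) : S_CLX := by
  intro κ hκ0 hκ
  obtain ⟨C1, hC1, nsw⟩ := nsw
  obtain ⟨C2, hC2, ags⟩ := ags κ hκ0 hκ
  obtain ⟨C3, hC3, gwe⟩ := gwe
  refine ⟨3 * (C1 * C2) + 4 * C3, by positivity, ?_⟩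
  intro p hp c hc8 hco θ b q X N hX happ
  set x : ℝ := (X : ℝ) with hx
  have hx1 : 1 ≤ x := by rw [hx]; exact_mod_cast hX
  have hx0 : 0 < x := by linarith
  set l : ℝ := lg X with hl
  have hl1 : 1 ≤ l := lg_one_le hX
  have hl0 : 0 < l := by linarith
  set A : ℕ := ⌈x ^ (1 / 4 : ℝ)⌉₊ with hA
  have hx4 : 1 ≤ x ^ (1 / 4 : ℝ) := Real.one_le_rpow hx1 (by norm_num)
  have hA1 : 1 ≤ A := by
    rw [hA]
    exact Nat.one_le_ceil_iff.2 (by linarith)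
  have hAge : x ^ (1 / 4 : ℝ) ≤ (A : ℝ) := Nat.le_ceil _
  have hAle : (A : ℝ) ≤ 2 * x ^ (1 / 4 : ℝ) := by
    have := Nat.ceil_lt_add_one (by linarith : (0 : ℝ) ≤ x ^ (1 / 4 : ℝ))
    rw [← hA] at this
    linarith
  have hA0 : (0 : ℝ) < A := by linarith
  -- the decomposition
  have hdec : ∑ d ∈ (Icc 1 X).filter (fun d => d % 8 = c ∧ Squarefree d),
      ee (θ * d) * (EA p N d (1 / (p.r * (d : ℝ))) : ℂ) =
      ∑ d ∈ (Icc 1 X).filter (fun d => d % 8 = c), (RA A d : ℂ) *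
        (ee (θ * d) * (EA p N d (1 / (p.r * (d : ℝ))) : ℂ)) +
      ∑ d ∈ (Icc 1 X).filter (fun d => d % 8 = c),
      ((∑ a ∈ (Icc 1 A).filter (fun a => a ^ 2 ∣ d), ((ArithmeticFunction.moebius a : ℤ) : ℝ) : ℝ) : ℂ) *
        (ee (θ * d) * (EA p N d (1 / (p.r * (d : ℝ))) : ℂ)) := by
    rw [← Finset.sum_add_distrib, ← Finset.filter_filter, Finset.sum_filter]
    refine Finset.sum_congr rfl fun d _ => ?_
    rw [← add_mul, ← Complex.ofReal_add]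
    have h1 : RA A d + ∑ a ∈ (Icc 1 A).filter (fun a => a ^ 2 ∣ d),
        ((ArithmeticFunction.moebius a : ℤ) : ℝ) = if Squarefree d then 1 else 0 := by
      unfold RA
      ring
    rw [h1]
    split_ifs <;> simp
  rw [hdec]
  refine (norm_add_le _ _).trans ?_
  -- the tail
  have ht : ‖∑ d ∈ (Icc 1 X).filter (fun d => d % 8 = c), (RA A d : ℂ) *
        (ee (θ * d) * (EA p N d (1 / (p.r * (d : ℝ))) : ℂ))‖ ≤ 4 * C3 * (x ^ (7 / 8 : ℝ) * l ^ 2) := by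
    have h1 : ‖∑ d ∈ (Icc 1 X).filter (fun d => d % 8 = c), (RA A d : ℂ) *
        (ee (θ * d) * (EA p N d (1 / (p.r * (d : ℝ))) : ℂ))‖ ≤
        ∑ d ∈ (Icc 1 X).filter (fun d => d % 8 = c), |RA A d| * |EA p N d (1 / (p.r * (d : ℝ)))| := by
      refine (norm_sum_le _ _).trans (Finset.sum_le_sum fun d _ => ?_)
      rw [norm_mul, norm_mul, norm_ee, one_mul, Complex.norm_real, Complex.norm_real,
        Real.norm_eq_abs, Real.norm_eq_abs]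
    refine h1.trans ((gwe p hp c hc8 hco X N (RA A) hX).trans ?_)
    have h2 : ∑ d ∈ Icc 1 X, RA A d ^ 2 ≤ 16 * x ^ (3 / 4 : ℝ) := by
      refine (ra A X hA1).trans ?_
      rw [div_le_iff₀ hA0]
      calc 16 * (X : ℝ) = 16 * x ^ (3 / 4 : ℝ) * x ^ (1 / 4 : ℝ) := by
            rw [mul_assoc, ← Real.rpow_add hx0]
            norm_num [hx]
        _ ≤ 16 * x ^ (3 / 4 : ℝ) * A := by gcongr
    have h3 : Real.sqrt (∑ d ∈ Icc 1 X, RA A d ^ 2) ≤ 4 * x ^ (3 / 8 : ℝ) := by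
      rw [Real.sqrt_le_left (by positivity)]
      refine h2.trans (le_of_eq ?_)
      rw [mul_pow, ← Real.rpow_natCast (x ^ (3 / 8 : ℝ)) 2, ← Real.rpow_mul hx0.le]
      norm_num
    have h4 : Real.sqrt (X : ℝ) = x ^ (1 / 2 : ℝ) := by rw [Real.sqrt_eq_rpow]
    have h5 : l ^ (3 / 2 : ℝ) ≤ l ^ 2 := by
      rw [← Real.rpow_natCast]
      exact Real.rpow_le_rpow_of_exponent_le hl1 (by norm_num)
    rw [h4]
    calc C3 * Real.sqrt (∑ d ∈ Icc 1 X, RA A d ^ 2) * x ^ (1 / 2 : ℝ) * l ^ (3 / 2 : ℝ)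
        ≤ C3 * (4 * x ^ (3 / 8 : ℝ)) * x ^ (1 / 2 : ℝ) * l ^ 2 := by gcongr
      _ = 4 * C3 * ((x ^ (3 / 8 : ℝ) * x ^ (1 / 2 : ℝ)) * l ^ 2) := by ring
      _ = 4 * C3 * (x ^ (7 / 8 : ℝ) * l ^ 2) := by
          rw [← Real.rpow_add hx0]
          norm_num
  -- the main part
  have hm := nsw p hp c hc8 hco X A N θ hX
  have hs := ags θ b q X hX happ A N N
  have hq0 : (0 : ℝ) ≤ (q : ℝ) ^ (κ - 1 / 2) := Real.rpow_nonneg (Nat.cast_nonneg q) _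
  have hm2 : C1 * l * ∑ a ∈ Icc 1 A, ∑ g ∈ Icc 1 N, 1 / (g : ℝ) * TT X θ (Nat.lcm (a ^ 2) g) g N ≤
      3 * (C1 * C2) * (x * l * (q : ℝ) ^ (κ - 1 / 2) + x ^ (7 / 8 : ℝ) * l ^ 2) := by
    have h4 : Real.sqrt (X : ℝ) = x ^ (1 / 2 : ℝ) := by rw [Real.sqrt_eq_rpow]
    rw [h4] at hs
    have h6 : (A : ℝ) * x ^ (1 / 2 : ℝ) ≤ 2 * x ^ (7 / 8 : ℝ) := by
      calc (A : ℝ) * x ^ (1 / 2 : ℝ) ≤ 2 * x ^ (1 / 4 : ℝ) * x ^ (1 / 2 : ℝ) := by gcongr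
        _ = 2 * x ^ (3 / 4 : ℝ) := by
            rw [mul_assoc, ← Real.rpow_add hx0]
            norm_num
        _ ≤ 2 * x ^ (7 / 8 : ℝ) :=
            mul_le_mul_of_nonneg_left (Real.rpow_le_rpow_of_exponent_le hx1 (by norm_num)) (by norm_num)
    have h78 : 0 ≤ x ^ (7 / 8 : ℝ) := Real.rpow_nonneg hx0.le _
    calc C1 * l * ∑ a ∈ Icc 1 A, ∑ g ∈ Icc 1 N, 1 / (g : ℝ) * TT X θ (Nat.lcm (a ^ 2) g) g N
        ≤ C1 * l * (C2 * (x * (q : ℝ) ^ (κ - 1 / 2) + x ^ (7 / 8 : ℝ) + A * x ^ (1 / 2 : ℝ) * l)) := by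
          gcongr
      _ ≤ C1 * l * (C2 * (x * (q : ℝ) ^ (κ - 1 / 2) + x ^ (7 / 8 : ℝ) + 2 * x ^ (7 / 8 : ℝ) * l)) := by
          gcongr
      _ = C1 * C2 * (x * l * (q : ℝ) ^ (κ - 1 / 2) + x ^ (7 / 8 : ℝ) * l + 2 * (x ^ (7 / 8 : ℝ) * l ^ 2)) := by
          ring
      _ ≤ C1 * C2 * (3 * (x * l * (q : ℝ) ^ (κ - 1 / 2) + x ^ (7 / 8 : ℝ) * l ^ 2)) := by
          have h7 : x ^ (7 / 8 : ℝ) * l ≤ x ^ (7 / 8 : ℝ) * l ^ 2 := by
            refine mul_le_mul_of_nonneg_left ?_ h78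
            nlinarith
          have h8 : 0 ≤ x * l * (q : ℝ) ^ (κ - 1 / 2) := by positivity
          refine mul_le_mul_of_nonneg_left ?_ (by positivity)
          linarith
      _ = _ := by ring
  have hfin : 4 * C3 * (x ^ (7 / 8 : ℝ) * l ^ 2) ≤
      4 * C3 * (x * l * (q : ℝ) ^ (κ - 1 / 2) + x ^ (7 / 8 : ℝ) * l ^ 2) := by
    have h8 : 0 ≤ x * l * (q : ℝ) ^ (κ - 1 / 2) := by positivity
    refine mul_le_mul_of_nonneg_left ?_ (by positivity)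
    linarith
  calc _ ≤ 4 * C3 * (x ^ (7 / 8 : ℝ) * l ^ 2) +
        3 * (C1 * C2) * (x * l * (q : ℝ) ^ (κ - 1 / 2) + x ^ (7 / 8 : ℝ) * l ^ 2) :=
        add_le_add ht (hm.trans hm2)
    _ ≤ _ := by linarith

end

end Pool.Agent.H28.BR
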