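import Pool.Agent.H28.BR.Stm2
import Pool.Agent.H28.BR.CLX
import Pool.Agent.H50.BR.Tmg

set_option autoImplicit false

/-! Project BR2 (helper28), jobs TN0, CLB: one residue class, twisted. -/

namespace Pool.Agent.H28.BR2

open Finset Filter Topology MeasureTheory Pool.Agent.H306R2.RZ Pool.Agent.H306R2.RG
  Pool.Agent.Q122.FM Pool.Agent.Q122.MB Pool.Agent.H28.BR
open Pool.Agent.Helper112 (ee)
open Pool.Agent.H50.BR (gsum harm nd_nonneg Psi_nonneg)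

noncomputable section

lemma gd_le_inv {L x t : ℝ} (hL : 0 ≤ L) (ht : 0 < t) (h : t ≤ nd x) : gd L x ≤ 1 / t := by
  unfold gd
  have h0 : 0 ≤ nd x := nd_nonneg x
  rw [div_le_div_iff₀ (by positivity) ht]
  nlinarith

lemma nd_frac {b s : ℕ} (hb : 1 ≤ b) (hbs : b < s) :
    min ((b : ℝ) / s) (((s - b : ℕ) : ℝ) / s) ≤ nd (0 - (b : ℝ) / s) := by
  have hs : (0 : ℝ) < s := by
    have : 0 < s := by omega
    exact_mod_cast this
  have hb0 : (0 : ℝ) < b := by exact_mod_cast hb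
  unfold nd
  rw [Nat.cast_sub hbs.le]
  rcases le_or_gt 0 (round (0 - (b : ℝ) / s)) with h | h
  · have h1 : (0 : ℝ) ≤ (round (0 - (b : ℝ) / s) : ℤ) := by exact_mod_cast h
    refine (min_le_left _ _).trans ?_
    rw [abs_sub_comm]
    refine le_trans ?_ (le_abs_self _)
    linarith
  · have h1 : ((round (0 - (b : ℝ) / s) : ℤ) : ℝ) ≤ -1 := by
      have : round (0 - (b : ℝ) / s) ≤ -1 := by omega
      exact_mod_cast this
    refine (min_le_right _ _).trans ?_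
    refine le_trans ?_ (le_abs_self _)
    rw [sub_div, div_self hs.ne']
    linarith

lemma Psi_zero (s : ℕ) (hs : 2 ≤ s) {L : ℝ} (hL : 0 ≤ L) :
    Psi s L 0 ≤ 2 * (s : ℝ) * (1 + Real.log s) := by
  have hs0 : (0 : ℝ) < s := by
    have : 0 < s := by omega
    exact_mod_cast this
  have h1 : Psi s L 0 ≤ ∑ b ∈ Ico 1 s, ((s : ℝ) * (1 / b) + (s : ℝ) * (1 / ((s - b : ℕ) : ℝ))) := by
    unfold Psi
    refine (Finset.sum_le_sum (f := fun b : ℕ => gd L (0 - (b : ℝ) / s))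
      (g := fun b => if b = 0 then 0 else ((s : ℝ) * (1 / b) + (s : ℝ) * (1 / ((s - b : ℕ) : ℝ)))) ?_).trans ?_
    · intro b hb
      rw [mem_filter, mem_range] at hb
      obtain ⟨hbs, hbc⟩ := hb
      have hb1 : b ≠ 0 := by
        intro h0
        subst h0
        rw [Nat.coprime_zero_left] at hbc
        omega
      rw [if_neg hb1]
      have hb1' : 1 ≤ b := by omega
      have hb0 : (0 : ℝ) < b := by exact_mod_cast hb1'
      have hsb : (0 : ℝ) < ((s - b : ℕ) : ℝ) := by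
        have : 0 < s - b := by omega
        exact_mod_cast this
      have hmin : 0 < min ((b : ℝ) / s) (((s - b : ℕ) : ℝ) / s) := lt_min (by positivity) (by positivity)
      refine (gd_le_inv hL hmin (nd_frac hb1' hbs)).trans ?_
      rcases min_choice ((b : ℝ) / s) (((s - b : ℕ) : ℝ) / s) with h | h
      · rw [h]
        have e1 : 1 / ((b : ℝ) / s) = (s : ℝ) * (1 / b) := by field_simp
        rw [e1]
        have : 0 ≤ (s : ℝ) * (1 / ((s - b : ℕ) : ℝ)) := by positivity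
        linarith
      · rw [h]
        have e1 : 1 / (((s - b : ℕ) : ℝ) / s) = (s : ℝ) * (1 / ((s - b : ℕ) : ℝ)) := by field_simp
        rw [e1]
        have : 0 ≤ (s : ℝ) * (1 / (b : ℝ)) := by positivity
        linarith
    · refine (Finset.sum_le_sum_of_subset_of_nonneg (filter_subset _ _) ?_).trans ?_
      · intro b _ _
        split_ifs
        · exact le_rfl
        · positivity
      · rw [Finset.range_eq_Ico, Finset.sum_eq_sum_Ico_succ_bot (by omega : 0 < s)]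
        simp only [if_true, zero_add]
        apply le_of_eq
        apply Finset.sum_congr rfl
        intro b hb
        rw [mem_Ico] at hb
        rw [if_neg (by omega)]
  have h2 : ∑ b ∈ Ico 1 s, (1 : ℝ) / ((s - b : ℕ) : ℝ) = ∑ b ∈ Ico 1 s, 1 / (b : ℝ) := by
    apply Finset.sum_nbij' (fun b => s - b) (fun b => s - b)
    · intro b hb
      rw [mem_Ico] at hb ⊢
      omega
    · intro b hb
      rw [mem_Ico] at hb ⊢
      omega
    · intro b hb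
      rw [mem_Ico] at hb
      omega
    · intro b hb
      rw [mem_Ico] at hb
      omega
    · intro b hb
      rfl
  have h3 : ∑ b ∈ Ico 1 s, 1 / (b : ℝ) ≤ 1 + Real.log s := by
    refine le_trans ?_ (harm s)
    apply Finset.sum_le_sum_of_subset_of_nonneg
    · intro b hb
      rw [mem_Ico] at hb
      rw [mem_Icc]
      omega
    · intro b _ _
      positivity
  rw [Finset.sum_add_distrib, ← Finset.mul_sum, ← Finset.mul_sum, h2] at h1
  calc Psi s L 0 ≤ (s : ℝ) * ∑ b ∈ Ico 1 s, 1 / (b : ℝ) + (s : ℝ) * ∑ b ∈ Ico 1 s, 1 / (b : ℝ) := h1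
    _ ≤ (s : ℝ) * (1 + Real.log s) + (s : ℝ) * (1 + Real.log s) := by gcongr
    _ = _ := by ring

theorem t_TN0 : S_TN0 := by
  refine ⟨312, by norm_num, ?_⟩
  intro X m g M hX hg
  have hX' : (1 : ℝ) ≤ X := by exact_mod_cast hX
  have hX0 : (0 : ℝ) < X := by linarith
  have hg' : (1 : ℝ) ≤ g := by exact_mod_cast hg
  have hg0 : (0 : ℝ) < g := by linarith
  have hg2 : (1 : ℝ) ≤ (g : ℝ) ^ 2 := one_le_pow₀ hg'
  set Y : ℝ := Real.sqrt (32 * X) / (g : ℝ) ^ 2 with hY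
  have hsq : Real.sqrt (32 * X) ≤ 6 * Real.sqrt X := by
    rw [Real.sqrt_mul (by norm_num)]
    apply mul_le_mul_of_nonneg_right _ (Real.sqrt_nonneg _)
    rw [Real.sqrt_le_left (by norm_num)]
    norm_num
  have hs0 : 0 < Real.sqrt (32 * X) := Real.sqrt_pos.2 (by positivity)
  have hY0 : 0 < Y := by positivity
  have hYX : Y ≤ 6 * Real.sqrt X := by
    refine le_trans ?_ hsq
    rw [hY]
    exact div_le_self hs0.le hg2
  have hY2 : Y ^ 2 = 32 * X / (g : ℝ) ^ 4 := by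
    rw [hY, div_pow, Real.sq_sqrt (by positivity)]
    ring
  have h1 : TN X 0 m g M ≤ ∑ s ∈ Icc 2 M, 2 * ((1 + Real.log s) * Real.exp (-((s : ℝ) ^ 2 / Y ^ 2))) := by
    unfold TN
    apply Finset.sum_le_sum
    intro s hs
    rw [mem_Icc] at hs
    have hs1 : (0 : ℝ) < s := by
      have : 0 < s := by omega
      exact_mod_cast this
    have h2 : Psi s ((X : ℝ) / (8 * m) + 1) (8 * m * 0) ≤ 2 * (s : ℝ) * (1 + Real.log s) := by
      rw [mul_zero]
      exact Psi_zero s hs.1 (by positivity)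
    have e1 : (s : ℝ) ^ 2 * (g : ℝ) ^ 4 / (32 * X) = (s : ℝ) ^ 2 / Y ^ 2 := by
      rw [hY2]
      field_simp
    rw [e1]
    calc 1 / (s : ℝ) * Real.exp (-((s : ℝ) ^ 2 / Y ^ 2)) * Psi s ((X : ℝ) / (8 * m) + 1) (8 * m * 0)
        ≤ 1 / (s : ℝ) * Real.exp (-((s : ℝ) ^ 2 / Y ^ 2)) * (2 * (s : ℝ) * (1 + Real.log s)) :=
          mul_le_mul_of_nonneg_left h2 (by positivity)
      _ = _ := by field_simp
  have h2 : ∑ s ∈ Icc 2 M, 2 * ((1 + Real.log s) * Real.exp (-((s : ℝ) ^ 2 / Y ^ 2))) ≤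
      2 * ∑ s ∈ Icc 1 M, (1 + Real.log s) * Real.exp (-((s : ℝ) ^ 2 / Y ^ 2)) := by
    rw [← Finset.mul_sum]
    apply mul_le_mul_of_nonneg_left _ (by norm_num)
    apply Finset.sum_le_sum_of_subset_of_nonneg
    · intro s hs
      rw [mem_Icc] at hs ⊢
      omega
    · intro s hs _
      rw [mem_Icc] at hs
      have : (1 : ℝ) ≤ s := by exact_mod_cast hs.1
      have := Real.log_nonneg this
      positivity
  have h3 := gsum hY0 hX hYX M
  have hl : 0 ≤ lg X := by linarith [lg_one_le hX]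
  calc TN X 0 m g M ≤ 2 * (26 * Y * lg X) := by linarith
    _ = 52 * Y * lg X := by ring
    _ ≤ 52 * (6 * Real.sqrt X / (g : ℝ) ^ 2) * lg X := by
        apply mul_le_mul_of_nonneg_right _ hl
        apply mul_le_mul_of_nonneg_left _ (by norm_num)
        rw [hY]
        exact div_le_div_of_nonneg_right hsq (by positivity)
    _ = _ := by ring

lemma sum_inv_sq (G : ℕ) : ∑ g ∈ Icc 1 G, 1 / (g : ℝ) ^ 2 ≤ 2 := by
  have key : ∀ G : ℕ, 1 ≤ G → ∑ g ∈ Icc 1 G, 1 / (g : ℝ) ^ 2 ≤ 2 - 1 / (G : ℝ) := by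
    intro G hG
    induction G, hG using Nat.le_induction with
    | base => simp; norm_num
    | succ G hG ih =>
      rw [Finset.sum_Icc_succ_top (by omega)]
      have hG0 : (0 : ℝ) < G := by exact_mod_cast hG
      have h1 : 1 / (((G + 1 : ℕ) : ℝ)) ^ 2 ≤ 1 / (G : ℝ) - 1 / ((G + 1 : ℕ) : ℝ) := by
        push_cast
        rw [div_sub_div _ _ hG0.ne' (by positivity), div_le_div_iff₀ (by positivity) (by positivity)]
        nlinarith
      linarith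
  rcases Nat.eq_zero_or_pos G with h | h
  · subst h; simp
  · have := key G h
    have h2 : (0 : ℝ) ≤ 1 / (G : ℝ) := by positivity
    linarith

lemma TN_le_TT (X : ℕ) (θ : ℝ) (m g M : ℕ) :
    TN X θ m g M ≤ Pool.Agent.H28.BR.TT X θ m g M := by
  unfold TN Pool.Agent.H28.BR.TT
  apply Finset.sum_le_sum_of_subset_of_nonneg
  · intro s hs
    rw [mem_Icc] at hs ⊢
    omega
  · intro s _ _
    have : 0 ≤ Psi s ((X : ℝ) / (8 * m) + 1) (8 * m * θ) := Psi_nonneg s (by positivity) _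
    positivity

lemma shift_sum (f : ℕ → ℝ → ℝ) (X c : ℕ) :
    ∑ d ∈ (Icc 1 X).filter (fun d => d % 8 = c), f d (1 / (8 * (d : ℝ))) =
      ∑ y ∈ range X, ∑ d ∈ (Ioc y (y + 1)).filter (fun d => d % 8 = c), f d (1 / (8 * ((y : ℝ) + 1))) := by
  rw [Finset.sum_filter]
  apply Finset.sum_nbij' (fun d => d - 1) (fun y => y + 1)
  · intro d hd
    rw [mem_Icc] at hd
    rw [mem_range]
    omega
  · intro y hy
    rw [mem_range] at hy
    rw [mem_Icc]
    omega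
  · intro d hd
    rw [mem_Icc] at hd
    omega
  · intro y _
    omega
  · intro d hd
    rw [mem_Icc] at hd
    obtain ⟨y, rfl⟩ : ∃ y, d = y + 1 := ⟨d - 1, by omega⟩
    rw [Nat.add_sub_cancel, Finset.sum_filter]
    have e1 : Ioc y (y + 1) = {y + 1} := by
      ext z
      rw [mem_Ioc, mem_singleton]
      omega
    rw [e1, Finset.sum_singleton]
    push_cast
    rfl

theorem t_CLB (nsb : S_NSB2) (tn0 : S_TN0) (ags : S_AGS) (j2b : S_J2B) : S_CLB := by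
  obtain ⟨C1, hC1, nsb⟩ := nsb
  obtain ⟨C2, hC2, ags⟩ := ags (1 / 8) (by norm_num) le_rfl
  obtain ⟨C3, hC3, j2b⟩ := j2b
  obtain ⟨C4, hC4, tn0⟩ := tn0
  refine ⟨C3 + 21 * (C1 * C2) + 36 * (C1 * C4), by positivity, ?_⟩
  intro a ha e he β hβ B hB hβB c hc8 hco X N hX3 hBX
  have hX : 1 ≤ X := by omega
  set x : ℝ := (X : ℝ) with hx
  have hx1 : 1 ≤ x := by rw [hx]; exact_mod_cast hX
  have hx0 : 0 < x := by linarith
  set l : ℝ := lg X with hl
  have hl1 : 1 ≤ l := lg_one_le hX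
  have hl0 : 0 < l := by linarith
  have hB1 : (1 : ℝ) ≤ B := by exact_mod_cast hB
  have hB0 : (0 : ℝ) < B := by linarith
  set A : ℕ := ⌈x ^ (1 / 4 : ℝ)⌉₊ with hA
  have hx4 : 1 ≤ x ^ (1 / 4 : ℝ) := Real.one_le_rpow hx1 (by norm_num)
  have hA1 : 1 ≤ A := by
    rw [hA]
    exact Nat.one_le_ceil_iff.2 (by linarith)
  have hAge : x ^ (1 / 4 : ℝ) ≤ (A : ℝ) := Nat.le_ceil _
  have hAle : (A : ℝ) ≤ 2 * x ^ (1 / 4 : ℝ) := by
    have := Nat.ceil_lt_add_one (by linarith : (0 : ℝ) ≤ x ^ (1 / 4 : ℝ))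
    rw [← hA] at this
    linarith
  have hA0 : (0 : ℝ) < A := by linarith
  have h78 : 0 ≤ x ^ (7 / 8 : ℝ) := Real.rpow_nonneg hx0.le _
  -- the logarithm of `X B²`
  have hlX : 0 ≤ Real.log x := Real.log_nonneg hx1
  have hX2 : 1 ≤ X * B ^ 2 := Nat.mul_pos (by omega) (pow_pos (by omega) 2)
  have hl2 : lg (X * B ^ 2) ≤ 3 * l := by
    rw [hl]
    unfold lg
    push_cast
    rw [Real.log_mul (by positivity) (by positivity), Real.log_pow]
    have : Real.log B ≤ Real.log x := by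
      apply Real.log_le_log hB0
      rw [hx]
      exact_mod_cast hBX
    push_cast
    linarith
  have hl20 : 0 < lg (X * B ^ 2) := by linarith [lg_one_le hX2]
  -- the core
  have core : ∀ θ : ℝ, ‖∑ d ∈ (Icc 1 X).filter (fun d => d % 8 = c ∧ Squarefree d),
        ee (θ * d) * (EBN e a β B N d (1 / (8 * (d : ℝ))) : ℂ)‖ ≤
      C3 * ((B : ℝ) ^ 4 * l ^ 2 * x ^ (7 / 8 : ℝ)) + C1 * (B : ℝ) ^ 2 * (3 * l) *
        ∑ q ∈ Icc 1 A, ∑ g ∈ Icc 1 (N * B), 1 / (g : ℝ) *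
          TN (X * B ^ 2) θ (Nat.lcm (q ^ 2) g) g (N * B) := by
    intro θ
    have hdec : ∑ d ∈ (Icc 1 X).filter (fun d => d % 8 = c ∧ Squarefree d),
        ee (θ * d) * (EBN e a β B N d (1 / (8 * (d : ℝ))) : ℂ) =
        ∑ d ∈ (Icc 1 X).filter (fun d => d % 8 = c), (RA A d : ℂ) *
          (ee (θ * d) * (EBN e a β B N d (1 / (8 * (d : ℝ))) : ℂ)) +
        ∑ d ∈ (Icc 1 X).filter (fun d => d % 8 = c),
        ((∑ q ∈ (Icc 1 A).filter (fun q => q ^ 2 ∣ d), ((ArithmeticFunction.moebius q : ℤ) : ℝ) : ℝ) : ℂ) *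
          (ee (θ * d) * (EBN e a β B N d (1 / (8 * (d : ℝ))) : ℂ)) := by
      rw [← Finset.sum_add_distrib, ← Finset.filter_filter, Finset.sum_filter]
      refine Finset.sum_congr rfl fun d _ => ?_
      rw [← add_mul, ← Complex.ofReal_add]
      have h1 : RA A d + ∑ a ∈ (Icc 1 A).filter (fun a => a ^ 2 ∣ d),
          ((ArithmeticFunction.moebius a : ℤ) : ℝ) = if Squarefree d then 1 else 0 := by
        unfold RA
        ring
      rw [h1]
      split_ifs <;> simp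
    rw [hdec]
    refine (norm_add_le _ _).trans (add_le_add ?_ ?_)
    · have h1 : ‖∑ d ∈ (Icc 1 X).filter (fun d => d % 8 = c), (RA A d : ℂ) *
          (ee (θ * d) * (EBN e a β B N d (1 / (8 * (d : ℝ))) : ℂ))‖ ≤
          ∑ d ∈ (Icc 1 X).filter (fun d => d % 8 = c),
            |RA A d| * |EBN e a β B N d (1 / (8 * (d : ℝ)))| := by
        refine (norm_sum_le _ _).trans (Finset.sum_le_sum fun d _ => ?_)
        rw [norm_mul, norm_mul, norm_ee, one_mul, Complex.norm_real, Complex.norm_real,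
          Real.norm_eq_abs, Real.norm_eq_abs]
      have h2 := shift_sum (fun d z => |RA A d| * |EBN e a β B N d z|) X c
      rw [h2] at h1
      refine h1.trans ((j2b a ha e he β hβ B hB hβB c hc8 hco A X 1 N hA1 hX3 le_rfl hX hBX).trans ?_)
      apply mul_le_mul_of_nonneg_left _ hC3.le
      push_cast
      have h3 : x ^ (1 / 8 : ℝ) ≤ Real.sqrt A := by
        rw [Real.sqrt_eq_rpow]
        calc x ^ (1 / 8 : ℝ) = (x ^ (1 / 4 : ℝ)) ^ (1 / 2 : ℝ) := by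
              rw [← Real.rpow_mul hx0.le]
              norm_num
          _ ≤ _ := Real.rpow_le_rpow (by positivity) hAge (by norm_num)
      have h4 : 0 < x ^ (1 / 8 : ℝ) := by positivity
      have h5 : Real.log x ^ 2 ≤ l ^ 2 := by
        apply pow_le_pow_left₀ hlX
        rw [hl]
        unfold lg
        linarith
      rw [div_le_iff₀ (by positivity)]
      calc (B : ℝ) ^ 4 * 1 * x * Real.log x ^ 2 ≤ (B : ℝ) ^ 4 * 1 * x * l ^ 2 := by gcongr
        _ = (B : ℝ) ^ 4 * l ^ 2 * (x ^ (7 / 8 : ℝ) * x ^ (1 / 8 : ℝ)) := by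
            rw [← Real.rpow_add hx0]
            norm_num
            ring
        _ ≤ (B : ℝ) ^ 4 * l ^ 2 * (x ^ (7 / 8 : ℝ) * Real.sqrt A) := by gcongr
        _ = _ := by ring
    · refine (nsb a ha e he β hβ B hB c hc8 hco X A N θ hX).trans ?_
      have h1 : 0 ≤ ∑ q ∈ Icc 1 A, ∑ g ∈ Icc 1 (N * B), 1 / (g : ℝ) *
          TN (X * B ^ 2) θ (Nat.lcm (q ^ 2) g) g (N * B) := by
        apply Finset.sum_nonneg
        intro q _
        apply Finset.sum_nonneg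
        intro g _
        apply mul_nonneg (by positivity)
        unfold TN
        apply Finset.sum_nonneg
        intro s _
        apply mul_nonneg (by positivity) (Psi_nonneg s (by positivity) _)
      apply mul_le_mul_of_nonneg_right _ h1
      have h2 : 0 ≤ ∑ b ∈ Icc 1 B, β b := Finset.sum_nonneg fun b _ => hβ b
      calc C1 * B * (∑ b ∈ Icc 1 B, β b) * lg (X * B ^ 2) ≤ C1 * B * B * (3 * l) := by gcongr
        _ = _ := by ring
  constructor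
  · intro θ b q happ
    have hq0 : (0 : ℝ) ≤ (q : ℝ) ^ (-(3 / 8) : ℝ) := Real.rpow_nonneg (Nat.cast_nonneg q) _
    have happ2 : App θ b q (X * B ^ 2) := by
      obtain ⟨a1, a2, a3, a4⟩ := happ
      refine ⟨a1, a2.trans ?_, a3, a4⟩
      calc 16 * X = 16 * X * 1 := by ring
        _ ≤ 16 * X * B ^ 2 := Nat.mul_le_mul_left _ (Nat.one_le_pow _ _ hB)
        _ = _ := by ring
    have hs := ags θ b q (X * B ^ 2) hX2 happ2 A (N * B) (N * B)
    have h1 : ∑ q' ∈ Icc 1 A, ∑ g ∈ Icc 1 (N * B), 1 / (g : ℝ) *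
          TN (X * B ^ 2) θ (Nat.lcm (q' ^ 2) g) g (N * B) ≤
        C2 * (x * (B : ℝ) ^ 2 * (q : ℝ) ^ (-(3 / 8) : ℝ) + 7 * l * (B : ℝ) ^ 2 * x ^ (7 / 8 : ℝ)) := by
      refine (Finset.sum_le_sum fun q' _ => Finset.sum_le_sum fun g _ =>
        mul_le_mul_of_nonneg_left (TN_le_TT _ _ _ _ _) (by positivity)).trans (hs.trans ?_)
      apply mul_le_mul_of_nonneg_left _ hC2.le
      have e1 : (1 / 8 - 1 / 2 : ℝ) = -(3 / 8) := by norm_num
      have e2 : ((X * B ^ 2 : ℕ) : ℝ) = x * (B : ℝ) ^ 2 := by push_cast; rfl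
      rw [e1, e2]
      have h2 : (x * (B : ℝ) ^ 2) ^ (7 / 8 : ℝ) ≤ (B : ℝ) ^ 2 * x ^ (7 / 8 : ℝ) := by
        rw [Real.mul_rpow hx0.le (by positivity), mul_comm]
        apply mul_le_mul_of_nonneg_right _ h78
        have hB21 : (1 : ℝ) ≤ (B : ℝ) ^ 2 := one_le_pow₀ hB1
        calc ((B : ℝ) ^ 2) ^ (7 / 8 : ℝ) ≤ ((B : ℝ) ^ 2) ^ (1 : ℝ) :=
              Real.rpow_le_rpow_of_exponent_le hB21 (by norm_num)
          _ = _ := Real.rpow_one _
      have h3 : (A : ℝ) * Real.sqrt (x * (B : ℝ) ^ 2) * lg (X * B ^ 2) ≤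
          6 * l * (B : ℝ) ^ 2 * x ^ (7 / 8 : ℝ) := by
        have h4 : Real.sqrt (x * (B : ℝ) ^ 2) = x ^ (1 / 2 : ℝ) * B := by
          rw [Real.sqrt_mul hx0.le, Real.sqrt_sq hB0.le, Real.sqrt_eq_rpow]
        have h5 : (A : ℝ) * x ^ (1 / 2 : ℝ) ≤ 2 * x ^ (7 / 8 : ℝ) := by
          calc (A : ℝ) * x ^ (1 / 2 : ℝ) ≤ 2 * x ^ (1 / 4 : ℝ) * x ^ (1 / 2 : ℝ) := by gcongr
            _ = 2 * x ^ (3 / 4 : ℝ) := by
                rw [mul_assoc, ← Real.rpow_add hx0]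
                norm_num
            _ ≤ 2 * x ^ (7 / 8 : ℝ) :=
                mul_le_mul_of_nonneg_left (Real.rpow_le_rpow_of_exponent_le hx1 (by norm_num)) (by norm_num)
        rw [h4]
        have h6 : (B : ℝ) ≤ (B : ℝ) ^ 2 := by nlinarith
        calc (A : ℝ) * (x ^ (1 / 2 : ℝ) * B) * lg (X * B ^ 2)
            = ((A : ℝ) * x ^ (1 / 2 : ℝ)) * B * lg (X * B ^ 2) := by ring
          _ ≤ (2 * x ^ (7 / 8 : ℝ)) * (B : ℝ) ^ 2 * (3 * l) := by gcongr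
          _ = _ := by ring
      have h4 : (B : ℝ) ^ 2 * x ^ (7 / 8 : ℝ) ≤ l * (B : ℝ) ^ 2 * x ^ (7 / 8 : ℝ) := by
        have : 0 ≤ (B : ℝ) ^ 2 * x ^ (7 / 8 : ℝ) := by positivity
        nlinarith
      linarith
    refine (core θ).trans ?_
    set R : ℝ := x * (q : ℝ) ^ (-(3 / 8) : ℝ) + x ^ (7 / 8 : ℝ) with hR
    have hR1 : x ^ (7 / 8 : ℝ) ≤ R := by
      have : 0 ≤ x * (q : ℝ) ^ (-(3 / 8) : ℝ) := by positivity
      linarith
    have hR0 : 0 ≤ R := h78.trans hR1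
    have hll : l ^ 2 ≤ l ^ 3 := pow_le_pow_right₀ hl1 (by norm_num)
    have t1 : C3 * ((B : ℝ) ^ 4 * l ^ 2 * x ^ (7 / 8 : ℝ)) ≤ C3 * ((B : ℝ) ^ 4 * l ^ 3 * R) := by
      gcongr
    have t2 : C1 * (B : ℝ) ^ 2 * (3 * l) * (C2 * (x * (B : ℝ) ^ 2 * (q : ℝ) ^ (-(3 / 8) : ℝ) +
        7 * l * (B : ℝ) ^ 2 * x ^ (7 / 8 : ℝ))) ≤ 21 * (C1 * C2) * ((B : ℝ) ^ 4 * l ^ 3 * R) := by
      have h2 : x * (B : ℝ) ^ 2 * (q : ℝ) ^ (-(3 / 8) : ℝ) + 7 * l * (B : ℝ) ^ 2 * x ^ (7 / 8 : ℝ) ≤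
          7 * l * (B : ℝ) ^ 2 * R := by
        rw [hR]
        have h3 : 0 ≤ x * (B : ℝ) ^ 2 * (q : ℝ) ^ (-(3 / 8) : ℝ) := by positivity
        have h4 : x * (B : ℝ) ^ 2 * (q : ℝ) ^ (-(3 / 8) : ℝ) ≤
            7 * l * (x * (B : ℝ) ^ 2 * (q : ℝ) ^ (-(3 / 8) : ℝ)) := by nlinarith
        linarith
      calc _ ≤ C1 * (B : ℝ) ^ 2 * (3 * l) * (C2 * (7 * l * (B : ℝ) ^ 2 * R)) := by gcongr
        _ = 21 * (C1 * C2) * ((B : ℝ) ^ 4 * l ^ 2 * R) := by ring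
        _ ≤ _ := by gcongr
    have t3 : 0 ≤ 36 * (C1 * C4) * ((B : ℝ) ^ 4 * l ^ 3 * R) := by positivity
    calc _ ≤ C3 * ((B : ℝ) ^ 4 * l ^ 2 * x ^ (7 / 8 : ℝ)) + C1 * (B : ℝ) ^ 2 * (3 * l) *
          (C2 * (x * (B : ℝ) ^ 2 * (q : ℝ) ^ (-(3 / 8) : ℝ) + 7 * l * (B : ℝ) ^ 2 * x ^ (7 / 8 : ℝ))) := by
          gcongr
      _ ≤ C3 * ((B : ℝ) ^ 4 * l ^ 3 * R) + 21 * (C1 * C2) * ((B : ℝ) ^ 4 * l ^ 3 * R) +
          36 * (C1 * C4) * ((B : ℝ) ^ 4 * l ^ 3 * R) := by linarith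
      _ = _ := by ring
  · have h0 : |∑ d ∈ (Icc 1 X).filter (fun d => d % 8 = c ∧ Squarefree d),
        EBN e a β B N d (1 / (8 * (d : ℝ)))| =
        ‖∑ d ∈ (Icc 1 X).filter (fun d => d % 8 = c ∧ Squarefree d),
          ee (0 * d) * (EBN e a β B N d (1 / (8 * (d : ℝ))) : ℂ)‖ := by
      rw [← Real.norm_eq_abs, ← Complex.norm_real]
      congr 1
      push_cast
      apply Finset.sum_congr rfl
      intro d _
      rw [zero_mul, Pool.Agent.H75.BR.ee_zero, one_mul]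
    rw [h0]
    refine (core 0).trans ?_
    have h1 : ∑ q' ∈ Icc 1 A, ∑ g ∈ Icc 1 (N * B), 1 / (g : ℝ) *
          TN (X * B ^ 2) 0 (Nat.lcm (q' ^ 2) g) g (N * B) ≤
        A * (C4 * (x ^ (1 / 2 : ℝ) * B * (3 * l)) * 2) := by
      have h2 : ∀ q' ∈ Icc 1 A, ∑ g ∈ Icc 1 (N * B), 1 / (g : ℝ) *
          TN (X * B ^ 2) 0 (Nat.lcm (q' ^ 2) g) g (N * B) ≤ C4 * (x ^ (1 / 2 : ℝ) * B * (3 * l)) * 2 := by
        intro q' _
        calc _ ≤ ∑ g ∈ Icc 1 (N * B), C4 * (x ^ (1 / 2 : ℝ) * B * (3 * l)) * (1 / (g : ℝ) ^ 2) := by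
              apply Finset.sum_le_sum
              intro g hg
              rw [mem_Icc] at hg
              have hg1 : (1 : ℝ) ≤ g := by exact_mod_cast hg.1
              have hg0 : (0 : ℝ) < g := by linarith
              have h3 := tn0 (X * B ^ 2) (Nat.lcm (q' ^ 2) g) g (N * B) hX2 hg.1
              have h4 : Real.sqrt ((X * B ^ 2 : ℕ) : ℝ) = x ^ (1 / 2 : ℝ) * B := by
                push_cast
                rw [Real.sqrt_mul hx0.le, Real.sqrt_sq hB0.le, Real.sqrt_eq_rpow]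
              rw [h4] at h3
              have h5 : 1 / (g : ℝ) ≤ 1 := by
                rw [div_le_one hg0]
                exact hg1
              have h6 : C4 * (x ^ (1 / 2 : ℝ) * B / (g : ℝ) ^ 2 * lg (X * B ^ 2)) ≤
                  C4 * (x ^ (1 / 2 : ℝ) * B / (g : ℝ) ^ 2 * (3 * l)) := by gcongr
              have h7 : 0 ≤ C4 * (x ^ (1 / 2 : ℝ) * B / (g : ℝ) ^ 2 * (3 * l)) := by positivity
              calc 1 / (g : ℝ) * TN (X * B ^ 2) 0 (Nat.lcm (q' ^ 2) g) g (N * B)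
                  ≤ 1 / (g : ℝ) * (C4 * (x ^ (1 / 2 : ℝ) * B / (g : ℝ) ^ 2 * (3 * l))) :=
                    mul_le_mul_of_nonneg_left (h3.trans h6) (by positivity)
                _ ≤ 1 * (C4 * (x ^ (1 / 2 : ℝ) * B / (g : ℝ) ^ 2 * (3 * l))) :=
                    mul_le_mul_of_nonneg_right h5 h7
                _ = _ := by ring
          _ = C4 * (x ^ (1 / 2 : ℝ) * B * (3 * l)) * ∑ g ∈ Icc 1 (N * B), 1 / (g : ℝ) ^ 2 := by
              rw [Finset.mul_sum]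
          _ ≤ _ := mul_le_mul_of_nonneg_left (sum_inv_sq _) (by positivity)
      refine (Finset.sum_le_sum h2).trans ?_
      rw [Finset.sum_const, Nat.card_Icc, nsmul_eq_mul]
      simp
    have hll : l ^ 2 ≤ l ^ 3 := pow_le_pow_right₀ hl1 (by norm_num)
    have t1 : C3 * ((B : ℝ) ^ 4 * l ^ 2 * x ^ (7 / 8 : ℝ)) ≤
        C3 * ((B : ℝ) ^ 4 * l ^ 3 * x ^ (7 / 8 : ℝ)) := by gcongr
    have t2 : C1 * (B : ℝ) ^ 2 * (3 * l) * (A * (C4 * (x ^ (1 / 2 : ℝ) * B * (3 * l)) * 2)) ≤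
        36 * (C1 * C4) * ((B : ℝ) ^ 4 * l ^ 3 * x ^ (7 / 8 : ℝ)) := by
      have h5 : (A : ℝ) * x ^ (1 / 2 : ℝ) ≤ 2 * x ^ (7 / 8 : ℝ) := by
        calc (A : ℝ) * x ^ (1 / 2 : ℝ) ≤ 2 * x ^ (1 / 4 : ℝ) * x ^ (1 / 2 : ℝ) := by gcongr
          _ = 2 * x ^ (3 / 4 : ℝ) := by
              rw [mul_assoc, ← Real.rpow_add hx0]
              norm_num
          _ ≤ 2 * x ^ (7 / 8 : ℝ) :=
              mul_le_mul_of_nonneg_left (Real.rpow_le_rpow_of_exponent_le hx1 (by norm_num)) (by norm_num)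
      have hB34 : (B : ℝ) ^ 3 ≤ (B : ℝ) ^ 4 := pow_le_pow_right₀ hB1 (by norm_num)
      calc C1 * (B : ℝ) ^ 2 * (3 * l) * (A * (C4 * (x ^ (1 / 2 : ℝ) * B * (3 * l)) * 2))
          = 18 * (C1 * C4) * ((B : ℝ) ^ 3 * l ^ 2 * (A * x ^ (1 / 2 : ℝ))) := by ring
        _ ≤ 18 * (C1 * C4) * ((B : ℝ) ^ 4 * l ^ 3 * (2 * x ^ (7 / 8 : ℝ))) := by gcongr
        _ = _ := by ring
    have t3 : 0 ≤ 21 * (C1 * C2) * ((B : ℝ) ^ 4 * l ^ 3 * x ^ (7 / 8 : ℝ)) := by positivity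
    calc _ ≤ C3 * ((B : ℝ) ^ 4 * l ^ 2 * x ^ (7 / 8 : ℝ)) + C1 * (B : ℝ) ^ 2 * (3 * l) *
          (A * (C4 * (x ^ (1 / 2 : ℝ) * B * (3 * l)) * 2)) := by gcongr
      _ ≤ C3 * ((B : ℝ) ^ 4 * l ^ 3 * x ^ (7 / 8 : ℝ)) + 21 * (C1 * C2) * ((B : ℝ) ^ 4 * l ^ 3 * x ^ (7 / 8 : ℝ)) +
          36 * (C1 * C4) * ((B : ℝ) ^ 4 * l ^ 3 * x ^ (7 / 8 : ℝ)) := by linarith
      _ = _ := by ring

end

end Pool.Agent.H28.BR2
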