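import Pool.Agent.H28.BR.LOWa

set_option autoImplicit false

/-!
Project BR2 (helper28), job LOW: lower bounds for the moments along Bohr sets
-/

namespace Pool.Agent.H28.BR2

open Finset Filter Topology MeasureTheory Pool.Agent.H306R2.RZ Pool.Agent.H306R2.RG
  Pool.Agent.Q122.FM Pool.Agent.Q122.MB Pool.Agent.H28.BR
open Pool.Agent.H75.BR (tnt cT tnt_cases tnt_nonneg tnt_supp)

noncomputable section

/-- Hölder's inequality with weights -/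
theorem holder_w (s : Finset ℕ) (w x y : ℕ → ℝ) (hw : ∀ i, 0 ≤ w i) (hx : ∀ i, 0 ≤ x i)
    (hy : ∀ i, 0 ≤ y i) (k : ℕ) (hk : 1 ≤ k) : (∑ i ∈ s, w i * (x i * y i ^ (k - 1))) ^ k ≤
      (∑ i ∈ s, w i * x i ^ k) * (∑ i ∈ s, w i * y i ^ k) ^ (k - 1) := by
  set r : ℕ → ℝ := fun i => (w i) ^ ((k : ℝ)⁻¹) with hr
  have hr0 : ∀ i, 0 ≤ r i := fun i => Real.rpow_nonneg (hw i) _
  have hrk : ∀ i, r i ^ k = w i := fun i => Real.rpow_inv_natCast_pow (hw i) (by omega)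
  have h := holder s (fun i => r i * x i) (fun i => r i * y i)
    (fun i => mul_nonneg (hr0 i) (hx i)) (fun i => mul_nonneg (hr0 i) (hy i)) k hk
  have e1 : ∀ i, r i * x i * (r i * y i) ^ (k - 1) = w i * (x i * y i ^ (k - 1)) := by
    intro i
    rw [← hrk i, mul_pow]
    obtain ⟨j, rfl⟩ : ∃ j, k = j + 1 := ⟨k - 1, by omega⟩
    rw [Nat.add_sub_cancel, pow_succ]
    ring
  have e2 : ∀ i, (r i * x i) ^ k = w i * x i ^ k := fun i => by rw [mul_pow, hrk]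
  have e3 : ∀ i, (r i * y i) ^ k = w i * y i ^ k := fun i => by rw [mul_pow, hrk]
  simp only [e1, e2, e3] at h
  exact h

/-- the moment with the weight -/
theorem low2 (k N0 Y : ℕ) (hk : 1 ≤ k) (ε : ℤ) (Δ x α γ A U : ℝ) (hΔ : 0 < Δ) (hΔ1 : Δ ≤ 1 / 2)
    (hA : 0 ≤ A) (hU : 0 < U)
    (h1 : A ≤ FW ε k N0 Y (fun d => tnt Δ (8 * α * d + γ)))
    (h2 : ∑ d ∈ (Icc 1 Y).filter (fun d => d % 8 = 1), tnt Δ (8 * α * d + γ) *
      DD (2 * ε) N0 d ^ (2 * k) ≤ U) :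
    A ^ k / U ^ (k - 1) ≤ ∑ d ∈ DS Y, tnt Δ (8 * α * d + γ) * |LLg (F8 ε) d (1 / 2)| ^ k := by
  set w : ℕ → ℝ := fun d => tnt Δ (8 * α * d + γ) with hw
  have hw0 : ∀ d, 0 ≤ w d := fun d => tnt_nonneg hΔ hΔ1 _
  have h3 : FW ε k N0 Y w ≤ ∑ d ∈ DS Y, w d * (|LLg (F8 ε) d (1 / 2)| *
      (DD (2 * ε) N0 d ^ 2) ^ (k - 1)) := by
    unfold FW
    apply sum_le_sum
    intro d _
    apply mul_le_mul_of_nonneg_left _ (hw0 d)
    rw [← pow_mul, show 2 * (k - 1) = 2 * k - 2 by omega]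
    apply mul_le_mul_of_nonneg_right (le_abs_self _)
    have : Even (2 * k - 2) := ⟨k - 1, by omega⟩
    exact this.pow_nonneg _
  have h4 := holder_w (DS Y) w (fun d => |LLg (F8 ε) d (1 / 2)|) (fun d => DD (2 * ε) N0 d ^ 2)
    hw0 (fun d => abs_nonneg _) (fun d => sq_nonneg _) k hk
  have h5 : ∑ d ∈ DS Y, w d * (DD (2 * ε) N0 d ^ 2) ^ k ≤ U := by
    refine le_trans ?_ h2
    have e1 : ∀ d ∈ DS Y, w d * (DD (2 * ε) N0 d ^ 2) ^ k = w d * DD (2 * ε) N0 d ^ (2 * k) :=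
      fun d _ => by rw [← pow_mul]
    rw [sum_congr rfl e1]
    apply sum_le_sum_of_subset_of_nonneg
    · intro d hd
      obtain ⟨_, _, h6, h7, h8⟩ := DS_mem hd
      rw [mem_filter, mem_Icc]
      exact ⟨⟨by omega, h7⟩, h8⟩
    · intro d _ _
      have : Even (2 * k) := ⟨k, by omega⟩
      exact mul_nonneg (hw0 d) (this.pow_nonneg _)
  have hnn : 0 ≤ ∑ d ∈ DS Y, w d * (DD (2 * ε) N0 d ^ 2) ^ k :=
    sum_nonneg fun d _ => mul_nonneg (hw0 d) (pow_nonneg (sq_nonneg _) _)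
  have hm0 : 0 ≤ ∑ d ∈ DS Y, w d * |LLg (F8 ε) d (1 / 2)| ^ k :=
    sum_nonneg fun d _ => mul_nonneg (hw0 d) (pow_nonneg (abs_nonneg _) _)
  rw [div_le_iff₀ (by positivity)]
  calc A ^ k ≤ (∑ d ∈ DS Y, w d * (|LLg (F8 ε) d (1 / 2)| *
      (DD (2 * ε) N0 d ^ 2) ^ (k - 1))) ^ k := pow_le_pow_left₀ hA (h1.trans h3) k
    _ ≤ (∑ d ∈ DS Y, w d * |LLg (F8 ε) d (1 / 2)| ^ k) *
        (∑ d ∈ DS Y, w d * (DD (2 * ε) N0 d ^ 2) ^ k) ^ (k - 1) := h4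
    _ ≤ _ := mul_le_mul_of_nonneg_left (pow_le_pow_left₀ hnn h5 _) hm0

open Classical in
/-- from the weights to the Bohr set -/
theorem low3 (fdd : S_FDD) {ε : ℤ} (hε : ε = 1 ∨ ε = -1) (k X : ℕ) (α γ v : ℝ) (hv : 0 < v)
    (hv1 : v ≤ 1) :
    ∑ d ∈ DS (X / 8), tnt (v / 2) (8 * α * d + (γ - v / 2)) * |LLg (F8 ε) d (1 / 2)| ^ k ≤
      v / 2 * ∑ n ∈ (Ioc 1 X).filter (fun n : ℕ => Int.fract (α * n + γ) < v), |Lf ε n| ^ k := by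
  have hΔ0 : 0 < v / 2 := by linarith
  have hΔ1 : v / 2 ≤ 1 / 2 := by linarith
  set S := (DS (X / 8)).filter (fun d : ℕ => Int.fract (8 * α * d + γ) < v) with hS
  have h1 : ∑ d ∈ DS (X / 8), tnt (v / 2) (8 * α * d + (γ - v / 2)) *
      |LLg (F8 ε) d (1 / 2)| ^ k ≤ ∑ d ∈ S, v / 2 * |LLg (F8 ε) d (1 / 2)| ^ k := by
    rw [hS, sum_filter]
    apply sum_le_sum
    intro d _
    have e1 : 8 * α * (d : ℝ) + (γ - v / 2) = (8 * α * d + γ) - v / 2 := by ring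
    by_cases hd : Int.fract (8 * α * d + γ) < v
    · rw [if_pos hd]
      exact mul_le_mul_of_nonneg_right (tnt_le' hΔ0 hΔ1 _) (by positivity)
    · rw [if_neg hd]
      have : tnt (v / 2) (8 * α * d + (γ - v / 2)) = 0 := by
        by_contra hne
        rw [e1] at hne
        exact hd (tnt_supp hv hv1 _ hne)
      rw [this, zero_mul]
  refine h1.trans ?_
  rw [← mul_sum]
  apply mul_le_mul_of_nonneg_left _ hΔ0.le
  have e2 : ∑ d ∈ S, |LLg (F8 ε) d (1 / 2)| ^ k = ∑ d ∈ S, |Lf ε (8 * d)| ^ k := by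
    apply sum_congr rfl
    intro d hd
    obtain ⟨hdo, hds, _, _, _⟩ := DS_mem (mem_filter.1 hd).1
    unfold Lf
    rw [if_pos (isFund8 hε hdo hds), LH_eq fdd hε hdo hds]
  rw [e2]
  have hinj : Set.InjOn (fun d : ℕ => 8 * d) (S : Set ℕ) := by
    intro a _ b _ hab
    simp only at hab
    omega
  rw [← sum_image (f := fun n : ℕ => |Lf ε n| ^ k) (g := fun d : ℕ => 8 * d) hinj]
  apply sum_le_sum_of_subset_of_nonneg
  · intro n hn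
    rw [mem_image] at hn
    obtain ⟨d, hd, rfl⟩ := hn
    rw [hS, mem_filter] at hd
    obtain ⟨hd1, hd2⟩ := hd
    obtain ⟨_, _, h3, h4, _⟩ := DS_mem hd1
    rw [mem_filter, mem_Ioc]
    refine ⟨⟨by omega, by omega⟩, ?_⟩
    have e3 : α * ((8 * d : ℕ) : ℝ) + γ = 8 * α * d + γ := by push_cast; ring
    rw [e3]
    exact hd2
  · intro n _ _
    positivity

theorem t_LOW (wns : S_WNS) (sqw : S_SQW) (upw : S_UPW) (spl : S_SPL) (ebl : S_EBL) (dp : S_DP)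
    (rep : S_REP) (fdd : S_FDD) : S_LOW := by
  intro k hk α c τ hα
  obtain ⟨ce, hce, ebl⟩ := ebl k hk
  obtain ⟨c0, hc0, sqw⟩ := sqw (k * (k + 1) / 2)
  obtain ⟨C0, hC0, upw⟩ := upw k hk
  obtain ⟨C1, δ1, hC1, hδ1, hδ1', wns⟩ := wns α c τ hα
  obtain ⟨C2, δ2, hC2, hδ2, hδ2', sqw⟩ := sqw α c τ hα
  obtain ⟨C3, δ3, D, hC3, hδ3, hδ3', upw⟩ := upw α c τ hα
  obtain ⟨gM, hgM, hg⟩ := gm_ex
  set K : ℕ := k * (k + 1) / 2 with hK
  have hk' : (1 : ℝ) ≤ k := by exact_mod_cast hk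
  have hk0 : (0 : ℝ) < k := by linarith
  set ε1 : ℝ := min (1 / 8) (min δ1 (δ3 / (D + 1))) with hε1
  have hε10 : 0 < ε1 := lt_min (by norm_num) (lt_min hδ1 (by positivity))
  have hε18 : ε1 ≤ 1 / 8 := min_le_left _ _
  have hε1δ1 : ε1 ≤ δ1 := (min_le_right _ _).trans (min_le_left _ _)
  have hε1δ3 : ε1 ≤ δ3 / (D + 1) := (min_le_right _ _).trans (min_le_right _ _)
  set δ : ℝ := min δ1 (min δ2 δ3) / 16 with hδdef
  have hδ0 : 0 < δ := by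
    have : 0 < min δ1 (min δ2 δ3) := lt_min hδ1 (lt_min hδ2 hδ3)
    positivity
  have hδa : 16 * δ ≤ δ1 := by
    have := min_le_left δ1 (min δ2 δ3)
    rw [hδdef]; linarith
  have hδb : 16 * δ ≤ δ2 := by
    have := (min_le_right δ1 (min δ2 δ3)).trans (min_le_left _ _)
    rw [hδdef]; linarith
  have hδc : 16 * δ ≤ δ3 := by
    have := (min_le_right δ1 (min δ2 δ3)).trans (min_le_right _ _)
    rw [hδdef]; linarith
  set η : ℝ := ε1 / (96 * k) / 4 with hη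
  have hη0 : 0 < η := by positivity
  set a : ℝ := ce * c0 / (2 * gM) * η ^ K with ha
  have ha0 : 0 < a := by positivity
  set u : ℝ := 2 * C0 * 2 ^ K with hu
  have hu0 : 0 < u := by positivity
  -- large `Y`
  have ev : ∀ᶠ Y : ℕ in atTop, PF k ε1 Y ⌊(Y : ℝ) ^ ε1⌋₊ ⌊(Y : ℝ) ^ (ε1 / (96 * k))⌋₊
      (Nat.sqrt ⌊(Y : ℝ) ^ (ε1 / (96 * k))⌋₊) ∧
      2 * C1 * (1024 * 8 / (ce * c0)) ≤ (Y : ℝ) ^ (δ1 / 4) ∧
      C2 * (2 * 1024 / c0) ≤ (Y : ℝ) ^ (δ2 / 4) ∧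
      C3 * (1024 / C0) ≤ (Y : ℝ) ^ (δ3 / 4) ∧
      1 / η ≤ Real.log Y ∧ 16 ≤ Y ∧ 4 * (1 + Real.log (Y : ℝ)) ^ 0 ≤ (Y : ℝ) ^ (1 / 2 : ℝ) := by
    have p1 := params k hk ε1 hε10 hε18
    have p2 := evlog (2 * C1 * (1024 * 8 / (ce * c0))) 0 (show (0 : ℝ) < δ1 / 4 by positivity)
    have p3 := evlog (C2 * (2 * 1024 / c0)) 0 (show (0 : ℝ) < δ2 / 4 by positivity)
    have p4 := evlog (C3 * (1024 / C0)) 0 (show (0 : ℝ) < δ3 / 4 by positivity)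
    have p5 := evT (1 / η)
    have p6 := evlog 4 0 (show (0 : ℝ) < 1 / 2 by norm_num)
    filter_upwards [p1, p2, p3, p4, p5, p6, eventually_ge_atTop 16] with Y q1 q2 q3 q4 q5 q6 q7
    rw [pow_zero, mul_one] at q2 q3 q4
    exact ⟨q1, q2, q3, q4, q5, q7, q6⟩
  obtain ⟨Y0, hY0⟩ := eventually_atTop.1 ev
  refine ⟨a ^ k / u ^ (k - 1) * (1 / 32 * (1 / 2) ^ K), δ, 8 * (max Y0 16 + 1), by positivity, hδ0, ?_⟩
  intro ε hε X hX v γ hv hv1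
  set Y : ℕ := X / 8 with hY
  have hYY0 : Y0 ≤ Y := by
    have : max Y0 16 + 1 ≤ Y := by
      rw [hY, Nat.le_div_iff_mul_le (by norm_num)]
      omega
    omega
  obtain ⟨pf, q2, q3, q4, q5, q7, q6⟩ := hY0 Y hYY0
  rw [pow_zero, mul_one] at q6
  set N0 : ℕ := ⌊(Y : ℝ) ^ (ε1 / (96 * k))⌋₊ with hN0
  set M : ℕ := Nat.sqrt N0 with hM
  have hY16 : (16 : ℝ) ≤ Y := by exact_mod_cast q7
  have hYp : (0 : ℝ) < Y := by linarith
  have hY1 : (1 : ℝ) ≤ Y := by linarith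
  have hM1 := pf.M1
  have hMN := pf.MN
  have hB1 := pf.B1
  have hN2 := pf.N2
  have hlM := pf.lM
  have hlN := pf.lN
  have hN01 : 1 ≤ N0 := le_trans (Nat.one_le_pow _ _ hM1) hMN
  have hN01' : (1 : ℝ) ≤ N0 := by exact_mod_cast hN01
  set T : ℝ := Real.log (Y : ℝ) with hT
  have hT0 : 1 ≤ T := one_le_log (by omega)
  -- `X` and `Y`
  have hXY : X ≤ 16 * Y := by omega
  have hXY' : (X : ℝ) ≤ 16 * Y := by exact_mod_cast hXY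
  have hYX : Y ≤ X := Nat.div_le_self _ _
  have hYX' : (Y : ℝ) ≤ X := by exact_mod_cast hYX
  have hX0 : (0 : ℝ) < X := by linarith
  have hX1 : (1 : ℝ) ≤ X := by linarith
  have hXT : Real.log X ≤ 2 * T := by
    have h1 : (X : ℝ) ≤ (Y : ℝ) ^ 2 := by nlinarith
    have h2 := Real.log_le_log hX0 h1
    rw [Real.log_pow] at h2
    push_cast at h2
    exact h2
  have hXT0 : 0 ≤ Real.log X := Real.log_nonneg hX1
  have hv0 : 0 < v := lt_of_lt_of_le (Real.rpow_pos_of_pos hX0 _) hv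
  set Δ : ℝ := v / 2 with hΔ
  have hΔ0 : 0 < Δ := by rw [hΔ]; linarith
  have hΔ1 : Δ ≤ 1 / 2 := by rw [hΔ]; linarith
  -- lower bound for `Δ`
  have hΔlo : (Y : ℝ) ^ (-(2 * δ)) ≤ 1024 * Δ ^ 2 := by
    have h1 : (Y : ℝ) ^ (-δ) ≤ 16 * (X : ℝ) ^ (-δ) := by
      have h2 : (X : ℝ) ^ (-δ) ≥ (16 * (Y : ℝ)) ^ (-δ) :=
        Real.rpow_le_rpow_of_nonpos hX0 hXY' (by linarith)
      have h3 : (16 * (Y : ℝ)) ^ (-δ) = (16 : ℝ) ^ (-δ) * (Y : ℝ) ^ (-δ) :=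
        Real.mul_rpow (by norm_num) hYp.le
      have h4 : (16 : ℝ) ^ (-(1 : ℝ)) ≤ (16 : ℝ) ^ (-δ) := by
        apply Real.rpow_le_rpow_of_exponent_le (by norm_num)
        linarith
      rw [Real.rpow_neg_one] at h4
      have h5 : 0 ≤ (Y : ℝ) ^ (-δ) := by positivity
      have h6 : (16 : ℝ)⁻¹ * (Y : ℝ) ^ (-δ) ≤ (16 : ℝ) ^ (-δ) * (Y : ℝ) ^ (-δ) :=
        mul_le_mul_of_nonneg_right h4 h5
      linarith
    have h2 : (Y : ℝ) ^ (-δ) ≤ 32 * Δ := by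
      rw [hΔ]; linarith
    have h3 : (Y : ℝ) ^ (-(2 * δ)) = ((Y : ℝ) ^ (-δ)) ^ 2 := by
      rw [← Real.rpow_natCast, ← Real.rpow_mul hYp.le]
      congr 1
      push_cast
      ring
    rw [h3]
    calc ((Y : ℝ) ^ (-δ)) ^ 2 ≤ (32 * Δ) ^ 2 := pow_le_pow_left₀ (by positivity) h2 2
      _ = _ := by ring
  -- the errors
  have herr : ∀ (P δ' : ℝ), 0 ≤ P → 0 < δ' → 16 * δ ≤ δ' → P ≤ (Y : ℝ) ^ (δ' / 4) →
      P * ((Y : ℝ) ^ (δ' / 2) * (Y : ℝ) ^ (1 - δ')) ≤ 1024 * Δ ^ 2 * Y := by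
    intro P δ' hP hδ' hδδ' hPle
    have h1 : P * ((Y : ℝ) ^ (δ' / 2) * (Y : ℝ) ^ (1 - δ')) ≤
        (Y : ℝ) ^ (δ' / 4) * ((Y : ℝ) ^ (δ' / 2) * (Y : ℝ) ^ (1 - δ')) :=
      mul_le_mul_of_nonneg_right hPle (by positivity)
    have h2 : (Y : ℝ) ^ (δ' / 4) * ((Y : ℝ) ^ (δ' / 2) * (Y : ℝ) ^ (1 - δ')) =
        (Y : ℝ) ^ (1 - δ' / 4) := by
      rw [← Real.rpow_add hYp, ← Real.rpow_add hYp]
      congr 1
      ring
    have h3 : (Y : ℝ) ^ (1 - δ' / 4) ≤ (Y : ℝ) ^ (-(2 * δ) + 1) := by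
      apply Real.rpow_le_rpow_of_exponent_le hY1
      linarith
    have h4 : (Y : ℝ) ^ (-(2 * δ) + 1) = (Y : ℝ) ^ (-(2 * δ)) * Y := by
      rw [Real.rpow_add hYp, Real.rpow_one]
    have h5 : (Y : ℝ) ^ (-(2 * δ)) * Y ≤ 1024 * Δ ^ 2 * Y := mul_le_mul_of_nonneg_right hΔlo hYp.le
    linarith
  set B : ℕ := N0 ^ (2 * k - 2) with hB
  have hB4 : (B : ℝ) ^ 4 ≤ (Y : ℝ) ^ (δ1 / 2) := by
    calc (B : ℝ) ^ 4 ≤ ((Y : ℝ) ^ (ε1 / 48)) ^ 4 := pow_le_pow_left₀ (by positivity) hB1 4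
      _ = (Y : ℝ) ^ (ε1 / 48 * 4) := by
          rw [← Real.rpow_natCast ((Y : ℝ) ^ (ε1 / 48)), ← Real.rpow_mul hYp.le]
          norm_num
      _ ≤ _ := Real.rpow_le_rpow_of_exponent_le hY1 (by linarith)
  have hND : (N0 : ℝ) ^ D ≤ (Y : ℝ) ^ (δ3 / 2) := by
    have h1 : (N0 : ℝ) ≤ (Y : ℝ) ^ (ε1 / (96 * k)) := Nat.floor_le (by positivity)
    calc (N0 : ℝ) ^ D ≤ ((Y : ℝ) ^ (ε1 / (96 * k))) ^ D := pow_le_pow_left₀ (by positivity) h1 D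
      _ = (Y : ℝ) ^ (ε1 / (96 * k) * D) := by
          rw [← Real.rpow_natCast ((Y : ℝ) ^ (ε1 / (96 * k))), ← Real.rpow_mul hYp.le]
      _ ≤ _ := by
          apply Real.rpow_le_rpow_of_exponent_le hY1
          have h2 : ε1 / (96 * k) ≤ ε1 / 2 := by
            apply div_le_div_of_nonneg_left hε10.le (by norm_num)
            linarith
          have h3 : ε1 * D ≤ δ3 := by
            calc ε1 * D ≤ ε1 * (D + 1) := by nlinarith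
              _ ≤ δ3 / (D + 1) * (D + 1) := mul_le_mul_of_nonneg_right hε1δ3 (by positivity)
              _ = δ3 := by field_simp
          have hD0 : (0 : ℝ) ≤ D := by positivity
          nlinarith [mul_le_mul_of_nonneg_right h2 hD0]
  have hr1 : 2 * C1 * (B : ℝ) ^ 4 * (Y : ℝ) ^ (1 - δ1) ≤ ce * c0 / 8 * (Δ ^ 2 * Y) := by
    have h1 := herr (2 * C1 * (1024 * 8 / (ce * c0))) δ1 (by positivity) hδ1 hδa q2
    have h2 : 2 * C1 * (B : ℝ) ^ 4 * (Y : ℝ) ^ (1 - δ1) ≤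
        2 * C1 * ((Y : ℝ) ^ (δ1 / 2) * (Y : ℝ) ^ (1 - δ1)) := by
      rw [mul_assoc]
      apply mul_le_mul_of_nonneg_left _ (by positivity)
      exact mul_le_mul_of_nonneg_right hB4 (by positivity)
    refine h2.trans ?_
    have h3 : 2 * C1 * (1024 * 8 / (ce * c0)) * ((Y : ℝ) ^ (δ1 / 2) * (Y : ℝ) ^ (1 - δ1)) *
        (ce * c0 / (8 * 1024)) = 2 * C1 * ((Y : ℝ) ^ (δ1 / 2) * (Y : ℝ) ^ (1 - δ1)) := by
      field_simp
    rw [← h3]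
    calc _ ≤ 1024 * Δ ^ 2 * Y * (ce * c0 / (8 * 1024)) := mul_le_mul_of_nonneg_right h1 (by positivity)
      _ = _ := by ring
  have hr2 : C2 * (Y : ℝ) ^ (1 - δ2) ≤ c0 / 2 * (Δ ^ 2 * Y) := by
    have h1 := herr (C2 * (2 * 1024 / c0)) δ2 (by positivity) hδ2 hδb q3
    have h0 : (1 : ℝ) ≤ (Y : ℝ) ^ (δ2 / 2) := Real.one_le_rpow hY1 (by positivity)
    have h2 : C2 * (Y : ℝ) ^ (1 - δ2) ≤ C2 * ((Y : ℝ) ^ (δ2 / 2) * (Y : ℝ) ^ (1 - δ2)) := by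
      apply mul_le_mul_of_nonneg_left _ hC2.le
      have : 0 ≤ (Y : ℝ) ^ (1 - δ2) := by positivity
      nlinarith
    refine h2.trans ?_
    have h3 : C2 * (2 * 1024 / c0) * ((Y : ℝ) ^ (δ2 / 2) * (Y : ℝ) ^ (1 - δ2)) *
        (c0 / (2 * 1024)) = C2 * ((Y : ℝ) ^ (δ2 / 2) * (Y : ℝ) ^ (1 - δ2)) := by
      field_simp
    rw [← h3]
    calc _ ≤ 1024 * Δ ^ 2 * Y * (c0 / (2 * 1024)) := mul_le_mul_of_nonneg_right h1 (by positivity)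
      _ = _ := by ring
  have hr3 : C3 * (N0 : ℝ) ^ D * (Y : ℝ) ^ (1 - δ3) ≤ C0 * (Δ ^ 2 * Y) := by
    have h1 := herr (C3 * (1024 / C0)) δ3 (by positivity) hδ3 hδc q4
    have h2 : C3 * (N0 : ℝ) ^ D * (Y : ℝ) ^ (1 - δ3) ≤
        C3 * ((Y : ℝ) ^ (δ3 / 2) * (Y : ℝ) ^ (1 - δ3)) := by
      rw [mul_assoc]
      apply mul_le_mul_of_nonneg_left _ hC3.le
      exact mul_le_mul_of_nonneg_right hND (by positivity)
    refine h2.trans ?_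
    have h3 : C3 * (1024 / C0) * ((Y : ℝ) ^ (δ3 / 2) * (Y : ℝ) ^ (1 - δ3)) *
        (C0 / 1024) = C3 * ((Y : ℝ) ^ (δ3 / 2) * (Y : ℝ) ^ (1 - δ3)) := by
      field_simp
    rw [← h3]
    calc _ ≤ 1024 * Δ ^ 2 * Y * (C0 / 1024) := mul_le_mul_of_nonneg_right h1 (by positivity)
      _ = _ := by ring
  -- the logarithms
  have hηT : 1 ≤ η * T := by
    rw [div_le_iff₀ hη0] at q5
    linarith
  have hlM' : η * T ≤ Real.log M := hlM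
  have hLK : (η * T) ^ K ≤ Real.log M ^ K := pow_le_pow_left₀ (by linarith) hlM' K
  have hLK1 : 1 ≤ Real.log M ^ K := one_le_pow₀ (by linarith)
  -- first moment
  have hBY : B ≤ Y / 2 := by
    have h1 : (B : ℝ) ≤ (Y : ℝ) ^ (1 / 2 : ℝ) :=
      hB1.trans (Real.rpow_le_rpow_of_exponent_le hY1 (by linarith))
    have h2 : (Y : ℝ) ^ (1 / 2 : ℝ) * (Y : ℝ) ^ (1 / 2 : ℝ) = Y := by
      rw [← Real.rpow_add hYp]
      norm_num
    have h3 : 4 * (Y : ℝ) ^ (1 / 2 : ℝ) ≤ Y := by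
      have : 0 ≤ (Y : ℝ) ^ (1 / 2 : ℝ) := by positivity
      nlinarith
    have h4 : 4 * (B : ℝ) ≤ Y := by linarith
    have h5 : 4 * B ≤ Y := by exact_mod_cast h4
    omega
  have hN0Y : N0 ^ 2 ≤ 4 * Y := by
    have h1 : (N0 : ℝ) ^ 2 ≤ (Y : ℝ) := by
      calc (N0 : ℝ) ^ 2 ≤ (Y : ℝ) ^ (1 / 2 : ℝ) := hN2
        _ ≤ (Y : ℝ) ^ (1 : ℝ) := Real.rpow_le_rpow_of_exponent_le hY1 (by norm_num)
        _ = Y := Real.rpow_one _
    have h2 : (N0 ^ 2 : ℕ) ≤ Y := by exact_mod_cast h1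
    omega
  obtain ⟨hg0, hg0M⟩ := hg ε hε
  set g0 := gm (1 / 2 + ((aS ε : ℕ) : ℝ)) with hg0def
  have hl1 := low1 spl dp rep k hk ce hce ebl α C1 δ1 hC1 hδ1' wns ε hε Y N0 M (by omega) hM1 hMN
    hBY hN0Y Δ (γ - Δ) hΔ0 hΔ1
  have hsq := sqw 1 (by norm_num) (by decide) Y (by omega) Δ (γ - Δ) hΔ0 hΔ1
  have hsq' : c0 / 2 * (Δ ^ 2 * Y) ≤ ∑ d ∈ DS Y, tnt Δ (8 * α * d + (γ - Δ)) *
      (∏ p ∈ d.primeFactors, (1 + ((K : ℕ) : ℝ) / p))⁻¹ := by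
    refine le_trans ?_ hsq
    linarith
  have hDY : 0 < Δ ^ 2 * (Y : ℝ) := by positivity
  have hA : a * (Δ ^ 2 * Y) * T ^ K ≤ FW ε k N0 Y (fun d => tnt Δ (8 * α * d + (γ - Δ))) := by
    have h1 : ce * Real.log M ^ K * (c0 / 2 * (Δ ^ 2 * Y)) ≤ ce * Real.log M ^ K *
        (∑ d ∈ DS Y, tnt Δ (8 * α * d + (γ - Δ)) *
          (∏ p ∈ d.primeFactors, (1 + ((K : ℕ) : ℝ) / p))⁻¹) :=
      mul_le_mul_of_nonneg_left hsq' (by positivity)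
    have h2 : 2 * C1 * (B : ℝ) ^ 4 * (Y : ℝ) ^ (1 - δ1) ≤
        Real.log M ^ K * (ce * c0 / 8 * (Δ ^ 2 * Y)) := by
      have : 0 ≤ ce * c0 / 8 * (Δ ^ 2 * Y) := by positivity
      nlinarith
    have h3 : Real.log M ^ K * (ce * c0 / 4 * (Δ ^ 2 * Y)) ≤
        g0 / 2 * FW ε k N0 Y (fun d => tnt Δ (8 * α * d + (γ - Δ))) := by
      have h4 : 0 ≤ Real.log M ^ K * (ce * c0 / 8 * (Δ ^ 2 * Y)) := by positivity
      nlinarith [hl1]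
    have h5 : (η * T) ^ K * (ce * c0 / 4 * (Δ ^ 2 * Y)) ≤
        g0 / 2 * FW ε k N0 Y (fun d => tnt Δ (8 * α * d + (γ - Δ))) :=
      (mul_le_mul_of_nonneg_right hLK (by positivity)).trans h3
    set F := FW ε k N0 Y (fun d => tnt Δ (8 * α * d + (γ - Δ))) with hF
    have h6 : 0 ≤ F := by
      have h7 : 0 ≤ (η * T) ^ K * (ce * c0 / 4 * (Δ ^ 2 * Y)) := by positivity
      have h8 : 0 ≤ g0 / 2 * F := h7.trans h5
      by_contra hneg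
      rw [not_le] at hneg
      have : g0 / 2 * F < 0 := mul_neg_of_pos_of_neg (by positivity) hneg
      linarith
    have h7 : g0 / 2 * F ≤ gM / 2 * F := mul_le_mul_of_nonneg_right (by linarith) h6
    have h8 : (η * T) ^ K * (ce * c0 / 4 * (Δ ^ 2 * Y)) ≤ gM / 2 * F := h5.trans h7
    rw [mul_pow] at h8
    have h9 : a * (Δ ^ 2 * Y) * T ^ K = 2 / gM *
        (η ^ K * T ^ K * (ce * c0 / 4 * (Δ ^ 2 * Y))) := by
      rw [ha]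
      field_simp
      ring
    rw [h9]
    calc 2 / gM * (η ^ K * T ^ K * (ce * c0 / 4 * (Δ ^ 2 * Y))) ≤ 2 / gM * (gM / 2 * F) :=
          mul_le_mul_of_nonneg_left h8 (by positivity)
      _ = F := by field_simp
  have hU : ∑ d ∈ (Icc 1 Y).filter (fun d => d % 8 = 1), tnt Δ (8 * α * d + (γ - Δ)) *
      DD (2 * ε) N0 d ^ (2 * k) ≤ u * (Δ ^ 2 * Y) * T ^ K := by
    have he' : 2 * ε = 1 ∨ 2 * ε = -1 ∨ 2 * ε = 2 ∨ 2 * ε = -2 := by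
      rcases hε with rfl | rfl <;> simp
    have h1 := upw (2 * ε) he' 1 (by norm_num) (by decide) Y N0 (by omega) hN01 Δ (γ - Δ) hΔ0 hΔ1
    refine h1.trans ?_
    have h2 : (1 + Real.log N0) ^ K ≤ (2 * T) ^ K := by
      apply pow_le_pow_left₀
      · have := Real.log_nonneg hN01'
        linarith
      · have : Real.log N0 ≤ T := hlN
        linarith
    have h3 : (1 : ℝ) ≤ (2 * T) ^ K := one_le_pow₀ (by linarith)
    have h4 : C0 * Δ ^ 2 * Y * (1 + Real.log N0) ^ K ≤ C0 * (Δ ^ 2 * Y) * (2 * T) ^ K := by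
      calc C0 * Δ ^ 2 * Y * (1 + Real.log N0) ^ K = C0 * (Δ ^ 2 * Y) * (1 + Real.log N0) ^ K := by ring
        _ ≤ _ := mul_le_mul_of_nonneg_left h2 (by positivity)
    have h5 : C0 * (Δ ^ 2 * Y) ≤ C0 * (Δ ^ 2 * Y) * (2 * T) ^ K :=
      le_mul_of_one_le_right (by positivity) h3
    calc _ ≤ C0 * (Δ ^ 2 * Y) * (2 * T) ^ K + C0 * (Δ ^ 2 * Y) * (2 * T) ^ K := by linarith
      _ = _ := by rw [hu, mul_pow]; ring
  have hTK : 0 < T ^ K := by positivity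
  have hl2 := low2 k N0 Y hk ε Δ 0 α (γ - Δ) (a * (Δ ^ 2 * Y) * T ^ K) (u * (Δ ^ 2 * Y) * T ^ K)
    hΔ0 hΔ1 (by positivity) (by positivity) hA hU
  have hl3 := low3 fdd hε k X α γ v hv0 hv1
  have e1 : (a * (Δ ^ 2 * Y) * T ^ K) ^ k / (u * (Δ ^ 2 * Y) * T ^ K) ^ (k - 1) =
      a ^ k / u ^ (k - 1) * ((Δ ^ 2 * Y) * T ^ K) := by
    obtain ⟨j, rfl⟩ : ∃ j, k = j + 1 := ⟨k - 1, by omega⟩
    rw [Nat.add_sub_cancel]
    have e2 : (a * (Δ ^ 2 * (Y : ℝ)) * T ^ K) ^ (j + 1) =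
        a ^ (j + 1) * ((Δ ^ 2 * (Y : ℝ)) * T ^ K) ^ j * ((Δ ^ 2 * (Y : ℝ)) * T ^ K) := by
      rw [mul_assoc a, mul_pow, pow_succ ((Δ ^ 2 * (Y : ℝ)) * T ^ K)]
      ring
    have e3 : (u * (Δ ^ 2 * (Y : ℝ)) * T ^ K) ^ j = u ^ j * ((Δ ^ 2 * (Y : ℝ)) * T ^ K) ^ j := by
      rw [mul_assoc u, mul_pow]
    rw [e2, e3]
    have h4 : ((Δ ^ 2 * (Y : ℝ)) * T ^ K) ^ j ≠ 0 := by positivity
    field_simp
  rw [e1] at hl2
  have hl4 : a ^ k / u ^ (k - 1) * ((Δ ^ 2 * Y) * T ^ K) ≤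
      Δ * ∑ n ∈ (Ioc 1 X).filter (fun n : ℕ => Int.fract (α * n + γ) < v), |Lf ε n| ^ k :=
    hl2.trans hl3
  have hl5 : a ^ k / u ^ (k - 1) * (Δ * Y * T ^ K) ≤
      ∑ n ∈ (Ioc 1 X).filter (fun n : ℕ => Int.fract (α * n + γ) < v), |Lf ε n| ^ k := by
    have h1 : Δ * (a ^ k / u ^ (k - 1) * (Δ * Y * T ^ K)) ≤
      Δ * ∑ n ∈ (Ioc 1 X).filter (fun n : ℕ => Int.fract (α * n + γ) < v), |Lf ε n| ^ k := by
      calc _ = a ^ k / u ^ (k - 1) * ((Δ ^ 2 * Y) * T ^ K) := by ring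
        _ ≤ _ := hl4
    exact le_of_mul_le_mul_left h1 hΔ0
  refine le_trans ?_ hl5
  have h1 : (1 / 2) ^ K * Real.log X ^ K ≤ T ^ K := by
    rw [← mul_pow]
    apply pow_le_pow_left₀ (by positivity)
    linarith
  have h2 : (1 / 32 : ℝ) * (v * X) ≤ Δ * Y := by
    rw [hΔ]
    have : v * X ≤ v * (16 * Y) := mul_le_mul_of_nonneg_left hXY' hv0.le
    linarith
  calc a ^ k / u ^ (k - 1) * (1 / 32 * (1 / 2) ^ K) * v * X * Real.log X ^ K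
      = a ^ k / u ^ (k - 1) * ((1 / 32 * (v * X)) * ((1 / 2) ^ K * Real.log X ^ K)) := by ring
    _ ≤ a ^ k / u ^ (k - 1) * (Δ * Y * T ^ K) := by
        apply mul_le_mul_of_nonneg_left _ (by positivity)
        exact mul_le_mul h2 h1 (by positivity) (by positivity)

end

end Pool.Agent.H28.BR2
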