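import Pool.Agent.H28.BR.PSI
import Pool.Agent.H91.BR.Upw
import Pool.Agent.H75.BR.Wns

set_option autoImplicit false

/-! Project BR2 (helper28), job PRG -/

namespace Pool.Agent.H28.BR2

open Finset Filter Topology MeasureTheory Pool.Agent.H306R2.RZ Pool.Agent.H306R2.RG
  Pool.Agent.Q122.FM Pool.Agent.Q122.MB Pool.Agent.H28.BR
open Pool.Agent.Helper112 (ee)
open Pool.Agent.H75.BR (tnt cT tnt_fourier cT_ee_summable ee_add ee_zero)
open Pool.Agent.H91.BR (TS norm_TS_neg norm_TS_le)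

noncomputable section

lemma weighted2 (S : Finset ℕ) (x γ Δ K σ : ℝ) (hσ : σ < 1)
    (hT : ∀ h : ℕ, 1 ≤ h → ‖TS S (fun _ => 1) (h * x)‖ ≤ K * (h : ℝ) ^ σ) :
    |∑ d ∈ S, (tnt Δ (x * d + γ) - Δ ^ 2)| ≤ K * ∑' h : ℤ, |(h : ℝ)| ^ (-(2 - σ) : ℝ) := by
  have hK : 0 ≤ K := by
    have := hT 1 le_rfl
    simp only [Nat.cast_one, Real.one_rpow, mul_one] at this
    exact (norm_nonneg _).trans this
  have e1 : HasSum (fun h : ℤ => (cT Δ h : ℂ) * (ee (h * γ) * TS S (fun _ => 1) (h * x)))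
      ((∑ d ∈ S, tnt Δ (x * d + γ) : ℝ) : ℂ) := by
    have e2 : ∀ d ∈ S, HasSum (fun h : ℤ => (cT Δ h : ℂ) * ee (h * (x * d + γ)))
        (tnt Δ (x * d + γ) : ℂ) := by
      intro d _
      rw [← tnt_fourier]
      exact (cT_ee_summable Δ (x * (d : ℝ) + γ)).hasSum
    have e3 := hasSum_sum e2
    rw [Complex.ofReal_sum]
    convert e3 using 1
    funext h
    unfold Pool.Agent.H91.BR.TS
    rw [mul_sum, mul_sum]
    refine sum_congr rfl fun d _ => ?_
    have e3 : ee (h * (x * d + γ)) = ee (h * γ) * ee (h * x * d) := by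
      rw [← ee_add]
      congr 1
      ring
    rw [e3]
    push_cast
    ring
  have e4 : HasSum (fun h : ℤ => if h = 0 then ((Δ ^ 2 * S.card : ℝ) : ℂ) else 0)
      ((Δ ^ 2 * S.card : ℝ) : ℂ) := hasSum_ite_eq (0 : ℤ) ((Δ ^ 2 * S.card : ℝ) : ℂ)
  have e5 := e1.sub e4
  have hsum : Summable fun h : ℤ => |(h : ℝ)| ^ (-(2 - σ) : ℝ) :=
    Real.summable_abs_int_rpow (by linarith)
  have hb : ∀ h : ℤ, ‖(cT Δ h : ℂ) * (ee (h * γ) * TS S (fun _ => 1) (h * x)) -
      (if h = 0 then ((Δ ^ 2 * S.card : ℝ) : ℂ) else 0)‖ ≤ K * |(h : ℝ)| ^ (-(2 - σ) : ℝ) := by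
    intro h
    by_cases h0 : h = 0
    · subst h0
      have e6 : cT Δ 0 = Δ ^ 2 := by
        unfold Pool.Agent.H75.BR.cT
        rw [if_pos rfl]
      have e7 : TS S (fun _ => 1) (((0 : ℤ) : ℝ) * x) = (S.card : ℂ) := by
        unfold Pool.Agent.H91.BR.TS
        simp [ee_zero]
      have e8 : (cT Δ 0 : ℂ) * (ee (((0 : ℤ) : ℝ) * γ) * TS S (fun _ => 1) (((0 : ℤ) : ℝ) * x)) -
          (if (0 : ℤ) = 0 then ((Δ ^ 2 * S.card : ℝ) : ℂ) else 0) = 0 := by
        rw [if_pos rfl, e6, e7, Int.cast_zero, zero_mul, ee_zero]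
        push_cast
        ring
      rw [e8, norm_zero]
      positivity
    · rw [if_neg h0, sub_zero, norm_mul, norm_mul, norm_ee, one_mul, Complex.norm_real,
        Real.norm_eq_abs]
      have hn : 1 ≤ h.natAbs := Int.natAbs_pos.2 h0
      have habs : |(h : ℝ)| = (h.natAbs : ℝ) := by
        rw [Nat.cast_natAbs, Int.cast_abs]
      have e6 : ‖TS S (fun _ => 1) (h * x)‖ = ‖TS S (fun _ => 1) (h.natAbs * x)‖ := by
        rcases Int.natAbs_eq h with e | e
        · have e7 : (h : ℝ) = (h.natAbs : ℝ) := by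
            have := congrArg (Int.cast : ℤ → ℝ) e
            rwa [Int.cast_natCast] at this
          rw [← e7]
        · have e7 : (h : ℝ) = -(h.natAbs : ℝ) := by
            have := congrArg (Int.cast : ℤ → ℝ) e
            rwa [Int.cast_neg, Int.cast_natCast] at this
          have e8 : (h : ℝ) * x = -((h.natAbs : ℝ) * x) := by rw [← neg_mul, ← e7]
          rw [e8, norm_TS_neg]
      rw [e6]
      have h8 := hT h.natAbs hn
      have hp : (0 : ℝ) < (h.natAbs : ℝ) := by exact_mod_cast hn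
      calc |cT Δ h| * ‖TS S (fun _ => 1) (h.natAbs * x)‖
          ≤ 1 / |(h : ℝ)| ^ 2 * (K * (h.natAbs : ℝ) ^ σ) :=
            mul_le_mul (Pool.Agent.H91.BR.cT_bound Δ h h0) h8 (norm_nonneg _) (by positivity)
        _ = K * |(h : ℝ)| ^ (-(2 - σ) : ℝ) := by
            rw [habs, show (-(2 - σ) : ℝ) = σ - (2 : ℕ) by push_cast; ring, Real.rpow_sub hp,
              Real.rpow_natCast]
            ring
  have h9 := tsum_of_norm_bounded (hsum.hasSum.mul_left K) hb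
  rw [e5.tsum_eq] at h9
  have e9 : ((∑ d ∈ S, tnt Δ (x * d + γ) : ℝ) : ℂ) - ((Δ ^ 2 * S.card : ℝ) : ℂ) =
      ((∑ d ∈ S, (tnt Δ (x * d + γ) - Δ ^ 2) : ℝ) : ℂ) := by
    rw [← Complex.ofReal_sub]
    congr 1
    rw [Finset.sum_sub_distrib, Finset.sum_const, nsmul_eq_mul]
    ring
  rw [e9, Complex.norm_real, Real.norm_eq_abs] at h9
  exact h9

theorem t_PRG (aps : S_APS) (psi : S_PSI) : S_PRG := by
  intro α c τ hN
  obtain ⟨hc, hτ, -⟩ := id hN
  have hτ1 : (1 : ℝ) ≤ τ := by exact_mod_cast hτ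
  have hτ0 : (0 : ℝ) < τ := by linarith
  set σ : ℝ := (τ : ℝ) / (τ + 1) with hσ
  have hσ1 : σ < 1 := by
    rw [hσ, div_lt_one (by positivity)]
    linarith
  have hσ0 : 0 < σ := by positivity
  set t : ℝ := 1 / ((τ : ℝ) + 1) with ht
  have ht0 : 0 < t := by positivity
  have htσ : t + σ = 1 := by
    rw [ht, hσ]
    field_simp
    ring
  have htτ : τ * t = σ := by
    rw [ht, hσ]
    ring
  set C2 : ℝ := 2 * 64 ^ τ / c with hC2
  have hC20 : 0 < C2 := by positivity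
  set Z : ℝ := ∑' h : ℤ, |(h : ℝ)| ^ (-(2 - σ) : ℝ) with hZ
  have hZ0 : 0 ≤ Z := tsum_nonneg fun _ => by positivity
  refine ⟨C2 ^ t * Z + 1, by positivity, ?_⟩
  intro c' hc' hodd m D0 X hm hX Δ γ hΔ hΔ1
  have hX1 : (1 : ℝ) ≤ X := by exact_mod_cast hX
  have hX0 : (0 : ℝ) < X := by linarith
  have hm1 : 1 ≤ m := hm.pos
  have hm1' : (1 : ℝ) ≤ m := by exact_mod_cast hm1
  have hm0 : (0 : ℝ) < m := by linarith
  set S : Finset ℕ := (Ioc D0 X).filter (fun d => m ∣ d ∧ d % 8 = c') with hS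
  have hcard : (S.card : ℝ) ≤ X := by
    have : S.card ≤ X := by
      refine (card_filter_le _ _).trans ?_
      rw [Nat.card_Ioc]
      omega
    exact_mod_cast this
  have hT : ∀ h : ℕ, 1 ≤ h → ‖TS S (fun _ => 1) (h * (8 * α))‖ ≤
      (C2 ^ t * (m : ℝ) ^ σ * (X : ℝ) ^ σ) * (h : ℝ) ^ σ := by
    intro h hh
    have hh1 : (1 : ℝ) ≤ h := by exact_mod_cast hh
    have hh0 : (0 : ℝ) < h := by linarith
    have h1 : ‖TS S (fun _ => 1) (h * (8 * α))‖ ≤ X := by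
      refine (norm_TS_le S _ (fun _ => zero_le_one) _).trans ?_
      simpa using hcard
    have h2 : ‖TS S (fun _ => 1) (h * (8 * α))‖ ≤ C2 * (m : ℝ) ^ τ * (h : ℝ) ^ τ := by
      have a1 := aps 1 odd_one squarefree_one 1 c' m D0 X (h * (8 * α)) hc' hodd hm
      have a2 := psi α c τ hN m h 1 ((X : ℝ) / (8 * m) + 1) hm1 hh le_rfl (by positivity)
      have e1 : TS S (fun _ => 1) (h * (8 * α)) = ∑ d ∈ S, (js (1 * (d : ℤ)) 1 : ℂ) *
          ee (h * (8 * α) * d) := by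
        unfold Pool.Agent.H91.BR.TS
        refine sum_congr rfl fun d _ => ?_
        have : js (1 * (d : ℤ)) 1 = 1 := by
          unfold js
          simp
        rw [this]
      rw [e1]
      refine a1.trans ?_
      simp only [Nat.cast_one, Real.sqrt_one, div_one, one_pow, mul_one, one_mul] at a2 ⊢
      calc 2 * Psi 1 ((X : ℝ) / (8 * m) + 1) (8 * m * (h * (8 * α)))
          ≤ 2 * ((64 * m * h : ℝ) ^ τ / c) := by gcongr
        _ = _ := by
            rw [hC2, mul_pow, mul_pow]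
            ring
    set u := ‖TS S (fun _ => 1) (h * (8 * α))‖ with hu
    have hu0 : 0 ≤ u := norm_nonneg _
    rcases hu0.eq_or_lt with h0 | hupos
    · rw [← h0]
      positivity
    calc u = u ^ t * u ^ σ := by
          rw [← Real.rpow_add hupos, htσ, Real.rpow_one]
      _ ≤ (C2 * (m : ℝ) ^ τ * (h : ℝ) ^ τ) ^ t * (X : ℝ) ^ σ := by
          apply mul_le_mul (Real.rpow_le_rpow hu0 h2 ht0.le) (Real.rpow_le_rpow hu0 h1 hσ0.le)
            (by positivity) (by positivity)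
      _ = _ := by
          rw [Real.mul_rpow (by positivity) (by positivity), Real.mul_rpow (by positivity) (by positivity),
            ← Real.rpow_natCast (m : ℝ) τ, ← Real.rpow_natCast (h : ℝ) τ, ← Real.rpow_mul hm0.le,
            ← Real.rpow_mul hh0.le, htτ]
          ring
  have h1 := weighted2 S (8 * α) γ Δ (C2 ^ t * (m : ℝ) ^ σ * (X : ℝ) ^ σ) σ hσ1 hT
  refine h1.trans ?_
  have h2 : (m : ℝ) ^ σ ≤ (m : ℝ) ^ τ := by
    rw [← Real.rpow_natCast (m : ℝ) τ]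
    apply Real.rpow_le_rpow_of_exponent_le hm1'
    linarith
  have h3 : 0 ≤ (m : ℝ) ^ τ * (X : ℝ) ^ σ := by positivity
  calc C2 ^ t * (m : ℝ) ^ σ * (X : ℝ) ^ σ * Z = C2 ^ t * Z * ((m : ℝ) ^ σ * (X : ℝ) ^ σ) := by ring
    _ ≤ C2 ^ t * Z * ((m : ℝ) ^ τ * (X : ℝ) ^ σ) := by gcongr
    _ ≤ (C2 ^ t * Z + 1) * ((m : ℝ) ^ τ * (X : ℝ) ^ σ) := by nlinarith
    _ = _ := by ring

end

end Pool.Agent.H28.BR2
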