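import Pool.Agent.H28.BR.Stm
import Pool.Agent.H75.BR.Pos
import Pool.Graph.R_pool_sql_team_seeded_3997aac3.Q122.MB.Stm

set_option autoImplicit false

/-!
# Project BR2 (helper28), MP_ea46f5_nt: lower bounds for all moments of `L(1/2, χ_D)` along Bohr sets

The library modules `Pool.Graph.R_pool_sql_team_seeded_3997aac3.Q122.FM.All` and
`Pool.Graph.R_pool_sql_team_seeded_3997aac3.Q122.MB.All` contain all the statements of `Q122.FM.Stm`, `Q122.MB.Stm`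
without hypotheses (`FM.ra`, `MB.kbi`, `MB.j2b`, `MB.dp`, `MB.upm`, `MB.ebl`, `MB.gd`, ...).
-/

namespace Pool.Agent.H28.BR2

open Finset Filter Topology MeasureTheory Pool.Agent.H306R2.RZ Pool.Agent.H306R2.RG
  Pool.Agent.Q122.FM Pool.Agent.Q122.MB Pool.Agent.H28.BR
open Pool.Agent.Helper112 (ee)
open Pool.Agent.H75.BR (tnt cT)

noncomputable section

/-- as `TT`, without `s = 1` -/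
def TN (X : ℕ) (θ : ℝ) (m g M : ℕ) : ℝ :=
  ∑ s ∈ Icc 2 M, 1 / (s : ℝ) * Real.exp (-((s : ℝ) ^ 2 * (g : ℝ) ^ 4 / (32 * X))) *
    Psi s ((X : ℝ) / (8 * m) + 1) (8 * m * θ)

/-- badly approximable in the sense of an exponent -/
def NL (α c : ℝ) (τ : ℕ) : Prop :=
  0 < c ∧ 1 ≤ τ ∧ ∀ h : ℕ, 1 ≤ h → c / (h : ℝ) ^ τ ≤ nd (h * α)

/-- NSB: the twisted non-squares. Proof as `t_NSW` (`H28/BR/NSW.lean`), with `S_KBI` for the kernel: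
`EBN e a β B N d (1/(8d)) = √B ∫_{w > 1/(8dB²)} w^{-3/4} NA e (fun n => if IsSquare n then 0 else KB a β B N w n) (NB) d`,
PTW with `K n = if IsSquare n then 0 else C (∑ β) kap (n² w)` (so that `s = 1` drops out), KIN with `z = 1/(8XB²)`,
VSM with `X B²`, `Psi` is increasing in `L`. -/
def S_NSB2 : Prop := ∃ C : ℝ, 0 < C ∧ ∀ a : ℕ, (a = 0 ∨ a = 1) →
  ∀ e : ℤ, (e = 1 ∨ e = -1 ∨ e = 2 ∨ e = -2) → ∀ β : ℕ → ℝ, (∀ b, 0 ≤ β b) →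
  ∀ B : ℕ, 1 ≤ B → ∀ c : ℕ, c < 8 → Odd c → ∀ (X A N : ℕ) (θ : ℝ), 1 ≤ X →
  ‖∑ d ∈ (Icc 1 X).filter (fun d => d % 8 = c),
      ((∑ q ∈ (Icc 1 A).filter (fun q => q ^ 2 ∣ d), ((ArithmeticFunction.moebius q : ℤ) : ℝ) : ℝ) : ℂ) *
        (ee (θ * d) * (EBN e a β B N d (1 / (8 * (d : ℝ))) : ℂ))‖ ≤
    C * B * (∑ b ∈ Icc 1 B, β b) * lg (X * B ^ 2) *
      ∑ q ∈ Icc 1 A, ∑ g ∈ Icc 1 (N * B), 1 / (g : ℝ) *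
        TN (X * B ^ 2) θ (Nat.lcm (q ^ 2) g) g (N * B)

/-- TN0: `gd L x ≤ 1/nd x`, so `Psi s L 0 ≤ 2 s (1 + log s)` for `s ≥ 2`; then `H50.BR.gsum`. -/
def S_TN0 : Prop := ∃ C : ℝ, 0 < C ∧ ∀ X m g M : ℕ, 1 ≤ X → 1 ≤ g →
  TN X 0 m g M ≤ C * (Real.sqrt X / (g : ℝ) ^ 2 * lg X)

/-- CLB: as `t_CLX` (`H28/BR/CLX.lean`): `1_{d squarefree} = RA A d + ∑_{q ≤ A, q² | d} μ(q)` with
`A = ⌈X^{1/4}⌉`; `S_J2B` with `h = 1`, `Y = X` for the first part (`≤ C B⁴ X log²X/√A`); for the second part NSB2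
and `TN ≤ TT`, `S_AGS` (`κ = 1/8`, with `X B²`), or TN0 for `θ = 0`. -/
def S_CLB : Prop := ∃ C : ℝ, 0 < C ∧ ∀ a : ℕ, (a = 0 ∨ a = 1) →
  ∀ e : ℤ, (e = 1 ∨ e = -1 ∨ e = 2 ∨ e = -2) → ∀ β : ℕ → ℝ, (∀ b, 0 ≤ β b) →
  ∀ B : ℕ, 1 ≤ B → ∑ b ∈ Icc 1 B, β b ≤ B →
  ∀ c : ℕ, c < 8 → Odd c → ∀ X N : ℕ, 3 ≤ X → B ≤ X →
  (∀ (θ : ℝ) (b : ℤ) (q : ℕ), App θ b q X →
    ‖∑ d ∈ (Icc 1 X).filter (fun d => d % 8 = c ∧ Squarefree d),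
        ee (θ * d) * (EBN e a β B N d (1 / (8 * (d : ℝ))) : ℂ)‖ ≤
      C * (B : ℝ) ^ 4 * lg X ^ 3 * ((X : ℝ) * (q : ℝ) ^ (-(3 / 8) : ℝ) + (X : ℝ) ^ (7 / 8 : ℝ))) ∧
  |∑ d ∈ (Icc 1 X).filter (fun d => d % 8 = c ∧ Squarefree d),
      EBN e a β B N d (1 / (8 * (d : ℝ)))| ≤ C * (B : ℝ) ^ 4 * lg X ^ 3 * (X : ℝ) ^ (7 / 8 : ℝ)

/-- WNS: the twisted non-squares with the weight: `H75.BR.tnt_fourier` for `x = 8 α d + γ`, CLB for `θ = h (8 α)`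
(Dirichlet approximation with `q ≤ √X`, then `H75.BR.q_lower` for the number `8 α`), `θ = 0` for `h = 0`;
negative `h` by conjugation. -/
def S_WNS : Prop := ∀ (α c : ℝ) (τ : ℕ), NL α c τ → ∃ C δ : ℝ, 0 < C ∧ 0 < δ ∧ δ ≤ 1 ∧
  ∀ a : ℕ, (a = 0 ∨ a = 1) →
  ∀ e : ℤ, (e = 1 ∨ e = -1 ∨ e = 2 ∨ e = -2) → ∀ β : ℕ → ℝ, (∀ b, 0 ≤ β b) →
  ∀ B : ℕ, 1 ≤ B → ∑ b ∈ Icc 1 B, β b ≤ B →
  ∀ c' : ℕ, c' < 8 → Odd c' → ∀ X N : ℕ, 3 ≤ X → B ≤ X → ∀ Δ γ : ℝ, 0 < Δ → Δ ≤ 1 / 2 →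
  |∑ d ∈ (Icc 1 X).filter (fun d => d % 8 = c' ∧ Squarefree d),
      tnt Δ (8 * α * d + γ) * EBN e a β B N d (1 / (8 * (d : ℝ)))| ≤
    C * (B : ℝ) ^ 4 * (X : ℝ) ^ (1 - δ)

/-- PSI: `gd L x ≤ 1/nd x` and `nd (s x) ≤ s nd x`, so `Psi s L β ≤ s²/nd (s β)`. -/
def S_PSI : Prop := ∀ (α c : ℝ) (τ : ℕ), NL α c τ → ∀ (m h s : ℕ) (L : ℝ), 1 ≤ m → 1 ≤ h → 1 ≤ s →
  0 ≤ L → Psi s L (8 * m * (h * (8 * α))) ≤ (s : ℝ) ^ 2 * (64 * m * h * s : ℝ) ^ τ / c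

/-- PRG: equidistribution in progressions: `tnt_fourier`; `h = 0` gives `Δ²`; `1 ≤ |h| ≤ H`: `S_APS` with `s = 1`
and PSI (negative `h` by conjugation), `|h| > H` trivially, `H = ⌈X^{1/(τ+1)}⌉`; `|cT Δ h| ≤ 1/h²`. -/
def S_PRG : Prop := ∀ (α c : ℝ) (τ : ℕ), NL α c τ → ∃ C : ℝ, 0 < C ∧
  ∀ c' : ℕ, c' < 8 → Odd c' → ∀ m D0 X : ℕ, Odd m → 1 ≤ X → ∀ Δ γ : ℝ, 0 < Δ → Δ ≤ 1 / 2 →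
  |∑ d ∈ (Ioc D0 X).filter (fun d => m ∣ d ∧ d % 8 = c'), (tnt Δ (8 * α * d + γ) - Δ ^ 2)| ≤
    C * (m : ℝ) ^ τ * (X : ℝ) ^ ((τ : ℝ) / (τ + 1))

/-- SQW: squarefree numbers with the weight. (i) `∑_{sqf} tnt ≥ c₁ Δ² X - C X^{1-δ}` (PRG with `m = q²`, `q ≤ A = X^η`,
`S_RA` for the tail; count of the squarefree numbers: remove the multiples of `p²`, `∑_{p ≥ 3} 1/p² < 1/4`...);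
(ii) `∑ tnt(d) ∑_{p | d} 1/p ≤ C₂ Δ² X + C X^{1-δ}` (PRG with `m = p ≤ P = X^η`, and `∑_{p | d, p > P} 1/p ≤ ω(d)/P`);
(iii) `∏ (1 + K/p)⁻¹ ≥ exp (-K ∑_{p|d} 1/p)` and Markov (or convexity). -/
def S_SQW : Prop := ∀ K : ℕ, ∃ c₀ : ℝ, 0 < c₀ ∧ ∀ (α c : ℝ) (τ : ℕ), NL α c τ →
  ∃ C δ : ℝ, 0 < C ∧ 0 < δ ∧ δ ≤ 1 ∧
  ∀ c' : ℕ, c' < 8 → Odd c' → ∀ X : ℕ, 1 ≤ X → ∀ Δ γ : ℝ, 0 < Δ → Δ ≤ 1 / 2 →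
  c₀ * Δ ^ 2 * X - C * (X : ℝ) ^ (1 - δ) ≤
    ∑ d ∈ (Ioc (X / 2) X).filter (fun d => d % 8 = c' ∧ Squarefree d),
      tnt Δ (8 * α * d + γ) * (∏ p ∈ d.primeFactors, (1 + (K : ℝ) / p))⁻¹

/-- UPW: upper bound for the moments of the resonator with the weight: `tnt_fourier`; `h = 0`: `S_UPM` with `y = 0`;
`1 ≤ |h| ≤ H`: `DD^{2k} = NA e (Gp N0 (2k)) (N0^{2k}) d` (`S_DP`), PTW with `a = 1`, `K = Gp N0 (2k)`, and PSI;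
`|h| > H`: `DD^{2k} ≤ N0^{2k}`; `H = ⌈X^{1/(τ+1)}⌉`. -/
def S_UPW : Prop := ∀ k : ℕ, 1 ≤ k → ∃ C₀ : ℝ, 0 < C₀ ∧ ∀ (α c : ℝ) (τ : ℕ), NL α c τ →
  ∃ (C δ : ℝ) (D : ℕ), 0 < C ∧ 0 < δ ∧ δ ≤ 1 ∧
  ∀ e : ℤ, (e = 1 ∨ e = -1 ∨ e = 2 ∨ e = -2) → ∀ c' : ℕ, c' < 8 → Odd c' →
  ∀ X N0 : ℕ, 1 ≤ X → 1 ≤ N0 → ∀ Δ γ : ℝ, 0 < Δ → Δ ≤ 1 / 2 →
  ∑ d ∈ (Icc 1 X).filter (fun d => d % 8 = c'), tnt Δ (8 * α * d + γ) * DD e N0 d ^ (2 * k) ≤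
    C₀ * Δ ^ 2 * X * (1 + Real.log N0) ^ (k * (k + 1) / 2) + C * (N0 : ℝ) ^ D * (X : ℝ) ^ (1 - δ)

/-- LOW: the theorem -/
def S_LOW : Prop := ∀ k : ℕ, 1 ≤ k → ∀ (α c : ℝ) (τ : ℕ), NL α c τ →
  ∃ (c₀ δ : ℝ) (X0 : ℕ), 0 < c₀ ∧ 0 < δ ∧ ∀ ε : ℤ, (ε = 1 ∨ ε = -1) → ∀ X : ℕ, X0 ≤ X →
  ∀ v γ : ℝ, (X : ℝ) ^ (-δ) ≤ v → v ≤ 1 →
  c₀ * v * X * Real.log X ^ (k * (k + 1) / 2) ≤
    ∑ n ∈ (Ioc 1 X).filter (fun n : ℕ => Int.fract (α * n + γ) < v), |Lf ε n| ^ k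

end

end Pool.Agent.H28.BR2
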