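import Pool.Graph.R_pool_sql_team_seeded_3997aac3.Q122.MB.All
import Pool.Agent.H28.BR.All
import Pool.Agent.H28.BR.CLB
import Pool.Agent.H28.BR.LOW
import Pool.Agent.H28.BR.PRG
import Pool.Agent.H68.BR.Nsb2
import Pool.Agent.H68.BR.Sqw
import Pool.Agent.H75.BR.Wns
import Pool.Agent.H91.BR.Upw

set_option autoImplicit false

/-! Project BR2: all the statements, without hypotheses -/

namespace Pool.Agent.H28.BR2

open Pool.Agent.Q122

theorem nsb2 : S_NSB2 := t_NSB2 MB.kbi Pool.Agent.H28.BR.kin Pool.Agent.H28.BR.vsm Pool.Agent.H28.BR.ptw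
theorem clb : S_CLB := t_CLB nsb2 t_TN0 Pool.Agent.H28.BR.ags MB.j2b
theorem wns : S_WNS := Pool.Agent.H75.BR.t_WNS clb
theorem prg : S_PRG := t_PRG Pool.Agent.H28.BR.aps t_PSI
theorem sqw : S_SQW := Pool.Agent.H28.BR2.t_SQW prg FM.ra
theorem upw : S_UPW := Pool.Agent.H91.BR.t_UPW Pool.Agent.H28.BR.ptw t_PSI MB.dp MB.upm
theorem low : S_LOW := t_LOW wns sqw upw MB.spl MB.ebl MB.dp FM.rep FM.fdd

end Pool.Agent.H28.BR2
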