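import Pool.Agent.H28.BR.CHS

set_option autoImplicit false

/-! Project BR: Farey fractions. -/

namespace Pool.Agent.H28.BR

open Finset Filter Topology MeasureTheory Pool.Agent.H306R2.RZ Pool.Agent.H306R2.RG
  Pool.Agent.Q122.FM
open Pool.Agent.Helper112 (ee)

noncomputable section

theorem gd_le_inv {L x n : ℝ} (hL : 0 ≤ L) (hn : 0 < n) (hx : n ≤ nd x) : gd L x ≤ 1 / n := by
  unfold gd
  have h0 : 0 < 1 + 2 * L * nd x := by
    have := nd_nonneg x
    positivity
  rw [div_le_div_iff₀ h0 hn]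
  nlinarith

theorem gd_anti {L x n : ℝ} (hL : 0 ≤ L) (hn : 0 ≤ n) (hx : n ≤ nd x) :
    gd L x ≤ 2 * L / (1 + 2 * L * n) := by
  unfold gd
  apply div_le_div_of_nonneg_left (by positivity) (by positivity)
  nlinarith

theorem t_GAP : S_GAP := by
  intro θ b q X happ m s L hm hs hms hL
  obtain ⟨hq, -, hbq, hθ⟩ := happ
  have hq0 : (0 : ℝ) < q := by exact_mod_cast hq
  have hs0 : (0 : ℝ) < s := by exact_mod_cast hs
  have hm0 : (0 : ℝ) < m := by exact_mod_cast hm
  have hmsR : 128 * (m : ℝ) * s ≤ q := by exact_mod_cast hms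
  unfold Psi
  rw [Finset.mul_sum]
  apply sum_le_sum
  intro b' _
  set x : ℝ := 8 * m * θ - (b' : ℝ) / s with hx
  -- lower bound for the distance
  have hnd : 1 / (2 * (q : ℝ) * s) ≤ nd x := by
    unfold nd
    set k : ℤ := round x with hk
    set Z : ℤ := 8 * m * b * s - b' * q - k * q * s with hZ
    have hZ0 : Z ≠ 0 := by
      intro h0
      have h1 : (q : ℤ) ∣ b * (8 * m * s) := ⟨b' + k * s, by linear_combination h0⟩
      have h2 : (q : ℤ) ∣ (8 * m * s : ℤ) := hbq.symm.dvd_of_dvd_mul_left h1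
      have h3 : q ∣ 8 * m * s := by exact_mod_cast h2
      have h4 : 0 < 8 * m * s := by positivity
      have h5 := Nat.le_of_dvd h4 h3
      have h6 : 128 * m * s = 16 * (8 * m * s) := by ring
      omega
    have hZ1 : (1 : ℝ) ≤ |(Z : ℝ)| := by exact_mod_cast Int.one_le_abs hZ0
    have e1 : x - k = 8 * m * (θ - (b : ℝ) / q) + (Z : ℝ) / (q * s) := by
      rw [hx, hZ]
      push_cast
      field_simp
      ring
    rw [e1]
    have h1 : 1 / ((q : ℝ) * s) ≤ |(Z : ℝ) / (q * s)| := by
      rw [abs_div, abs_of_pos (by positivity : (0 : ℝ) < q * s)]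
      exact div_le_div_of_nonneg_right hZ1 (by positivity)
    have h2 : |8 * m * (θ - (b : ℝ) / q)| ≤ 1 / (2 * (q : ℝ) * s) := by
      rw [abs_mul, abs_of_pos (by positivity : (0 : ℝ) < 8 * m)]
      calc 8 * (m : ℝ) * |θ - (b : ℝ) / q| ≤ 8 * m * (8 / (q : ℝ) ^ 2) := by gcongr
        _ = 64 * m / (q : ℝ) ^ 2 := by ring
        _ ≤ 1 / (2 * (q : ℝ) * s) := by
            rw [div_le_div_iff₀ (by positivity) (by positivity)]
            nlinarith
    have h3 := abs_sub_abs_le_abs_sub ((Z : ℝ) / (q * s)) (-(8 * m * (θ - (b : ℝ) / q)))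
    rw [abs_neg, sub_neg_eq_add, add_comm ((Z : ℝ) / (q * s))] at h3
    have h4 : 1 / ((q : ℝ) * s) = 2 * (1 / (2 * (q : ℝ) * s)) := by
      field_simp
    linarith
  have hn0 : 0 < 1 / (2 * (q : ℝ) * s) := by positivity
  have hndp : 0 < nd x := lt_of_lt_of_le hn0 hnd
  have h1 : gd L x ≤ 1 / nd x := gd_le_inv hL hndp le_rfl
  have h2 : 1 / nd x ≤ 2 * gd ((q : ℝ) * s) x := by
    unfold gd
    have h3 : 1 ≤ 2 * ((q : ℝ) * s) * nd x := by
      rw [div_le_iff₀ (by positivity)] at hnd
      linarith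
    rw [← mul_div_assoc, div_le_div_iff₀ hndp (by positivity)]
    nlinarith
  exact h1.trans h2

theorem nd_ge_fract (x : ℝ) : min (Int.fract x) (1 - Int.fract x) ≤ nd x := by
  unfold nd
  set t := Int.fract x with ht
  have ht0 : 0 ≤ t := Int.fract_nonneg x
  have ht1 : t < 1 := Int.fract_lt_one x
  set k : ℤ := round x - ⌊x⌋ with hk
  have e1 : x - round x = t - k := by
    rw [ht, hk]
    unfold Int.fract
    push_cast
    ring
  rw [e1]
  rcases le_or_gt k 0 with h | h
  · have hk0 : (k : ℝ) ≤ 0 := by exact_mod_cast h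
    refine (min_le_left _ _).trans ?_
    rw [abs_of_nonneg (by linarith)]
    linarith
  · have hk1 : (1 : ℝ) ≤ k := by exact_mod_cast h
    refine (min_le_right _ _).trans ?_
    rw [abs_of_nonpos (by linarith)]
    linarith

theorem sum_inv_le (n : ℕ) : ∑ k ∈ Icc 1 n, 1 / (k : ℝ) ≤ 1 + Real.log n := by
  have h := harmonic_le_one_add_log n
  rw [harmonic_eq_sum_Icc] at h
  push_cast at h
  simpa only [one_div] using h

theorem t_FAR : S_FAR := by
  refine ⟨4, by norm_num, ?_⟩
  intro S L β hS hL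
  set N : ℕ := S ^ 2 with hN
  have hSR : (1 : ℝ) ≤ S := by exact_mod_cast hS
  have hS0 : (0 : ℝ) < S := by linarith
  have hNR : (N : ℝ) = (S : ℝ) ^ 2 := by rw [hN]; push_cast; ring
  have hN0 : (0 : ℝ) < N := by rw [hNR]; positivity
  set I : Finset (Σ _ : ℕ, ℕ) := (Icc 1 S).sigma (fun s => (range s).filter (fun b => b.Coprime s))
    with hI
  set x : (Σ _ : ℕ, ℕ) → ℝ := fun i => β - (i.2 : ℝ) / i.1 with hx
  set κ : (Σ _ : ℕ, ℕ) → ℕ := fun i => ⌊(N : ℝ) * Int.fract (x i)⌋₊ with hκ
  set g : ℕ → ℝ := fun k => 2 * L / (1 + 2 * L * ((k : ℝ) / N)) with hg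
  have hg0 : ∀ k, 0 ≤ g k := fun k => by simp only [hg]; positivity
  have e1 : ∑ s ∈ Icc 1 S, Psi s L β = ∑ i ∈ I, gd L (x i) := by
    rw [hI, Finset.sum_sigma]
    rfl
  rw [e1]
  have hmem : ∀ i ∈ I, 1 ≤ i.1 ∧ i.1 ≤ S ∧ i.2 < i.1 ∧ i.2.Coprime i.1 := by
    intro i hi
    rw [hI, mem_sigma, mem_Icc, mem_filter, mem_range] at hi
    exact ⟨hi.1.1, hi.1.2, hi.2.1, hi.2.2⟩
  have hκN : ∀ i ∈ I, κ i < N := by
    intro i _
    simp only [hκ]
    rw [Nat.floor_lt (mul_nonneg hN0.le (Int.fract_nonneg _))]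
    have := Int.fract_lt_one (x i)
    nlinarith
  have hinj : Set.InjOn κ I := by
    rintro ⟨s, b⟩ hi ⟨s', b'⟩ hi' h
    obtain ⟨hs1, hsS, hbs, hco⟩ := hmem _ hi
    obtain ⟨hs1', hsS', hbs', hco'⟩ := hmem _ hi'
    simp only at hs1 hsS hbs hco hs1' hsS' hbs' hco'
    have hsR : (0 : ℝ) < s := by exact_mod_cast hs1
    have hsR' : (0 : ℝ) < s' := by exact_mod_cast hs1'
    simp only [hκ, hx] at h
    set t := Int.fract (β - (b : ℝ) / s) with ht
    set t' := Int.fract (β - (b' : ℝ) / s') with ht'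
    have ht0 : 0 ≤ t := Int.fract_nonneg _
    have ht0' : 0 ≤ t' := Int.fract_nonneg _
    have f1 := Nat.floor_le (mul_nonneg hN0.le ht0)
    have f2 := Nat.lt_floor_add_one ((N : ℝ) * t)
    have f1' := Nat.floor_le (mul_nonneg hN0.le ht0')
    have f2' := Nat.lt_floor_add_one ((N : ℝ) * t')
    rw [h] at f1 f2
    have hd : |(N : ℝ) * (t - t')| < 1 := by
      rw [abs_lt]
      constructor <;> nlinarith
    set k : ℤ := ⌊β - (b : ℝ) / s⌋ - ⌊β - (b' : ℝ) / s'⌋ with hk
    have e2 : t - t' = (b' : ℝ) / s' - (b : ℝ) / s - k := by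
      rw [ht, ht', hk]
      unfold Int.fract
      push_cast
      ring
    set Z : ℤ := b' * s - b * s' - k * (s * s') with hZ
    have e3 : (Z : ℝ) = (s * s') * (t - t') := by
      rw [e2, hZ]
      push_cast
      field_simp
    have hZ1 : |(Z : ℝ)| < 1 := by
      rw [e3, abs_mul, abs_of_pos (by positivity : (0 : ℝ) < s * s')]
      rw [abs_mul, abs_of_pos hN0] at hd
      refine lt_of_le_of_lt ?_ hd
      apply mul_le_mul_of_nonneg_right _ (abs_nonneg _)
      rw [hNR, sq]
      have h1 : (s : ℝ) ≤ S := by exact_mod_cast hsS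
      have h2 : (s' : ℝ) ≤ S := by exact_mod_cast hsS'
      exact mul_le_mul h1 h2 hsR'.le hS0.le
    have hZ0 : Z = 0 := by
      by_contra hne
      have : (1 : ℝ) ≤ |(Z : ℝ)| := by exact_mod_cast Int.one_le_abs hne
      linarith
    -- the integer `k` is zero
    have hk0 : k = 0 := by
      have h1 : (b' : ℤ) * s - b * s' = k * (s * s') := by rw [hZ] at hZ0; linarith
      have hb1 : (b : ℤ) < s := by exact_mod_cast hbs
      have hb1' : (b' : ℤ) < s' := by exact_mod_cast hbs'
      have hb0 : (0 : ℤ) ≤ b := Int.natCast_nonneg b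
      have hb0' : (0 : ℤ) ≤ b' := Int.natCast_nonneg b'
      have hsZ : (0 : ℤ) < s := by exact_mod_cast hs1
      have hsZ' : (0 : ℤ) < s' := by exact_mod_cast hs1'
      have hss : (0 : ℤ) < s * s' := by positivity
      have u1 : k * (s * s') < 1 * (s * s') := by
        rw [← h1, one_mul]
        have a1 : (b' : ℤ) * s < s' * s := mul_lt_mul_of_pos_right hb1' hsZ
        have a2 : 0 ≤ (b : ℤ) * s' := by positivity
        nlinarith
      have u2 : (-1) * ((s : ℤ) * s') < k * (s * s') := by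
        rw [← h1]
        have a1 : (b : ℤ) * s' < s * s' := mul_lt_mul_of_pos_right hb1 hsZ'
        have a2 : 0 ≤ (b' : ℤ) * s := by positivity
        nlinarith
      have u3 := lt_of_mul_lt_mul_right u1 hss.le
      have u4 := lt_of_mul_lt_mul_right u2 hss.le
      omega
    have h5 : b' * s = b * s' := by
      rw [hZ, hk0] at hZ0
      have : (b' : ℤ) * s = b * s' := by linarith
      exact_mod_cast this
    have hss' : s = s' := by
      apply Nat.dvd_antisymm
      · have h6 : s ∣ b * s' := ⟨b', by rw [← h5]; ring⟩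
        exact hco.symm.dvd_of_dvd_mul_left h6
      · have h6 : s' ∣ b' * s := ⟨b, by rw [h5]; ring⟩
        exact hco'.symm.dvd_of_dvd_mul_left h6
    subst hss'
    have hbb : b' = b := Nat.eq_of_mul_eq_mul_right hs1 h5
    rw [hbb]
  have hpt : ∀ i ∈ I, gd L (x i) ≤ g (κ i) + g (N - 1 - κ i) := by
    intro i hi
    have hnd := nd_ge_fract (x i)
    have hk := hκN i hi
    set t := Int.fract (x i) with ht
    have ht0 : 0 ≤ t := Int.fract_nonneg _
    have f1 : ((κ i : ℕ) : ℝ) ≤ N * t := Nat.floor_le (mul_nonneg hN0.le ht0)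
    have f2 : (N : ℝ) * t < (κ i : ℝ) + 1 := Nat.lt_floor_add_one ((N : ℝ) * t)
    rcases le_total t (1 - t) with h | h
    · rw [min_eq_left h] at hnd
      have h1 : ((κ i : ℕ) : ℝ) / N ≤ nd (x i) := by
        refine le_trans ?_ hnd
        rw [div_le_iff₀ hN0]
        linarith
      have h2 := gd_anti hL (by positivity) h1
      have h3 := hg0 (N - 1 - κ i)
      simp only [hg] at h3 ⊢
      linarith
    · rw [min_eq_right h] at hnd
      have h1 : ((N - 1 - κ i : ℕ) : ℝ) / N ≤ nd (x i) := by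
        refine le_trans ?_ hnd
        rw [div_le_iff₀ hN0, Nat.cast_sub (by omega), Nat.cast_sub (by omega)]
        push_cast
        linarith
      have h2 := gd_anti hL (by positivity) h1
      have h3 := hg0 (κ i)
      simp only [hg] at h3 ⊢
      linarith
  have hsum : ∑ i ∈ I, gd L (x i) ≤ ∑ k ∈ range N, (g k + g (N - 1 - k)) := by
    refine (sum_le_sum hpt).trans ?_
    rw [← Finset.sum_image (f := fun k => g k + g (N - 1 - k)) hinj]
    apply Finset.sum_le_sum_of_subset_of_nonneg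
    · intro k hk
      rw [mem_image] at hk
      obtain ⟨i, hi, rfl⟩ := hk
      exact mem_range.2 (hκN i hi)
    · intro k _ _
      exact add_nonneg (hg0 _) (hg0 _)
  refine hsum.trans ?_
  rw [sum_add_distrib, Finset.sum_range_reflect g N]
  -- the sum of `g`
  have hgs : ∑ k ∈ range N, g k ≤ 2 * L + (S : ℝ) ^ 2 * (1 + 2 * Real.log S) := by
    have hN1 : 1 ≤ N := by
      rw [hN]
      exact Nat.one_le_pow _ _ hS
    have h1 : range N = insert 0 (Icc 1 (N - 1)) := by
      ext k
      simp only [mem_range, mem_insert, mem_Icc]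
      omega
    rw [h1, sum_insert (by simp)]
    have h2 : g 0 = 2 * L := by simp [hg]
    have h3 : ∑ k ∈ Icc 1 (N - 1), g k ≤ (N : ℝ) * (1 + Real.log N) := by
      have h4 : ∀ k ∈ Icc 1 (N - 1), g k ≤ (N : ℝ) * (1 / (k : ℝ)) := by
        intro k hk
        rw [mem_Icc] at hk
        have hk0 : (0 : ℝ) < k := by exact_mod_cast hk.1
        simp only [hg]
        rw [mul_one_div, div_le_div_iff₀ (by positivity) hk0]
        have : (N : ℝ) * (1 + 2 * L * ((k : ℝ) / N)) = N + 2 * L * k := by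
          field_simp
        rw [this]
        linarith
      refine (sum_le_sum h4).trans ?_
      rw [← Finset.mul_sum]
      apply mul_le_mul_of_nonneg_left _ hN0.le
      refine (sum_inv_le _).trans ?_
      have h5 : Real.log ((N - 1 : ℕ) : ℝ) ≤ Real.log N := by
        rcases Nat.eq_zero_or_pos (N - 1) with h | h
        · rw [h]
          simp only [Nat.cast_zero, Real.log_zero]
          exact Real.log_nonneg (by exact_mod_cast hN1)
        · apply Real.log_le_log (by exact_mod_cast h)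
          exact_mod_cast Nat.sub_le N 1
      linarith
    rw [h2]
    have h6 : Real.log N = 2 * Real.log S := by
      rw [hNR, Real.log_pow]
      norm_num
    rw [h6, hNR] at h3
    linarith
  have hlS : 0 ≤ Real.log S := Real.log_nonneg hSR
  nlinarith

end

end Pool.Agent.H28.BR
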