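import Pool.Agent.H28.BR.NSW
import Pool.Graph.R_pool_sql_team_seeded_3997aac3.Q176.FM.BLK

set_option autoImplicit false

/-! Project BR: character sums. -/

namespace Pool.Agent.H28.BR

open Finset Filter Topology MeasureTheory Pool.Agent.H306R2.RZ Pool.Agent.H306R2.RG
  Pool.Agent.Q122.FM Pool.Agent.Q176.FM
open Pool.Agent.Helper112 (ee lsD ls_ee_add ls_ee_int ls_norm_ee ls_conj_ee lsD_fract
  lsD_bound_sin ls_ee_zero)

noncomputable section

theorem nd_le (x : ℝ) (z : ℤ) : nd x ≤ |x - z| := round_le x z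

theorem nd_add_int (x : ℝ) (n : ℤ) : nd (x + n) = nd x := by
  unfold nd
  rw [round_add_intCast]
  congr 1
  push_cast
  ring

theorem nd_neg (x : ℝ) : nd (-x) = nd x := by
  have h : ∀ y : ℝ, nd (-y) ≤ nd y := by
    intro y
    have h1 := nd_le (-y) (-(round y))
    have h2 : |-y - ((-(round y) : ℤ) : ℝ)| = nd y := by
      unfold nd
      rw [← abs_neg]
      congr 1
      push_cast
      ring
    rw [h2] at h1
    exact h1
  apply le_antisymm (h x)
  have := h (-x)
  rwa [neg_neg] at this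

theorem gd_add_int (L x : ℝ) (n : ℤ) : gd L (x + n) = gd L x := by
  unfold gd
  rw [nd_add_int]

theorem gd_mono {L L' : ℝ} (hL : 0 ≤ L) (hLL : L ≤ L') (x : ℝ) : gd L x ≤ gd L' x := by
  unfold gd
  have hn := nd_nonneg x
  have h1 : 0 < 1 + 2 * L * nd x := by positivity
  have h2 : 0 < 1 + 2 * L' * nd x := by
    have : 0 ≤ L' := hL.trans hLL
    positivity
  rw [div_le_div_iff₀ h1 h2]
  nlinarith

theorem lsD_nd (M : ℕ) (x : ℝ) : ‖lsD M x‖ * (2 * nd x) ≤ 1 := by
  set t := Int.fract x with ht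
  have ht0 : 0 ≤ t := Int.fract_nonneg x
  have ht1 : t < 1 := Int.fract_lt_one x
  have hx : x = t + ⌊x⌋ := by rw [ht, Int.fract_add_floor]
  have hnt : nd x ≤ t := by
    have h := nd_le x ⌊x⌋
    have h2 : x - ⌊x⌋ = t := rfl
    rw [h2, abs_of_nonneg ht0] at h
    exact h
  have hn1 : nd x ≤ 1 - t := by
    have h := nd_le x (⌊x⌋ + 1)
    have h2 : x - ((⌊x⌋ + 1 : ℤ) : ℝ) = -(1 - t) := by
      push_cast
      rw [ht]
      unfold Int.fract
      ring
    rw [h2, abs_neg, abs_of_nonneg (by linarith)] at h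
    exact h
  rcases ht0.eq_or_lt with h0 | h0
  · have : nd x = 0 := le_antisymm (by linarith) (nd_nonneg x)
    rw [this]
    norm_num
  · rw [← lsD_fract M x, ← ht]
    have hb := lsD_bound_sin M t h0 ht1
    have hs : 2 * nd x ≤ Real.sin (Real.pi * t) := by
      have hpos : 0 < Real.pi := Real.pi_pos
      rcases le_total t (1 / 2) with h | h
      · have hs : 2 * t ≤ Real.sin (Real.pi * t) := by
          have := Real.mul_le_sin (x := Real.pi * t) (by positivity) (by nlinarith)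
          have e : 2 / Real.pi * (Real.pi * t) = 2 * t := by field_simp
          linarith
        linarith
      · have hs : 2 * (1 - t) ≤ Real.sin (Real.pi * t) := by
          have := Real.mul_le_sin (x := Real.pi * (1 - t))
            (mul_nonneg hpos.le (by linarith)) (by nlinarith)
          have e : 2 / Real.pi * (Real.pi * (1 - t)) = 2 * (1 - t) := by field_simp
          have e2 : Real.sin (Real.pi * (1 - t)) = Real.sin (Real.pi * t) := by
            rw [show Real.pi * (1 - t) = Real.pi - Real.pi * t by ring, Real.sin_pi_sub]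
          linarith
        linarith
    exact (mul_le_mul_of_nonneg_left hs (norm_nonneg _)).trans hb

theorem lsD_le (M : ℕ) (x : ℝ) : ‖lsD M x‖ ≤ M := by
  unfold lsD
  refine (norm_sum_le _ _).trans ?_
  simp [ls_norm_ee]

theorem lsD_gd (M : ℕ) (x : ℝ) : ‖lsD M x‖ ≤ gd M x := by
  unfold gd
  have hn := nd_nonneg x
  have hM : (0 : ℝ) ≤ M := Nat.cast_nonneg M
  have h1 : 0 < 1 + 2 * (M : ℝ) * nd x := by positivity
  rw [le_div_iff₀ h1]
  have h2 := lsD_nd M x
  have h3 := lsD_le M x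
  have h4 : ‖lsD M x‖ * (2 * nd x) * M ≤ 1 * M := mul_le_mul_of_nonneg_right h2 hM
  nlinarith

theorem sumIoc (x : ℝ) (u : ℤ) (m : ℕ) :
    ∑ j ∈ Ioc u (u + m), ee (x * j) = ee (x * (u + 1)) * lsD m x := by
  rw [sum_Ioc_int]
  unfold lsD
  rw [Finset.mul_sum]
  apply sum_congr rfl
  intro i _
  rw [← ls_ee_add]
  congr 1
  push_cast
  ring

theorem Psi_eq (s : ℕ) (L β : ℝ) : Psi s L β = ∑ b ∈ Rs s, gd L (β - (b : ℝ) / s) := rfl

theorem js_abs (k : ℤ) (s : ℕ) : |js k s| ≤ 1 := by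
  unfold js
  have g5 := jacobiSym.trichotomy k s
  rcases g5 with g | g | g <;> rw [g] <;> norm_num

theorem sum_eightR {s e : ℕ} (hs : 3 ≤ s) (he : 8 * e % s = 1) (G : ℕ → ℝ) :
    ∑ r ∈ Rs s, G (8 * r % s) = ∑ r ∈ Rs s, G r := by
  have h := sum_eight hs he (fun r => ((G r : ℝ) : ℂ))
  exact_mod_cast h

theorem jrange (P Q c' : ℕ) (hc : c' < 8) (M : ℕ) (hM : ((Q : ℤ) - c') / 8 - ((P : ℤ) - c') / 8 = M) :
    (8 * M : ℤ) ≤ (Q : ℤ) + 8 := by omega

theorem eight_div {s : ℕ} (hs0 : (s : ℝ) ≠ 0) (r : ℕ) : ∃ k : ℤ,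
    8 * (r : ℝ) / s = ((8 * r % s : ℕ) : ℝ) / s + (k : ℝ) := by
  obtain ⟨k, hk⟩ : ∃ k : ℕ, 8 * r = s * k + 8 * r % s := ⟨8 * r / s, (Nat.div_add_mod _ _).symm⟩
  refine ⟨k, ?_⟩
  generalize 8 * r % s = t at *
  have h3 : (8 * (r : ℝ)) = (s : ℝ) * k + (t : ℝ) := by exact_mod_cast hk
  rw [h3]
  push_cast
  field_simp
  ring

/-- the sum over `8 r` -/
theorem Psi_eight {s : ℕ} (hs : Odd s) (hs3 : 3 ≤ s) (L β : ℝ) :
    ∑ r ∈ Rs s, gd L (β - 8 * (r : ℝ) / s) = Psi s L β := by
  obtain ⟨e, he⟩ := exists_inv8 hs hs3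
  rw [Psi_eq, ← sum_eightR hs3 he (fun b => gd L (β - (b : ℝ) / s))]
  apply sum_congr rfl
  intro r _
  have hs0 : (s : ℝ) ≠ 0 := by
    have : (0 : ℝ) < s := by exact_mod_cast (by omega : 0 < s)
    exact this.ne'
  obtain ⟨k, hk⟩ := eight_div hs0 r
  have h4 : β - 8 * (r : ℝ) / s = β - ((8 * r % s : ℕ) : ℝ) / s + ((-k : ℤ) : ℝ) := by
    rw [hk, Int.cast_neg]
    ring
  rw [h4, gd_add_int]

theorem Psi_neg {s : ℕ} (hs3 : 3 ≤ s) (L β : ℝ) :
    ∑ b ∈ Rs s, gd L (β + (b : ℝ) / s) = Psi s L β := by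
  rw [Psi_eq]
  have hs0 : (0 : ℝ) < s := by exact_mod_cast (by omega : 0 < s)
  refine Finset.sum_nbij' (fun b => s - b) (fun b => s - b) ?_ ?_ ?_ ?_ ?_
  · intro b hb
    unfold Rs at hb ⊢
    rw [Finset.mem_filter, Finset.mem_range] at hb ⊢
    have hb0 : b ≠ 0 := by
      rintro rfl
      have := hb.2
      rw [Nat.coprime_zero_left] at this
      omega
    refine ⟨by omega, ?_⟩
    exact (Nat.coprime_self_sub_left hb.1.le).2 hb.2
  · intro b hb
    unfold Rs at hb ⊢
    rw [Finset.mem_filter, Finset.mem_range] at hb ⊢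
    have hb0 : b ≠ 0 := by
      rintro rfl
      have := hb.2
      rw [Nat.coprime_zero_left] at this
      omega
    refine ⟨by omega, ?_⟩
    exact (Nat.coprime_self_sub_left hb.1.le).2 hb.2
  · intro b hb
    unfold Rs at hb
    rw [Finset.mem_filter, Finset.mem_range] at hb
    omega
  · intro b hb
    unfold Rs at hb
    rw [Finset.mem_filter, Finset.mem_range] at hb
    omega
  · intro b hb
    unfold Rs at hb
    rw [Finset.mem_filter, Finset.mem_range] at hb
    have h1 : β + (b : ℝ) / s = β - ((s - b : ℕ) : ℝ) / s + ((1 : ℤ) : ℝ) := by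
      rw [Nat.cast_sub hb.1.le]
      push_cast
      field_simp
      ring
    rw [h1, gd_add_int]

theorem t_CHS : S_CHS := by
  intro s hs hsq c u m L β hmL
  have hL0 : 0 ≤ L := (Nat.cast_nonneg m).trans hmL
  have hs1 : s ≠ 0 := hsq.ne_zero
  have hgd : ∀ x : ℝ, ‖lsD m x‖ ≤ gd L x := fun x =>
    (lsD_gd m x).trans (gd_mono (Nat.cast_nonneg m) hmL x)
  by_cases hs3 : 3 ≤ s
  · have hs0 : (0 : ℝ) < s := by exact_mod_cast (by omega : 0 < s)
    have hsp : 0 < Real.sqrt s := Real.sqrt_pos.2 hs0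
    set a : ℕ → ℂ := fun r => ((1 - Complex.I) / Real.sqrt s) * (js r s : ℂ) with ha
    have hna : ∀ r, ‖a r‖ ≤ 2 / Real.sqrt s := by
      intro r
      simp only [ha]
      rw [norm_mul, norm_div, Complex.norm_real, Complex.norm_real, Real.norm_eq_abs,
        Real.norm_eq_abs, abs_of_pos hsp]
      have h1 : ‖(1 - Complex.I : ℂ)‖ ≤ 2 := by
        refine (norm_sub_le _ _).trans ?_
        simp
        norm_num
      have h2 := js_abs (r : ℤ) s
      calc ‖(1 - Complex.I : ℂ)‖ / Real.sqrt s * |js (r : ℤ) s| ≤ 2 / Real.sqrt s * 1 := by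
            gcongr
        _ = _ := mul_one _
    have e1 : ∀ j : ℤ, (js (8 * j + c) s : ℂ) * ee (β * j) =
        (1 / 2) * (∑ r ∈ Rs s, a r * ee ((c : ℝ) * r / s) * ee ((β + 8 * (r : ℝ) / s) * j) +
          ∑ r ∈ Rs s, (starRingEnd ℂ) (a r) * ee (-((c : ℝ) * r / s)) *
            ee ((β - 8 * (r : ℝ) / s) * j)) := by
      intro j
      rw [js_eq hs hsq hs3]
      set z := ∑ r ∈ Rs s, ((1 - Complex.I) / Real.sqrt s) * (js r s : ℂ) *
        ee ((((8 * j + c) * r : ℤ) : ℝ) / s) with hz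
      have h1 : ((z.re : ℝ) : ℂ) = (1 / 2) * (z + (starRingEnd ℂ) z) := by
        rw [Complex.add_conj]
        push_cast
        ring
      rw [h1, mul_assoc, add_mul]
      congr 2
      · rw [hz, Finset.sum_mul]
        apply sum_congr rfl
        intro r _
        have h2 : ee ((((8 * j + c) * r : ℤ) : ℝ) / s) * ee (β * j) =
            ee ((c : ℝ) * r / s) * ee ((β + 8 * (r : ℝ) / s) * j) := by
          rw [← ls_ee_add, ← ls_ee_add]
          congr 1
          push_cast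
          ring
        simp only [ha]
        rw [mul_assoc, h2, ← mul_assoc]
      · rw [hz, map_sum, Finset.sum_mul]
        apply sum_congr rfl
        intro r _
        rw [map_mul, ls_conj_ee]
        have h2 : ee (-((((8 * j + c) * r : ℤ) : ℝ) / s)) * ee (β * j) =
            ee (-((c : ℝ) * r / s)) * ee ((β - 8 * (r : ℝ) / s) * j) := by
          rw [← ls_ee_add, ← ls_ee_add]
          congr 1
          push_cast
          ring
        rw [mul_assoc, h2, ← mul_assoc]
    have e2 : ∑ j ∈ Ioc u (u + m), (js (8 * j + c) s : ℂ) * ee (β * j) =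
        (1 / 2) * (∑ r ∈ Rs s, a r * ee ((c : ℝ) * r / s) *
            (ee ((β + 8 * (r : ℝ) / s) * (u + 1)) * lsD m (β + 8 * (r : ℝ) / s)) +
          ∑ r ∈ Rs s, (starRingEnd ℂ) (a r) * ee (-((c : ℝ) * r / s)) *
            (ee ((β - 8 * (r : ℝ) / s) * (u + 1)) * lsD m (β - 8 * (r : ℝ) / s))) := by
      rw [sum_congr rfl fun j _ => e1 j, ← Finset.mul_sum, sum_add_distrib, Finset.sum_comm,
        Finset.sum_comm (s := Ioc u (u + m))]
      congr 2
      · apply sum_congr rfl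
        intro r _
        rw [← Finset.mul_sum, sumIoc]
      · apply sum_congr rfl
        intro r _
        rw [← Finset.mul_sum, sumIoc]
    rw [e2, norm_mul]
    have h3 : ‖∑ r ∈ Rs s, a r * ee ((c : ℝ) * r / s) *
            (ee ((β + 8 * (r : ℝ) / s) * (u + 1)) * lsD m (β + 8 * (r : ℝ) / s))‖ ≤
        2 / Real.sqrt s * Psi s L β := by
      have h4 : Psi s L β = ∑ r ∈ Rs s, gd L (β + 8 * (r : ℝ) / s) := by
        rw [← Psi_neg hs3 L β]
        obtain ⟨e, he⟩ := exists_inv8 hs hs3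
        rw [← sum_eightR hs3 he (fun b => gd L (β + (b : ℝ) / s))]
        apply sum_congr rfl
        intro r _
        obtain ⟨k, hk⟩ := eight_div hs0.ne' r
        have h4 : β + 8 * (r : ℝ) / s = β + ((8 * r % s : ℕ) : ℝ) / s + (k : ℝ) := by
          rw [hk]
          ring
        rw [h4, gd_add_int]
      rw [h4, Finset.mul_sum]
      refine (norm_sum_le _ _).trans (sum_le_sum fun r _ => ?_)
      rw [norm_mul, norm_mul (a r), norm_mul (ee _), ls_norm_ee, ls_norm_ee, mul_one, one_mul]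
      exact mul_le_mul (hna r) (hgd _) (norm_nonneg _) (by positivity)
    have h5 : ‖∑ r ∈ Rs s, (starRingEnd ℂ) (a r) * ee (-((c : ℝ) * r / s)) *
            (ee ((β - 8 * (r : ℝ) / s) * (u + 1)) * lsD m (β - 8 * (r : ℝ) / s))‖ ≤
        2 / Real.sqrt s * Psi s L β := by
      rw [← Psi_eight hs hs3 L β, Finset.mul_sum]
      refine (norm_sum_le _ _).trans (sum_le_sum fun r _ => ?_)
      rw [norm_mul, norm_mul ((starRingEnd ℂ) (a r)), norm_mul (ee _), ls_norm_ee, ls_norm_ee,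
        mul_one, one_mul, RCLike.norm_conj]
      exact mul_le_mul (hna r) (hgd _) (norm_nonneg _) (by positivity)
    have h6 := norm_add_le (∑ r ∈ Rs s, a r * ee ((c : ℝ) * r / s) *
            (ee ((β + 8 * (r : ℝ) / s) * (u + 1)) * lsD m (β + 8 * (r : ℝ) / s)))
      (∑ r ∈ Rs s, (starRingEnd ℂ) (a r) * ee (-((c : ℝ) * r / s)) *
            (ee ((β - 8 * (r : ℝ) / s) * (u + 1)) * lsD m (β - 8 * (r : ℝ) / s)))
    have h7 : ‖(1 / 2 : ℂ)‖ = 1 / 2 := by norm_num
    rw [h7]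
    linarith
  · have hs2 : s = 1 := by
      obtain ⟨k, hk⟩ := hs
      omega
    subst hs2
    have h1 : ∀ j : ℤ, (js (8 * j + c) 1 : ℂ) * ee (β * j) = ee (β * j) := by
      intro j
      unfold js
      rw [jacobiSym.one_right]
      simp
    rw [sum_congr rfl fun j _ => h1 j, sumIoc, norm_mul, ls_norm_ee, one_mul]
    have h2 : Psi 1 L β = gd L β := by
      unfold Psi
      have : (range 1).filter (fun b => b.Coprime 1) = {0} := by decide
      rw [this, sum_singleton]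
      congr 1
      simp
    rw [h2]
    have h3 := hgd β
    have h4 := gd_nonneg hL0 β
    have h5 : (2 : ℝ) / Real.sqrt ((1 : ℕ) : ℝ) = 2 := by simp
    rw [h5]
    linarith

theorem t_APS : S_APS := by
  intro s hs hsq e c m D0 X θ hc8 hco hmo
  have hm1 : 1 ≤ m := by
    obtain ⟨k, hk⟩ := hmo
    omega
  have hm0 : (0 : ℝ) < m := by exact_mod_cast hm1
  set c' : ℕ := (m * c) % 8 with hc'
  have hmm : m * m % 8 = 1 := by
    have h1 : m % 8 = 1 ∨ m % 8 = 3 ∨ m % 8 = 5 ∨ m % 8 = 7 := by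
      obtain ⟨k, hk⟩ := hmo
      omega
    rw [Nat.mul_mod]
    rcases h1 with h | h | h | h <;> rw [h]
  -- from `d` to `t`
  have hcls : ∀ t : ℕ, (m * t) % 8 = c ↔ t % 8 = c' := by
    intro t
    constructor
    · intro h
      rw [hc', ← h]
      have : m * (m * t % 8) % 8 = (m * m % 8 * t) % 8 := by
        rw [Nat.mul_mod_mod, ← mul_assoc, Nat.mod_mul_mod]
      rw [this, hmm, one_mul]
    · intro h
      have h1 : m * t % 8 = m * (t % 8) % 8 := by rw [Nat.mul_mod_mod]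
      rw [h1, h, hc', Nat.mul_mod_mod, ← mul_assoc, ← Nat.mod_mul_mod, hmm, one_mul]
      exact Nat.mod_eq_of_lt hc8
  have e1 : ∑ d ∈ (Ioc D0 X).filter (fun d => m ∣ d ∧ d % 8 = c),
      (js (e * (d : ℤ)) s : ℂ) * ee (θ * d) =
      ∑ t ∈ (Ioc (D0 / m) (X / m)).filter (fun t => t % 8 = c'),
        (js (e * ((m * t : ℕ) : ℤ)) s : ℂ) * ee (θ * ((m * t : ℕ) : ℝ)) := by
    symm
    apply sum_nbij (fun t => m * t)
    · intro t ht
      simp only [mem_filter, mem_Ioc] at ht ⊢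
      refine ⟨⟨?_, ?_⟩, Dvd.intro _ rfl, (hcls t).2 ht.2⟩
      · have := (Nat.div_lt_iff_lt_mul hm1).1 ht.1.1
        rw [mul_comm]; exact this
      · have := (Nat.le_div_iff_mul_le hm1).1 ht.1.2
        rw [mul_comm]; exact this
    · intro t _ t' _ h
      exact Nat.eq_of_mul_eq_mul_left hm1 h
    · intro d hd
      simp only [coe_filter, mem_Ioc, Set.mem_setOf_eq] at hd
      obtain ⟨⟨h1, h2⟩, ⟨t, rfl⟩, h3⟩ := hd
      refine ⟨t, ?_, rfl⟩
      simp only [coe_filter, mem_Ioc, Set.mem_setOf_eq]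
      refine ⟨⟨?_, ?_⟩, (hcls t).1 h3⟩
      · rw [Nat.div_lt_iff_lt_mul hm1, mul_comm]; exact h1
      · rw [Nat.le_div_iff_mul_le hm1, mul_comm]; exact h2
    · intro t _
      rfl
  rw [e1]
  -- from `t` to `j`
  have hc'8 : c' < 8 := Nat.mod_lt _ (by norm_num)
  set u : ℤ := (((D0 / m : ℕ) : ℤ) - c') / 8 with hu
  set v : ℤ := (((X / m : ℕ) : ℤ) - c') / 8 with hv
  have e2 : ∑ t ∈ (Ioc (D0 / m) (X / m)).filter (fun t => t % 8 = c'),
        (js (e * ((m * t : ℕ) : ℤ)) s : ℂ) * ee (θ * ((m * t : ℕ) : ℝ)) =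
      ∑ j ∈ Ioc u v, (js (e * m) s : ℂ) * ee (θ * m * c') *
        ((js (8 * j + (c' : ℤ)) s : ℂ) * ee (8 * m * θ * j)) := by
    generalize D0 / m = P at *
    generalize X / m = Q at *
    apply sum_nbij' (fun t : ℕ => ((t : ℤ) - c') / 8) (fun j : ℤ => (8 * j + c').toNat)
    · intro t ht
      simp only [mem_filter, mem_Ioc] at ht ⊢
      omega
    · intro j hj
      simp only [mem_filter, mem_Ioc] at hj ⊢
      omega
    · intro t ht
      simp only [mem_filter, mem_Ioc] at ht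
      omega
    · intro j hj
      simp only [mem_Ioc] at hj
      omega
    · intro t ht
      simp only [mem_filter, mem_Ioc] at ht
      have h1 : (t : ℤ) = 8 * (((t : ℤ) - c') / 8) + c' := by omega
      set j : ℤ := ((t : ℤ) - c') / 8 with hj
      have h2 : js (e * ((m * t : ℕ) : ℤ)) s = js (e * m) s * js (8 * j + c') s := by
        unfold js
        rw [← h1]
        push_cast
        rw [show e * ((m : ℤ) * (t : ℤ)) = (e * m) * t by ring, jacobiSym.mul_left]
        push_cast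
        ring
      have h3 : (t : ℝ) = 8 * (j : ℝ) + c' := by exact_mod_cast h1
      have h4 : ee (θ * ((m * t : ℕ) : ℝ)) = ee (θ * m * c') * ee (8 * m * θ * j) := by
        rw [← ls_ee_add]
        congr 1
        push_cast
        rw [h3]
        ring
      rw [h2, h4]
      push_cast
      ring
  rw [e2, ← Finset.mul_sum, norm_mul, norm_mul, ls_norm_ee, mul_one, Complex.norm_real,
    Real.norm_eq_abs]
  have hL : (0 : ℝ) ≤ (X : ℝ) / (8 * m) + 1 := by positivity
  have hrhs : 0 ≤ 2 / Real.sqrt s * Psi s ((X : ℝ) / (8 * m) + 1) (8 * m * θ) := by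
    have := Psi_nonneg s hL (8 * m * θ)
    positivity
  have hle : ‖∑ j ∈ Ioc u v, (js (8 * j + (c' : ℤ)) s : ℂ) * ee (8 * m * θ * j)‖ ≤
      2 / Real.sqrt s * Psi s ((X : ℝ) / (8 * m) + 1) (8 * m * θ) := by
    by_cases huv : u ≤ v
    · obtain ⟨M, hM⟩ := Int.eq_ofNat_of_zero_le (sub_nonneg.2 huv)
      have hv' : v = u + M := by omega
      rw [hv']
      apply t_CHS s hs hsq c' u M
      have h1 : (8 * M : ℤ) ≤ ((X / m : ℕ) : ℤ) + 8 :=
        jrange (D0 / m) (X / m) c' hc'8 M hM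
      have h2 : (8 * (M : ℝ)) ≤ ((X / m : ℕ) : ℝ) + 8 := by exact_mod_cast h1
      have h3 : ((X / m : ℕ) : ℝ) ≤ (X : ℝ) / m := Nat.cast_div_le
      have h4 : (X : ℝ) / (8 * m) = (X : ℝ) / m / 8 := by
        field_simp
      rw [h4]
      linarith
    · rw [Ioc_eq_empty (by omega), sum_empty, norm_zero]
      exact hrhs
  calc |js (e * m) s| * ‖∑ j ∈ Ioc u v, (js (8 * j + (c' : ℤ)) s : ℂ) * ee (8 * m * θ * j)‖
      ≤ 1 * (2 / Real.sqrt s * Psi s ((X : ℝ) / (8 * m) + 1) (8 * m * θ)) :=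
        mul_le_mul (js_abs _ _) hle (norm_nonneg _) (by norm_num)
    _ = _ := one_mul _

end

end Pool.Agent.H28.BR
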