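import Pool.Agent.H28.BR.CLX

set_option autoImplicit false

/-! Project BR: the sum over `d` and the integral over `w`. -/

namespace Pool.Agent.H28.BR

open Finset Filter Topology MeasureTheory Pool.Agent.H306R2.RZ Pool.Agent.H306R2.RG
  Pool.Agent.Q122.FM
open Pool.Agent.Helper112 (ee)

noncomputable section

theorem nd_nonneg (x : ℝ) : 0 ≤ nd x := abs_nonneg _

theorem gd_nonneg {L : ℝ} (hL : 0 ≤ L) (x : ℝ) : 0 ≤ gd L x := by
  unfold gd
  have := nd_nonneg x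
  positivity

theorem Psi_nonneg (s : ℕ) {L : ℝ} (hL : 0 ≤ L) (β : ℝ) : 0 ≤ Psi s L β :=
  sum_nonneg fun _ _ => gd_nonneg hL _

theorem kap_nonneg {z : ℝ} (hz : 0 ≤ z) : 0 ≤ kap z := by
  unfold kap
  exact mul_nonneg (Real.rpow_nonneg hz _) (Real.exp_pos _).le

theorem exp_split {s g v r X : ℕ} (hs : 1 ≤ s) (hg : 1 ≤ g) (hv : 1 ≤ v) (hr : 1 ≤ r) (hr8 : r ≤ 8)
    (hX : 1 ≤ X) :
    Real.exp (-((((s * (g * v) ^ 2 : ℕ) : ℝ)) ^ 2 * (1 / (r * (X : ℝ))) / 2)) ≤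
      Real.exp (-((s : ℝ) ^ 2 * (g : ℝ) ^ 4 / (32 * X))) * Real.exp (-((v : ℝ) ^ 4 / (32 * X))) := by
  rw [← Real.exp_add, Real.exp_le_exp]
  have hX0 : (0 : ℝ) < X := by exact_mod_cast hX
  have hr0 : (0 : ℝ) < r := by exact_mod_cast hr
  have hr8' : (r : ℝ) ≤ 8 := by exact_mod_cast hr8
  have hs1 : (1 : ℝ) ≤ s := by exact_mod_cast hs
  have hg1 : (1 : ℝ) ≤ g := by exact_mod_cast hg
  have hv1 : (1 : ℝ) ≤ v := by exact_mod_cast hv
  set P : ℝ := (s : ℝ) ^ 2 * (g : ℝ) ^ 4 with hP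
  set Q : ℝ := (v : ℝ) ^ 4 with hQ
  have hP1 : 1 ≤ P := by
    rw [hP]
    have a1 : (1 : ℝ) ≤ (s : ℝ) ^ 2 := one_le_pow₀ hs1
    have a2 : (1 : ℝ) ≤ (g : ℝ) ^ 4 := one_le_pow₀ hg1
    nlinarith
  have hQ1 : 1 ≤ Q := one_le_pow₀ hv1
  have e1 : (((s * (g * v) ^ 2 : ℕ) : ℝ)) ^ 2 * (1 / (r * (X : ℝ))) / 2 = P * Q / (2 * r * X) := by
    rw [hP, hQ]
    push_cast
    field_simp
  rw [e1]
  have e2 : P * Q / (16 * X) ≤ P * Q / (2 * r * X) := by
    apply div_le_div_of_nonneg_left (by positivity) (by positivity)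
    nlinarith
  have e3 : P / (32 * X) + Q / (32 * X) ≤ P * Q / (16 * X) := by
    rw [← add_div, div_le_div_iff₀ (by positivity) (by positivity)]
    have : P + Q ≤ 2 * (P * Q) := by nlinarith
    nlinarith
  linarith

theorem t_NSW (ker : S_KER) (kra : S_KRA) (kin : S_KIN) (vsm : S_VSM) (ptw : S_PTW) : S_NSW := by
  obtain ⟨⟨C0, hC0, k0⟩, -⟩ := ker
  obtain ⟨C1, hC1, kin⟩ := kin
  obtain ⟨C2, hC2, vsm⟩ := vsm
  have hC00 : 0 < C0 := by linarith
  refine ⟨2 * C0 * C1 * C2, by positivity, ?_⟩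
  intro p hp c hc8 hco X A N θ hX
  have hr1 : 1 ≤ p.r := hp.2.1.1
  have hr8 : p.r ≤ 8 := hp.2.1.2
  have hr0 : (0 : ℝ) < p.r := by exact_mod_cast hr1
  have hX0 : (0 : ℝ) < X := by exact_mod_cast hX
  set z0 : ℝ := 1 / (p.r * (X : ℝ)) with hz0
  have hz0p : 0 < z0 := by positivity
  have hL : ∀ m : ℕ, (0 : ℝ) ≤ (X : ℝ) / (8 * m) + 1 := fun m => by positivity
  -- step 1: the sum over `a`
  have step1 : ‖∑ d ∈ (Icc 1 X).filter (fun d => d % 8 = c),
      ((∑ a ∈ (Icc 1 A).filter (fun a => a ^ 2 ∣ d), ((ArithmeticFunction.moebius a : ℤ) : ℝ) : ℝ) : ℂ) *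
        (ee (θ * d) * (EA p N d (1 / (p.r * (d : ℝ))) : ℂ))‖ ≤
      ∑ a ∈ Icc 1 A, ‖∑ d ∈ (Icc 1 X).filter (fun d => a ^ 2 ∣ d ∧ d % 8 = c),
        ee (θ * d) * (EA p N d (1 / (p.r * (d : ℝ))) : ℂ)‖ := by
    have e1 : ∑ d ∈ (Icc 1 X).filter (fun d => d % 8 = c),
      ((∑ a ∈ (Icc 1 A).filter (fun a => a ^ 2 ∣ d), ((ArithmeticFunction.moebius a : ℤ) : ℝ) : ℝ) : ℂ) *
        (ee (θ * d) * (EA p N d (1 / (p.r * (d : ℝ))) : ℂ)) =
        ∑ a ∈ Icc 1 A, (((ArithmeticFunction.moebius a : ℤ) : ℝ) : ℂ) *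
          ∑ d ∈ (Icc 1 X).filter (fun d => a ^ 2 ∣ d ∧ d % 8 = c),
        ee (θ * d) * (EA p N d (1 / (p.r * (d : ℝ))) : ℂ) := by
      simp_rw [Complex.ofReal_sum, sum_filter, Finset.mul_sum]
      rw [Finset.sum_comm]
      apply sum_congr rfl
      intro d _
      by_cases hd : d % 8 = c
      · rw [if_pos hd, Finset.sum_mul]
        apply sum_congr rfl
        intro a _
        by_cases had : a ^ 2 ∣ d
        · rw [if_pos had, if_pos ⟨had, hd⟩]
        · rw [if_neg had, if_neg (fun h => had h.1), zero_mul, mul_zero]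
      · rw [if_neg hd]
        symm
        apply sum_eq_zero
        intro a _
        rw [if_neg (fun h => hd h.2), mul_zero]
    rw [e1]
    refine (norm_sum_le _ _).trans (sum_le_sum fun a _ => ?_)
    rw [norm_mul, Complex.norm_real, Real.norm_eq_abs]
    apply mul_le_of_le_one_left (norm_nonneg _)
    exact_mod_cast ArithmeticFunction.abs_moebius_le_one
  refine step1.trans ?_
  -- step 2: one `a`
  have step2 : ∀ a ∈ Icc 1 A, ‖∑ d ∈ (Icc 1 X).filter (fun d => a ^ 2 ∣ d ∧ d % 8 = c),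
        ee (θ * d) * (EA p N d (1 / (p.r * (d : ℝ))) : ℂ)‖ ≤
      ∫ w in Set.Ioi z0, 2 * ∑ s ∈ Icc 1 N, ∑ g ∈ Icc 1 N, ∑ v ∈ Icc 1 N,
        (C0 * (1 / Real.sqrt s) * Psi s ((X : ℝ) / (8 * (Nat.lcm (a ^ 2) g : ℕ)) + 1)
          (8 * (Nat.lcm (a ^ 2) g : ℕ) * θ)) *
        (w ^ (-(3 / 4) : ℝ) * kap (((s * (g * v) ^ 2 : ℕ) : ℝ) ^ 2 * w)) := by
    intro a ha
    rw [mem_Icc] at ha
    set Da := (Icc 1 X).filter (fun d => a ^ 2 ∣ d ∧ d % 8 = c) with hDa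
    set f : ℕ → ℝ → ℝ := fun d w => w ^ (-(3 / 4) : ℝ) * NA p.e (kw p N w) N d with hf
    have hzd : ∀ d ∈ Da, 0 < 1 / (p.r * (d : ℝ)) ∧ z0 ≤ 1 / (p.r * (d : ℝ)) := by
      intro d hd
      rw [hDa, mem_filter, mem_Icc] at hd
      have hd0 : (0 : ℝ) < d := by exact_mod_cast hd.1.1
      have hdX : (d : ℝ) ≤ X := by exact_mod_cast hd.1.2
      refine ⟨by positivity, ?_⟩
      rw [hz0]
      exact one_div_le_one_div_of_le (by positivity) (mul_le_mul_of_nonneg_left hdX hr0.le)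
    have hint : ∀ d ∈ Da, Integrable ((Set.Ioi (1 / (p.r * (d : ℝ)))).indicator (f d)) := by
      intro d hd
      rw [integrable_indicator_iff measurableSet_Ioi]
      exact (kra p hp N d _ (hzd d hd).1).1
    have e1 : ∀ d ∈ Da, (EA p N d (1 / (p.r * (d : ℝ))) : ℂ) = ∫ w in Set.Ioi z0,
        (((Set.Ioi (1 / (p.r * (d : ℝ)))).indicator (f d) w : ℝ) : ℂ) := by
      intro d hd
      have h1 : ∫ w in Set.Ioi z0, (((Set.Ioi (1 / (p.r * (d : ℝ)))).indicator (f d) w : ℝ) : ℂ) =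
          ((∫ w in Set.Ioi z0, (Set.Ioi (1 / (p.r * (d : ℝ)))).indicator (f d) w : ℝ) : ℂ) :=
        integral_ofReal
      rw [h1, (kra p hp N d _ (hzd d hd).1).2, setIntegral_indicator measurableSet_Ioi,
        Set.Ioi_inter_Ioi, sup_eq_right.2 (hzd d hd).2]
    have e2 : ∑ d ∈ Da, ee (θ * d) * (EA p N d (1 / (p.r * (d : ℝ))) : ℂ) = ∫ w in Set.Ioi z0,
        ∑ d ∈ Da, ee (θ * d) * (((Set.Ioi (1 / (p.r * (d : ℝ)))).indicator (f d) w : ℝ) : ℂ) := by
      rw [integral_finsetSum]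
      · apply sum_congr rfl
        intro d hd
        rw [integral_const_mul, ← e1 d hd]
      · intro d hd
        exact ((hint d hd).ofReal.const_mul _).integrableOn
    rw [e2]
    apply norm_integral_le_of_norm_le
    · apply Integrable.const_mul
      apply integrable_finsetSum
      intro s _
      apply integrable_finsetSum
      intro g hg
      apply integrable_finsetSum
      intro v hv
      apply Integrable.const_mul
      have hs : 1 ≤ s * (g * v) ^ 2 := by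
        rename_i hs0
        have h1 : 0 < s := (mem_Icc.1 hs0).1
        have h2 : 0 < g := (mem_Icc.1 hg).1
        have h3 : 0 < v := (mem_Icc.1 hv).1
        have : 0 < s * (g * v) ^ 2 := by positivity
        exact this
      exact (kin (s * (g * v) ^ 2) z0 hs hz0p).1
    · rw [ae_restrict_iff' measurableSet_Ioi]
      refine Eventually.of_forall fun w hw => ?_
      rw [Set.mem_Ioi] at hw
      have hw0 : 0 < w := lt_trans hz0p hw
      set D0 : ℕ := ⌊1 / (p.r * w)⌋₊ with hD0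
      have e3 : ∑ d ∈ Da, ee (θ * d) * (((Set.Ioi (1 / (p.r * (d : ℝ)))).indicator (f d) w : ℝ) : ℂ) =
          ((w ^ (-(3 / 4) : ℝ) : ℝ) : ℂ) * ∑ d ∈ (Ioc D0 X).filter (fun d => a ^ 2 ∣ d ∧ d % 8 = c),
            ee (θ * d) * (NA p.e (kw p N w) N d : ℂ) := by
        have hset : (Ioc D0 X).filter (fun d => a ^ 2 ∣ d ∧ d % 8 = c) =
            Da.filter (fun d : ℕ => 1 / (p.r * (d : ℝ)) < w) := by
          ext d
          simp only [hDa, mem_filter, mem_Ioc, mem_Icc]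
          have hiff : ∀ hd : 1 ≤ d, (D0 < d ↔ 1 / (p.r * (d : ℝ)) < w) := by
            intro hd
            have hd0 : (0 : ℝ) < d := by exact_mod_cast hd
            rw [hD0, Nat.floor_lt (by positivity), div_lt_iff₀ (by positivity),
              div_lt_iff₀ (by positivity)]
            constructor <;> intro h <;> nlinarith
          constructor
          · rintro ⟨⟨h1, h2⟩, h3⟩
            exact ⟨⟨⟨by omega, h2⟩, h3⟩, (hiff (by omega)).1 h1⟩
          · rintro ⟨⟨⟨h1, h2⟩, h3⟩, h4⟩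
            exact ⟨⟨(hiff h1).2 h4, h2⟩, h3⟩
        rw [hset, Finset.sum_filter (s := Da), Finset.mul_sum]
        apply sum_congr rfl
        intro d _
        by_cases h : 1 / (p.r * (d : ℝ)) < w
        · rw [if_pos h, Set.indicator_of_mem (Set.mem_Ioi.2 h)]
          simp only [hf]
          push_cast
          ring
        · rw [if_neg h, Set.indicator_of_notMem (fun hh => h (Set.mem_Ioi.1 hh))]
          simp
      rw [e3, norm_mul, Complex.norm_real, Real.norm_eq_abs, abs_of_nonneg (Real.rpow_nonneg hw0.le _)]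
      have h1 := ptw p.e hp.1 (kw p N w) (fun n => C0 * kap ((n : ℝ) ^ 2 * w))
        (fun n hn => k0 p hp N n w hn hw0)
        (fun n => mul_nonneg hC00.le (kap_nonneg (by positivity))) c a D0 X N θ hc8 hco ha.1
      refine (mul_le_mul_of_nonneg_left h1 (Real.rpow_nonneg hw0.le _)).trans (le_of_eq ?_)
      rw [mul_left_comm, Finset.mul_sum]
      congr 1
      apply sum_congr rfl
      intro s _
      rw [Finset.mul_sum]
      apply sum_congr rfl
      intro g _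
      rw [Finset.mul_sum]
      apply sum_congr rfl
      intro v _
      ring
  refine (sum_le_sum step2).trans ?_
  rw [Finset.mul_sum]
  apply sum_le_sum
  intro a ha
  -- step 3: the integral
  have hI : ∀ s ∈ Icc 1 N, ∀ g ∈ Icc 1 N, ∀ v ∈ Icc 1 N,
      1 ≤ s * (g * v) ^ 2 := by
    intro s hs g hg v hv
    rw [mem_Icc] at hs hg hv
    have : 0 < s * (g * v) ^ 2 := by
      have h1 : 0 < s := hs.1
      have h2 : 0 < g := hg.1
      have h3 : 0 < v := hv.1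
      positivity
    exact this
  rw [integral_const_mul, integral_finsetSum]
  swap
  · intro s hs
    apply integrable_finsetSum
    intro g hg
    apply integrable_finsetSum
    intro v hv
    exact ((kin _ z0 (hI s hs g hg v hv) hz0p).1).const_mul _
  have e4 : ∀ s ∈ Icc 1 N, ∫ w in Set.Ioi z0, ∑ g ∈ Icc 1 N, ∑ v ∈ Icc 1 N,
        (C0 * (1 / Real.sqrt s) * Psi s ((X : ℝ) / (8 * (Nat.lcm (a ^ 2) g : ℕ)) + 1)
          (8 * (Nat.lcm (a ^ 2) g : ℕ) * θ)) *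
        (w ^ (-(3 / 4) : ℝ) * kap (((s * (g * v) ^ 2 : ℕ) : ℝ) ^ 2 * w)) ≤
      ∑ g ∈ Icc 1 N, ∑ v ∈ Icc 1 N, C0 * C1 * (1 / (g : ℝ) * (1 / (s : ℝ) *
        Real.exp (-((s : ℝ) ^ 2 * (g : ℝ) ^ 4 / (32 * X))) *
        Psi s ((X : ℝ) / (8 * (Nat.lcm (a ^ 2) g : ℕ)) + 1)
          (8 * (Nat.lcm (a ^ 2) g : ℕ) * θ))) * (1 / (v : ℝ) * Real.exp (-((v : ℝ) ^ 4 / (32 * X)))) := by
    intro s hs
    rw [integral_finsetSum]
    swap
    · intro g hg
      apply integrable_finsetSum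
      intro v hv
      exact ((kin _ z0 (hI s hs g hg v hv) hz0p).1).const_mul _
    apply sum_le_sum
    intro g hg
    rw [integral_finsetSum]
    swap
    · intro v hv
      exact ((kin _ z0 (hI s hs g hg v hv) hz0p).1).const_mul _
    apply sum_le_sum
    intro v hv
    rw [integral_const_mul]
    have h1 := (kin _ z0 (hI s hs g hg v hv) hz0p).2
    have hs1 := (mem_Icc.1 hs).1
    have hg1 := (mem_Icc.1 hg).1
    have hv1 := (mem_Icc.1 hv).1
    have hs0 : (0 : ℝ) < s := by exact_mod_cast hs1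
    have hg0 : (0 : ℝ) < g := by exact_mod_cast hg1
    have hv0 : (0 : ℝ) < v := by exact_mod_cast hv1
    have h2 := exp_split hs1 hg1 hv1 hr1 hr8 hX
    rw [← hz0] at h2
    have hsq : Real.sqrt ((s * (g * v) ^ 2 : ℕ) : ℝ) = Real.sqrt s * (g * v) := by
      push_cast
      rw [Real.sqrt_mul hs0.le, Real.sqrt_sq (by positivity)]
    rw [hsq] at h1
    set Pp := Psi s ((X : ℝ) / (8 * (Nat.lcm (a ^ 2) g : ℕ)) + 1)
          (8 * (Nat.lcm (a ^ 2) g : ℕ) * θ) with hPp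
    have hPp0 : 0 ≤ Pp := Psi_nonneg s (hL _) _
    have hss : Real.sqrt s * Real.sqrt s = s := Real.mul_self_sqrt hs0.le
    have hsp : 0 < Real.sqrt s := Real.sqrt_pos.2 hs0
    set E1 := Real.exp (-((s : ℝ) ^ 2 * (g : ℝ) ^ 4 / (32 * X))) with hE1
    set E2 := Real.exp (-((v : ℝ) ^ 4 / (32 * X))) with hE2
    calc C0 * (1 / Real.sqrt s) * Pp * ∫ w in Set.Ioi z0, w ^ (-(3 / 4) : ℝ) *
          kap (((s * (g * v) ^ 2 : ℕ) : ℝ) ^ 2 * w)
        ≤ C0 * (1 / Real.sqrt s) * Pp * (C1 / (Real.sqrt s * (g * v)) * (E1 * E2)) := by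
          apply mul_le_mul_of_nonneg_left _ (by positivity)
          refine h1.trans ?_
          apply mul_le_mul_of_nonneg_left h2 (by positivity)
      _ = C0 * C1 * (1 / (g : ℝ) * (1 / (Real.sqrt s * Real.sqrt s) * E1 * Pp)) * (1 / (v : ℝ) * E2) := by
          field_simp
      _ = _ := by rw [hss]
  have hlast : ∑ s ∈ Icc 1 N, ∑ g ∈ Icc 1 N, ∑ v ∈ Icc 1 N, C0 * C1 * (1 / (g : ℝ) * (1 / (s : ℝ) *
        Real.exp (-((s : ℝ) ^ 2 * (g : ℝ) ^ 4 / (32 * X))) *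
        Psi s ((X : ℝ) / (8 * (Nat.lcm (a ^ 2) g : ℕ)) + 1)
          (8 * (Nat.lcm (a ^ 2) g : ℕ) * θ))) * (1 / (v : ℝ) * Real.exp (-((v : ℝ) ^ 4 / (32 * X)))) =
      C0 * C1 * (∑ g ∈ Icc 1 N, 1 / (g : ℝ) * TT X θ (Nat.lcm (a ^ 2) g) g N) *
        ∑ v ∈ Icc 1 N, (1 / (v : ℝ) * Real.exp (-((v : ℝ) ^ 4 / (32 * X)))) := by
    simp_rw [← Finset.mul_sum, ← Finset.sum_mul, ← Finset.mul_sum]
    congr 2
    rw [Finset.sum_comm]
    apply sum_congr rfl
    intro g _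
    rw [← Finset.mul_sum]
    rfl
  have hTT : 0 ≤ ∑ g ∈ Icc 1 N, 1 / (g : ℝ) * TT X θ (Nat.lcm (a ^ 2) g) g N := by
    apply sum_nonneg
    intro g _
    apply mul_nonneg (by positivity)
    apply sum_nonneg
    intro s _
    exact mul_nonneg (by positivity) (Psi_nonneg s (hL _) _)
  calc 2 * ∑ s ∈ Icc 1 N, ∫ w in Set.Ioi z0, ∑ g ∈ Icc 1 N, ∑ v ∈ Icc 1 N,
        (C0 * (1 / Real.sqrt s) * Psi s ((X : ℝ) / (8 * (Nat.lcm (a ^ 2) g : ℕ)) + 1)
          (8 * (Nat.lcm (a ^ 2) g : ℕ) * θ)) *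
        (w ^ (-(3 / 4) : ℝ) * kap (((s * (g * v) ^ 2 : ℕ) : ℝ) ^ 2 * w))
      ≤ 2 * (C0 * C1 * (∑ g ∈ Icc 1 N, 1 / (g : ℝ) * TT X θ (Nat.lcm (a ^ 2) g) g N) *
        ∑ v ∈ Icc 1 N, (1 / (v : ℝ) * Real.exp (-((v : ℝ) ^ 4 / (32 * X))))) := by
        rw [← hlast]
        exact mul_le_mul_of_nonneg_left (sum_le_sum e4) (by norm_num)
    _ ≤ 2 * (C0 * C1 * (∑ g ∈ Icc 1 N, 1 / (g : ℝ) * TT X θ (Nat.lcm (a ^ 2) g) g N) * (C2 * lg X)) := by
        apply mul_le_mul_of_nonneg_left _ (by norm_num)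
        apply mul_le_mul_of_nonneg_left (vsm X N hX)
        positivity
    _ = _ := by ring

end

end Pool.Agent.H28.BR
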