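import Pool.Agent.H28.BR.Stm3
import Pool.Agent.H28.BR.NSW
import Pool.Agent.H28.BR.CHS

set_option autoImplicit false

/-! Project BR3: the squares, `d` divisible by `a²`. -/

namespace Pool.Agent.H28.BR3

open Finset Filter Topology MeasureTheory Pool.Agent.H306R2.RZ Pool.Agent.H306R2.RG
  Pool.Agent.Q122.FM Pool.Agent.H28.BR
open Pool.Agent.Helper112 (ee)

noncomputable section

/-- interchange of a finite sum and an integral -/
theorem swap1 (Da : Finset ℕ) (F : ℕ → ℝ → ℝ) (E : ℕ → ℝ) (c : ℕ → ℂ) (S : Set ℝ) (hS : MeasurableSet S)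
    (hF : ∀ d ∈ Da, IntegrableOn (F d) S) (hE : ∀ d ∈ Da, E d = ∫ w in S, F d w)
    (B : ℝ → ℝ) (hB : IntegrableOn B S)
    (hb : ∀ w ∈ S, ‖∑ d ∈ Da, c d * (F d w : ℂ)‖ ≤ B w) :
    ‖∑ d ∈ Da, c d * (E d : ℂ)‖ ≤ ∫ w in S, B w := by
  have e1 : ∀ d ∈ Da, (E d : ℂ) = ∫ w in S, (F d w : ℂ) := by
    intro d hd
    have h1 : ∫ w in S, (F d w : ℂ) = ((∫ w in S, F d w : ℝ) : ℂ) := integral_ofReal
    rw [h1, hE d hd]
  have e2 : ∑ d ∈ Da, c d * (E d : ℂ) = ∫ w in S, ∑ d ∈ Da, c d * (F d w : ℂ) := by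
    rw [integral_finsetSum]
    · apply sum_congr rfl
      intro d hd
      rw [integral_const_mul, ← e1 d hd]
    · intro d hd
      exact ((hF d hd).ofReal (𝕜 := ℂ)).const_mul _
  rw [e2]
  apply norm_integral_le_of_norm_le hB
  rw [ae_restrict_iff' hS]
  exact Eventually.of_forall fun w hw => hb w hw

theorem swap2 {ι : Type} (I : Finset ι) (co : ι → ℝ) (u u' : ι → ℝ → ℝ)
    (Da : Finset ℕ) (F : ℕ → ℝ → ℝ) (E : ℕ → ℝ) (c : ℕ → ℂ) (S : Set ℝ) (hS : MeasurableSet S)
    (hF : ∀ d ∈ Da, IntegrableOn (F d) S) (hE : ∀ d ∈ Da, E d = ∫ w in S, F d w)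
    (hu : ∀ i ∈ I, IntegrableOn (u i) S) (hu' : ∀ i ∈ I, IntegrableOn (u' i) S)
    (hb : ∀ w ∈ S, ∀ w' ∈ S, ‖∑ d ∈ Da, c d * ((F d w * F d w' : ℝ) : ℂ)‖ ≤
      ∑ i ∈ I, co i * (u i w * u' i w')) :
    ‖∑ d ∈ Da, c d * ((E d ^ 2 : ℝ) : ℂ)‖ ≤
      ∑ i ∈ I, co i * ((∫ w in S, u i w) * ∫ w in S, u' i w) := by
  have h1 : ∀ w ∈ S, ‖∑ d ∈ Da, (c d * (E d : ℂ)) * (F d w : ℂ)‖ ≤
      ∑ i ∈ I, co i * (u i w * ∫ w' in S, u' i w') := by
    intro w hw
    have h2 := swap1 Da F E (fun d => c d * (F d w : ℂ)) S hS hF hE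
      (fun w' => ∑ i ∈ I, co i * (u i w * u' i w')) ?_ ?_
    · have e3 : ∑ d ∈ Da, (c d * (E d : ℂ)) * (F d w : ℂ) = ∑ d ∈ Da, (c d * (F d w : ℂ)) * (E d : ℂ) := by
        apply sum_congr rfl
        intro d _
        ring
      rw [e3]
      refine h2.trans (le_of_eq ?_)
      rw [integral_finsetSum]
      · apply sum_congr rfl
        intro i _
        rw [integral_const_mul, integral_const_mul]
      · intro i hi
        exact ((hu' i hi).const_mul _).const_mul _
    · apply integrable_finsetSum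
      intro i hi
      exact ((hu' i hi).const_mul _).const_mul _
    · intro w' hw'
      refine le_trans (le_of_eq ?_) (hb w hw w' hw')
      congr 1
      apply sum_congr rfl
      intro d _
      push_cast
      ring
  have h3 := swap1 Da F E (fun d => c d * (E d : ℂ)) S hS hF hE
    (fun w => ∑ i ∈ I, co i * (u i w * ∫ w' in S, u' i w')) ?_ h1
  · have e4 : ∑ d ∈ Da, c d * ((E d ^ 2 : ℝ) : ℂ) = ∑ d ∈ Da, (c d * (E d : ℂ)) * (E d : ℂ) := by
      apply sum_congr rfl
      intro d _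
      push_cast
      ring
    rw [e4]
    refine h3.trans (le_of_eq ?_)
    rw [integral_finsetSum]
    · apply sum_congr rfl
      intro i _
      rw [integral_const_mul, integral_mul_const]
    · intro i hi
      exact ((hu i hi).mul_const _).const_mul _
  · apply integrable_finsetSum
    intro i hi
    exact ((hu i hi).mul_const _).const_mul _

theorem js_mulr (k : ℤ) (m n : ℕ) (hm : m ≠ 0) (hn : n ≠ 0) : js k (m * n) = js k m * js k n := by
  haveI : NeZero m := ⟨hm⟩
  haveI : NeZero n := ⟨hn⟩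
  unfold js
  rw [jacobiSym.mul_right]
  push_cast
  ring

/-- the Dirichlet product of two truncated weights -/
def kk (k k' : ℕ → ℝ) (N : ℕ) (m : ℕ) : ℝ :=
  ∑ n ∈ Icc 1 N, ∑ n' ∈ Icc 1 N, if n * n' = m then k n * k' n' else 0

theorem NA_mul (e : ℤ) (k k' : ℕ → ℝ) (N d : ℕ) :
    NA e k N d * NA e k' N d = NA e (kk k k' N) (N ^ 2) d := by
  unfold NA kk
  rw [Finset.sum_mul_sum]
  have e1 : ∀ m ∈ (Icc 1 (N ^ 2)).filter (fun n => Odd n),
      js (e * (d : ℤ)) m * (∑ n ∈ Icc 1 N, ∑ n' ∈ Icc 1 N, if n * n' = m then k n * k' n' else 0) =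
      ∑ n ∈ Icc 1 N, ∑ n' ∈ Icc 1 N, if n * n' = m then
        js (e * (d : ℤ)) m * (k n * k' n') else 0 := by
    intro m _
    rw [Finset.mul_sum]
    apply sum_congr rfl
    intro n _
    rw [Finset.mul_sum]
    apply sum_congr rfl
    intro n' _
    rw [mul_ite, mul_zero]
  rw [sum_congr rfl e1]
  conv_rhs => rw [Finset.sum_comm]
  rw [Finset.sum_filter]
  apply sum_congr rfl
  intro n hn
  rw [mem_Icc] at hn
  conv_rhs => rw [Finset.sum_comm]
  by_cases hno : Odd n
  · rw [if_pos hno, Finset.sum_filter]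
    apply sum_congr rfl
    intro n' hn'
    rw [mem_Icc] at hn'
    by_cases hno' : Odd n'
    · rw [if_pos hno', Finset.sum_ite_eq, if_pos]
      · rw [js_mulr _ _ _ (by omega) (by omega)]
        ring
      · rw [mem_filter, mem_Icc]
        refine ⟨⟨?_, ?_⟩, hno.mul hno'⟩
        · exact Nat.mul_pos hn.1 hn'.1
        · rw [sq]
          exact Nat.mul_le_mul hn.2 hn'.2
    · rw [if_neg hno', Finset.sum_ite_eq, if_neg]
      rw [mem_filter]
      intro h
      exact hno' (Nat.odd_mul.1 h.2).2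
  · rw [if_neg hno]
    symm
    apply sum_eq_zero
    intro n' _
    rw [Finset.sum_ite_eq, if_neg]
    rw [mem_filter]
    intro h
    exact hno (Nat.odd_mul.1 h.2).1

theorem pairs_card (N m : ℕ) (hm : 1 ≤ m) :
    ∑ n ∈ Icc 1 N, ∑ n' ∈ Icc 1 N, (if n * n' = m then (1 : ℝ) else 0) ≤ tau m := by
  unfold tau
  have h1 : ∑ n ∈ Icc 1 N, ∑ n' ∈ Icc 1 N, (if n * n' = m then (1 : ℝ) else 0) ≤
      ∑ n ∈ Icc 1 N, (if n ∣ m then (1 : ℝ) else 0) := by
    apply sum_le_sum
    intro n hn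
    rw [mem_Icc] at hn
    by_cases h : n ∣ m
    · rw [if_pos h]
      obtain ⟨q, hq⟩ := h
      calc ∑ n' ∈ Icc 1 N, (if n * n' = m then (1 : ℝ) else 0)
          = ∑ n' ∈ Icc 1 N, (if n' = q then (1 : ℝ) else 0) := by
            apply sum_congr rfl
            intro n' _
            congr 1
            rw [hq]
            simp only [eq_iff_iff]
            constructor
            · intro h; exact Nat.eq_of_mul_eq_mul_left (by omega) h
            · intro h; rw [h]
        _ ≤ 1 := by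
            rw [Finset.sum_ite_eq']
            split_ifs <;> norm_num
    · rw [if_neg h]
      apply le_of_eq
      apply sum_eq_zero
      intro n' _
      rw [if_neg]
      intro h2
      exact h ⟨n', h2.symm⟩
  refine h1.trans ?_
  rw [← Finset.sum_filter, Finset.sum_const, nsmul_eq_mul, mul_one]
  norm_cast
  apply Finset.card_le_card
  intro n hn
  rw [mem_filter] at hn
  rw [Nat.mem_divisors]
  exact ⟨hn.2, by omega⟩

theorem t_SQK (ker : S_KER) (kra : S_KRA) (kin : S_KIN) (ptw : S_PTW) (tauS : S_TAU) : S_SQK := by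
  obtain ⟨⟨C0, hC0, k0⟩, -⟩ := ker
  obtain ⟨C1, hC1, kin⟩ := kin
  have hC00 : 0 < C0 := by linarith
  refine ⟨2 * C0 ^ 2 * C1 ^ 2, by positivity, ?_⟩
  intro p hp c hc8 hco a ha X N θ hX
  have hr1 : 1 ≤ p.r := hp.2.1.1
  have hr8 : p.r ≤ 8 := hp.2.1.2
  have hr0 : (0 : ℝ) < p.r := by exact_mod_cast hr1
  have hr8' : (p.r : ℝ) ≤ 8 := by exact_mod_cast hr8
  have hX0 : (0 : ℝ) < X := by exact_mod_cast hX
  set z0 : ℝ := 1 / (p.r * (X : ℝ)) with hz0
  have hz0p : 0 < z0 := by positivity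
  have hz8 : 1 / (8 * (X : ℝ)) ≤ z0 := by
    rw [hz0]
    exact one_div_le_one_div_of_le (by positivity) (mul_le_mul_of_nonneg_right hr8' hX0.le)
  have hL : ∀ m : ℕ, (0 : ℝ) ≤ (X : ℝ) / (8 * m) + 1 := fun m => by positivity
  set Da := (Icc 1 X).filter (fun d => a ^ 2 ∣ d ∧ d % 8 = c) with hDa
  set f : ℕ → ℝ → ℝ := fun d w => w ^ (-(3 / 4) : ℝ) * NA p.e (kw p N w) N d with hf
  set F : ℕ → ℝ → ℝ := fun d => (Set.Ioi (1 / (p.r * (d : ℝ)))).indicator (f d) with hF
  have hzd : ∀ d ∈ Da, 0 < 1 / (p.r * (d : ℝ)) ∧ z0 ≤ 1 / (p.r * (d : ℝ)) := by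
    intro d hd
    rw [hDa, mem_filter, mem_Icc] at hd
    have hd0 : (0 : ℝ) < d := by exact_mod_cast hd.1.1
    have hdX : (d : ℝ) ≤ X := by exact_mod_cast hd.1.2
    refine ⟨by positivity, ?_⟩
    rw [hz0]
    exact one_div_le_one_div_of_le (by positivity) (mul_le_mul_of_nonneg_left hdX hr0.le)
  have hint : ∀ d ∈ Da, IntegrableOn (F d) (Set.Ioi z0) := by
    intro d hd
    have : Integrable (F d) := by
      rw [hF]
      simp only
      rw [integrable_indicator_iff measurableSet_Ioi]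
      exact (kra p hp N d _ (hzd d hd).1).1
    exact this.integrableOn
  have hE : ∀ d ∈ Da, EA p N d (1 / (p.r * (d : ℝ))) = ∫ w in Set.Ioi z0, F d w := by
    intro d hd
    rw [(kra p hp N d _ (hzd d hd).1).2, hF]
    simp only
    rw [setIntegral_indicator measurableSet_Ioi, Set.Ioi_inter_Ioi, sup_eq_right.2 (hzd d hd).2]
  set PP : ℕ → ℕ → ℝ := fun s g => Psi s ((X : ℝ) / (8 * (Nat.lcm (a ^ 2) g : ℕ)) + 1)
    (8 * (Nat.lcm (a ^ 2) g : ℕ) * θ) with hPP
  have hPP0 : ∀ s g, 0 ≤ PP s g := fun s g => Psi_nonneg s (hL _) _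
  set U : ℕ → ℝ → ℝ := fun n w => w ^ (-(3 / 4) : ℝ) * kap ((n : ℝ) ^ 2 * w) with hU
  set co : ℕ × ℕ × ℕ × ℕ × ℕ → ℝ := fun i =>
    if i.2.2.2.1 * i.2.2.2.2 = i.1 * (i.2.1 * i.2.2.1) ^ 2 then
      2 * C0 ^ 2 * (1 / Real.sqrt i.1) * PP i.1 i.2.1 else 0 with hco'
  set I : Finset (ℕ × ℕ × ℕ × ℕ × ℕ) :=
    Icc 1 (N ^ 2) ×ˢ Icc 1 (N ^ 2) ×ˢ Icc 1 (N ^ 2) ×ˢ Icc 1 N ×ˢ Icc 1 N with hI
  have hsw := swap2 I co (fun i => U i.2.2.2.1) (fun i => U i.2.2.2.2) Da F
    (fun d => EA p N d (1 / (p.r * (d : ℝ)))) (fun d => ee (θ * d)) (Set.Ioi z0) measurableSet_Ioi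
    hint hE ?_ ?_ ?_
  · refine hsw.trans ?_
    rw [hI]
    simp only [Finset.sum_product]
    rw [Finset.mul_sum]
    rw [Finset.sum_comm]
    apply sum_le_sum
    intro g hg
    rw [Finset.mul_sum]
    rw [Finset.sum_comm]
    apply sum_le_sum
    intro v hv
    rw [Finset.mul_sum, Finset.mul_sum]
    apply sum_le_sum
    intro s hs
    rw [mem_Icc] at hs hg hv
    have hs0 : (0 : ℝ) < s := by exact_mod_cast hs.1
    have hg0 : (0 : ℝ) < g := by exact_mod_cast hg.1
    have hv0 : (0 : ℝ) < v := by exact_mod_cast hv.1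
    have hsp : 0 < Real.sqrt s := Real.sqrt_pos.2 hs0
    have hss : Real.sqrt s * Real.sqrt s = s := Real.mul_self_sqrt hs0.le
    set m : ℕ := s * (g * v) ^ 2 with hm
    have hm1 : 1 ≤ m := by
      have h1 : 0 < s := hs.1
      have h2 : 0 < g := hg.1
      have h3 : 0 < v := hv.1
      have : 0 < s * (g * v) ^ 2 := by positivity
      exact this
    set Ex : ℝ := Real.exp (-((s : ℝ) * ((g : ℝ) * v) ^ 2 / (8 * X))) with hEx
    have hterm : ∀ n ∈ Icc 1 N, ∀ n' ∈ Icc 1 N,
        co (s, g, v, n, n') * ((∫ w in Set.Ioi z0, U n w) * ∫ w in Set.Ioi z0, U n' w) ≤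
        (2 * C0 ^ 2 * C1 ^ 2 * (1 / (g * v) * (1 / s * Ex * PP s g))) * (if n * n' = m then (1 : ℝ) else 0) := by
      intro n hn n' hn'
      rw [mem_Icc] at hn hn'
      rw [hco']
      simp only
      by_cases h : n * n' = m
      · rw [if_pos h, if_pos h, mul_one]
        have h1 := (kin n z0 hn.1 hz0p).2
        have h2 := (kin n' z0 hn'.1 hz0p).2
        have hn0 : (0 : ℝ) < n := by exact_mod_cast hn.1
        have hn0' : (0 : ℝ) < n' := by exact_mod_cast hn'.1
        have i1 : 0 ≤ ∫ w in Set.Ioi z0, U n' w := by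
          apply setIntegral_nonneg measurableSet_Ioi
          intro w hw
          have hw0 : 0 < w := lt_trans hz0p hw
          exact mul_nonneg (Real.rpow_nonneg hw0.le _) (kap_nonneg (by positivity))
        have h3 : (∫ w in Set.Ioi z0, U n w) * ∫ w in Set.Ioi z0, U n' w ≤
            (C1 / Real.sqrt n * Real.exp (-((n : ℝ) ^ 2 * z0 / 2))) *
              (C1 / Real.sqrt n' * Real.exp (-((n' : ℝ) ^ 2 * z0 / 2))) :=
          mul_le_mul h1 h2 i1 (by positivity)
        have hsq : Real.sqrt n * Real.sqrt n' = Real.sqrt s * (g * v) := by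
          rw [← Real.sqrt_mul hn0.le]
          have : (n : ℝ) * n' = s * (g * v) ^ 2 := by exact_mod_cast h
          rw [this, Real.sqrt_mul hs0.le, Real.sqrt_sq (by positivity)]
        have hex : Real.exp (-((n : ℝ) ^ 2 * z0 / 2)) * Real.exp (-((n' : ℝ) ^ 2 * z0 / 2)) ≤ Ex := by
          rw [← Real.exp_add, hEx, Real.exp_le_exp]
          have e1 : (s : ℝ) * ((g : ℝ) * v) ^ 2 = n * n' := by
            have : (n : ℝ) * n' = s * (g * v) ^ 2 := by exact_mod_cast h
            linarith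
          rw [e1]
          have e2 : (n : ℝ) * n' / (8 * X) ≤ n * n' * z0 := by
            calc (n : ℝ) * n' / (8 * X) = n * n' * (1 / (8 * X)) := by ring
              _ ≤ _ := mul_le_mul_of_nonneg_left hz8 (by positivity)
          have e3 : (n : ℝ) * n' * z0 ≤ (n : ℝ) ^ 2 * z0 / 2 + (n' : ℝ) ^ 2 * z0 / 2 := by
            nlinarith [mul_nonneg (sq_nonneg ((n : ℝ) - n')) hz0p.le]
          linarith
        calc 2 * C0 ^ 2 * (1 / Real.sqrt s) * PP s g *
              ((∫ w in Set.Ioi z0, U n w) * ∫ w in Set.Ioi z0, U n' w)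
            ≤ 2 * C0 ^ 2 * (1 / Real.sqrt s) * PP s g *
              ((C1 / Real.sqrt n * Real.exp (-((n : ℝ) ^ 2 * z0 / 2))) *
              (C1 / Real.sqrt n' * Real.exp (-((n' : ℝ) ^ 2 * z0 / 2)))) := by
              apply mul_le_mul_of_nonneg_left h3
              have := hPP0 s g
              positivity
          _ = 2 * C0 ^ 2 * (1 / Real.sqrt s) * PP s g * (C1 ^ 2 / (Real.sqrt n * Real.sqrt n')) *
              (Real.exp (-((n : ℝ) ^ 2 * z0 / 2)) * Real.exp (-((n' : ℝ) ^ 2 * z0 / 2))) := by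
              have g1 : Real.sqrt n ≠ 0 := (Real.sqrt_pos.2 hn0).ne'
              have g2 : Real.sqrt n' ≠ 0 := (Real.sqrt_pos.2 hn0').ne'
              field_simp
          _ ≤ 2 * C0 ^ 2 * (1 / Real.sqrt s) * PP s g * (C1 ^ 2 / (Real.sqrt n * Real.sqrt n')) * Ex := by
              apply mul_le_mul_of_nonneg_left hex
              have := hPP0 s g
              positivity
          _ = 2 * C0 ^ 2 * C1 ^ 2 * (1 / (g * v) * (1 / (Real.sqrt s * Real.sqrt s) * Ex * PP s g)) := by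
              rw [hsq]
              field_simp
          _ = _ := by rw [hss]
      · rw [if_neg h, if_neg h, mul_zero, zero_mul]
    calc ∑ n ∈ Icc 1 N, ∑ n' ∈ Icc 1 N,
          co (s, g, v, n, n') * ((∫ w in Set.Ioi z0, U n w) * ∫ w in Set.Ioi z0, U n' w)
        ≤ ∑ n ∈ Icc 1 N, ∑ n' ∈ Icc 1 N,
          (2 * C0 ^ 2 * C1 ^ 2 * (1 / (g * v) * (1 / s * Ex * PP s g))) * (if n * n' = m then (1 : ℝ) else 0) :=
          sum_le_sum fun n hn => sum_le_sum fun n' hn' => hterm n hn n' hn'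
      _ = (2 * C0 ^ 2 * C1 ^ 2 * (1 / (g * v) * (1 / s * Ex * PP s g))) *
          ∑ n ∈ Icc 1 N, ∑ n' ∈ Icc 1 N, (if n * n' = m then (1 : ℝ) else 0) := by
          simp_rw [Finset.mul_sum]
      _ ≤ (2 * C0 ^ 2 * C1 ^ 2 * (1 / (g * v) * (1 / s * Ex * PP s g))) *
          (tau s * (tau (g ^ 2) * tau (v ^ 2))) := by
          apply mul_le_mul_of_nonneg_left
          · refine (pairs_card N m hm1).trans ?_
            have t1 := tauS.1 s ((g * v) ^ 2) hs.1 (Nat.pos_of_ne_zero (by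
              have : 0 < (g * v) ^ 2 := by
                have h2 : 0 < g := hg.1
                have h3 : 0 < v := hv.1
                positivity
              omega))
            have t2 := tauS.1 (g ^ 2) (v ^ 2) (Nat.pos_of_ne_zero (by
              have h2 : 0 < g := hg.1
              positivity)) (Nat.pos_of_ne_zero (by
              have h3 : 0 < v := hv.1
              positivity))
            rw [← mul_pow] at t2
            refine t1.trans (mul_le_mul_of_nonneg_left t2 ?_)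
            unfold tau
            positivity
          · have := hPP0 s g
            have h5 : 0 ≤ Ex := (Real.exp_pos _).le
            positivity
      _ = _ := by
          rw [hPP]
          field_simp
  · intro i hi
    rw [hI] at hi
    simp only [Finset.mem_product, mem_Icc] at hi
    exact (kin i.2.2.2.1 z0 hi.2.2.2.1.1 hz0p).1
  · intro i hi
    rw [hI] at hi
    simp only [Finset.mem_product, mem_Icc] at hi
    exact (kin i.2.2.2.2 z0 hi.2.2.2.2.1 hz0p).1
  · intro w hw w' hw'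
    rw [Set.mem_Ioi] at hw hw'
    have hw0 : 0 < w := lt_trans hz0p hw
    have hw0' : 0 < w' := lt_trans hz0p hw'
    set D0 : ℕ := max ⌊1 / (p.r * w)⌋₊ ⌊1 / (p.r * w')⌋₊ with hD0
    have e3 : ∑ d ∈ Da, ee (θ * d) * ((F d w * F d w' : ℝ) : ℂ) =
        ((w ^ (-(3 / 4) : ℝ) * w' ^ (-(3 / 4) : ℝ) : ℝ) : ℂ) *
          ∑ d ∈ (Ioc D0 X).filter (fun d => a ^ 2 ∣ d ∧ d % 8 = c),
          ee (θ * d) * (NA p.e (kk (kw p N w) (kw p N w') N) (N ^ 2) d : ℂ) := by
      have hset : (Ioc D0 X).filter (fun d => a ^ 2 ∣ d ∧ d % 8 = c) =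
          Da.filter (fun d : ℕ => 1 / (p.r * (d : ℝ)) < w ∧ 1 / (p.r * (d : ℝ)) < w') := by
        ext d
        simp only [hDa, mem_filter, mem_Ioc, mem_Icc]
        have hiff : ∀ w : ℝ, 0 < w → ∀ hd : 1 ≤ d, (⌊1 / (p.r * w)⌋₊ < d ↔ 1 / (p.r * (d : ℝ)) < w) := by
          intro w hw0 hd
          have hd0 : (0 : ℝ) < d := by exact_mod_cast hd
          rw [Nat.floor_lt (by positivity), div_lt_iff₀ (by positivity),
            div_lt_iff₀ (by positivity)]
          constructor <;> intro h <;> nlinarith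
        rw [hD0, max_lt_iff]
        constructor
        · rintro ⟨⟨h1, h2⟩, h3⟩
          exact ⟨⟨⟨by omega, h2⟩, h3⟩, (hiff w hw0 (by omega)).1 h1.1, (hiff w' hw0' (by omega)).1 h1.2⟩
        · rintro ⟨⟨⟨h1, h2⟩, h3⟩, h4⟩
          exact ⟨⟨⟨(hiff w hw0 h1).2 h4.1, (hiff w' hw0' h1).2 h4.2⟩, h2⟩, h3⟩
      rw [hset, Finset.sum_filter (s := Da), Finset.mul_sum]
      apply sum_congr rfl
      intro d _
      by_cases h : 1 / (p.r * (d : ℝ)) < w ∧ 1 / (p.r * (d : ℝ)) < w'
      · rw [if_pos h, hF]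
        simp only
        rw [Set.indicator_of_mem (Set.mem_Ioi.2 h.1), Set.indicator_of_mem (Set.mem_Ioi.2 h.2)]
        rw [← NA_mul]
        simp only [hf]
        push_cast
        ring
      · rw [if_neg h, mul_zero, hF]
        simp only
        by_cases h1 : 1 / (p.r * (d : ℝ)) < w
        · have h2 : ¬ 1 / (p.r * (d : ℝ)) < w' := fun hh => h ⟨h1, hh⟩
          rw [Set.indicator_of_notMem (s := Set.Ioi (1 / (p.r * (d : ℝ)))) (a := w')
            (fun hh => h2 (Set.mem_Ioi.1 hh))]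
          simp
        · rw [Set.indicator_of_notMem (s := Set.Ioi (1 / (p.r * (d : ℝ)))) (a := w)
            (fun hh => h1 (Set.mem_Ioi.1 hh))]
          simp
    rw [e3, norm_mul, Complex.norm_real, Real.norm_eq_abs, abs_of_nonneg
      (mul_nonneg (Real.rpow_nonneg hw0.le _) (Real.rpow_nonneg hw0'.le _))]
    set κ : ℕ → ℝ := fun n => kap ((n : ℝ) ^ 2 * w) with hκ
    set κ' : ℕ → ℝ := fun n => kap ((n : ℝ) ^ 2 * w') with hκ'
    have hκ0 : ∀ n, 0 ≤ κ n := fun n => kap_nonneg (by positivity)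
    have hκ0' : ∀ n, 0 ≤ κ' n := fun n => kap_nonneg (by positivity)
    have h1 := ptw p.e hp.1 (kk (kw p N w) (kw p N w') N) (fun m => C0 ^ 2 * kk κ κ' N m) ?_ ?_
      c a D0 X (N ^ 2) θ hc8 hco ha
    · refine (mul_le_mul_of_nonneg_left h1
        (mul_nonneg (Real.rpow_nonneg hw0.le _) (Real.rpow_nonneg hw0'.le _))).trans (le_of_eq ?_)
      rw [hI]
      simp only [Finset.sum_product]
      rw [mul_left_comm, Finset.mul_sum, Finset.mul_sum]
      apply sum_congr rfl
      intro s _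
      rw [Finset.mul_sum, Finset.mul_sum]
      apply sum_congr rfl
      intro g _
      rw [Finset.mul_sum, Finset.mul_sum]
      apply sum_congr rfl
      intro v _
      unfold kk
      simp only [Finset.mul_sum, Finset.sum_mul]
      apply sum_congr rfl
      intro n _
      apply sum_congr rfl
      intro n' _
      rw [hco', hU, hPP]
      simp only
      by_cases h : n * n' = s * (g * v) ^ 2
      · rw [if_pos h, if_pos h]
        ring
      · rw [if_neg h, if_neg h]
        ring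
    · intro m _
      unfold kk
      rw [Finset.mul_sum]
      refine (Finset.abs_sum_le_sum_abs _ _).trans (sum_le_sum fun n hn => ?_)
      rw [Finset.mul_sum]
      refine (Finset.abs_sum_le_sum_abs _ _).trans (sum_le_sum fun n' hn' => ?_)
      rw [mem_Icc] at hn hn'
      by_cases h : n * n' = m
      · rw [if_pos h, if_pos h, abs_mul]
        have a1 := k0 p hp N n w hn.1 hw0
        have a2 := k0 p hp N n' w' hn'.1 hw0'
        calc |kw p N w n| * |kw p N w' n'| ≤ (C0 * κ n) * (C0 * κ' n') :=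
              mul_le_mul a1 a2 (abs_nonneg _) (mul_nonneg hC00.le (hκ0 n))
          _ = _ := by ring
      · rw [if_neg h, if_neg h, abs_zero, mul_zero]
    · intro m
      apply mul_nonneg (by positivity)
      unfold kk
      apply sum_nonneg
      intro n _
      apply sum_nonneg
      intro n' _
      split_ifs
      · exact mul_nonneg (hκ0 n) (hκ0' n')
      · exact le_rfl

end

end Pool.Agent.H28.BR3
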