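import Pool.Agent.H28.BR.Stm4
import Pool.Agent.H28.BR.SQK

set_option autoImplicit false

/-! Project BR3: from the twisted sums to arcs and residue classes. -/

namespace Pool.Agent.H28.BR3

open Finset Filter Topology MeasureTheory Pool.Agent.H306R2.RZ Pool.Agent.H306R2.RG
  Pool.Agent.Q122.FM Pool.Agent.H28.BR
open Pool.Agent.Helper112 (ee)

noncomputable section

theorem lg_pos {X : ℕ} (hX : 1 ≤ X) : 1 ≤ lg X := by
  unfold lg
  have : 0 ≤ Real.log X := Real.log_nonneg (by exact_mod_cast hX)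
  linarith

theorem tot_pos (ord : S_ORD) (ε : ℤ) (hε : ε = 1 ∨ ε = -1) :
    ∀ᶠ X : ℕ in atTop, 0 < ∑ n ∈ Ioc 1 X, Lf ε n ^ 2 := by
  obtain ⟨c, X1, hc, h1⟩ := ord
  filter_upwards [eventually_ge_atTop X1, eventually_ge_atTop 1] with X hX hX1
  have hX0 : (0 : ℝ) < X := by exact_mod_cast hX1
  have hl := lg_pos hX1
  exact lt_of_lt_of_le (by positivity) (h1 ε hε X hX)

/-- the twisted sums are small compared with the sum -/
theorem twist (ord : S_ORD) (ir2 : S_IR2) (ε : ℤ) (hε : ε = 1 ∨ ε = -1) (θ : ℝ) (hθ : Irrational θ) :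
    Tendsto (fun X : ℕ => ‖∑ n ∈ Ioc 1 X, ((Lf ε n ^ 2 : ℝ) : ℂ) * ee (θ * n)‖ /
      ∑ n ∈ Ioc 1 X, Lf ε n ^ 2) atTop (𝓝 0) := by
  obtain ⟨c, X1, hc, h1⟩ := ord
  rw [Metric.tendsto_atTop]
  intro δ hδ
  obtain ⟨X2, h2⟩ := ir2 θ hθ ε hε (δ * c / 2) (by positivity)
  refine ⟨max 1 (max X1 X2), fun X hX => ?_⟩
  have hX1 : 1 ≤ X := (le_max_left _ _).trans hX
  have hX0 : (0 : ℝ) < X := by exact_mod_cast hX1
  have hl := lg_pos hX1
  have hP : 0 < (X : ℝ) * lg X ^ 3 := by positivity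
  have a1 := h1 ε hε X ((le_max_left _ _).trans ((le_max_right _ _).trans hX))
  have a2 := h2 X ((le_max_right _ _).trans ((le_max_right _ _).trans hX))
  have hS : 0 < ∑ n ∈ Ioc 1 X, Lf ε n ^ 2 := lt_of_lt_of_le (by positivity) a1
  rw [Real.dist_eq, sub_zero, abs_of_nonneg (by positivity), div_lt_iff₀ hS]
  calc ‖∑ n ∈ Ioc 1 X, ((Lf ε n ^ 2 : ℝ) : ℂ) * ee (θ * n)‖ ≤ δ * c / 2 * (X * lg X ^ 3) := a2
    _ < δ * (c * (X * lg X ^ 3)) := by nlinarith [mul_pos hδ (mul_pos hc hP)]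
    _ ≤ _ := mul_le_mul_of_nonneg_left a1 hδ.le

/-- arcs and residue classes, general nonnegative weights -/
theorem arcs (wey : S_WEY) (uni : S_UNI) (cls : S_CLS) (w : ℕ → ℝ) (hw : ∀ n, 0 ≤ w n)
    (hS : ∀ᶠ X : ℕ in atTop, 0 < ∑ n ∈ Ioc 1 X, w n)
    (tw : ∀ θ : ℝ, Irrational θ → Tendsto (fun X : ℕ => ‖∑ n ∈ Ioc 1 X, (w n : ℂ) * ee (θ * n)‖ /
      ∑ n ∈ Ioc 1 X, w n) atTop (𝓝 0))
    (α : ℝ) (hα : Irrational α) (q b : ℕ) (hq : 1 ≤ q) (δ : ℝ) (hδ : 0 < δ) :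
    ∃ X0 : ℕ, ∀ X : ℕ, X0 ≤ X → ∀ β v : ℝ, 0 ≤ v → v ≤ 1 →
    |∑ n ∈ (Ioc 1 X).filter (fun n : ℕ => n % q = b ∧ Int.fract (α * n + β) < v), w n -
      v * ∑ n ∈ (Ioc 1 X).filter (fun n : ℕ => n % q = b), w n| ≤ δ * ∑ n ∈ Ioc 1 X, w n := by
  have hirr : ∀ h : ℕ, 1 ≤ h → Irrational ((h : ℝ) * α) := fun h hh => hα.natCast_mul (by omega)
  set W : ℕ → ℝ := fun n => w n + if n % q = b then w n else 0 with hW
  have hW0 : ∀ n, 0 ≤ W n := by
    intro n
    have := hw n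
    simp only [hW]
    split_ifs <;> linarith
  have hWs : ∀ s : Finset ℕ, ∑ n ∈ s, W n = ∑ n ∈ s, w n + ∑ n ∈ s.filter (fun n => n % q = b), w n := by
    intro s
    rw [Finset.sum_filter, ← Finset.sum_add_distrib]
  have hfl : ∀ s : Finset ℕ, ∑ n ∈ s.filter (fun n => n % q = b), w n ≤ ∑ n ∈ s, w n := fun s =>
    Finset.sum_le_sum_of_subset_of_nonneg (Finset.filter_subset _ _) (fun n _ _ => hw n)
  have hfl0 : ∀ s : Finset ℕ, 0 ≤ ∑ n ∈ s.filter (fun n => n % q = b), w n := fun s =>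
    Finset.sum_nonneg fun n _ => hw n
  have hWpos : ∀ᶠ X : ℕ in atTop, 0 < ∑ n ∈ Ioc 1 X, W n := by
    filter_upwards [hS] with X hX
    rw [hWs]
    have := hfl0 (Ioc 1 X)
    linarith
  have u1 := uni w α hw hS (wey w α hw hS (fun h hh => by
    have := tw _ (hirr h hh)
    exact this)) (δ / 3) (by positivity)
  have u2 := uni W α hW0 hWpos (wey W α hW0 hWpos (fun h hh => by
    have t1 := tw _ (hirr h hh)
    have t2 := cls w hw hS tw q b hq _ (hirr h hh)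
    have t3 := t1.add t2
    rw [add_zero] at t3
    apply squeeze_zero' _ _ t3
    · filter_upwards [hWpos] with X hX
      positivity
    · filter_upwards [hS, hWpos] with X hX hX'
      rw [← add_div]
      have e1 : ∑ n ∈ Ioc 1 X, (W n : ℂ) * ee (h * α * n) = ∑ n ∈ Ioc 1 X, (w n : ℂ) * ee (h * α * n) +
          ∑ n ∈ (Ioc 1 X).filter (fun n => n % q = b), (w n : ℂ) * ee (h * α * n) := by
        rw [Finset.sum_filter, ← Finset.sum_add_distrib]
        apply sum_congr rfl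
        intro n _
        simp only [hW]
        split_ifs
        · push_cast; ring
        · push_cast; ring
      rw [e1]
      apply div_le_div₀ (by positivity) (norm_add_le _ _) hX
      rw [hWs]
      have := hfl0 (Ioc 1 X)
      linarith)) (δ / 3) (by positivity)
  obtain ⟨X1, u1⟩ := u1
  obtain ⟨X2, u2⟩ := u2
  refine ⟨max X1 X2, fun X hX β v hv hv1 => ?_⟩
  have a1 := u1 X ((le_max_left _ _).trans hX) β v hv hv1
  have a2 := u2 X ((le_max_right _ _).trans hX) β v hv hv1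
  rw [hWs, hWs] at a2
  have e2 : ((Ioc 1 X).filter (fun n : ℕ => Int.fract (α * n + β) < v)).filter (fun n => n % q = b) =
      (Ioc 1 X).filter (fun n : ℕ => n % q = b ∧ Int.fract (α * n + β) < v) := by
    rw [Finset.filter_filter]
    apply Finset.filter_congr
    intro n _
    exact and_comm
  rw [e2] at a2
  have h3 := hfl (Ioc 1 X)
  have h4 := hfl0 (Ioc 1 X)
  set A := ∑ n ∈ (Ioc 1 X).filter (fun n : ℕ => Int.fract (α * n + β) < v), w n
  set B := ∑ n ∈ (Ioc 1 X).filter (fun n : ℕ => n % q = b ∧ Int.fract (α * n + β) < v), w n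
  set Cc := ∑ n ∈ (Ioc 1 X).filter (fun n : ℕ => n % q = b), w n
  set T := ∑ n ∈ Ioc 1 X, w n
  rw [abs_le] at a1 a2 ⊢
  have h5 : δ / 3 * Cc ≤ δ / 3 * T := mul_le_mul_of_nonneg_left h3 (by positivity)
  constructor <;> linarith

end

end Pool.Agent.H28.BR3
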