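import Pool.Agent.H28.BR.Stm3
import Pool.Agent.H28.BR.All2

set_option autoImplicit false

/-! Project BR3: the order of the second moment, lower bound. -/

namespace Pool.Agent.H28.BR3

open Finset Filter Topology MeasureTheory Pool.Agent.H306R2.RZ Pool.Agent.H306R2.RG
  Pool.Agent.Q122.FM Pool.Agent.H28.BR
open Pool.Agent.Helper112 (ee)

noncomputable section

theorem not_liouville_sqrt_two : ¬ Liouville (Real.sqrt 2) := by
  intro h
  apply h.transcendental
  refine ⟨Polynomial.X ^ 2 - Polynomial.C 2, ?_, ?_⟩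
  · exact Polynomial.X_pow_sub_C_ne_zero (by norm_num) _
  · rw [map_sub, map_pow, Polynomial.aeval_X, Polynomial.aeval_C, Real.sq_sqrt (by norm_num)]
    norm_num

theorem t_ORD : S_ORD := by
  obtain ⟨c, τ, hc, hτ, h1, -⟩ := Pool.Agent.H28.BR.nlv (Real.sqrt 2) irrational_sqrt_two
    not_liouville_sqrt_two
  obtain ⟨c₀, δ, X0, hc₀, hδ, hb⟩ := Pool.Agent.H28.BR2.low 2 (by norm_num) (Real.sqrt 2) c τ ⟨hc, hτ, h1⟩
  refine ⟨c₀ / 8, max X0 3, by positivity, ?_⟩
  intro ε hε X hX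
  have hX3 : 3 ≤ X := (le_max_right _ _).trans hX
  have hX0 : (3 : ℝ) ≤ X := by exact_mod_cast hX3
  have h2 := hb ε hε X ((le_max_left _ _).trans hX) 1 0 (Real.rpow_le_one_of_one_le_of_nonpos
    (by linarith) (by linarith)) le_rfl
  have hlog : 1 ≤ Real.log X := by
    rw [Real.le_log_iff_exp_le (by linarith)]
    have := Real.exp_one_lt_d9
    linarith
  have hl : lg X ≤ 2 * Real.log X := by
    unfold lg
    linarith
  have hl0 : 0 ≤ lg X := by
    unfold lg
    linarith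
  have e1 : ∑ n ∈ (Ioc 1 X).filter (fun n : ℕ => Int.fract (Real.sqrt 2 * n + 0) < 1), |Lf ε n| ^ 2 =
      ∑ n ∈ Ioc 1 X, Lf ε n ^ 2 := by
    rw [Finset.filter_true_of_mem (fun n _ => Int.fract_lt_one _)]
    apply sum_congr rfl
    intro n _
    rw [sq_abs]
  rw [e1] at h2
  refine le_trans ?_ h2
  have h3 : lg X ^ 3 ≤ 8 * Real.log X ^ 3 := by
    calc lg X ^ 3 ≤ (2 * Real.log X) ^ 3 := pow_le_pow_left₀ hl0 hl 3
      _ = _ := by ring
  calc c₀ / 8 * (X * lg X ^ 3) ≤ c₀ / 8 * (X * (8 * Real.log X ^ 3)) := by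
        apply mul_le_mul_of_nonneg_left _ (by positivity)
        apply mul_le_mul_of_nonneg_left h3 (by linarith)
    _ = c₀ * 1 * X * Real.log X ^ (2 * (2 + 1) / 2) := by
        norm_num
        ring

end

end Pool.Agent.H28.BR3
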