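import Pool.Agent.H28.BR.Stm4

set_option autoImplicit false

/-! Project BR3: uniformity in the arc. -/

namespace Pool.Agent.H28.BR3

open Finset Filter Topology

noncomputable section

theorem fract_of {x y : ℝ} (m : ℤ) (h : x = m + y) (h0 : 0 ≤ y) (h1 : y < 1) : Int.fract x = y := by
  rw [Int.fract_eq_iff]
  exact ⟨h0, h1, m, by rw [h]; ring⟩

theorem arc_mono {x t v v' : ℝ} (ht : 0 ≤ t) (hv : v + t ≤ v' ∨ 1 ≤ v') (hx : Int.fract x < v) :
    Int.fract (x + t) < v' := by
  by_cases h1 : 1 ≤ v'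
  · exact lt_of_lt_of_le (Int.fract_lt_one _) h1
  · rcases hv with hv | hv
    · have h2 : Int.fract (x + t) = Int.fract x + t := by
        apply fract_of ⌊x⌋
        · have := Int.floor_add_fract x
          linarith
        · have := Int.fract_nonneg x
          linarith
        · push Not at h1
          linarith
      rw [h2]
      linarith
    · exact absurd hv h1

theorem arc_compl {x v : ℝ} (hv : 0 ≤ v) (hx : ¬ Int.fract x < v) : Int.fract (x - v) < 1 - v := by
  push Not at hx
  have h2 : Int.fract (x - v) = Int.fract x - v := by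
    apply fract_of ⌊x⌋
    · have := Int.floor_add_fract x
      linarith
    · linarith
    · have := Int.fract_lt_one x
      linarith
  rw [h2]
  have := Int.fract_lt_one x
  linarith

theorem t_UNI : S_UNI := by
  intro w α hw hS hlim δ hδ
  obtain ⟨K, hK⟩ := exists_nat_gt (4 / δ)
  have hK0 : (0 : ℝ) < K := lt_trans (by positivity) hK
  have hK1 : 1 ≤ K := by
    have : 0 < K := by exact_mod_cast hK0
    exact this
  have h2K : 2 / (K : ℝ) ≤ δ / 2 := by
    rw [div_le_iff₀ hK0]
    rw [div_lt_iff₀ hδ] at hK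
    nlinarith
  have hev : ∀ᶠ X : ℕ in atTop, ∀ j ∈ range K, ∀ i ∈ range (K + 1),
      ∑ n ∈ (Ioc 1 X).filter (fun n : ℕ => Int.fract (α * n + (j : ℝ) / K) < (i : ℝ) / K), w n ≤
        ((i : ℝ) / K + δ / 2) * ∑ n ∈ Ioc 1 X, w n := by
    rw [Filter.eventually_all_finset]
    intro j _
    rw [Filter.eventually_all_finset]
    intro i hi
    rw [mem_range] at hi
    have hi1 : (i : ℝ) / K ≤ 1 := by
      rw [div_le_one hK0]
      exact_mod_cast (by omega : i ≤ K)
    have h1 := hlim ((j : ℝ) / K) ((i : ℝ) / K) (by positivity) hi1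
    have h2 := h1.eventually_le_const (show (i : ℝ) / K < (i : ℝ) / K + δ / 2 by linarith)
    filter_upwards [h2, hS] with X hX hX0
    rwa [div_le_iff₀ hX0] at hX
  obtain ⟨X0, hX0⟩ := eventually_atTop.1 (hev.and hS)
  have upper : ∀ X : ℕ, X0 ≤ X → ∀ β v : ℝ, 0 ≤ v → v ≤ 1 →
      ∑ n ∈ (Ioc 1 X).filter (fun n : ℕ => Int.fract (α * n + β) < v), w n ≤
        (v + δ) * ∑ n ∈ Ioc 1 X, w n := by
    intro X hX β v hv hv1
    obtain ⟨hg, hT⟩ := hX0 X hX
    set J : ℤ := ⌈(K : ℝ) * β⌉ with hJ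
    set j : ℕ := (J % (K : ℤ)).toNat with hj
    have hKz : (0 : ℤ) < K := by exact_mod_cast hK1
    have hjz : (j : ℤ) = J % (K : ℤ) := by
      rw [hj, Int.toNat_of_nonneg (Int.emod_nonneg _ hKz.ne')]
    have hjK : j < K := by
      have := Int.emod_lt_of_pos J hKz
      omega
    set i : ℕ := min K ⌈(K : ℝ) * v + 1⌉₊ with hi
    have hiK : i < K + 1 := by
      have : i ≤ K := min_le_left _ _
      omega
    have hJd : (J : ℝ) / K = (J / (K : ℤ) : ℤ) + (j : ℝ) / K := by
      have h1 : J = K * (J / (K : ℤ)) + j := by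
        rw [hjz]
        exact (Int.mul_ediv_add_emod J K).symm
      have h2 : (J : ℝ) = K * ((J / (K : ℤ) : ℤ) : ℝ) + j := by exact_mod_cast h1
      rw [h2]
      field_simp
    have ht0 : 0 ≤ (J : ℝ) / K - β := by
      have := Int.le_ceil ((K : ℝ) * β)
      rw [sub_nonneg, le_div_iff₀ hK0]
      linarith
    have ht1 : (J : ℝ) / K - β ≤ 1 / K := by
      have := Int.ceil_lt_add_one ((K : ℝ) * β)
      rw [sub_le_iff_le_add, div_le_iff₀ hK0, add_mul, one_div, inv_mul_cancel₀ hK0.ne']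
      linarith
    have hsub : (Ioc 1 X).filter (fun n : ℕ => Int.fract (α * n + β) < v) ⊆
        (Ioc 1 X).filter (fun n : ℕ => Int.fract (α * n + (j : ℝ) / K) < (i : ℝ) / K) := by
      intro n hn
      rw [mem_filter] at hn ⊢
      refine ⟨hn.1, ?_⟩
      have h1 : Int.fract (α * n + β + ((J : ℝ) / K - β)) < (i : ℝ) / K := by
        apply arc_mono ht0 _ hn.2
        rcases le_total K ⌈(K : ℝ) * v + 1⌉₊ with h | h
        · right
          rw [hi, min_eq_left h, div_self hK0.ne']
        · left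
          rw [hi, min_eq_right h]
          have h3 := Nat.le_ceil ((K : ℝ) * v + 1)
          have h4 : v + 1 / K ≤ (⌈(K : ℝ) * v + 1⌉₊ : ℝ) / K := by
            rw [le_div_iff₀ hK0, add_mul, one_div, inv_mul_cancel₀ hK0.ne']
            linarith
          linarith
      have h2 : α * n + β + ((J : ℝ) / K - β) = α * n + (j : ℝ) / K + (J / (K : ℤ) : ℤ) := by
        rw [hJd]
        ring
      rw [h2, Int.fract_add_intCast] at h1
      exact h1
    have hiv : (i : ℝ) / K ≤ v + 2 / K := by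
      have h1 : (i : ℝ) ≤ (⌈(K : ℝ) * v + 1⌉₊ : ℝ) := by exact_mod_cast min_le_right _ _
      have h2 := Nat.ceil_lt_add_one (show 0 ≤ (K : ℝ) * v + 1 by positivity)
      rw [div_le_iff₀ hK0, add_mul, div_mul_cancel₀ _ hK0.ne']
      linarith
    refine (Finset.sum_le_sum_of_subset_of_nonneg hsub (fun n _ _ => hw n)).trans ?_
    refine (hg j (mem_range.2 hjK) i (mem_range.2 hiK)).trans ?_
    apply mul_le_mul_of_nonneg_right _ hT.le
    linarith
  refine ⟨X0, fun X hX β v hv hv1 => ?_⟩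
  have hT := (hX0 X hX).2
  have u1 := upper X hX β v hv hv1
  have u2 := upper X hX (β - v) (1 - v) (by linarith) (by linarith)
  have hsplit := Finset.sum_filter_add_sum_filter_not (Ioc 1 X)
    (fun n : ℕ => Int.fract (α * n + β) < v) w
  have hsub2 : (Ioc 1 X).filter (fun n : ℕ => ¬ Int.fract (α * n + β) < v) ⊆
      (Ioc 1 X).filter (fun n : ℕ => Int.fract (α * n + (β - v)) < 1 - v) := by
    intro n hn
    rw [mem_filter] at hn ⊢
    refine ⟨hn.1, ?_⟩
    have := arc_compl hv hn.2
    rwa [add_sub_assoc] at this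
  have h3 := Finset.sum_le_sum_of_subset_of_nonneg (f := w) hsub2 (fun n _ _ => hw n)
  set A := ∑ n ∈ (Ioc 1 X).filter (fun n : ℕ => Int.fract (α * n + β) < v), w n
  set B := ∑ n ∈ (Ioc 1 X).filter (fun n : ℕ => ¬ Int.fract (α * n + β) < v), w n
  set D := ∑ n ∈ (Ioc 1 X).filter (fun n : ℕ => Int.fract (α * n + (β - v)) < 1 - v), w n
  set T := ∑ n ∈ Ioc 1 X, w n
  rw [abs_le]
  constructor
  · nlinarith
  · nlinarith

end

end Pool.Agent.H28.BR3
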