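import Pool.Agent.H28.BR.Stm2

set_option autoImplicit false

/-!
# Project BR3 (helper28), MP_ea46f5_nt: the second moment of `L(1/2, χ_D)` is equidistributed along every
irrational rotation

For every irrational `α`, all `β` and `0 ≤ v ≤ 1`:
`∑_{n ≤ X, fract (α n + β) < v} L(1/2, χ_{± n})² / ∑_{n ≤ X} L(1/2, χ_{± n})² → v`.

`js, EN, ES, EA, NA, kap, kw, Par, RA, Psi, gd, nd, lg, Lf` as in `H28/BR/Stm.lean` and the library `Q122.FM.Stm`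
(all statements of the latter without hypotheses: `Pool.Graph.R_pool_sql_team_seeded_3997aac3.Q122.FM.All`,
names `Pool.Agent.Q122.FM.ls1, ker, igf, ra, rep, frz, fdd`; those of BR: `Pool.Agent.H28.BR.All`, names
`Pool.Agent.H28.BR.aps, ptw, kra, kin, vsm, gwe, ...`; `Pool.Agent.H28.BR.t_FAR : S_FAR`).
-/

namespace Pool.Agent.H28.BR3

open Finset Filter Topology MeasureTheory Pool.Agent.H306R2.RZ Pool.Agent.H306R2.RG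
  Pool.Agent.Q122.FM Pool.Agent.H28.BR
open Pool.Agent.Helper112 (ee)

noncomputable section

/-- the number of divisors -/
def tau (n : ℕ) : ℝ := (n.divisors.card : ℝ)

/-! ### A. divisor sums and Farey fractions -/

/-- TAU. (1) standard. (2) `τ(s)² ≤ ∑_{a,b | s} 1`, `∑_{a,b ≤ S} 1/lcm(a,b) ≤ (∑ 1/n)³`. (3), (4):
`τ(v²) ≤ d₃(v)` (number of triples with product `v`), so `∑_{v ≤ V} τ(v²)/v ≤ (∑_{n ≤ V} 1/n)³`; with the factor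
`e^{-v²/(16 X)}`: `v ≤ X` by (3), `v > X` by `e^{-t} ≤ 1/t` and `τ(v²) ≤ 2v`. (5) `τ(g²) ≤ C g^{1/4}`. -/
def S_TAU : Prop :=
  (∀ m n : ℕ, 1 ≤ m → 1 ≤ n → tau (m * n) ≤ tau m * tau n) ∧
  (∀ S : ℕ, 1 ≤ S → ∑ s ∈ Icc 1 S, tau s ≤ S * lg S ∧ ∑ s ∈ Icc 1 S, tau s ^ 2 ≤ S * lg S ^ 3) ∧
  (∀ V : ℕ, 1 ≤ V → ∑ v ∈ Icc 1 V, tau (v ^ 2) / v ≤ lg V ^ 3) ∧
  (∃ C : ℝ, 0 < C ∧ ∀ V X : ℕ, 1 ≤ X →
    ∑ v ∈ Icc 1 V, tau (v ^ 2) / v * Real.exp (-((v : ℝ) ^ 2 / (16 * X))) ≤ C * lg X ^ 3) ∧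
  (∃ C : ℝ, 0 < C ∧ ∀ g : ℕ, 1 ≤ g → tau (g ^ 2) ≤ C * (g : ℝ) ^ (1 / 4 : ℝ))

/-- PSD: one dyadic block. For each `s` the `b` with `nd (β - b/s) < 1/(2s)` (at most one): by Cauchy-Schwarz with
`∑ τ² ≤ 2S lg(2S)³` and `gd² ≤ 2L gd`, `S_FAR`; the other `b`: `gd L x ≤ 1/nd x` and `∑ ≤ C s (1 + log s)`. -/
def S_PSD : Prop := ∃ C : ℝ, 0 < C ∧ ∀ (S : ℕ) (L β : ℝ), 1 ≤ S → 0 ≤ L →
  ∑ s ∈ Ico S (2 * S), tau s * Psi s L β ≤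
    C * lg S ^ 2 * ((S : ℝ) ^ 2 + Real.sqrt S * L + S * Real.sqrt S * Real.sqrt L)

/-- T3: dyadic blocks `2^j s₀` and PSD; `e^{-s/Y} ≤ e^{-1/(2Y)} e^{-s/(2Y)}` -/
def S_T3 : Prop := ∃ C : ℝ, 0 < C ∧ ∀ (s0 M : ℕ) (Y L β : ℝ), 1 ≤ s0 → 0 < Y → 0 ≤ L →
  ∑ s ∈ Icc s0 M, tau s / s * Real.exp (-((s : ℝ) / Y)) * Psi s L β ≤
    C * Real.exp (-(1 / (2 * Y))) * (lg s0 ^ 2 / Real.sqrt s0 * L +
      (1 + Real.log (1 + Y)) ^ 2 * (Y + Real.sqrt Y * Real.sqrt L))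

/-! ### B. the squares, `d` divisible by `a²` -/

/-- SQK: `EA(d)² = ∫∫ (w w')^{-3/4} NA_w NA_{w'}` (KRA twice; interchange as in `t_NSW`, `H28/BR/NSW.lean`),
`NA e k N d · NA e k' N d = NA e k'' (N²) d` with `k''(m) = ∑_{n n' = m, n, n' ≤ N} k(n) k'(n')`, PTW, KIN twice with
`z = 1/(8X)`: `e^{-(n² + n'²)/(16 X)} ≤ e^{-n n'/(8X)}`, `τ(s (g v)²) ≤ τ(s) τ(g²) τ(v²)`. -/
def S_SQK : Prop := ∃ C : ℝ, 0 < C ∧ ∀ p : Par, p.ok → ∀ c : ℕ, c < 8 → Odd c → ∀ a : ℕ, 1 ≤ a →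
  ∀ (X N : ℕ) (θ : ℝ), 1 ≤ X →
  ‖∑ d ∈ (Icc 1 X).filter (fun d => a ^ 2 ∣ d ∧ d % 8 = c),
      ee (θ * d) * ((EA p N d (1 / (p.r * (d : ℝ))) ^ 2 : ℝ) : ℂ)‖ ≤
    C * ∑ g ∈ Icc 1 (N ^ 2), ∑ v ∈ Icc 1 (N ^ 2), tau (g ^ 2) / g * (tau (v ^ 2) / v) *
      ∑ s ∈ Icc 1 (N ^ 2), tau s / s * Real.exp (-((s : ℝ) * ((g : ℝ) * v) ^ 2 / (8 * X))) *
        Psi s ((X : ℝ) / (8 * (Nat.lcm (a ^ 2) g : ℕ)) + 1) (8 * (Nat.lcm (a ^ 2) g : ℕ) * θ)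

/-- OFF: `g ≤ G₀`, `s ≤ S₀`: `Psi` is bounded (`θ` irrational, `gd L x ≤ 1/nd x`); `g ≤ G₀`, `s > S₀`: T3 with
`Y = 8X/(gv)²`, `s₀ = S₀ + 1`; `g > G₀`: T3 with `s₀ = 1`; sums over `v` by TAU (4). -/
def S_OFF : Prop := ∀ θ : ℝ, Irrational θ → ∀ p : Par, p.ok → ∀ c : ℕ, c < 8 → Odd c → ∀ a : ℕ, 1 ≤ a →
  ∀ δ : ℝ, 0 < δ → ∃ X0 : ℕ, ∀ X N : ℕ, X0 ≤ X →
  ‖∑ d ∈ (Icc 1 X).filter (fun d => a ^ 2 ∣ d ∧ d % 8 = c),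
      ee (θ * d) * ((EA p N d (1 / (p.r * (d : ℝ))) ^ 2 : ℝ) : ℂ)‖ ≤ δ * (X * lg X ^ 3)

/-! ### C. the tail of the squarefree numbers -/

/-- the limit of the truncated sums -/
def Einf (p : Par) (d : ℕ) (z : ℝ) : ℝ := limUnder atTop (fun N : ℕ => EA p N d z)

/-- LIM: absolute convergence over `(i, n)` -/
def S_LIMA : Prop := ∀ p : Par, p.ok → ∀ (d : ℕ) (z : ℝ), 0 < z →
  Tendsto (fun N : ℕ => EA p N d z) atTop (𝓝 (Einf p d z))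

/-- DIV: `js (e b² d) n = js (e d) n · 1_{(n,b)=1}`, `1_{(n,b)=1} = ∑_{g | n, g | b} μ(g)` (absolutely convergent
double sums) -/
def S_DIVB : Prop := ∀ p : Par, p.ok → ∀ (b d : ℕ) (z : ℝ), Odd b → 1 ≤ d → 0 < z →
  Einf p (b ^ 2 * d) z = ∑ g ∈ b.divisors, ((ArithmeticFunction.moebius g : ℤ) : ℝ) *
    (js (p.e * (d : ℤ)) g / Real.sqrt g) * Einf p d ((g : ℝ) ^ 2 * z)

/-- FEQ: as in `Q153.FM.Rep`: `Einf (par φ) d (y/(r d)) = (r d)^{-(a/2+1/4)} ∫_y^∞ thg φ d u u^{a/2-3/4} du` and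
`thg φ d (1/u) = u^{1/2+a} thg φ d u` (`H306R2.RG.LnkC.CC3`); the value at `y = 1` is `S_REP`. -/
def S_FEQ : Prop := ∀ φ : FD, Fam φ → ∀ d : ℕ, φ.A d → Squarefree d →
  Einf (par φ) d (1 / (φ.r * (d : ℝ))) = gm (1 / 2 + φ.a) / 2 * LLg φ d (1 / 2) ∧
  ∀ y : ℝ, 0 < y → Einf (par φ) d (y / (φ.r * (d : ℝ))) + Einf (par φ) d (1 / (y * (φ.r * (d : ℝ)))) =
    2 * Einf (par φ) d (1 / (φ.r * (d : ℝ)))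

/-- MSQ: the mean square, `z d ≥ 1/(8X)` arbitrary. `EN`: KER, Minkowski in `w` and LS1 (`h = 1`, `a = 1`); `ES`:
`|ES p N d z| ≤ C (1 + log(1/z))` for `z ≤ 1`, bounded for `z ≥ 1` (see `H68/BR/GWE.lean`, where this is done for
`z = 1/(rd)`). -/
def S_MSQ : Prop := ∃ C : ℝ, 0 < C ∧ ∀ p : Par, p.ok → ∀ c : ℕ, c < 8 → Odd c → ∀ (X N : ℕ) (z : ℕ → ℝ),
  1 ≤ X → (∀ d ∈ Icc 1 X, 1 / (8 * (X : ℝ)) ≤ z d) →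
  ∑ d ∈ (Icc 1 X).filter (fun d => d % 8 = c), EA p N d (z d) ^ 2 ≤ C * (X * lg X ^ 3)

/-- TAIL: `d = b² d'`, `d'` squarefree, `|RA A d| ≤ τ(b) 1_{b > A}`; DIVB, FEQ (`y = (g/b)²`), Cauchy-Schwarz,
MSQ for `d' ≤ X/b²` (as `N → ∞`); `d' = 1` (where `φ.A` may fail): `|EA| ≤ C z^{-1/4}` (`S_FRZ`). -/
def S_TAIL : Prop := ∀ φ : FD, Fam φ → ∀ c : ℕ, c < 8 → Odd c →
  (∀ d : ℕ, d % 8 = c → Squarefree d → d ≠ 1 → φ.A d) → ∃ C : ℝ, 0 < C ∧ ∀ A X : ℕ, 1 ≤ A → 1 ≤ X →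
  ∑ d ∈ (Icc 1 X).filter (fun d => d % 8 = c), |RA A d| * Einf (par φ) d (1 / (φ.r * (d : ℝ))) ^ 2 ≤
    C * (X * lg X ^ 3 / (A : ℝ) ^ (1 / 4 : ℝ) + X * lg X ^ 2)

/-! ### D. the second moment -/

/-- CL2: `1_{squarefree} = RA A + ∑_{a ≤ A, a² | d} μ(a)` with fixed `A`: OFF (`N → ∞` by LIMA), TAIL, FEQ -/
def S_CL2 : Prop := ∀ φ : FD, Fam φ → ∀ c : ℕ, c < 8 → Odd c →
  (∀ d : ℕ, d % 8 = c → Squarefree d → d ≠ 1 → φ.A d) → ∀ θ : ℝ, Irrational θ → ∀ δ : ℝ, 0 < δ →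
  ∃ X0 : ℕ, ∀ X : ℕ, X0 ≤ X →
  ‖∑ d ∈ (Icc 1 X).filter (fun d => d % 8 = c ∧ Squarefree d ∧ d ≠ 1),
      ee (θ * d) * ((LLg φ d (1 / 2) ^ 2 : ℝ) : ℂ)‖ ≤ δ * (X * lg X ^ 3)

/-- IR2: all families (`H28/BR/FAM.lean`, `Lf_eq`; the four cases exclude each other, so the square of the sum is the
sum of the squares) -/
def S_IR2 : Prop := ∀ θ : ℝ, Irrational θ → ∀ ε : ℤ, (ε = 1 ∨ ε = -1) → ∀ δ : ℝ, 0 < δ →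
  ∃ X0 : ℕ, ∀ X : ℕ, X0 ≤ X →
  ‖∑ n ∈ Ioc 1 X, ((Lf ε n ^ 2 : ℝ) : ℂ) * ee (θ * n)‖ ≤ δ * (X * lg X ^ 3)

/-- ORD: lower bound from `Pool.Agent.H28.BR2.low` (`k = 2`, `v = 1`, `α = √2` or any algebraic irrational,
`H28.BR.nlv`) -/
def S_ORD : Prop := ∃ (c : ℝ) (X0 : ℕ), 0 < c ∧ ∀ ε : ℤ, (ε = 1 ∨ ε = -1) → ∀ X : ℕ, X0 ≤ X →
  c * (X * lg X ^ 3) ≤ ∑ n ∈ Ioc 1 X, Lf ε n ^ 2

/-- WEY: Weyl's criterion with nonnegative weights, sharp arcs. `H58.BR.t_TRAP` (statement `S_TRAP`), for the boundary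
arcs `1_{fract x < Δ} ≤ tnt (2Δ) (x - Δ/2)/Δ` and `H75.BR.tnt_fourier`; dominated convergence in `h`. -/
def S_WEY : Prop := ∀ (w : ℕ → ℝ) (α : ℝ), (∀ n, 0 ≤ w n) →
  (∀ᶠ X : ℕ in atTop, 0 < ∑ n ∈ Ioc 1 X, w n) →
  (∀ h : ℕ, 1 ≤ h → Tendsto (fun X : ℕ => ‖∑ n ∈ Ioc 1 X, (w n : ℂ) * ee (h * α * n)‖ /
    ∑ n ∈ Ioc 1 X, w n) atTop (𝓝 0)) →
  ∀ β v : ℝ, 0 ≤ v → v ≤ 1 →
  Tendsto (fun X : ℕ => (∑ n ∈ (Ioc 1 X).filter (fun n : ℕ => Int.fract (α * n + β) < v), w n) /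
    ∑ n ∈ Ioc 1 X, w n) atTop (𝓝 v)

end

end Pool.Agent.H28.BR3
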