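import Pool.Agent.H28.BR.All2
import Pool.Agent.H28.BR.FAR
import Pool.Agent.H28.BR.SQK
import Pool.Agent.H28.BR.ORD
import Pool.Agent.H28.BR.Fin3
import Pool.Agent.H28.BR.UNI
import Pool.Agent.H10.BR.Tau
import Pool.Agent.H97.BR.Psd
import Pool.Agent.H95.BR.T3
import Pool.Agent.H75.BR.Off
import Pool.Agent.H75.BR.Tail
import Pool.Agent.H94.BR.Cls
import Pool.Agent.H91.BR.Feq
import Pool.Agent.H91.BR.Div
import Pool.Agent.H91.BR.Upp
import Pool.Agent.H68.BR.Msq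
import Pool.Agent.H40.BR.Cl2
import Pool.Agent.H94.BR.Ir2
import Pool.Agent.H58.BR.Wey

set_option autoImplicit false

/-! Project BR3: all the statements, without hypotheses -/

namespace Pool.Agent.H28.BR3

open Pool.Agent.Q122 Pool.Agent.H28.BR

theorem tauS : S_TAU := Pool.Agent.H10.BR.t_TAU
theorem psd : S_PSD := Pool.Agent.H97.BR.t_PSD tauS Pool.Agent.H28.BR.t_FAR
theorem sqk : S_SQK := t_SQK FM.ker Pool.Agent.H28.BR.kra Pool.Agent.H28.BR.kin Pool.Agent.H28.BR.ptw tauS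
theorem lima : S_LIMA := Pool.Agent.H91.BR3.t_LIMA
theorem divb : S_DIVB := Pool.Agent.H91.BR3.t_DIVB lima
theorem feq : S_FEQ := Pool.Agent.H91.BR3.t_FEQ lima FM.rep
theorem ord : S_ORD := t_ORD
theorem wey : S_WEY := Pool.Agent.H58.BR.t_WEY
theorem t3 : S_T3 := Pool.Agent.H95.BR3.t_T3 psd
theorem off : S_OFF := Pool.Agent.H75.BR3.t_OFF sqk t3 tauS
theorem msq : S_MSQ := Pool.Agent.H68.BR.t_MSQ FM.ls1 FM.ker Pool.Agent.H28.BR.kra FM.ks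
theorem tail : S_TAIL := Pool.Agent.H75.BR3T.t_TAIL tauS lima divb feq msq FM.frz
theorem cl2 : S_CL2 := Pool.Agent.H40.BR.t_CL2 off tail lima feq
theorem ir2 : S_IR2 := Pool.Agent.H94.BR.t_IR2 cl2 FM.fdd
theorem cls : S_CLS := Pool.Agent.H94.BR.t_CLS
theorem uni : S_UNI := t_UNI
theorem upp : ∃ C : ℝ, 0 < C ∧ ∀ ε : ℤ, (ε = 1 ∨ ε = -1) → ∀ X : ℕ, 1 ≤ X →
    ∑ n ∈ Finset.Ioc 1 X, Lf ε n ^ 2 ≤ C * (X * lg X ^ 3) :=
  Pool.Agent.H91.BR3.t_UPP msq lima feq FM.fdd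

end Pool.Agent.H28.BR3
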