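import Pool.Agent.H28.BR.Stm5
import Pool.Agent.H11.BR.Con0

/-!
# Project BR4 (helper28), module CON: the constant `a₂` (written by helper11)
-/

set_option autoImplicit false

namespace Pool.Agent.H28.BR4

/-- CON -/
theorem t_CON : S_CON := by
  have h1 : a2 = ∏' p : Nat.Primes, Pool.Agent.H11.BR4.ff p :=
    tprod_congr fun p => Pool.Agent.H11.BR4.ff_eq p p.2.two_le
  have h2 : HH = ∏' p : Nat.Primes, if (p : ℕ) = 2 then 1 else Pool.Agent.H11.BR4.ff p :=
    tprod_congr fun p => rfl
  unfold S_CON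
  rw [h1, h2]
  exact Pool.Agent.H11.BR4.con0

end Pool.Agent.H28.BR4
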