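import Pool.Agent.H28.BR.Stm5
import Pool.Agent.H40.BR.Cl0

set_option autoImplicit false

/-! Project BR4: ML. -/

namespace Pool.Agent.H28.BR4

open Finset Filter Topology MeasureTheory Pool.Agent.H306R2.RZ Pool.Agent.H306R2.RG
  Pool.Agent.Q122.FM Pool.Agent.H28.BR Pool.Agent.H28.BR3
open Pool.Agent.Helper112 (ee)

noncomputable section

/-- `∑_{d ≤ X} log (X/d) ≤ X` -/
theorem sum_log_le (X : ℕ) : ∑ d ∈ Icc 1 X, (Real.log X - Real.log d) ≤ X := by
  induction X with
  | zero => simp
  | succ n ih =>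
    rw [Finset.sum_Icc_succ_top (by omega)]
    rcases Nat.eq_zero_or_pos n with rfl | hn
    · simp
    have hn0 : (0 : ℝ) < n := by exact_mod_cast hn
    have h1 : ∑ d ∈ Icc 1 n, (Real.log ((n + 1 : ℕ) : ℝ) - Real.log d) =
        ∑ d ∈ Icc 1 n, (Real.log n - Real.log d) + n * (Real.log ((n + 1 : ℕ) : ℝ) - Real.log n) := by
      have : ∀ d ∈ Icc 1 n, (Real.log ((n + 1 : ℕ) : ℝ) - Real.log d) =
          (Real.log n - Real.log d) + (Real.log ((n + 1 : ℕ) : ℝ) - Real.log n) := by
        intro d _; ring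
      rw [Finset.sum_congr rfl this, Finset.sum_add_distrib, Finset.sum_const, Nat.card_Icc, nsmul_eq_mul]
      simp
    rw [h1]
    have h2 : Real.log ((n + 1 : ℕ) : ℝ) - Real.log n ≤ 1 / n := by
      rw [← Real.log_div (by positivity) hn0.ne']
      have h3 := Real.log_le_sub_one_of_pos (x := ((n + 1 : ℕ) : ℝ) / n) (by positivity)
      refine h3.trans (le_of_eq ?_)
      push_cast
      field_simp
      ring
    have h4 : (n : ℝ) * (Real.log ((n + 1 : ℕ) : ℝ) - Real.log n) ≤ 1 := by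
      calc (n : ℝ) * (Real.log ((n + 1 : ℕ) : ℝ) - Real.log n) ≤ n * (1 / n) :=
            mul_le_mul_of_nonneg_left h2 hn0.le
        _ = 1 := by field_simp
    rw [sub_self]
    push_cast at *
    linarith

theorem t_ML (mv : S_MV) : S_ML := by
  intro c hc8 hco r hr
  have h0 := mv c hc8 hco
  have hr1 : (1 : ℝ) ≤ r := by exact_mod_cast hr
  set R : ℝ := Real.log r with hR
  have hR0 : 0 ≤ R := Real.log_nonneg hr1
  -- the difference
  have hdiff : ∀ X : ℕ, 1 ≤ X →
      |(∑ d ∈ (Icc 1 X).filter (fun d => d % 8 = c ∧ Squarefree d), hh d * Real.log (r * (d : ℝ)) ^ 3) -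
        lg X ^ 3 * ∑ d ∈ (Icc 1 X).filter (fun d => d % 8 = c ∧ Squarefree d), hh d| ≤
      3 * (lg X + R) ^ 2 * ((R + 2) * X) := by
    intro X hX
    have hX0 : (0 : ℝ) < X := by exact_mod_cast hX
    have hX1 : (1 : ℝ) ≤ X := by exact_mod_cast hX
    have hlX : 0 ≤ Real.log X := Real.log_nonneg hX1
    rw [Finset.mul_sum, ← Finset.sum_sub_distrib]
    refine (Finset.abs_sum_le_sum_abs _ _).trans ?_
    have hterm : ∀ d ∈ Icc 1 X, |hh d * Real.log (r * (d : ℝ)) ^ 3 - lg X ^ 3 * hh d| ≤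
        3 * (lg X + R) ^ 2 * (R + 1 + (Real.log X - Real.log d)) := by
      intro d hd
      rw [mem_Icc] at hd
      have hd0 : (0 : ℝ) < d := by exact_mod_cast hd.1
      have hd1 : (1 : ℝ) ≤ d := by exact_mod_cast hd.1
      have hld : 0 ≤ Real.log d := Real.log_nonneg hd1
      have hldX : Real.log d ≤ Real.log X := Real.log_le_log hd0 (by exact_mod_cast hd.2)
      have e1 : Real.log (r * (d : ℝ)) = R + Real.log d := by
        rw [Real.log_mul (by linarith) hd0.ne']
      rw [e1]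
      set y := R + Real.log d with hy
      set x := lg X with hx
      have hx' : x = 1 + Real.log X := rfl
      have hh0 : 0 ≤ hh d := Pool.Agent.H40.BR4.hh_nonneg d
      have hh1 : hh d ≤ 1 := Pool.Agent.H40.BR4.hh_le_one d
      have hy0 : 0 ≤ y := by positivity
      have hx0 : 0 ≤ x := by rw [hx']; positivity
      have hyM : y ≤ x + R := by rw [hx', hy]; linarith
      have hxM : x ≤ x + R := by linarith
      have e2 : hh d * y ^ 3 - x ^ 3 * hh d = hh d * ((y - x) * (y ^ 2 + y * x + x ^ 2)) := by ring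
      rw [e2, abs_mul, abs_of_nonneg hh0, abs_mul]
      have h5 : |y - x| ≤ R + 1 + (Real.log X - Real.log d) := by
        rw [abs_le]
        constructor <;> rw [hx', hy] <;> linarith
      have h6 : |y ^ 2 + y * x + x ^ 2| ≤ 3 * (x + R) ^ 2 := by
        rw [abs_of_nonneg (by positivity)]
        have g1 : y ^ 2 ≤ (x + R) ^ 2 := pow_le_pow_left₀ hy0 hyM 2
        have g2 : x ^ 2 ≤ (x + R) ^ 2 := pow_le_pow_left₀ hx0 hxM 2
        have g3 : y * x ≤ (x + R) ^ 2 := by
          calc y * x ≤ (x + R) * (x + R) := mul_le_mul hyM hxM hx0 (by linarith)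
            _ = _ := by ring
        linarith
      calc hh d * (|y - x| * |y ^ 2 + y * x + x ^ 2|) ≤ 1 * (|y - x| * |y ^ 2 + y * x + x ^ 2|) :=
            mul_le_mul_of_nonneg_right hh1 (by positivity)
        _ ≤ 1 * ((R + 1 + (Real.log X - Real.log d)) * (3 * (x + R) ^ 2)) := by
            apply mul_le_mul_of_nonneg_left _ zero_le_one
            exact mul_le_mul h5 h6 (abs_nonneg _) (by linarith)
        _ = _ := by ring
    calc ∑ d ∈ (Icc 1 X).filter (fun d => d % 8 = c ∧ Squarefree d),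
          |hh d * Real.log (r * (d : ℝ)) ^ 3 - lg X ^ 3 * hh d|
        ≤ ∑ d ∈ Icc 1 X, |hh d * Real.log (r * (d : ℝ)) ^ 3 - lg X ^ 3 * hh d| :=
          Finset.sum_le_sum_of_subset_of_nonneg (Finset.filter_subset _ _) (fun _ _ _ => abs_nonneg _)
      _ ≤ ∑ d ∈ Icc 1 X, 3 * (lg X + R) ^ 2 * (R + 1 + (Real.log X - Real.log d)) := sum_le_sum hterm
      _ = 3 * (lg X + R) ^ 2 * ((R + 1) * X + ∑ d ∈ Icc 1 X, (Real.log X - Real.log d)) := by
          rw [← Finset.mul_sum, Finset.sum_add_distrib, Finset.sum_const, Nat.card_Icc, nsmul_eq_mul]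
          rw [Nat.add_sub_cancel]
          ring
      _ ≤ 3 * (lg X + R) ^ 2 * ((R + 2) * X) := by
          apply mul_le_mul_of_nonneg_left _ (by positivity)
          have := sum_log_le X
          linarith
  -- the limit
  have hlg : Tendsto (fun X : ℕ => lg X) atTop atTop := by
    unfold lg
    exact tendsto_atTop_add_const_left _ _ (Real.tendsto_log_atTop.comp tendsto_natCast_atTop_atTop)
  have herr : Tendsto (fun X : ℕ => 3 * (1 + R / lg X) ^ 2 * ((R + 2) / lg X)) atTop (𝓝 0) := by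
    have h1 : Tendsto (fun X : ℕ => R / lg X) atTop (𝓝 0) := tendsto_const_nhds.div_atTop hlg
    have h2 : Tendsto (fun X : ℕ => (R + 2) / lg X) atTop (𝓝 0) := tendsto_const_nhds.div_atTop hlg
    have h3 := (((h1.const_add 1).pow 2).const_mul 3).mul h2
    rw [mul_zero] at h3
    exact h3
  have hd : Tendsto (fun X : ℕ =>
      (∑ d ∈ (Icc 1 X).filter (fun d => d % 8 = c ∧ Squarefree d), hh d * Real.log (r * (d : ℝ)) ^ 3) /
        (X * lg X ^ 3) -
      (∑ d ∈ (Icc 1 X).filter (fun d => d % 8 = c ∧ Squarefree d), hh d) / (X : ℝ)) atTop (𝓝 0) := by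
    apply squeeze_zero_norm' _ herr
    filter_upwards [eventually_ge_atTop 1] with X hX
    have hX0 : (0 : ℝ) < X := by exact_mod_cast hX
    have hl1 : 1 ≤ lg X := by
      unfold lg
      have : 0 ≤ Real.log X := Real.log_nonneg (by exact_mod_cast hX)
      linarith
    have hl0 : 0 < lg X := by linarith
    have h1 := hdiff X hX
    set A := ∑ d ∈ (Icc 1 X).filter (fun d => d % 8 = c ∧ Squarefree d), hh d * Real.log (r * (d : ℝ)) ^ 3
    set B := ∑ d ∈ (Icc 1 X).filter (fun d => d % 8 = c ∧ Squarefree d), hh d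
    have e1 : A / (X * lg X ^ 3) - B / X = (A - lg X ^ 3 * B) / (X * lg X ^ 3) := by
      field_simp
    rw [Real.norm_eq_abs, e1, abs_div, abs_of_pos (show (0 : ℝ) < X * lg X ^ 3 by positivity),
      div_le_iff₀ (by positivity)]
    refine h1.trans (le_of_eq ?_)
    field_simp
  have h9 := hd.add h0
  rw [zero_add] at h9
  refine h9.congr fun X => ?_
  ring

end

end Pool.Agent.H28.BR4
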