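import Pool.Agent.H28.BR.Stm5

set_option autoImplicit false

/-! Project BR4: PT1, the sum over the non-squares without twist (after `H68/BR/PTW.lean`). -/

namespace Pool.Agent.H28.BR4

open Finset Filter Topology MeasureTheory Pool.Agent.H306R2.RZ Pool.Agent.H306R2.RG
  Pool.Agent.Q122.FM Pool.Agent.H28.BR Pool.Agent.H28.BR3
open Pool.Agent.Helper112 (ee)

noncomputable section

/-- odd squarefree numbers `2 ≤ s ≤ N` -/
def S2 (N : ℕ) : Finset ℕ := (Icc 2 N).filter (fun s => Odd s ∧ Squarefree s)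

theorem not_sq_iff {s u : ℕ} (hs : Squarefree s) (hu : u ≠ 0) : ¬ IsSquare (s * u ^ 2) ↔ s ≠ 1 := by
  constructor
  · rintro h rfl
    apply h
    exact ⟨u, by ring⟩
  · intro h h2
    obtain ⟨r, hr⟩ := h2
    have hs0 : s ≠ 0 := hs.ne_zero
    have hr0 : r ≠ 0 := by
      rintro rfl
      have h5 : s * u ^ 2 = 0 := by simpa using hr
      rcases Nat.mul_eq_zero.1 h5 with h6 | h6
      · exact hs0 h6
      · exact hu (pow_eq_zero_iff (by norm_num) |>.1 h6)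
    have h3 : s * u ^ 2 = 1 * r ^ 2 := by rw [hr]; ring
    obtain ⟨a, b⟩ := sqf_unique hs squarefree_one (by omega) (by omega) h3
    exact h a

theorem sum_decomp2 (N : ℕ) (f : ℕ → ℝ) :
    ∑ n ∈ (Icc 1 N).filter (fun n => Odd n ∧ ¬ IsSquare n), f n =
      ∑ s ∈ S2 N, ∑ u ∈ (Icc 1 N).filter (fun u => Odd u ∧ s * u ^ 2 ≤ N), f (s * u ^ 2) := by
  rw [Finset.sum_sigma']
  symm
  apply Finset.sum_nbij (fun x : (Σ _ : ℕ, ℕ) => x.1 * x.2 ^ 2)
  · rintro ⟨s, u⟩ hx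
    simp only [S2, mem_sigma, mem_filter, mem_Icc] at hx ⊢
    obtain ⟨⟨⟨hs1, hsN⟩, hso, hss⟩, ⟨hu1, huN⟩, huo, hle⟩ := hx
    exact ⟨⟨Nat.mul_pos (by omega) (pow_pos hu1 2), hle⟩, hso.mul (huo.pow),
      (not_sq_iff hss (by omega)).2 (by omega)⟩
  · rintro ⟨s, u⟩ hx ⟨s', u'⟩ hx' h
    simp only [S2, mem_coe, mem_sigma, mem_filter, mem_Icc] at hx hx' h
    obtain ⟨a, b⟩ := sqf_unique hx.1.2.2 hx'.1.2.2 (by omega) (by omega) h
    subst a; subst b; rfl
  · intro n hn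
    simp only [mem_coe, mem_filter, mem_Icc] at hn
    obtain ⟨⟨hn1, hnN⟩, hno, hns⟩ := hn
    obtain ⟨s, u, hus, hs⟩ := Nat.sq_mul_squarefree n
    have hus' : s * u ^ 2 = n := by rw [← hus]; ring
    have hu0 : u ≠ 0 := by
      rintro rfl
      simp at hus'; omega
    have hs0 : s ≠ 0 := hs.ne_zero
    have ho : Odd (s * u ^ 2) := hus' ▸ hno
    obtain ⟨hso, huo⟩ := Nat.odd_mul.1 ho
    have huo' : Odd u := by
      rw [Nat.odd_pow_iff (by norm_num)] at huo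
      exact huo
    have hs1 : s ≠ 1 := by
      rw [← not_sq_iff hs hu0, hus']
      exact hns
    refine ⟨⟨s, u⟩, ?_, hus'⟩
    simp only [S2, coe_sigma, Set.mem_sigma_iff, mem_coe, mem_filter, mem_Icc]
    have hsn : s ≤ n := by
      rw [← hus']
      exact Nat.le_mul_of_pos_right _ (pow_pos (Nat.pos_of_ne_zero hu0) 2)
    have hun : u ≤ n := by
      rw [← hus']
      calc u ≤ u ^ 2 := Nat.le_self_pow (by norm_num) u
        _ ≤ s * u ^ 2 := Nat.le_mul_of_pos_left _ (Nat.pos_of_ne_zero hs0)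
    exact ⟨⟨⟨by omega, by omega⟩, hso, hs⟩, ⟨by omega, by omega⟩, huo', by omega⟩
  · intro x _
    rfl

theorem N1_eq {e : ℤ} (he : e = 1 ∨ e = -1 ∨ e = 2 ∨ e = -2) (k : ℕ → ℝ) (N d : ℕ) :
    N1 e k N d = ∑ s ∈ S2 N, ∑ g ∈ Icc 1 N, if g ∣ d then
      ((ArithmeticFunction.moebius g : ℤ) : ℝ) * Pool.Agent.H68.BR.KG1 k N g s * js (e * (d : ℤ)) s else 0 := by
  unfold N1
  rw [sum_decomp2 N (fun n => js (e * (d : ℤ)) n * k n)]
  refine sum_congr rfl fun s hs => ?_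
  simp only [S2, mem_filter, mem_Icc] at hs
  have hs0 : s ≠ 0 := by omega
  have h2 : ∑ u ∈ (Icc 1 N).filter (fun u => Odd u ∧ s * u ^ 2 ≤ N),
      js (e * (d : ℤ)) (s * u ^ 2) * k (s * u ^ 2) =
      js (e * (d : ℤ)) s *
      ∑ u ∈ (Icc 1 N).filter (fun u => Odd u ∧ s * u ^ 2 ≤ N),
        (∑ g ∈ u.divisors.filter (fun g => g ∣ d), ((ArithmeticFunction.moebius g : ℤ) : ℝ)) *
          k (s * u ^ 2) := by
    rw [mul_sum]
    apply sum_congr rfl
    intro u hu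
    simp only [mem_filter, mem_Icc] at hu
    rw [js_sq he d s u hu.2.1 hs0, cop_sum u d (by omega)]
    ring
  rw [h2, div_swap N d (fun u => Odd u ∧ s * u ^ 2 ≤ N) ?_
      (fun u => k (s * u ^ 2)) (fun g => ((ArithmeticFunction.moebius g : ℤ) : ℝ))]
  · rw [sum_filter, mul_sum]
    refine sum_congr rfl fun g _ => ?_
    split_ifs with hg
    · show js (e * (d : ℤ)) s * (((ArithmeticFunction.moebius g : ℤ) : ℝ) * Pool.Agent.H68.BR.KG1 k N g s) = _
      ring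
    · rw [mul_zero]
  · intro u hu
    have h3 : u ≤ u ^ 2 := Nat.le_self_pow (by norm_num) u
    have h4 : u ^ 2 ≤ s * u ^ 2 := Nat.le_mul_of_pos_left _ (Nat.pos_of_ne_zero hs0)
    omega

theorem t_PT1 (hAPS : S_APS) : S_PT1 := by
  intro e he k K hk hK c a D0 X N hc8 hco ha
  have e1 : ∑ d ∈ (Ioc D0 X).filter (fun d => a ^ 2 ∣ d ∧ d % 8 = c), N1 e k N d =
      ∑ s ∈ S2 N, ∑ g ∈ Icc 1 N, (((ArithmeticFunction.moebius g : ℤ) : ℝ) * Pool.Agent.H68.BR.KG1 k N g s) *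
        ∑ d ∈ (Ioc D0 X).filter (fun d => Nat.lcm (a ^ 2) g ∣ d ∧ d % 8 = c),
          js (e * (d : ℤ)) s := by
    rw [sum_congr rfl (fun d _ => N1_eq he k N d), sum_comm]
    refine sum_congr rfl fun s _ => ?_
    rw [sum_comm]
    refine sum_congr rfl fun g _ => ?_
    rw [← sum_filter, filter_filter, mul_sum]
    refine sum_congr ?_ fun _ _ => rfl
    ext d
    simp only [mem_filter]
    constructor
    · rintro ⟨h2, ⟨h3, h4⟩, h5⟩
      exact ⟨h2, Nat.lcm_dvd h3 h5, h4⟩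
    · rintro ⟨h2, h3, h4⟩
      exact ⟨h2, ⟨(Nat.dvd_lcm_left _ _).trans h3, h4⟩, (Nat.dvd_lcm_right _ _).trans h3⟩
  have hP : ∀ s g : ℕ, 0 ≤ Psi s ((X : ℝ) / (8 * (Nat.lcm (a ^ 2) g : ℕ)) + 1) 0 :=
    fun s g => Pool.Agent.H68.BR.Psi_nonneg s (by positivity) _
  have h2 : ∀ s ∈ S2 N, ∀ g ∈ Icc 1 N,
      |∑ d ∈ (Ioc D0 X).filter (fun d => Nat.lcm (a ^ 2) g ∣ d ∧ d % 8 = c),
          js (e * (d : ℤ)) s| ≤
        2 / Real.sqrt s * Psi s ((X : ℝ) / (8 * (Nat.lcm (a ^ 2) g : ℕ)) + 1) 0 := by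
    intro s hs g _
    simp only [S2, mem_filter, mem_Icc] at hs
    by_cases hm : Odd (Nat.lcm (a ^ 2) g)
    · have h7 := hAPS s hs.2.1 hs.2.2 e c _ D0 X 0 hc8 hco hm
      rw [mul_zero] at h7
      have e7 : ∑ d ∈ (Ioc D0 X).filter (fun d => Nat.lcm (a ^ 2) g ∣ d ∧ d % 8 = c),
          (js (e * (d : ℤ)) s : ℂ) * ee (0 * d) =
          ((∑ d ∈ (Ioc D0 X).filter (fun d => Nat.lcm (a ^ 2) g ∣ d ∧ d % 8 = c),
            js (e * (d : ℤ)) s : ℝ) : ℂ) := by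
        push_cast
        apply sum_congr rfl
        intro d _
        have : ee (0 * d) = 1 := by
          rw [zero_mul]
          simp [ee]
        rw [this, mul_one]
      rw [e7, Complex.norm_real, Real.norm_eq_abs] at h7
      exact h7
    · have h3 : (Ioc D0 X).filter (fun d => Nat.lcm (a ^ 2) g ∣ d ∧ d % 8 = c) = ∅ := by
        rw [filter_eq_empty_iff]
        rintro d _ ⟨h4, h5⟩
        rw [Nat.not_odd_iff_even] at hm
        have h6 : 2 ∣ d := hm.two_dvd.trans h4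
        obtain ⟨j, hj⟩ := hco
        omega
      rw [h3, sum_empty, abs_zero]
      exact mul_nonneg (by positivity) (hP s g)
  rw [e1]
  refine (abs_sum_le_sum_abs _ _).trans ?_
  have h3 : ∀ s ∈ S2 N, |∑ g ∈ Icc 1 N, (((ArithmeticFunction.moebius g : ℤ) : ℝ) * Pool.Agent.H68.BR.KG1 k N g s) *
        ∑ d ∈ (Ioc D0 X).filter (fun d => Nat.lcm (a ^ 2) g ∣ d ∧ d % 8 = c),
          js (e * (d : ℤ)) s| ≤
      2 * ∑ g ∈ Icc 1 N, ∑ v ∈ Icc 1 N, K (s * (g * v) ^ 2) * (1 / Real.sqrt s) *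
        Psi s ((X : ℝ) / (8 * (Nat.lcm (a ^ 2) g : ℕ)) + 1) 0 := by
    intro s hs
    have hs1 : 1 ≤ s := by
      simp only [S2, mem_filter, mem_Icc] at hs
      omega
    refine (abs_sum_le_sum_abs _ _).trans ?_
    rw [mul_sum]
    refine sum_le_sum fun g hg => ?_
    rw [abs_mul, abs_mul]
    have h4 : |((ArithmeticFunction.moebius g : ℤ) : ℝ)| ≤ 1 := by
      have := ArithmeticFunction.abs_moebius_le_one (n := g)
      rw [← Int.cast_abs]
      exact_mod_cast this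
    have h5 := Pool.Agent.H68.BR.KG1_abs hk hK N g s (mem_Icc.1 hg).1 hs1
    have h6 : |((ArithmeticFunction.moebius g : ℤ) : ℝ)| * |Pool.Agent.H68.BR.KG1 k N g s| ≤
        ∑ v ∈ Icc 1 N, K (s * (g * v) ^ 2) :=
      (mul_le_of_le_one_left (abs_nonneg _) h4).trans h5
    refine (mul_le_mul h6 (h2 s hs g hg) (abs_nonneg _) (sum_nonneg fun v _ => hK _)).trans (le_of_eq ?_)
    rw [sum_mul, mul_sum]
    refine sum_congr rfl fun v _ => ?_
    ring
  refine (sum_le_sum h3).trans ?_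
  rw [← mul_sum]
  refine mul_le_mul_of_nonneg_left ?_ zero_le_two
  refine sum_le_sum_of_subset_of_nonneg (filter_subset _ _) fun s _ _ => ?_
  exact sum_nonneg fun g _ => sum_nonneg fun v _ =>
    mul_nonneg (mul_nonneg (hK _) (by positivity)) (hP s g)

end

end Pool.Agent.H28.BR4
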