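import Pool.Agent.H28.BR.Stm5

set_option autoImplicit false

/-! Project BR4: the non-square part of the squares, `d` divisible by `a²`, `θ = 0`. -/

namespace Pool.Agent.H28.BR4

open Finset Filter Topology MeasureTheory Pool.Agent.H306R2.RZ Pool.Agent.H306R2.RG
  Pool.Agent.Q122.FM Pool.Agent.H28.BR Pool.Agent.H28.BR3
open Pool.Agent.Helper112 (ee)

noncomputable section

/-- interchange of a finite sum and an integral -/
theorem swapA {J : Type} (Da : Finset J) (F : J → ℝ → ℝ) (E : J → ℝ) (c : J → ℝ) (S : Set ℝ) (hS : MeasurableSet S)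
    (hF : ∀ d ∈ Da, IntegrableOn (F d) S) (hE : ∀ d ∈ Da, E d = ∫ w in S, F d w)
    (B : ℝ → ℝ) (hB : IntegrableOn B S)
    (hb : ∀ w ∈ S, |∑ d ∈ Da, c d * F d w| ≤ B w) :
    |∑ d ∈ Da, c d * E d| ≤ ∫ w in S, B w := by
  have e2 : ∑ d ∈ Da, c d * E d = ∫ w in S, ∑ d ∈ Da, c d * F d w := by
    rw [integral_finsetSum]
    · apply sum_congr rfl
      intro d hd
      rw [integral_const_mul, ← hE d hd]
    · intro d hd
      exact (hF d hd).const_mul _
  rw [e2, ← Real.norm_eq_abs]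
  apply norm_integral_le_of_norm_le hB
  rw [ae_restrict_iff' hS]
  exact Eventually.of_forall fun w hw => by
    rw [Real.norm_eq_abs]
    exact hb w hw

theorem swapB {ι J : Type} (I : Finset ι) (co : ι → ℝ) (u u' : ι → ℝ → ℝ)
    (Da : Finset J) (F G : J → ℝ → ℝ) (E E' : J → ℝ) (c : J → ℝ) (S : Set ℝ) (hS : MeasurableSet S)
    (hF : ∀ d ∈ Da, IntegrableOn (F d) S) (hE : ∀ d ∈ Da, E d = ∫ w in S, F d w)
    (hG : ∀ d ∈ Da, IntegrableOn (G d) S) (hE' : ∀ d ∈ Da, E' d = ∫ w in S, G d w)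
    (hu : ∀ i ∈ I, IntegrableOn (u i) S) (hu' : ∀ i ∈ I, IntegrableOn (u' i) S)
    (hb : ∀ w ∈ S, ∀ w' ∈ S, |∑ d ∈ Da, c d * (F d w * G d w')| ≤
      ∑ i ∈ I, co i * (u i w * u' i w')) :
    |∑ d ∈ Da, c d * (E d * E' d)| ≤
      ∑ i ∈ I, co i * ((∫ w in S, u i w) * ∫ w in S, u' i w) := by
  have h1 : ∀ w ∈ S, |∑ d ∈ Da, (c d * E' d) * F d w| ≤
      ∑ i ∈ I, co i * (u i w * ∫ w' in S, u' i w') := by
    intro w hw
    have h2 := swapA Da G E' (fun d => c d * F d w) S hS hG hE'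
      (fun w' => ∑ i ∈ I, co i * (u i w * u' i w')) ?_ ?_
    · have e3 : ∑ d ∈ Da, (c d * E' d) * F d w = ∑ d ∈ Da, (c d * F d w) * E' d := by
        apply sum_congr rfl
        intro d _
        ring
      rw [e3]
      refine h2.trans (le_of_eq ?_)
      rw [integral_finsetSum]
      · apply sum_congr rfl
        intro i _
        rw [integral_const_mul, integral_const_mul]
      · intro i hi
        exact ((hu' i hi).const_mul _).const_mul _
    · apply integrable_finsetSum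
      intro i hi
      exact ((hu' i hi).const_mul _).const_mul _
    · intro w' hw'
      refine le_trans (le_of_eq ?_) (hb w hw w' hw')
      congr 1
      apply sum_congr rfl
      intro d _
      ring
  have h3 := swapA Da F E (fun d => c d * E' d) S hS hF hE
    (fun w => ∑ i ∈ I, co i * (u i w * ∫ w' in S, u' i w')) ?_ h1
  · have e4 : ∑ d ∈ Da, c d * (E d * E' d) = ∑ d ∈ Da, (c d * E' d) * E d := by
      apply sum_congr rfl
      intro d _
      ring
    rw [e4]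
    refine h3.trans (le_of_eq ?_)
    rw [integral_finsetSum]
    · apply sum_congr rfl
      intro i _
      rw [integral_const_mul, integral_mul_const]
    · intro i hi
      exact ((hu i hi).mul_const _).const_mul _
  · apply integrable_finsetSum
    intro i hi
    exact ((hu i hi).mul_const _).const_mul _

/-- the pairs of odd numbers with non-square product -/
def PN (N : ℕ) : Finset (ℕ × ℕ) :=
  (Icc 1 N ×ˢ Icc 1 N).filter (fun q => Odd q.1 ∧ Odd q.2 ∧ ¬ IsSquare (q.1 * q.2))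

theorem N1_mul (e : ℤ) (k k' : ℕ → ℝ) (N d : ℕ) :
    ∑ q ∈ PN N, js (e * (d : ℤ)) q.1 * js (e * (d : ℤ)) q.2 * (k q.1 * k' q.2) =
      N1 e (kk k k' N) (N ^ 2) d := by
  unfold N1 kk PN
  have e1 : ∀ m ∈ (Icc 1 (N ^ 2)).filter (fun n => Odd n ∧ ¬ IsSquare n),
      js (e * (d : ℤ)) m * (∑ n ∈ Icc 1 N, ∑ n' ∈ Icc 1 N, if n * n' = m then k n * k' n' else 0) =
      ∑ q ∈ Icc 1 N ×ˢ Icc 1 N, if q.1 * q.2 = m then
        js (e * (d : ℤ)) m * (k q.1 * k' q.2) else 0 := by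
    intro m _
    rw [Finset.sum_product, Finset.mul_sum]
    apply sum_congr rfl
    intro n _
    rw [Finset.mul_sum]
    apply sum_congr rfl
    intro n' _
    rw [mul_ite, mul_zero]
  rw [sum_congr rfl e1]
  conv_rhs => rw [Finset.sum_comm]
  rw [Finset.sum_filter]
  apply sum_congr rfl
  rintro ⟨n, n'⟩ hn
  simp only [Finset.mem_product, mem_Icc] at hn
  obtain ⟨hn, hn'⟩ := hn
  simp only
  by_cases h : Odd n ∧ Odd n' ∧ ¬ IsSquare (n * n')
  · rw [if_pos h, Finset.sum_ite_eq, if_pos]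
    · rw [js_mulr _ _ _ (by omega) (by omega)]
    · rw [mem_filter, mem_Icc]
      refine ⟨⟨?_, ?_⟩, h.1.mul h.2.1, h.2.2⟩
      · exact Nat.mul_pos hn.1 hn'.1
      · rw [pow_two]
        exact Nat.mul_le_mul hn.2 hn'.2
  · rw [if_neg h, Finset.sum_ite_eq, if_neg]
    rw [mem_filter]
    rintro ⟨-, h1, h2⟩
    exact h ⟨(Nat.odd_mul.1 h1).1, (Nat.odd_mul.1 h1).2, h2⟩

/-- the coefficient of one `n` -/
def cf (p : Par) (N n : ℕ) (z : ℝ) : ℝ :=
  ∑ i ∈ range N, p.η ^ i / Real.sqrt ((2 : ℝ) ^ i * n) * IG p.a (((2 : ℝ) ^ i * n) ^ 2 * z)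

theorem EA_cf (p : Par) (N d : ℕ) (z : ℝ) :
    EA p N d z = ∑ n ∈ (Icc 1 N).filter (fun n => Odd n), js (p.e * (d : ℤ)) n * cf p N n z := by
  unfold EA EN Pool.Agent.Q122.FM.ES cf
  rw [← Finset.sum_add_distrib]
  have e1 : ∀ i ∈ range N, (∑ n ∈ (Icc 1 N).filter (fun n => Odd n ∧ ¬ IsSquare n),
      p.η ^ i * js (p.e * (d : ℤ)) n / Real.sqrt ((2 : ℝ) ^ i * n) * IG p.a (((2 : ℝ) ^ i * n) ^ 2 * z)) +
      (∑ n ∈ (Icc 1 N).filter (fun n => Odd n ∧ IsSquare n),
      p.η ^ i * js (p.e * (d : ℤ)) n / Real.sqrt ((2 : ℝ) ^ i * n) * IG p.a (((2 : ℝ) ^ i * n) ^ 2 * z)) =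
      ∑ n ∈ (Icc 1 N).filter (fun n => Odd n),
      p.η ^ i * js (p.e * (d : ℤ)) n / Real.sqrt ((2 : ℝ) ^ i * n) * IG p.a (((2 : ℝ) ^ i * n) ^ 2 * z) := by
    intro i _
    rw [add_comm, ← Finset.filter_filter, ← Finset.filter_filter,
      Finset.sum_filter_add_sum_filter_not]
  rw [sum_congr rfl e1, Finset.sum_comm]
  apply sum_congr rfl
  intro n _
  rw [Finset.mul_sum]
  apply sum_congr rfl
  intro i _
  ring

theorem Dg_cf (p : Par) (N d : ℕ) (z : ℝ) :
    Dg p N d z = ∑ q ∈ (Icc 1 N ×ˢ Icc 1 N).filter (fun q => Odd q.1 ∧ Odd q.2 ∧ IsSquare (q.1 * q.2)),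
      (js (p.e * (d : ℤ)) q.1 * cf p N q.1 z) * (js (p.e * (d : ℤ)) q.2 * cf p N q.2 z) := by
  unfold Dg
  rw [Finset.sum_comm]
  rw [Finset.sum_filter, Finset.sum_filter, Finset.sum_product]
  apply sum_congr rfl
  intro n _
  by_cases hn : Odd n
  · rw [if_pos hn]
    have e1 : ∀ i ∈ range N, (∑ j ∈ range N, ∑ m ∈ (Icc 1 N).filter (fun m => Odd m ∧ IsSquare (n * m)),
        (p.η ^ i * js (p.e * (d : ℤ)) n / Real.sqrt ((2 : ℝ) ^ i * n) * IG p.a (((2 : ℝ) ^ i * n) ^ 2 * z)) *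
        (p.η ^ j * js (p.e * (d : ℤ)) m / Real.sqrt ((2 : ℝ) ^ j * m) * IG p.a (((2 : ℝ) ^ j * m) ^ 2 * z))) =
        ∑ m ∈ (Icc 1 N).filter (fun m => Odd m ∧ IsSquare (n * m)),
        (p.η ^ i * js (p.e * (d : ℤ)) n / Real.sqrt ((2 : ℝ) ^ i * n) * IG p.a (((2 : ℝ) ^ i * n) ^ 2 * z)) *
        (js (p.e * (d : ℤ)) m * cf p N m z) := by
      intro i _
      rw [Finset.sum_comm]
      apply sum_congr rfl
      intro m _
      unfold cf
      rw [← Finset.mul_sum]
      congr 1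
      rw [Finset.mul_sum]
      apply sum_congr rfl
      intro j _
      ring
    rw [sum_congr rfl e1, Finset.sum_comm, Finset.sum_filter]
    apply sum_congr rfl
    intro m _
    by_cases hm : Odd m ∧ IsSquare (n * m)
    · rw [if_pos hm, if_pos ⟨hn, hm.1, hm.2⟩]
      simp only
      rw [← Finset.sum_mul]
      congr 1
      unfold cf
      rw [Finset.mul_sum]
      apply sum_congr rfl
      intro i _
      ring
    · rw [if_neg hm, if_neg (fun h => hm ⟨h.2.1, h.2.2⟩)]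
  · rw [if_neg hn]
    symm
    apply sum_eq_zero
    intro m _
    rw [if_neg (fun h => hn h.1)]

theorem EA_sq_sub (p : Par) (N d : ℕ) (z : ℝ) :
    EA p N d z ^ 2 - Dg p N d z = ∑ q ∈ PN N,
      (js (p.e * (d : ℤ)) q.1 * js (p.e * (d : ℤ)) q.2) * (cf p N q.1 z * cf p N q.2 z) := by
  rw [EA_cf, Dg_cf, pow_two, Finset.sum_mul_sum, ← Finset.sum_product', sub_eq_iff_eq_add]
  unfold PN
  rw [Finset.sum_filter (s := Icc 1 N ×ˢ Icc 1 N), Finset.sum_filter (s := Icc 1 N ×ˢ Icc 1 N),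
    ← Finset.sum_add_distrib, ← Finset.filter_product, Finset.sum_filter]
  apply sum_congr rfl
  rintro ⟨n, m⟩ _
  simp only
  by_cases h1 : Odd n
  · by_cases h2 : Odd m
    · by_cases h3 : IsSquare (n * m)
      · rw [if_pos ⟨h1, h2⟩, if_neg (fun h => h.2.2 h3), if_pos ⟨h1, h2, h3⟩, zero_add]
      · rw [if_pos ⟨h1, h2⟩, if_pos ⟨h1, h2, h3⟩, if_neg (fun h => h3 h.2.2), add_zero]
        ring
    · rw [if_neg (fun h => h2 h.2), if_neg (fun h => h2 h.2.1), if_neg (fun h => h2 h.2.1), add_zero]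
  · rw [if_neg (fun h => h1 h.1), if_neg (fun h => h1 h.1), if_neg (fun h => h1 h.1), add_zero]

theorem cf_int (igf : S_IGF) (p : Par) (hp : p.ok) (N n : ℕ) (z : ℝ) (hn : 1 ≤ n) (hz : 0 < z) :
    IntegrableOn (fun w : ℝ => w ^ (-(3 / 4) : ℝ) * kw p N w n) (Set.Ioi z) ∧
    cf p N n z = ∫ w in Set.Ioi z, w ^ (-(3 / 4) : ℝ) * kw p N w n := by
  have hm : ∀ i : ℕ, (1 : ℝ) ≤ (2 : ℝ) ^ i * n := by
    intro i
    have h1 : (1 : ℝ) ≤ (2 : ℝ) ^ i := one_le_pow₀ (by norm_num)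
    have h2 : (1 : ℝ) ≤ n := by exact_mod_cast hn
    nlinarith
  have e1 : (fun w : ℝ => w ^ (-(3 / 4) : ℝ) * kw p N w n) = fun w : ℝ => ∑ i ∈ range N,
      p.η ^ i * (w ^ (-(3 / 4) : ℝ) * (((2 : ℝ) ^ i * n) ^ p.a * w ^ ((p.a : ℝ) / 2) *
        Real.exp (-(Real.pi * ((2 : ℝ) ^ i * n) ^ 2 * w)))) := by
    funext w
    unfold kw
    rw [Finset.mul_sum]
    apply sum_congr rfl
    intro i _
    ring
  rw [e1]
  constructor
  · apply integrable_finsetSum
    intro i _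
    exact (igf p.a hp.2.2.1 _ z (hm i) hz).1.const_mul _
  · rw [integral_finsetSum]
    · unfold cf
      apply sum_congr rfl
      intro i _
      rw [integral_const_mul, ← (igf p.a hp.2.2.1 _ z (hm i) hz).2]
      ring
    · intro i _
      exact (igf p.a hp.2.2.1 _ z (hm i) hz).1.const_mul _


theorem t_SQ0 (ker : S_KER) (igf : S_IGF) (kin : S_KIN) (pt1 : S_PT1) (tauS : S_TAU) : S_SQ0 := by
  obtain ⟨⟨C0, hC0, k0⟩, -⟩ := ker
  obtain ⟨C1, hC1, kin⟩ := kin
  have hC00 : 0 < C0 := by linarith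
  refine ⟨2 * C0 ^ 2 * C1 ^ 2, by positivity, ?_⟩
  intro p hp c hc8 hco a ha X N hX
  have hr1 : 1 ≤ p.r := hp.2.1.1
  have hr8 : p.r ≤ 8 := hp.2.1.2
  have hr0 : (0 : ℝ) < p.r := by exact_mod_cast hr1
  have hr8' : (p.r : ℝ) ≤ 8 := by exact_mod_cast hr8
  have hX0 : (0 : ℝ) < X := by exact_mod_cast hX
  set z0 : ℝ := 1 / (p.r * (X : ℝ)) with hz0
  have hz0p : 0 < z0 := by positivity
  have hz8 : 1 / (8 * (X : ℝ)) ≤ z0 := by
    rw [hz0]
    exact one_div_le_one_div_of_le (by positivity) (mul_le_mul_of_nonneg_right hr8' hX0.le)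
  have hL : ∀ m : ℕ, (0 : ℝ) ≤ (X : ℝ) / (8 * m) + 1 := fun m => by positivity
  set Da := (Icc 1 X).filter (fun d => a ^ 2 ∣ d ∧ d % 8 = c) with hDa
  set F : (ℕ × ℕ × ℕ) → ℝ → ℝ := fun j => (Set.Ioi (1 / (p.r * (j.1 : ℝ)))).indicator
    (fun w => w ^ (-(3 / 4) : ℝ) * kw p N w j.2.1) with hF
  set G : (ℕ × ℕ × ℕ) → ℝ → ℝ := fun j => (Set.Ioi (1 / (p.r * (j.1 : ℝ)))).indicator
    (fun w => w ^ (-(3 / 4) : ℝ) * kw p N w j.2.2) with hG
  have hzd : ∀ d ∈ Da, 0 < 1 / (p.r * (d : ℝ)) ∧ z0 ≤ 1 / (p.r * (d : ℝ)) := by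
    intro d hd
    rw [hDa, mem_filter, mem_Icc] at hd
    have hd0 : (0 : ℝ) < d := by exact_mod_cast hd.1.1
    have hdX : (d : ℝ) ≤ X := by exact_mod_cast hd.1.2
    refine ⟨by positivity, ?_⟩
    rw [hz0]
    exact one_div_le_one_div_of_le (by positivity) (mul_le_mul_of_nonneg_left hdX hr0.le)
  have hPN : ∀ q ∈ PN N, 1 ≤ q.1 ∧ 1 ≤ q.2 := by
    intro q hq
    unfold PN at hq
    rw [mem_filter, mem_product, mem_Icc, mem_Icc] at hq
    exact ⟨hq.1.1.1, hq.1.2.1⟩
  have hint : ∀ (d n : ℕ), d ∈ Da → 1 ≤ n → IntegrableOn ((Set.Ioi (1 / (p.r * (d : ℝ)))).indicator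
      (fun w : ℝ => w ^ (-(3 / 4) : ℝ) * kw p N w n)) (Set.Ioi z0) := by
    intro d n hd hn
    have : Integrable ((Set.Ioi (1 / (p.r * (d : ℝ)))).indicator
      (fun w : ℝ => w ^ (-(3 / 4) : ℝ) * kw p N w n)) := by
      rw [integrable_indicator_iff measurableSet_Ioi]
      exact (cf_int igf p hp N n _ hn (hzd d hd).1).1
    exact this.integrableOn
  have hE : ∀ (d n : ℕ), d ∈ Da → 1 ≤ n → cf p N n (1 / (p.r * (d : ℝ))) = ∫ w in Set.Ioi z0,
      (Set.Ioi (1 / (p.r * (d : ℝ)))).indicator (fun w : ℝ => w ^ (-(3 / 4) : ℝ) * kw p N w n) w := by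
    intro d n hd hn
    rw [(cf_int igf p hp N n _ hn (hzd d hd).1).2]
    rw [setIntegral_indicator measurableSet_Ioi, Set.Ioi_inter_Ioi, sup_eq_right.2 (hzd d hd).2]
  set PP : ℕ → ℕ → ℝ := fun s g => Psi s ((X : ℝ) / (8 * (Nat.lcm (a ^ 2) g : ℕ)) + 1) 0 with hPP
  have hPP0 : ∀ s g, 0 ≤ PP s g := fun s g => Psi_nonneg s (hL _) _
  set U : ℕ → ℝ → ℝ := fun n w => w ^ (-(3 / 4) : ℝ) * kap ((n : ℝ) ^ 2 * w) with hU
  set co : ℕ × ℕ × ℕ × ℕ × ℕ → ℝ := fun i =>
    if i.2.2.2.1 * i.2.2.2.2 = i.1 * (i.2.1 * i.2.2.1) ^ 2 then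
      2 * C0 ^ 2 * (1 / Real.sqrt i.1) * PP i.1 i.2.1 else 0 with hco'
  set I : Finset (ℕ × ℕ × ℕ × ℕ × ℕ) :=
    Icc 2 (N ^ 2) ×ˢ Icc 1 (N ^ 2) ×ˢ Icc 1 (N ^ 2) ×ˢ Icc 1 N ×ˢ Icc 1 N with hI
  set cc : (ℕ × ℕ × ℕ) → ℝ := fun j => js (p.e * (j.1 : ℤ)) j.2.1 * js (p.e * (j.1 : ℤ)) j.2.2 with hcc
  have hlhs : ∑ d ∈ Da, (EA p N d (1 / (p.r * (d : ℝ))) ^ 2 - Dg p N d (1 / (p.r * (d : ℝ)))) =
      ∑ j ∈ Da ×ˢ PN N, cc j * (cf p N j.2.1 (1 / (p.r * (j.1 : ℝ))) * cf p N j.2.2 (1 / (p.r * (j.1 : ℝ)))) := by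
    rw [Finset.sum_product]
    apply sum_congr rfl
    intro d _
    rw [EA_sq_sub]
  rw [hlhs]
  have hsw := swapB I co (fun i => U i.2.2.2.1) (fun i => U i.2.2.2.2) (Da ×ˢ PN N) F G
    (fun j => cf p N j.2.1 (1 / (p.r * (j.1 : ℝ)))) (fun j => cf p N j.2.2 (1 / (p.r * (j.1 : ℝ))))
    cc (Set.Ioi z0) measurableSet_Ioi
    (fun j hj => hint j.1 j.2.1 (mem_product.1 hj).1 (hPN _ (mem_product.1 hj).2).1)
    (fun j hj => hE j.1 j.2.1 (mem_product.1 hj).1 (hPN _ (mem_product.1 hj).2).1)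
    (fun j hj => hint j.1 j.2.2 (mem_product.1 hj).1 (hPN _ (mem_product.1 hj).2).2)
    (fun j hj => hE j.1 j.2.2 (mem_product.1 hj).1 (hPN _ (mem_product.1 hj).2).2) ?_ ?_ ?_
  · refine hsw.trans ?_
    rw [hI]
    simp only [Finset.sum_product]
    rw [Finset.mul_sum]
    rw [Finset.sum_comm]
    apply sum_le_sum
    intro g hg
    rw [Finset.mul_sum]
    rw [Finset.sum_comm]
    apply sum_le_sum
    intro v hv
    rw [Finset.mul_sum, Finset.mul_sum]
    apply sum_le_sum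
    intro s hs
    rw [mem_Icc] at hs hg hv
    have hs1 : 1 ≤ s := by omega
    have hs0 : (0 : ℝ) < s := by exact_mod_cast (show 0 < s by omega)
    have hg0 : (0 : ℝ) < g := by exact_mod_cast hg.1
    have hv0 : (0 : ℝ) < v := by exact_mod_cast hv.1
    have hsp : 0 < Real.sqrt s := Real.sqrt_pos.2 hs0
    have hss : Real.sqrt s * Real.sqrt s = s := Real.mul_self_sqrt hs0.le
    set m : ℕ := s * (g * v) ^ 2 with hm
    have hm1 : 1 ≤ m := by
      have h1 : 0 < s := by omega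
      have h2 : 0 < g := hg.1
      have h3 : 0 < v := hv.1
      have : 0 < s * (g * v) ^ 2 := by positivity
      exact this
    set Ex : ℝ := Real.exp (-((s : ℝ) * ((g : ℝ) * v) ^ 2 / (8 * X))) with hEx
    have hterm : ∀ n ∈ Icc 1 N, ∀ n' ∈ Icc 1 N,
        co (s, g, v, n, n') * ((∫ w in Set.Ioi z0, U n w) * ∫ w in Set.Ioi z0, U n' w) ≤
        (2 * C0 ^ 2 * C1 ^ 2 * (1 / (g * v) * (1 / s * Ex * PP s g))) * (if n * n' = m then (1 : ℝ) else 0) := by
      intro n hn n' hn'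
      rw [mem_Icc] at hn hn'
      rw [hco']
      simp only
      by_cases h : n * n' = m
      · rw [if_pos h, if_pos h, mul_one]
        have h1 := (kin n z0 hn.1 hz0p).2
        have h2 := (kin n' z0 hn'.1 hz0p).2
        have hn0 : (0 : ℝ) < n := by exact_mod_cast hn.1
        have hn0' : (0 : ℝ) < n' := by exact_mod_cast hn'.1
        have i1 : 0 ≤ ∫ w in Set.Ioi z0, U n' w := by
          apply setIntegral_nonneg measurableSet_Ioi
          intro w hw
          have hw0 : 0 < w := lt_trans hz0p hw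
          exact mul_nonneg (Real.rpow_nonneg hw0.le _) (kap_nonneg (by positivity))
        have h3 : (∫ w in Set.Ioi z0, U n w) * ∫ w in Set.Ioi z0, U n' w ≤
            (C1 / Real.sqrt n * Real.exp (-((n : ℝ) ^ 2 * z0 / 2))) *
              (C1 / Real.sqrt n' * Real.exp (-((n' : ℝ) ^ 2 * z0 / 2))) :=
          mul_le_mul h1 h2 i1 (by positivity)
        have hsq : Real.sqrt n * Real.sqrt n' = Real.sqrt s * (g * v) := by
          rw [← Real.sqrt_mul hn0.le]
          have : (n : ℝ) * n' = s * (g * v) ^ 2 := by exact_mod_cast h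
          rw [this, Real.sqrt_mul hs0.le, Real.sqrt_sq (by positivity)]
        have hex : Real.exp (-((n : ℝ) ^ 2 * z0 / 2)) * Real.exp (-((n' : ℝ) ^ 2 * z0 / 2)) ≤ Ex := by
          rw [← Real.exp_add, hEx, Real.exp_le_exp]
          have e1 : (s : ℝ) * ((g : ℝ) * v) ^ 2 = n * n' := by
            have : (n : ℝ) * n' = s * (g * v) ^ 2 := by exact_mod_cast h
            linarith
          rw [e1]
          have e2 : (n : ℝ) * n' / (8 * X) ≤ n * n' * z0 := by
            calc (n : ℝ) * n' / (8 * X) = n * n' * (1 / (8 * X)) := by ring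
              _ ≤ _ := mul_le_mul_of_nonneg_left hz8 (by positivity)
          have e3 : (n : ℝ) * n' * z0 ≤ (n : ℝ) ^ 2 * z0 / 2 + (n' : ℝ) ^ 2 * z0 / 2 := by
            nlinarith [mul_nonneg (sq_nonneg ((n : ℝ) - n')) hz0p.le]
          linarith
        calc 2 * C0 ^ 2 * (1 / Real.sqrt s) * PP s g *
              ((∫ w in Set.Ioi z0, U n w) * ∫ w in Set.Ioi z0, U n' w)
            ≤ 2 * C0 ^ 2 * (1 / Real.sqrt s) * PP s g *
              ((C1 / Real.sqrt n * Real.exp (-((n : ℝ) ^ 2 * z0 / 2))) *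
              (C1 / Real.sqrt n' * Real.exp (-((n' : ℝ) ^ 2 * z0 / 2)))) := by
              apply mul_le_mul_of_nonneg_left h3
              have := hPP0 s g
              positivity
          _ = 2 * C0 ^ 2 * (1 / Real.sqrt s) * PP s g * (C1 ^ 2 / (Real.sqrt n * Real.sqrt n')) *
              (Real.exp (-((n : ℝ) ^ 2 * z0 / 2)) * Real.exp (-((n' : ℝ) ^ 2 * z0 / 2))) := by
              have g1 : Real.sqrt n ≠ 0 := (Real.sqrt_pos.2 hn0).ne'
              have g2 : Real.sqrt n' ≠ 0 := (Real.sqrt_pos.2 hn0').ne'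
              field_simp
          _ ≤ 2 * C0 ^ 2 * (1 / Real.sqrt s) * PP s g * (C1 ^ 2 / (Real.sqrt n * Real.sqrt n')) * Ex := by
              apply mul_le_mul_of_nonneg_left hex
              have := hPP0 s g
              positivity
          _ = 2 * C0 ^ 2 * C1 ^ 2 * (1 / (g * v) * (1 / (Real.sqrt s * Real.sqrt s) * Ex * PP s g)) := by
              rw [hsq]
              field_simp
          _ = _ := by rw [hss]
      · rw [if_neg h, if_neg h, mul_zero, zero_mul]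
    calc ∑ n ∈ Icc 1 N, ∑ n' ∈ Icc 1 N,
          co (s, g, v, n, n') * ((∫ w in Set.Ioi z0, U n w) * ∫ w in Set.Ioi z0, U n' w)
        ≤ ∑ n ∈ Icc 1 N, ∑ n' ∈ Icc 1 N,
          (2 * C0 ^ 2 * C1 ^ 2 * (1 / (g * v) * (1 / s * Ex * PP s g))) * (if n * n' = m then (1 : ℝ) else 0) :=
          sum_le_sum fun n hn => sum_le_sum fun n' hn' => hterm n hn n' hn'
      _ = (2 * C0 ^ 2 * C1 ^ 2 * (1 / (g * v) * (1 / s * Ex * PP s g))) *
          ∑ n ∈ Icc 1 N, ∑ n' ∈ Icc 1 N, (if n * n' = m then (1 : ℝ) else 0) := by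
          simp_rw [Finset.mul_sum]
      _ ≤ (2 * C0 ^ 2 * C1 ^ 2 * (1 / (g * v) * (1 / s * Ex * PP s g))) *
          (tau s * (tau (g ^ 2) * tau (v ^ 2))) := by
          apply mul_le_mul_of_nonneg_left
          · refine (pairs_card N m hm1).trans ?_
            have t1 := tauS.1 s ((g * v) ^ 2) hs1 (Nat.pos_of_ne_zero (by
              have : 0 < (g * v) ^ 2 := by
                have h2 : 0 < g := hg.1
                have h3 : 0 < v := hv.1
                positivity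
              omega))
            have t2 := tauS.1 (g ^ 2) (v ^ 2) (Nat.pos_of_ne_zero (by
              have h2 : 0 < g := hg.1
              positivity)) (Nat.pos_of_ne_zero (by
              have h3 : 0 < v := hv.1
              positivity))
            rw [← mul_pow] at t2
            refine t1.trans (mul_le_mul_of_nonneg_left t2 ?_)
            unfold tau
            positivity
          · have := hPP0 s g
            have h5 : 0 ≤ Ex := (Real.exp_pos _).le
            positivity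
      _ = _ := by
          rw [hPP]
          field_simp
  · intro i hi
    rw [hI] at hi
    simp only [Finset.mem_product, mem_Icc] at hi
    exact (kin i.2.2.2.1 z0 hi.2.2.2.1.1 hz0p).1
  · intro i hi
    rw [hI] at hi
    simp only [Finset.mem_product, mem_Icc] at hi
    exact (kin i.2.2.2.2 z0 hi.2.2.2.2.1 hz0p).1
  · intro w hw w' hw'
    rw [Set.mem_Ioi] at hw hw'
    have hw0 : 0 < w := lt_trans hz0p hw
    have hw0' : 0 < w' := lt_trans hz0p hw'
    set D0 : ℕ := max ⌊1 / (p.r * w)⌋₊ ⌊1 / (p.r * w')⌋₊ with hD0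
    have e3 : ∑ j ∈ Da ×ˢ PN N, cc j * (F j w * G j w') =
        (w ^ (-(3 / 4) : ℝ) * w' ^ (-(3 / 4) : ℝ)) *
          ∑ d ∈ (Ioc D0 X).filter (fun d => a ^ 2 ∣ d ∧ d % 8 = c),
          N1 p.e (kk (kw p N w) (kw p N w') N) (N ^ 2) d := by
      have hset : (Ioc D0 X).filter (fun d => a ^ 2 ∣ d ∧ d % 8 = c) =
          Da.filter (fun d : ℕ => 1 / (p.r * (d : ℝ)) < w ∧ 1 / (p.r * (d : ℝ)) < w') := by
        ext d
        simp only [hDa, mem_filter, mem_Ioc, mem_Icc]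
        have hiff : ∀ w : ℝ, 0 < w → ∀ hd : 1 ≤ d, (⌊1 / (p.r * w)⌋₊ < d ↔ 1 / (p.r * (d : ℝ)) < w) := by
          intro w hw0 hd
          have hd0 : (0 : ℝ) < d := by exact_mod_cast hd
          rw [Nat.floor_lt (by positivity), div_lt_iff₀ (by positivity),
            div_lt_iff₀ (by positivity)]
          constructor <;> intro h <;> nlinarith
        rw [hD0, max_lt_iff]
        constructor
        · rintro ⟨⟨h1, h2⟩, h3⟩
          exact ⟨⟨⟨by omega, h2⟩, h3⟩, (hiff w hw0 (by omega)).1 h1.1, (hiff w' hw0' (by omega)).1 h1.2⟩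
        · rintro ⟨⟨⟨h1, h2⟩, h3⟩, h4⟩
          exact ⟨⟨⟨(hiff w hw0 h1).2 h4.1, (hiff w' hw0' h1).2 h4.2⟩, h2⟩, h3⟩
      rw [hset, Finset.sum_filter (s := Da), Finset.mul_sum, Finset.sum_product]
      apply sum_congr rfl
      intro d _
      by_cases h : 1 / (p.r * (d : ℝ)) < w ∧ 1 / (p.r * (d : ℝ)) < w'
      · rw [if_pos h, ← N1_mul, Finset.mul_sum]
        apply sum_congr rfl
        intro q _
        rw [hF, hG, hcc]
        simp only
        rw [Set.indicator_of_mem (Set.mem_Ioi.2 h.1), Set.indicator_of_mem (Set.mem_Ioi.2 h.2)]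
        ring
      · rw [if_neg h, mul_zero]
        apply sum_eq_zero
        intro q _
        rw [hF, hG]
        simp only
        by_cases h1 : 1 / (p.r * (d : ℝ)) < w
        · have h2 : ¬ 1 / (p.r * (d : ℝ)) < w' := fun hh => h ⟨h1, hh⟩
          rw [Set.indicator_of_notMem (s := Set.Ioi (1 / (p.r * (d : ℝ)))) (a := w')
            (fun hh => h2 (Set.mem_Ioi.1 hh))]
          simp
        · rw [Set.indicator_of_notMem (s := Set.Ioi (1 / (p.r * (d : ℝ)))) (a := w)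
            (fun hh => h1 (Set.mem_Ioi.1 hh))]
          simp
    rw [e3, abs_mul, abs_of_nonneg
      (mul_nonneg (Real.rpow_nonneg hw0.le _) (Real.rpow_nonneg hw0'.le _))]
    set κ : ℕ → ℝ := fun n => kap ((n : ℝ) ^ 2 * w) with hκ
    set κ' : ℕ → ℝ := fun n => kap ((n : ℝ) ^ 2 * w') with hκ'
    have hκ0 : ∀ n, 0 ≤ κ n := fun n => kap_nonneg (by positivity)
    have hκ0' : ∀ n, 0 ≤ κ' n := fun n => kap_nonneg (by positivity)
    have h1 := pt1 p.e hp.1 (kk (kw p N w) (kw p N w') N) (fun m => C0 ^ 2 * kk κ κ' N m) ?_ ?_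
      c a D0 X (N ^ 2) hc8 hco ha
    · refine (mul_le_mul_of_nonneg_left h1
        (mul_nonneg (Real.rpow_nonneg hw0.le _) (Real.rpow_nonneg hw0'.le _))).trans (le_of_eq ?_)
      rw [hI]
      simp only [Finset.sum_product]
      rw [mul_left_comm, Finset.mul_sum, Finset.mul_sum]
      apply sum_congr rfl
      intro s _
      rw [Finset.mul_sum, Finset.mul_sum]
      apply sum_congr rfl
      intro g _
      rw [Finset.mul_sum, Finset.mul_sum]
      apply sum_congr rfl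
      intro v _
      unfold kk
      simp only [Finset.mul_sum, Finset.sum_mul]
      apply sum_congr rfl
      intro n _
      apply sum_congr rfl
      intro n' _
      rw [hco', hU, hPP]
      simp only
      by_cases h : n * n' = s * (g * v) ^ 2
      · rw [if_pos h, if_pos h]
        ring
      · rw [if_neg h, if_neg h]
        ring
    · intro m _
      unfold kk
      rw [Finset.mul_sum]
      refine (Finset.abs_sum_le_sum_abs _ _).trans (sum_le_sum fun n hn => ?_)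
      rw [Finset.mul_sum]
      refine (Finset.abs_sum_le_sum_abs _ _).trans (sum_le_sum fun n' hn' => ?_)
      rw [mem_Icc] at hn hn'
      by_cases h : n * n' = m
      · rw [if_pos h, if_pos h, abs_mul]
        have a1 := k0 p hp N n w hn.1 hw0
        have a2 := k0 p hp N n' w' hn'.1 hw0'
        calc |kw p N w n| * |kw p N w' n'| ≤ (C0 * κ n) * (C0 * κ' n') :=
              mul_le_mul a1 a2 (abs_nonneg _) (mul_nonneg hC00.le (hκ0 n))
          _ = _ := by ring
      · rw [if_neg h, if_neg h, abs_zero, mul_zero]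
    · intro m
      apply mul_nonneg (by positivity)
      unfold kk
      apply sum_nonneg
      intro n _
      apply sum_nonneg
      intro n' _
      split_ifs
      · exact mul_nonneg (hκ0 n) (hκ0' n')
      · exact le_rfl

end

end Pool.Agent.H28.BR4
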