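import Pool.Agent.H28.BR.All3

set_option autoImplicit false

/-!
# Project BR4 (helper28), MP_ea46f5_nt: the asymptotic formula for the second moment of `L(1/2, χ_D)`

`∑_{n ≤ X} L(1/2, χ_{± n})² ~ a₂/(8π²) X log³ X` (all fundamental discriminants), and then, with BR3, the asymptotic
formula along all Beatty sequences.

`js, EN, ES, EA, NA, N1, IG, kap, kw, Par, RA, S0, gd, nd, lg, Lf` as in `H28/BR/Stm.lean` and the library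
`Q122.FM.Stm`; `tau, Einf, S_TAU, ...` as in `H28/BR/Stm3.lean`. Everything there is proved without hypotheses:
`Pool.Graph.R_pool_sql_team_seeded_3997aac3.Q122.FM.All` (names `Pool.Agent.Q122.FM.ls1, ker, igf, ra, rep, frz, fdd`),
`Pool.Agent.H28.BR.All` (names `Pool.Agent.H28.BR.aps, ptw, kra, kin, ...`), `Pool.Agent.H28.BR.All3` (names
`Pool.Agent.H28.BR3.tauS, psd, sqk, lima, feq, tail, upp, ...`).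
-/

namespace Pool.Agent.H28.BR4

open Finset Filter Topology MeasureTheory Pool.Agent.H306R2.RZ Pool.Agent.H306R2.RG
  Pool.Agent.Q122.FM Pool.Agent.H28.BR Pool.Agent.H28.BR3
open Pool.Agent.Helper112 (ee)

noncomputable section

/-- `∑_{δ | q} δ^{-3/4}` -/
def sg (q : ℕ) : ℝ := ∑ δ ∈ q.divisors, (δ : ℝ) ^ (-(3 / 4) : ℝ)

/-- `(φ(d)/d)² ∏_{p | d} p/(p+1)` -/
def hh (d : ℕ) : ℝ := ((d.totient : ℝ) / d) ^ 2 * ∏ p ∈ d.primeFactors, (p : ℝ) / ((p : ℝ) + 1)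

/-- `∏_{p > 2} (1 - 1/p) (1 + (1 - 1/p)²/(p+1))` -/
def HH : ℝ := ∏' p : Nat.Primes, if (p : ℕ) = 2 then 1 else
  (1 - 1 / ((p : ℕ) : ℝ)) * (1 + (1 - 1 / ((p : ℕ) : ℝ)) ^ 2 / (((p : ℕ) : ℝ) + 1))

/-- the constant `a₂ = A₂(0, 0)` of the conjecture -/
def a2 : ℝ := ∏' p : Nat.Primes,
  (1 - 1 / ((p : ℕ) : ℝ)) ^ 3 *
    (((1 - 1 / Real.sqrt ((p : ℕ) : ℝ))⁻¹ ^ 2 + (1 + 1 / Real.sqrt ((p : ℕ) : ℝ))⁻¹ ^ 2) / 2 + 1 / ((p : ℕ) : ℝ)) /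
      (1 + 1 / ((p : ℕ) : ℝ))

/-- the part of `EA²` with square product `n m` -/
def Dg (p : Par) (N d : ℕ) (z : ℝ) : ℝ :=
  ∑ i ∈ range N, ∑ n ∈ (Icc 1 N).filter (fun n => Odd n),
    ∑ j ∈ range N, ∑ m ∈ (Icc 1 N).filter (fun m => Odd m ∧ IsSquare (n * m)),
      (p.η ^ i * js (p.e * (d : ℤ)) n / Real.sqrt ((2 : ℝ) ^ i * n) * IG p.a (((2 : ℝ) ^ i * n) ^ 2 * z)) *
      (p.η ^ j * js (p.e * (d : ℤ)) m / Real.sqrt ((2 : ℝ) ^ j * m) * IG p.a (((2 : ℝ) ^ j * m) ^ 2 * z))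

/-- the inner sum: `n = g x²` -/
def II (p : Par) (N d g : ℕ) (z : ℝ) : ℝ :=
  ∑ i ∈ range N, ∑ x ∈ (Icc 1 N).filter (fun x => Odd x ∧ x.Coprime d ∧ g * x ^ 2 ≤ N),
    p.η ^ i / (Real.sqrt ((2 : ℝ) ^ i) * x) * IG p.a (((2 : ℝ) ^ i * ((g : ℝ) * (x : ℝ) ^ 2)) ^ 2 * z)

/-- the main term of `EA²` -/
def MD (p : Par) (d : ℕ) : ℝ :=
  gm (1 / 2 + p.a) ^ 2 * S0 p.η ^ 2 * hh d * Real.log (p.r * (d : ℝ)) ^ 3 / (96 * Real.pi ^ 2)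

/-! ### A. the non-squares -/

/-- PT1: exactly as `S_PTW` (`H68/BR/PTW.lean`) with `N1` (non-squares) instead of `NA`, so `s ≥ 2`, and `θ = 0`,
`D0` arbitrary. -/
def S_PT1 : Prop := ∀ e : ℤ, (e = 1 ∨ e = -1 ∨ e = 2 ∨ e = -2) → ∀ k K : ℕ → ℝ,
  (∀ n, 1 ≤ n → |k n| ≤ K n) → (∀ n, 0 ≤ K n) → ∀ (c a D0 X N : ℕ), c < 8 → Odd c → 1 ≤ a →
  |∑ d ∈ (Ioc D0 X).filter (fun d => a ^ 2 ∣ d ∧ d % 8 = c), N1 e k N d| ≤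
    2 * ∑ s ∈ Icc 2 N, ∑ g ∈ Icc 1 N, ∑ v ∈ Icc 1 N, K (s * (g * v) ^ 2) * (1 / Real.sqrt s) *
      Psi s ((X : ℝ) / (8 * (Nat.lcm (a ^ 2) g : ℕ)) + 1) 0

/-- SQ0: as `t_SQK` (`H28/BR/SQK.lean`) with PT1: `EA² - Dg` is the sum over the `n, m` with `n m` not a square -/
def S_SQ0 : Prop := ∃ C : ℝ, 0 < C ∧ ∀ p : Par, p.ok → ∀ c : ℕ, c < 8 → Odd c → ∀ a : ℕ, 1 ≤ a →
  ∀ X N : ℕ, 1 ≤ X →
  |∑ d ∈ (Icc 1 X).filter (fun d => a ^ 2 ∣ d ∧ d % 8 = c),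
      (EA p N d (1 / (p.r * (d : ℝ))) ^ 2 - Dg p N d (1 / (p.r * (d : ℝ))))| ≤
    C * ∑ g ∈ Icc 1 (N ^ 2), ∑ v ∈ Icc 1 (N ^ 2), tau (g ^ 2) / g * (tau (v ^ 2) / v) *
      ∑ s ∈ Icc 2 (N ^ 2), tau s / s * Real.exp (-((s : ℝ) * ((g : ℝ) * v) ^ 2 / (8 * X))) *
        Psi s ((X : ℝ) / (8 * (Nat.lcm (a ^ 2) g : ℕ)) + 1) 0

/-- BD0: `Psi s L 0 ≤ ∑_{0 < b < s} 1/nd(b/s) ≤ 2 s (1 + log s)` for `s ≥ 2` (`gd L x ≤ 1/nd x`), so the `s`-sum is at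
most `∑ τ(s) 2 (1 + log s) e^{-s/Y} ≤ C Y (1 + log(1+Y))²`, `Y = 8X/(gv)²` (TAU (2), dyadic or Abel), and
`∑_g τ(g²)/g³ < ∞` by TAU (5). -/
def S_BD0 : Prop := ∃ C : ℝ, 0 < C ∧ ∀ (a X M : ℕ), 1 ≤ a → 1 ≤ X →
  ∑ g ∈ Icc 1 M, ∑ v ∈ Icc 1 M, tau (g ^ 2) / g * (tau (v ^ 2) / v) *
      ∑ s ∈ Icc 2 M, tau s / s * Real.exp (-((s : ℝ) * ((g : ℝ) * v) ^ 2 / (8 * X))) *
        Psi s ((X : ℝ) / (8 * (Nat.lcm (a ^ 2) g : ℕ)) + 1) 0 ≤ C * (X * lg X ^ 2)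

/-! ### B. the squares -/

/-- DGS: `n = g x²`, `m = g y²`, `g` squarefree (same squarefree part iff `n m` is a square); `js (e d) n js (e d) m`
is `1` if `g x y` is prime to `d` and `0` otherwise; see `Q122.FM.Dec`, `Dec2` (`sqf_unique`, `js_sq`) -/
def S_DGS : Prop := ∀ p : Par, p.ok → ∀ (N d : ℕ) (z : ℝ), Odd d →
  Dg p N d z = ∑ g ∈ (Icc 1 N).filter (fun g => Odd g ∧ Squarefree g ∧ g.Coprime d), 1 / (g : ℝ) * II p N d g z ^ 2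

/-- COP: `∑_{δ | q} μ(δ)/δ H(Y/δ)`, `|H(u) - log⁺ u| ≤ 1`, `(1 + log δ)/δ ≤ 4 δ^{-3/4}` -/
def S_COP : Prop := ∃ C : ℝ, 0 < C ∧ ∀ q Y : ℕ, 1 ≤ q → 1 ≤ Y →
  |∑ x ∈ (Icc 1 Y).filter (fun x => x.Coprime q), 1 / (x : ℝ) - (q.totient : ℝ) / q * Real.log Y| ≤ C * sg q

/-- INN: for one `i` put `w = 4^i g² z`: replace `IG(w x⁴)` by `IG(0) 1_{x ≤ w^{-1/4}}` (`IG a 0 = gm (1/2 + a)`,
`0 ≤ IG 0 - IG u ≤ C u^{1/4}` for `u ≤ 1`, `IG u ≤ C/u²` for `u > 0`; errors `O(1)`), then COP with `q = 2 d`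
(`φ(2d)/(2d) = φ(d)/(2d)`); the truncation `g x² ≤ N` is harmless as `N ≥ r d`; error `C (i + 1) sg d` for each `i`;
sum over `i` with `η^i 2^{-i/2}`. -/
def S_INN : Prop := ∃ C : ℝ, 0 < C ∧ ∀ p : Par, p.ok → ∀ d : ℕ, Odd d → ∀ g N : ℕ, 1 ≤ g → p.r * d ≤ N →
  (g ^ 2 ≤ p.r * d → |II p N d g (1 / (p.r * (d : ℝ))) - gm (1 / 2 + p.a) * S0 p.η * ((d.totient : ℝ) / (2 * d)) *
    (Real.log (p.r * (d : ℝ) / (g : ℝ) ^ 2) / 4)| ≤ C * sg d) ∧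
  (p.r * d < g ^ 2 → |II p N d g (1 / (p.r * (d : ℝ)))| ≤ C * (p.r * (d : ℝ) / (g : ℝ) ^ 2))

/-- SQG: `1_{g odd, squarefree, prime to d} = ∑_{δ b² | g, δ | 2d, (b, 2d) = 1} μ(δ) μ(b)`, `∑_{m ≤ u} log²(u/m)/m =
log³ u/3 + O(1 + log² u)`, `∑_{(b,2d)=1} μ(b)/b² = (6/π²) ∏_{p | 2d} (1 - 1/p²)^{-1}`,
`∏_{p | 2d} (1 - 1/p)/(1 - 1/p²) = (2/3) ∏_{p | d} p/(p+1)`. -/
def S_SQG : Prop := ∃ C : ℝ, 0 < C ∧ ∀ d : ℕ, Odd d → ∀ G : ℝ, 1 ≤ G →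
  |∑ g ∈ (Icc 1 ⌊G⌋₊).filter (fun g => Odd g ∧ Squarefree g ∧ g.Coprime d), 1 / (g : ℝ) * Real.log (G / g) ^ 2 -
    4 / Real.pi ^ 2 * (∏ p ∈ d.primeFactors, (p : ℝ) / ((p : ℝ) + 1)) * (Real.log G ^ 3 / 3)| ≤
    C * sg d * (1 + Real.log G) ^ 2

/-- DIA: DGS, INN, SQG with `G = √(r d)`; the `g > G` give `O(1)` -/
def S_DIA : Prop := ∃ C : ℝ, 0 < C ∧ ∀ p : Par, p.ok → ∀ d : ℕ, Odd d → ∀ N : ℕ, p.r * d ≤ N →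
  |Dg p N d (1 / (p.r * (d : ℝ))) - MD p d| ≤ C * sg d ^ 2 * lg d ^ 2

/-- SGM: `[δ, δ'] ≥ √(δ δ')` -/
def S_SGM : Prop := ∃ C : ℝ, 0 < C ∧ ∀ X : ℕ, ∑ d ∈ Icc 1 X, sg d ^ 2 ≤ C * X

/-! ### C. mean values -/

/-- MV: `μ²(d) hh(d) = ∑_{n | d} β(n)` on odd `d`, `β(p) = h(p) - 1`, `β(p²) = - h(p)`, `β(p^k) = 0` for `k ≥ 3`,
`h(p) = (1 - 1/p)² p/(p+1)`, `∑ |β(n)|/n < ∞` -/
def S_MV : Prop := ∀ c : ℕ, c < 8 → Odd c → Tendsto (fun X : ℕ =>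
  (∑ d ∈ (Icc 1 X).filter (fun d => d % 8 = c ∧ Squarefree d), hh d) / (X : ℝ)) atTop (𝓝 (HH / 8))

/-- ML: from MV; `∑_{d ≤ X} |log³(r d) - lg³ X| ≤ C_r X lg² X`, `0 ≤ hh ≤ 1` -/
def S_ML : Prop := ∀ c : ℕ, c < 8 → Odd c → ∀ r : ℕ, 1 ≤ r → Tendsto (fun X : ℕ =>
  (∑ d ∈ (Icc 1 X).filter (fun d => d % 8 = c ∧ Squarefree d), hh d * Real.log (r * (d : ℝ)) ^ 3) /
    (X * lg X ^ 3)) atTop (𝓝 (HH / 8))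

/-- CON: the factors for `p > 2` are equal, the factor `p = 2` of `a2` is `13/24`; multipliability; `a2 > 0` -/
def S_CON : Prop := a2 = 13 / 24 * HH ∧ 0 < a2

/-! ### D. the second moment -/

/-- AV0: SQ0, BD0, DIA, SGM, LIMA (`N → ∞` for fixed `X`) -/
def S_AV0 : Prop := ∃ C : ℝ, 0 < C ∧ ∀ p : Par, p.ok → ∀ c : ℕ, c < 8 → Odd c → ∀ a : ℕ, 1 ≤ a → ∀ X : ℕ, 1 ≤ X →
  |∑ d ∈ (Icc 1 X).filter (fun d => a ^ 2 ∣ d ∧ d % 8 = c),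
      (Einf p d (1 / (p.r * (d : ℝ))) ^ 2 - MD p d)| ≤ C * (X * lg X ^ 2)

/-- CL0: `1_{squarefree} = RA A + ∑_{a ≤ A, a² | d} μ(a)` with fixed `A`: AV0 for `a ≤ A`, TAIL for `RA A` times
`Einf²`, and `∑ |RA A d| |MD d| ≤ C X lg³ X/√A` (`Q122.FM.ra`, Cauchy-Schwarz, `0 ≤ MD ≤ C lg³ X`), ML, FEQ -/
def S_CL0 : Prop := ∀ φ : FD, Fam φ → ∀ c : ℕ, c < 8 → Odd c →
  (∀ d : ℕ, d % 8 = c → Squarefree d → d ≠ 1 → φ.A d) → Tendsto (fun X : ℕ =>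
  (∑ d ∈ (Icc 1 X).filter (fun d => d % 8 = c ∧ Squarefree d ∧ d ≠ 1), LLg φ d (1 / 2) ^ 2) /
    (X * lg X ^ 3)) atTop (𝓝 (S0 φ.η ^ 2 * HH / (192 * Real.pi ^ 2)))

/-- LF2: all families, as `H94/BR/Ir2.lean`: `S0 1 ^ 2 + S0 (-1) ^ 2 + 2 · 1/4 + 4 · 1/8 = 13` -/
def S_LF2 : Prop := ∀ ε : ℤ, (ε = 1 ∨ ε = -1) → Tendsto (fun X : ℕ =>
  (∑ n ∈ Ioc 1 X, Lf ε n ^ 2) / (X * lg X ^ 3)) atTop (𝓝 (13 * HH / (192 * Real.pi ^ 2)))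

end

end Pool.Agent.H28.BR4
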