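import Pool.Agent.H28.BR.Stm5
import Pool.Agent.H28.BR.PT1
import Pool.Agent.H28.BR.SQ0
import Pool.Agent.H28.BR.AV0
import Pool.Agent.H10.BR.Cop
import Pool.Agent.H28.BR.Kon
import Pool.Agent.H11.BR.Dia
import Pool.Agent.H39.BR.Lf2
import Pool.Agent.H40.BR.Cl0
import Pool.Agent.H58.BR.Sqg
import Pool.Agent.H28.BR.ML4
import Pool.Agent.H88.BR.Mv
import Pool.Agent.H40.BR.Inn
import Pool.Agent.H99.BR.Bd0
import Pool.Agent.H99.BR.Dgs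

set_option autoImplicit false

/-! Project BR4: all the statements, without hypotheses -/

namespace Pool.Agent.H28.BR4

open Pool.Agent.Q122 Pool.Agent.H28.BR Pool.Agent.H28.BR3

theorem pt1 : S_PT1 := t_PT1 Pool.Agent.H28.BR.aps
theorem sq0 : S_SQ0 := t_SQ0 FM.ker FM.igf Pool.Agent.H28.BR.kin pt1 tauS
theorem bd0 : S_BD0 := Pool.Agent.H99.BR4.t_BD0
theorem dgs : S_DGS := Pool.Agent.H99.BR4.t_DGS
theorem cop : S_COP := Pool.Agent.H10.BR4.t_COP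
theorem sgm : S_SGM := Pool.Agent.H10.BR4.t_SGM
theorem inn : S_INN := Pool.Agent.H40.BRI.t_INN cop
theorem sqg : S_SQG := Pool.Agent.H58.BR4.t_SQG
theorem dia : S_DIA := Pool.Agent.H11.BR4.t_DIA dgs inn sqg
theorem av0 : S_AV0 := t_AV0 sq0 bd0 dia sgm lima
theorem mv : S_MV := Pool.Agent.H88.BR4.t_MV
theorem ml : S_ML := t_ML mv
theorem cl0 : S_CL0 := Pool.Agent.H40.BR4.t_CL0 av0 ml
theorem lf2 : S_LF2 := Pool.Agent.H39.BR4.t_LF2 cl0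
theorem con : S_CON := t_CON
theorem multA2 : Multipliable (fun p : Nat.Primes =>
    (1 - 1 / ((p : ℕ) : ℝ)) ^ 3 *
    (((1 - 1 / Real.sqrt ((p : ℕ) : ℝ))⁻¹ ^ 2 + (1 + 1 / Real.sqrt ((p : ℕ) : ℝ))⁻¹ ^ 2) / 2 + 1 / ((p : ℕ) : ℝ)) /
      (1 + 1 / ((p : ℕ) : ℝ))) := Pool.Agent.H11.BR4.mult_a2

end Pool.Agent.H28.BR4
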