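import Pool.Agent.H28.BR.FAM

set_option autoImplicit false

/-! Project BR: the exponential sum over all fundamental discriminants, and sparse sets. -/

namespace Pool.Agent.H28.BR

open Finset Filter Topology MeasureTheory Pool.Agent.H306R2.RZ Pool.Agent.H306R2.RG
  Pool.Agent.Q122.FM
open Pool.Agent.Helper112 (ee)

noncomputable section

/-- rational approximations of `r θ` -/
theorem app_mul {θ : ℝ} {b : ℤ} {q X r : ℕ} (hq : 1 ≤ q) (hqX : q ^ 2 ≤ X) (hb : IsCoprime b (q : ℤ))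
    (hθ : |θ - (b : ℝ) / q| ≤ 1 / (q : ℝ) ^ 2) (hr : 1 ≤ r) (hr8 : r ≤ 8) (hX : 1 ≤ X / r) :
    ∃ (b' : ℤ) (q' : ℕ), App (θ * r) b' q' (X / r) ∧ q ≤ 8 * q' := by
  set g : ℕ := Nat.gcd r q with hg
  have hg0 : 0 < g := Nat.gcd_pos_of_pos_left _ hr
  obtain ⟨r', hr'⟩ := Nat.gcd_dvd_left r q
  obtain ⟨q', hq'⟩ := Nat.gcd_dvd_right r q
  rw [← hg] at hr' hq'
  have hg8 : g ≤ 8 := (Nat.gcd_le_left q hr).trans hr8
  have hq'0 : 0 < q' := by
    rcases Nat.eq_zero_or_pos q' with h | h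
    · rw [h] at hq'; omega
    · exact h
  have hr'0 : 0 < r' := by
    rcases Nat.eq_zero_or_pos r' with h | h
    · rw [h] at hr'; omega
    · exact h
  have hq'q : q' ≤ q := by rw [hq']; exact Nat.le_mul_of_pos_left _ hg0
  have hcop : Nat.Coprime r' q' := by
    have h1 := Nat.coprime_div_gcd_div_gcd (m := r) (n := q) hg0
    have h2 : r / g = r' := by rw [hr']; exact Nat.mul_div_cancel_left _ hg0
    have h3 : q / g = q' := by rw [hq']; exact Nat.mul_div_cancel_left _ hg0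
    rw [← hg, h2, h3] at h1
    exact h1
  refine ⟨b * r', q', ⟨hq'0, ?_, ?_, ?_⟩, ?_⟩
  · have h1 : q' ^ 2 ≤ X := (Nat.pow_le_pow_left hq'q 2).trans hqX
    have h2 : X < r * (X / r + 1) := Nat.lt_mul_div_succ X hr
    have h3 : r * (X / r + 1) ≤ 8 * (X / r + 1) := Nat.mul_le_mul_right _ hr8
    omega
  · have h1 : IsCoprime b (q' : ℤ) := by
      apply IsCoprime.of_isCoprime_of_dvd_right hb
      rw [hq']
      push_cast
      exact Dvd.intro_left _ rfl
    have h2 : IsCoprime (r' : ℤ) (q' : ℤ) := Nat.isCoprime_iff_coprime.2 hcop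
    exact IsCoprime.mul_left h1 h2
  · have hqR : (0 : ℝ) < q := by exact_mod_cast hq
    have hq'R : (0 : ℝ) < q' := by exact_mod_cast hq'0
    have hgR : (0 : ℝ) < g := by exact_mod_cast hg0
    have hrR : (r : ℝ) ≤ 8 := by exact_mod_cast hr8
    have e1 : θ * r - ((b * r' : ℤ) : ℝ) / q' = r * (θ - (b : ℝ) / q) := by
      have h1 : (r : ℝ) = g * r' := by exact_mod_cast hr'
      have h2 : (q : ℝ) = g * q' := by exact_mod_cast hq'
      rw [h1, h2]
      push_cast
      field_simp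
    rw [e1, abs_mul, abs_of_nonneg (Nat.cast_nonneg r)]
    have h3 : (q' : ℝ) ≤ q := by exact_mod_cast hq'q
    calc (r : ℝ) * |θ - (b : ℝ) / q| ≤ 8 * (1 / (q : ℝ) ^ 2) := by gcongr
      _ = 8 / (q : ℝ) ^ 2 := by ring
      _ ≤ 8 / (q' : ℝ) ^ 2 := by gcongr
  · rw [hq']
    exact Nat.mul_le_mul_right _ hg8

theorem t_EXP (clx : S_CLX) (rep : S_REP) (frz : S_FRZ) (fdd : S_FDD) : S_EXP := by
  intro κ hκ0 hκ
  obtain ⟨C, hC, clx⟩ := clx κ hκ0 hκ
  obtain ⟨K, hK, hb⟩ := Lf_bound rep frz fdd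
  refine ⟨K * (8 * C + 1), by positivity, ?_⟩
  intro ε hε θ b q X hq hqX hbq hθ
  have hX1 : 1 ≤ X := by
    have : 1 ≤ q ^ 2 := Nat.one_le_pow _ _ hq
    omega
  set x : ℝ := (X : ℝ) with hx
  have hx1 : 1 ≤ x := by rw [hx]; exact_mod_cast hX1
  have hx0 : 0 < x := by linarith
  set l : ℝ := lg X with hl
  have hl1 : 1 ≤ l := lg_one_le hX1
  have hq1 : (1 : ℝ) ≤ q := by exact_mod_cast hq
  have hqp : 0 ≤ (q : ℝ) ^ (κ - 1 / 2) := Real.rpow_nonneg (by linarith) _
  have hx78 : 1 ≤ x ^ (7 / 8 : ℝ) := Real.one_le_rpow hx1 (by norm_num)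
  set R : ℝ := x * l * (q : ℝ) ^ (κ - 1 / 2) + x ^ (7 / 8 : ℝ) * l ^ 2 with hR
  have hl2 : 1 ≤ l ^ 2 := by nlinarith
  have hR1 : 1 ≤ R := by
    rw [hR]
    have h1 : 0 ≤ x * l * (q : ℝ) ^ (κ - 1 / 2) := by positivity
    nlinarith
  have hmain := hb ε hε X (fun n => ee (θ * n)) (8 * C * R) (fun n => (norm_ee _).le)
    (by positivity) ?_
  · have e1 : SX ε θ X = ∑ n ∈ Ioc 1 X, (Lf ε n : ℂ) * ee (θ * n) := rfl
    rw [e1]
    refine hmain.trans ?_
    have : 8 * C * R + 1 ≤ (8 * C + 1) * R := by nlinarith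
    calc K * (8 * C * R + 1) ≤ K * ((8 * C + 1) * R) := mul_le_mul_of_nonneg_left this hK.le
      _ = _ := by ring
  · intro p hp c hc hco r hr N
    have hr1 : 1 ≤ r := by omega
    have hr8 : r ≤ 8 := by omega
    by_cases hXr : 1 ≤ X / r
    · obtain ⟨b', q', happ, hqq'⟩ := app_mul hq hqX hbq hθ hr1 hr8 hXr
      have h1 := clx p hp c hc hco (θ * r) b' q' (X / r) N hXr happ
      have e2 : ∑ d ∈ (Icc 1 (X / r)).filter (fun d => d % 8 = c ∧ Squarefree d),
          ee (θ * ((r * d : ℕ) : ℝ)) * (EA p N d (1 / (p.r * (d : ℝ))) : ℂ) =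
          ∑ d ∈ (Icc 1 (X / r)).filter (fun d => d % 8 = c ∧ Squarefree d),
          ee (θ * r * d) * (EA p N d (1 / (p.r * (d : ℝ))) : ℂ) := by
        apply sum_congr rfl
        intro d _
        rw [show θ * ((r * d : ℕ) : ℝ) = θ * r * d by push_cast; ring]
      rw [e2]
      refine h1.trans ?_
      have hXr' : ((X / r : ℕ) : ℝ) ≤ x := by
        rw [hx]; exact_mod_cast Nat.div_le_self X r
      have hXr0 : (1 : ℝ) ≤ ((X / r : ℕ) : ℝ) := by exact_mod_cast hXr
      have hlg : lg (X / r) ≤ l := by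
        rw [hl]
        unfold lg
        have : Real.log ((X / r : ℕ) : ℝ) ≤ Real.log X := Real.log_le_log (by linarith) hXr'
        linarith
      have hlg1 : 1 ≤ lg (X / r) := lg_one_le hXr
      have hq'0 : 0 < q' := happ.1
      have hq'R : (0 : ℝ) < q' := by exact_mod_cast hq'0
      have hqq'R : (q : ℝ) / 8 ≤ q' := by
        have : (q : ℝ) ≤ 8 * q' := by exact_mod_cast hqq'
        linarith
      have hqpow : (q' : ℝ) ^ (κ - 1 / 2) ≤ 8 * (q : ℝ) ^ (κ - 1 / 2) := by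
        calc (q' : ℝ) ^ (κ - 1 / 2) ≤ ((q : ℝ) / 8) ^ (κ - 1 / 2) :=
              Real.rpow_le_rpow_of_nonpos (by linarith) hqq'R (by linarith)
          _ = (q : ℝ) ^ (κ - 1 / 2) / 8 ^ (κ - 1 / 2) := Real.div_rpow (by linarith) (by norm_num) _
          _ = (q : ℝ) ^ (κ - 1 / 2) * 8 ^ (1 / 2 - κ) := by
              rw [div_eq_mul_inv, ← Real.rpow_neg (by norm_num)]
              congr 2
              ring
          _ ≤ (q : ℝ) ^ (κ - 1 / 2) * 8 ^ (1 : ℝ) := by
              apply mul_le_mul_of_nonneg_left _ hqp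
              exact Real.rpow_le_rpow_of_exponent_le (by norm_num) (by linarith)
          _ = 8 * (q : ℝ) ^ (κ - 1 / 2) := by rw [Real.rpow_one]; ring
      have h3 : ((X / r : ℕ) : ℝ) ^ (7 / 8 : ℝ) ≤ x ^ (7 / 8 : ℝ) :=
        Real.rpow_le_rpow (by linarith) hXr' (by norm_num)
      calc C * (((X / r : ℕ) : ℝ) * lg (X / r) * (q' : ℝ) ^ (κ - 1 / 2) +
            ((X / r : ℕ) : ℝ) ^ (7 / 8 : ℝ) * lg (X / r) ^ 2)
          ≤ C * (x * l * (8 * (q : ℝ) ^ (κ - 1 / 2)) + x ^ (7 / 8 : ℝ) * l ^ 2) := by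
            gcongr
        _ ≤ 8 * C * R := by
            rw [hR]
            have : 0 ≤ x ^ (7 / 8 : ℝ) * l ^ 2 := by positivity
            nlinarith
    · have h0 : X / r = 0 := Nat.lt_one_iff.1 (not_le.1 hXr)
      rw [h0]
      simp only [Icc_eq_empty (by norm_num : ¬ (1 : ℕ) ≤ 0), filter_empty, sum_empty, norm_zero]
      positivity

theorem t_GWL (gwe : S_GWE) (rep : S_REP) (frz : S_FRZ) (fdd : S_FDD) : S_GWL := by
  obtain ⟨C, hC, gwe⟩ := gwe
  obtain ⟨K, hK, hb⟩ := Lf_bound rep frz fdd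
  refine ⟨K * (C + 1), by positivity, ?_⟩
  intro ε hε X T hX hT
  classical
  have hx1 : (1 : ℝ) ≤ (X : ℝ) := by exact_mod_cast hX
  have hl1 : 1 ≤ lg X := lg_one_le hX
  have hl0 : (0 : ℝ) < lg X := by linarith
  rcases T.eq_empty_or_nonempty with h0 | hne
  · rw [h0]
    simp
  have hcard : (1 : ℝ) ≤ T.card := by exact_mod_cast hne.card_pos
  have hsT : 1 ≤ Real.sqrt T.card := Real.one_le_sqrt.2 hcard
  have hsX : 1 ≤ Real.sqrt X := Real.one_le_sqrt.2 hx1
  have hl32 : 1 ≤ lg X ^ (3 / 2 : ℝ) := Real.one_le_rpow hl1 (by norm_num)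
  set R : ℝ := Real.sqrt T.card * Real.sqrt X * lg X ^ (3 / 2 : ℝ) with hR
  have hR1 : 1 ≤ R := by
    rw [hR]
    have : 1 ≤ Real.sqrt T.card * Real.sqrt X := by nlinarith
    nlinarith
  -- the signs
  set G : ℕ → ℂ := fun n => if n ∈ T then (if 0 ≤ Lf ε n then 1 else -1) else 0 with hG
  have hG1 : ∀ n, ‖G n‖ ≤ 1 := by
    intro n
    simp only [hG]
    split_ifs <;> simp
  have e1 : ((∑ n ∈ T, |Lf ε n| : ℝ) : ℂ) = ∑ n ∈ Ioc 1 X, (Lf ε n : ℂ) * G n := by
    rw [Complex.ofReal_sum, ← Finset.sum_subset hT]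
    · apply sum_congr rfl
      intro n hn
      simp only [hG, if_pos hn]
      split_ifs with h
      · rw [abs_of_nonneg h, mul_one]
      · rw [abs_of_neg (not_le.1 h)]
        push_cast
        ring
    · intro n _ hn
      simp only [hG, if_neg hn, mul_zero]
  have hmain := hb ε hε X G (C * R) hG1 (by positivity) ?_
  · rw [← e1, Complex.norm_real, Real.norm_eq_abs, abs_of_nonneg (sum_nonneg fun _ _ => abs_nonneg _)]
      at hmain
    refine hmain.trans ?_
    have : C * R + 1 ≤ (C + 1) * R := by nlinarith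
    calc K * (C * R + 1) ≤ K * ((C + 1) * R) := mul_le_mul_of_nonneg_left this hK.le
      _ = _ := by rw [hR]; ring
  · intro p hp c hc hco r hr N
    have hr1 : 1 ≤ r := by omega
    by_cases hXr : 1 ≤ X / r
    · set u : ℕ → ℝ := fun d => ‖G (r * d)‖ with hu
      have h1 := gwe p hp c hc hco (X / r) N u hXr
      have h2 : ‖∑ d ∈ (Icc 1 (X / r)).filter (fun d => d % 8 = c ∧ Squarefree d),
          G (r * d) * (EA p N d (1 / (p.r * (d : ℝ))) : ℂ)‖ ≤
          ∑ d ∈ (Icc 1 (X / r)).filter (fun d => d % 8 = c),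
            |u d| * |EA p N d (1 / (p.r * (d : ℝ)))| := by
        refine (norm_sum_le _ _).trans ?_
        have h3 : ∀ d, ‖G (r * d) * (EA p N d (1 / (p.r * (d : ℝ))) : ℂ)‖ =
            |u d| * |EA p N d (1 / (p.r * (d : ℝ)))| := by
          intro d
          rw [norm_mul, Complex.norm_real, Real.norm_eq_abs]
          simp only [hu, abs_norm]
        simp only [h3]
        apply Finset.sum_le_sum_of_subset_of_nonneg
        · intro d hd
          simp only [mem_filter] at hd ⊢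
          exact ⟨hd.1, hd.2.1⟩
        · intro d _ _
          positivity
      have h3 : ∑ d ∈ Icc 1 (X / r), u d ^ 2 ≤ T.card := by
        have h4 : ∀ d, u d ^ 2 ≤ if r * d ∈ T then 1 else 0 := by
          intro d
          simp only [hu, hG]
          split_ifs <;> simp
        refine (sum_le_sum fun d _ => h4 d).trans ?_
        rw [← sum_filter, sum_const, nsmul_eq_mul, mul_one]
        have h5 : ((Icc 1 (X / r)).filter (fun d => r * d ∈ T)).card ≤ T.card := by
          apply Finset.card_le_card_of_injOn (fun d => r * d)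
          · intro d hd
            simp only [coe_filter, Set.mem_setOf_eq] at hd
            exact hd.2
          · intro d _ d' _ h
            exact Nat.eq_of_mul_eq_mul_left hr1 h
        exact_mod_cast h5
      have hXr' : ((X / r : ℕ) : ℝ) ≤ (X : ℝ) := by exact_mod_cast Nat.div_le_self X r
      have hXr0 : (1 : ℝ) ≤ ((X / r : ℕ) : ℝ) := by exact_mod_cast hXr
      have hlg : lg (X / r) ≤ lg X := by
        unfold lg
        have : Real.log ((X / r : ℕ) : ℝ) ≤ Real.log X := Real.log_le_log (by linarith) hXr'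
        linarith
      have hlg1 : 1 ≤ lg (X / r) := lg_one_le hXr
      refine h2.trans (h1.trans ?_)
      calc C * Real.sqrt (∑ d ∈ Icc 1 (X / r), u d ^ 2) * Real.sqrt ((X / r : ℕ) : ℝ) *
            lg (X / r) ^ (3 / 2 : ℝ)
          ≤ C * Real.sqrt T.card * Real.sqrt X * lg X ^ (3 / 2 : ℝ) := by
            gcongr
        _ = C * R := by rw [hR]; ring
    · have h0 : X / r = 0 := Nat.lt_one_iff.1 (not_le.1 hXr)
      rw [h0]
      simp only [Icc_eq_empty (by norm_num : ¬ (1 : ℕ) ≤ 0), filter_empty, sum_empty, norm_zero]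
      positivity

end

end Pool.Agent.H28.BR
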