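import Pool.Agent.H28.BR.CLX
import Pool.Graph.R_pool_sql_team_seeded_3997aac3.Q122.FM.MED

set_option autoImplicit false

/-! Project BR: the families of fundamental discriminants. -/

namespace Pool.Agent.H28.BR

open Finset Filter Topology MeasureTheory Pool.Agent.H306R2.RZ Pool.Agent.H306R2.RG
  Pool.Agent.Q122.FM
open Pool.Agent.Helper112 (ee)

noncomputable section

/-- change of variables `n = r d` -/
theorem sum_dvdC (r : ℕ) (hr : 1 ≤ r) (P : ℕ → Prop) [DecidablePred P] (f : ℕ → ℝ) (G : ℕ → ℂ)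
    (x X : ℕ) :
    ∑ n ∈ Ioc x X, ((if r ∣ n ∧ P (n / r) then f (n / r) else 0 : ℝ) : ℂ) * G n =
      ∑ d ∈ Ioc (x / r) (X / r), ((if P d then f d else 0 : ℝ) : ℂ) * G (r * d) := by
  have e1 : ∑ n ∈ Ioc x X, ((if r ∣ n ∧ P (n / r) then f (n / r) else 0 : ℝ) : ℂ) * G n =
      ∑ n ∈ (Ioc x X).filter (fun n => r ∣ n), ((if P (n / r) then f (n / r) else 0 : ℝ) : ℂ) * G n := by
    rw [sum_filter]
    apply sum_congr rfl
    intro n _
    by_cases h : r ∣ n <;> simp [h]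
  rw [e1]
  apply sum_nbij' (fun n => n / r) (fun d => r * d)
  · intro n hn
    simp only [mem_filter, mem_Ioc] at hn ⊢
    obtain ⟨⟨h1, h2⟩, d, rfl⟩ := hn
    rw [Nat.mul_div_cancel_left d hr]
    constructor
    · rw [Nat.div_lt_iff_lt_mul hr, mul_comm]; exact h1
    · rw [Nat.le_div_iff_mul_le hr, mul_comm]; exact h2
  · intro d hd
    simp only [mem_filter, mem_Ioc] at hd ⊢
    refine ⟨⟨?_, ?_⟩, Dvd.intro _ rfl⟩
    · have := (Nat.div_lt_iff_lt_mul hr).1 hd.1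
      rw [mul_comm]; exact this
    · have := (Nat.le_div_iff_mul_le hr).1 hd.2
      rw [mul_comm]; exact this
  · intro n hn
    simp only [mem_filter] at hn
    exact Nat.mul_div_cancel' hn.2
  · intro d _
    exact Nat.mul_div_cancel_left d hr
  · intro n hn
    simp only [mem_filter] at hn
    simp only [Nat.mul_div_cancel' hn.2]

/-- sum over one class of one family -/
def CS (φ : FD) (c y x : ℕ) (G : ℕ → ℂ) : ℂ :=
  ∑ d ∈ (Ioc y x).filter (fun d => d % 8 = c ∧ Squarefree d), (LLg φ d (1 / 2) : ℂ) * G d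

open Classical in
theorem fam_splitC (φ : FD) (Cl : Finset ℕ) (y x : ℕ) (G : ℕ → ℂ)
    (hA : ∀ d, y < d → Squarefree d → (φ.A d ↔ d % 8 ∈ Cl)) :
    ∑ d ∈ Ioc y x, ((if φ.A d ∧ Squarefree d then LLg φ d (1 / 2) else 0 : ℝ) : ℂ) * G d =
      ∑ c ∈ Cl, CS φ c y x G := by
  unfold CS
  simp_rw [sum_filter]
  rw [sum_comm]
  apply sum_congr rfl
  intro d hd
  rw [mem_Ioc] at hd
  by_cases hs : Squarefree d
  · have h1 := hA d hd.1 hs
    by_cases h2 : d % 8 ∈ Cl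
    · rw [if_pos ⟨h1.2 h2, hs⟩, sum_eq_single (d % 8)]
      · rw [if_pos ⟨rfl, hs⟩]
      · intro c _ hc
        rw [if_neg (fun h => hc h.1.symm)]
      · intro h; exact absurd h2 h
    · rw [if_neg (fun h => h2 (h1.1 h.1)), Complex.ofReal_zero, zero_mul]
      symm
      apply sum_eq_zero
      intro c hc
      rw [if_neg]
      rintro ⟨h3, _⟩
      exact h2 (h3 ▸ hc)
  · rw [if_neg (fun h => hs h.2), Complex.ofReal_zero, zero_mul]
    symm
    apply sum_eq_zero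
    intro c _
    rw [if_neg (fun h => hs h.2)]

/-- the decomposition of a sum over the fundamental discriminants -/
theorem Lf_eq (fdd : S_FDD) (ε : ℤ) (hε : ε = 1 ∨ ε = -1) (Cl8 Cl4 Cl1 Cl5 : Finset ℕ)
    (h8 : ∀ d : ℕ, 1 ≤ d → Squarefree d → ((F8 ε).A d ↔ d % 8 ∈ Cl8))
    (h4 : ∀ d : ℕ, 1 ≤ d → Squarefree d → ((F4 ε).A d ↔ d % 8 ∈ Cl4))
    (h1 : ∀ d : ℕ, 2 ≤ d → Squarefree d → ((F1 ε 1).A d ↔ d % 8 ∈ Cl1))
    (h5 : ∀ d : ℕ, 2 ≤ d → Squarefree d → ((F1 ε 5).A d ↔ d % 8 ∈ Cl5))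
    (X : ℕ) (G : ℕ → ℂ) :
    ∑ n ∈ Ioc 1 X, (Lf ε n : ℂ) * G n =
      ∑ c ∈ Cl8, CS (F8 ε) c 0 (X / 8) (fun d => G (8 * d)) +
      ∑ c ∈ Cl4, CS (F4 ε) c 0 (X / 4) (fun d => G (4 * d)) +
      ∑ c ∈ Cl1, CS (F1 ε 1) c 1 X G +
      ∑ c ∈ Cl5, CS (F1 ε 5) c 1 X G := by
  classical
  have e0 : ∑ n ∈ Ioc 1 X, (Lf ε n : ℂ) * G n = ∑ n ∈ Ioc 1 X,
      (((if 8 ∣ n ∧ ((F8 ε).A (n / 8) ∧ Squarefree (n / 8)) then
        LLg (F8 ε) (n / 8) (1 / 2) else 0 : ℝ) : ℂ) * G n +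
      ((if 4 ∣ n ∧ ((F4 ε).A (n / 4) ∧ Squarefree (n / 4)) then
        LLg (F4 ε) (n / 4) (1 / 2) else 0 : ℝ) : ℂ) * G n +
      ((if (F1 ε 1).A n ∧ Squarefree n then LLg (F1 ε 1) n (1 / 2) else 0 : ℝ) : ℂ) * G n +
      ((if (F1 ε 5).A n ∧ Squarefree n then LLg (F1 ε 5) n (1 / 2) else 0 : ℝ) : ℂ) * G n) := by
    apply sum_congr rfl
    intro n hn
    rw [mem_Ioc] at hn
    have h := fdd.2 ε hε n (by omega)
    have h' : Lf ε n = (if 8 ∣ n ∧ ((F8 ε).A (n / 8) ∧ Squarefree (n / 8)) then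
        LLg (F8 ε) (n / 8) (1 / 2) else 0) +
      (if 4 ∣ n ∧ ((F4 ε).A (n / 4) ∧ Squarefree (n / 4)) then
        LLg (F4 ε) (n / 4) (1 / 2) else 0) +
      (if (F1 ε 1).A n ∧ Squarefree n then LLg (F1 ε 1) n (1 / 2) else 0) +
      (if (F1 ε 5).A n ∧ Squarefree n then LLg (F1 ε 5) n (1 / 2) else 0) := by
      unfold Lf
      convert h using 4
    rw [h']
    push_cast
    ring
  rw [e0, sum_add_distrib, sum_add_distrib, sum_add_distrib]
  have a8 := sum_dvdC 8 (by norm_num) (fun d => (F8 ε).A d ∧ Squarefree d)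
    (fun d => LLg (F8 ε) d (1 / 2)) G 1 X
  have a4 := sum_dvdC 4 (by norm_num) (fun d => (F4 ε).A d ∧ Squarefree d)
    (fun d => LLg (F4 ε) d (1 / 2)) G 1 X
  have b8 := fam_splitC (F8 ε) Cl8 0 (X / 8) (fun d => G (8 * d))
    (fun d hd hs => h8 d (by omega) hs)
  have b4 := fam_splitC (F4 ε) Cl4 0 (X / 4) (fun d => G (4 * d))
    (fun d hd hs => h4 d (by omega) hs)
  have b1 := fam_splitC (F1 ε 1) Cl1 1 X G (fun d hd hs => h1 d (by omega) hs)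
  have b5 := fam_splitC (F1 ε 5) Cl5 1 X G (fun d hd hs => h5 d (by omega) hs)
  have z8 : (1 : ℕ) / 8 = 0 := by norm_num
  have z4 : (1 : ℕ) / 4 = 0 := by norm_num
  rw [z8] at a8
  rw [z4] at a4
  rw [← b8, ← b4, ← b1, ← b5, ← a8, ← a4]

/-- the limit of the truncated formula in one class -/
theorem CS_lim (rep : S_REP) (φ : FD) (hφ : Fam φ) (c y x : ℕ)
    (hc : ∀ d : ℕ, y < d → d % 8 = c → Squarefree d → φ.A d) (G : ℕ → ℂ) :
    Tendsto (fun N : ℕ => ∑ d ∈ (Ioc y x).filter (fun d => d % 8 = c ∧ Squarefree d),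
      (EA (par φ) N d (1 / (φ.r * (d : ℝ))) : ℂ) * G d) atTop
      (𝓝 (((gm (1 / 2 + φ.a) / 2 : ℝ) : ℂ) * CS φ c y x G)) := by
  unfold CS
  rw [Finset.mul_sum]
  apply tendsto_finsetSum
  intro d hd
  rw [mem_filter, mem_Ioc] at hd
  have h := rep φ hφ d (hc d hd.1.1 hd.2.1 hd.2.2) hd.2.2
  have h2 : Tendsto (fun N : ℕ => (EA (par φ) N d (1 / (φ.r * (d : ℝ))) : ℂ)) atTop
      (𝓝 ((gm (1 / 2 + φ.a) / 2 * LLg φ d (1 / 2) : ℝ) : ℂ)) :=
    (Complex.continuous_ofReal.tendsto _).comp h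
  have h3 := h2.mul_const (G d)
  convert h3 using 2
  push_cast
  ring

/-- the bound for one class -/
theorem CS_bd (rep : S_REP) (frz : S_FRZ) : ∃ K : ℝ, 0 < K ∧ ∀ (φ : FD), Fam φ → ∀ (c y x : ℕ),
    y ≤ 1 → (∀ d : ℕ, y < d → d % 8 = c → Squarefree d → φ.A d) → ∀ (G : ℕ → ℂ) (B : ℝ),
    (∀ n, ‖G n‖ ≤ 1) → 0 ≤ B →
    (∀ N : ℕ, ‖∑ d ∈ (Icc 1 x).filter (fun d => d % 8 = c ∧ Squarefree d),
      G d * (EA (par φ) N d (1 / ((par φ).r * (d : ℝ))) : ℂ)‖ ≤ B) →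
    ‖CS φ c y x G‖ ≤ K * (B + 1) := by
  obtain ⟨Cf, hCf, frz⟩ := frz
  have hg1 : 0 < gm (1 / 2 + ((0 : ℕ) : ℝ)) := by
    unfold gm
    have : 0 < Real.Gamma ((1 / 2 + ((0 : ℕ) : ℝ)) / 2) := Real.Gamma_pos_of_pos (by norm_num)
    positivity
  have hg2 : 0 < gm (1 / 2 + ((1 : ℕ) : ℝ)) := by
    unfold gm
    have : 0 < Real.Gamma ((1 / 2 + ((1 : ℕ) : ℝ)) / 2) := Real.Gamma_pos_of_pos (by norm_num)
    positivity
  set g0 : ℝ := min (gm (1 / 2 + ((0 : ℕ) : ℝ))) (gm (1 / 2 + ((1 : ℕ) : ℝ))) with hg0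
  have hg0p : 0 < g0 := lt_min hg1 hg2
  refine ⟨2 / g0 * (1 + 2 * Cf), by positivity, ?_⟩
  intro φ hφ c y x hy hc G B hG hB hN
  have hp := par_ok hφ
  obtain ⟨hr1, hr8⟩ := r_ok hφ
  have hr' : (1 : ℝ) ≤ φ.r := by exact_mod_cast hr1
  have hr8' : (φ.r : ℝ) ≤ 8 := by exact_mod_cast hr8
  have hgφ : g0 ≤ gm (1 / 2 + φ.a) := by
    have ha : φ.a = 0 ∨ φ.a = 1 := hp.2.2.1
    rcases ha with h | h
    · rw [h]; exact min_le_left _ _
    · rw [h]; exact min_le_right _ _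
  have hone : ∀ N : ℕ, |EA (par φ) N 1 (1 / (φ.r * ((1 : ℕ) : ℝ)))| ≤ 2 * Cf := by
    intro N
    have hz1 : 1 / (φ.r * ((1 : ℕ) : ℝ)) ≤ 1 := by
      rw [div_le_one (by push_cast; linarith)]
      push_cast; linarith
    have h3 := (frz (par φ) hp N 1 (1 / (φ.r * ((1 : ℕ) : ℝ))) (1 / (φ.r * ((1 : ℕ) : ℝ)))
      (by positivity) le_rfl hz1).2
    unfold EA
    refine h3.trans ?_
    rw [z_pow (by positivity), mul_comm 2 Cf]
    apply mul_le_mul_of_nonneg_left _ hCf.le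
    have : (φ.r * ((1 : ℕ) : ℝ)) ^ (1 / 4 : ℝ) ≤ (16 : ℝ) ^ (1 / 4 : ℝ) := by
      apply Real.rpow_le_rpow (by positivity) _ (by norm_num)
      push_cast; linarith
    refine this.trans (le_of_eq ?_)
    rw [show (16 : ℝ) = 2 ^ (4 : ℝ) by norm_num, ← Real.rpow_mul (by norm_num)]
    norm_num
  have hbd : ∀ N : ℕ, ‖∑ d ∈ (Ioc y x).filter (fun d => d % 8 = c ∧ Squarefree d),
      (EA (par φ) N d (1 / (φ.r * (d : ℝ))) : ℂ) * G d‖ ≤ B + 2 * Cf := by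
    intro N
    have h0 := hN N
    have h1 : (Ioc y x).filter (fun d => d % 8 = c ∧ Squarefree d) =
        (Icc 1 x).filter (fun d => d % 8 = c ∧ Squarefree d) \
          (Icc 1 y).filter (fun d => d ≤ x ∧ d % 8 = c ∧ Squarefree d) := by
      ext d
      simp only [mem_filter, mem_Ioc, Finset.mem_sdiff, mem_Icc]
      constructor
      · rintro ⟨⟨a1, a2⟩, a3, a4⟩
        exact ⟨⟨⟨by omega, a2⟩, a3, a4⟩, fun h => by omega⟩
      · rintro ⟨⟨⟨a1, a2⟩, a3, a4⟩, a5⟩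
        refine ⟨⟨?_, a2⟩, a3, a4⟩
        by_contra h
        exact a5 ⟨⟨a1, by omega⟩, a2, a3, a4⟩
    have hsub : (Icc 1 y).filter (fun d => d ≤ x ∧ d % 8 = c ∧ Squarefree d) ⊆
        (Icc 1 x).filter (fun d => d % 8 = c ∧ Squarefree d) := by
      intro d hd
      simp only [mem_filter, mem_Icc] at hd ⊢
      exact ⟨⟨hd.1.1, hd.2.1⟩, hd.2.2⟩
    rw [h1, Finset.sum_sdiff_eq_sub hsub]
    refine (norm_sub_le _ _).trans ?_
    apply add_le_add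
    · refine le_trans (le_of_eq ?_) h0
      congr 1
      apply sum_congr rfl
      intro d _
      rw [mul_comm]
      rfl
    · refine (norm_sum_le _ _).trans ?_
      have h2 : ∀ d ∈ (Icc 1 y).filter (fun d => d ≤ x ∧ d % 8 = c ∧ Squarefree d),
          ‖(EA (par φ) N d (1 / (φ.r * (d : ℝ))) : ℂ) * G d‖ ≤ 2 * Cf := by
        intro d hd
        simp only [mem_filter, mem_Icc] at hd
        have hd1 : d = 1 := by omega
        subst hd1
        rw [norm_mul, Complex.norm_real, Real.norm_eq_abs]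
        calc _ ≤ 2 * Cf * 1 := mul_le_mul (hone N) (hG 1) (norm_nonneg _) (by positivity)
          _ = 2 * Cf := mul_one _
      refine (Finset.sum_le_card_nsmul _ _ _ h2).trans ?_
      have h3 : ((Icc 1 y).filter (fun d => d ≤ x ∧ d % 8 = c ∧ Squarefree d)).card ≤ 1 := by
        refine (Finset.card_filter_le _ _).trans ?_
        rw [Nat.card_Icc]
        omega
      rw [nsmul_eq_mul]
      have h4 : ((((Icc 1 y).filter (fun d => d ≤ x ∧ d % 8 = c ∧ Squarefree d)).card : ℕ) : ℝ) ≤ 1 := by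
        exact_mod_cast h3
      nlinarith
  have hlim := (CS_lim rep φ hφ c y x hc G).norm
  have h4 := le_of_tendsto' hlim hbd
  rw [norm_mul, Complex.norm_real, Real.norm_eq_abs, abs_of_nonneg (by linarith)] at h4
  have h5 : g0 / 2 * ‖CS φ c y x G‖ ≤ B + 2 * Cf :=
    (mul_le_mul_of_nonneg_right (by linarith) (norm_nonneg _)).trans h4
  have h6 : ‖CS φ c y x G‖ ≤ 2 / g0 * (B + 2 * Cf) := by
    rw [div_mul_eq_mul_div, le_div_iff₀ hg0p]
    linarith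
  refine h6.trans ?_
  have h7 : B + 2 * Cf ≤ (1 + 2 * Cf) * (B + 1) := by nlinarith
  calc 2 / g0 * (B + 2 * Cf) ≤ 2 / g0 * ((1 + 2 * Cf) * (B + 1)) :=
        mul_le_mul_of_nonneg_left h7 (by positivity)
    _ = _ := by ring

/-- the bound for all families, classes given -/
theorem Lf_gen (rep : S_REP) (frz : S_FRZ) (fdd : S_FDD) : ∃ K : ℝ, 0 < K ∧ ∀ (ε : ℤ),
    (ε = 1 ∨ ε = -1) → ∀ (Cl8 Cl4 Cl1 Cl5 : Finset ℕ),
    (∀ c ∈ Cl8 ∪ Cl4 ∪ Cl1 ∪ Cl5, c < 8 ∧ Odd c) → Cl8.card = 4 → Cl4.card = 2 → Cl1.card = 1 →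
    Cl5.card = 1 →
    (∀ d : ℕ, 1 ≤ d → Squarefree d → ((F8 ε).A d ↔ d % 8 ∈ Cl8)) →
    (∀ d : ℕ, 1 ≤ d → Squarefree d → ((F4 ε).A d ↔ d % 8 ∈ Cl4)) →
    (∀ d : ℕ, 2 ≤ d → Squarefree d → ((F1 ε 1).A d ↔ d % 8 ∈ Cl1)) →
    (∀ d : ℕ, 2 ≤ d → Squarefree d → ((F1 ε 5).A d ↔ d % 8 ∈ Cl5)) →
    ∀ (X : ℕ) (G : ℕ → ℂ) (B : ℝ), (∀ n, ‖G n‖ ≤ 1) → 0 ≤ B →
    (∀ p : Par, p.ok → ∀ c : ℕ, c < 8 → Odd c → ∀ r : ℕ, (r = 1 ∨ r = 4 ∨ r = 8) → ∀ N : ℕ,
      ‖∑ d ∈ (Icc 1 (X / r)).filter (fun d => d % 8 = c ∧ Squarefree d),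
        G (r * d) * (EA p N d (1 / (p.r * (d : ℝ))) : ℂ)‖ ≤ B) →
    ‖∑ n ∈ Ioc 1 X, (Lf ε n : ℂ) * G n‖ ≤ K * (B + 1) := by
  obtain ⟨K, hK, hb⟩ := CS_bd rep frz
  refine ⟨8 * K, by positivity, ?_⟩
  intro ε hε Cl8 Cl4 Cl1 Cl5 hc k8 k4 k1 k5 h8 h4 h1 h5 X G B hG hB hN
  rw [Lf_eq fdd ε hε Cl8 Cl4 Cl1 Cl5 h8 h4 h1 h5 X G]
  have hcl : ∀ (Cl : Finset ℕ) (φ : FD) (y x : ℕ) (G' : ℕ → ℂ), Fam φ → y ≤ 1 →
      (∀ n, ‖G' n‖ ≤ 1) →
      (∀ c ∈ Cl, ∀ d : ℕ, y < d → d % 8 = c → Squarefree d → φ.A d) →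
      (∀ c ∈ Cl, ∀ N : ℕ, ‖∑ d ∈ (Icc 1 x).filter (fun d => d % 8 = c ∧ Squarefree d),
        G' d * (EA (par φ) N d (1 / ((par φ).r * (d : ℝ))) : ℂ)‖ ≤ B) →
      ‖∑ c ∈ Cl, CS φ c y x G'‖ ≤ Cl.card * (K * (B + 1)) := by
    intro Cl φ y x G' hφ hy hG' hA hN'
    refine (norm_sum_le _ _).trans ?_
    refine (Finset.sum_le_card_nsmul _ _ _ fun c hc' =>
      hb φ hφ c y x hy (hA c hc') G' B hG' hB (hN' c hc')).trans ?_
    rw [nsmul_eq_mul]
  have f8 : Fam (F8 ε) := ⟨ε, hε, Or.inl rfl⟩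
  have f4 : Fam (F4 ε) := ⟨ε, hε, Or.inr (Or.inl rfl)⟩
  have f1 : Fam (F1 ε 1) := ⟨ε, hε, Or.inr (Or.inr (Or.inl rfl))⟩
  have f5 : Fam (F1 ε 5) := ⟨ε, hε, Or.inr (Or.inr (Or.inr rfl))⟩
  have b8 := hcl Cl8 (F8 ε) 0 (X / 8) (fun d => G (8 * d)) f8 (by norm_num) (fun n => hG _)
    (fun c hc' d hd hdc hs => (h8 d (by omega) hs).2 (by rw [hdc]; exact hc'))
    (fun c hc' N => hN (par (F8 ε)) (par_ok f8) c (hc c (by simp [hc'])).1 (hc c (by simp [hc'])).2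
      8 (by norm_num) N)
  have b4 := hcl Cl4 (F4 ε) 0 (X / 4) (fun d => G (4 * d)) f4 (by norm_num) (fun n => hG _)
    (fun c hc' d hd hdc hs => (h4 d (by omega) hs).2 (by rw [hdc]; exact hc'))
    (fun c hc' N => hN (par (F4 ε)) (par_ok f4) c (hc c (by simp [hc'])).1 (hc c (by simp [hc'])).2
      4 (by norm_num) N)
  have b1 := hcl Cl1 (F1 ε 1) 1 X G f1 (by norm_num) (fun n => hG _)
    (fun c hc' d hd hdc hs => (h1 d (by omega) hs).2 (by rw [hdc]; exact hc'))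
    (fun c hc' N => by
      have := hN (par (F1 ε 1)) (par_ok f1) c (hc c (by simp [hc'])).1 (hc c (by simp [hc'])).2
        1 (by norm_num) N
      simpa only [Nat.div_one, one_mul] using this)
  have b5 := hcl Cl5 (F1 ε 5) 1 X G f5 (by norm_num) (fun n => hG _)
    (fun c hc' d hd hdc hs => (h5 d (by omega) hs).2 (by rw [hdc]; exact hc'))
    (fun c hc' N => by
      have := hN (par (F1 ε 5)) (par_ok f5) c (hc c (by simp [hc'])).1 (hc c (by simp [hc'])).2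
        1 (by norm_num) N
      simpa only [Nat.div_one, one_mul] using this)
  rw [k8] at b8
  rw [k4] at b4
  rw [k1] at b1
  rw [k5] at b5
  refine (norm_add_le _ _).trans ?_
  refine (add_le_add (norm_add_le _ _) le_rfl).trans ?_
  refine (add_le_add (add_le_add (norm_add_le _ _) le_rfl) le_rfl).trans ?_
  push_cast at b8 b4 b1 b5
  linarith

/-- the bound for all families -/
theorem Lf_bound (rep : S_REP) (frz : S_FRZ) (fdd : S_FDD) : ∃ K : ℝ, 0 < K ∧ ∀ (ε : ℤ),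
    (ε = 1 ∨ ε = -1) →
    ∀ (X : ℕ) (G : ℕ → ℂ) (B : ℝ), (∀ n, ‖G n‖ ≤ 1) → 0 ≤ B →
    (∀ p : Par, p.ok → ∀ c : ℕ, c < 8 → Odd c → ∀ r : ℕ, (r = 1 ∨ r = 4 ∨ r = 8) → ∀ N : ℕ,
      ‖∑ d ∈ (Icc 1 (X / r)).filter (fun d => d % 8 = c ∧ Squarefree d),
        G (r * d) * (EA p N d (1 / (p.r * (d : ℝ))) : ℂ)‖ ≤ B) →
    ‖∑ n ∈ Ioc 1 X, (Lf ε n : ℂ) * G n‖ ≤ K * (B + 1) := by
  obtain ⟨K, hK, hb⟩ := Lf_gen rep frz fdd
  refine ⟨K, hK, ?_⟩
  rintro ε (rfl | rfl)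
  · exact hb 1 (Or.inl rfl) {1, 3, 5, 7} {3, 7} {1} {5}
      (by decide) (by decide) (by decide) (by decide) (by decide)
      (by
        intro d hd hs
        simp only [F8, mem_insert, mem_singleton]
        rw [Nat.odd_iff]
        omega)
      (by
        intro d hd hs
        simp only [F4, mem_insert, mem_singleton]
        omega)
      (by
        intro d hd hs
        simp only [F1, mem_singleton]
        have := not_sq_nat hd hs
        simp only [this, not_false_eq_true, and_true]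
        omega)
      (by
        intro d hd hs
        simp only [F1, mem_singleton]
        have := not_sq_nat hd hs
        simp only [this, not_false_eq_true, and_true]
        omega)
  · exact hb (-1) (Or.inr rfl) {1, 3, 5, 7} {1, 5} {7} {3}
      (by decide) (by decide) (by decide) (by decide) (by decide)
      (by
        intro d hd hs
        simp only [F8, mem_insert, mem_singleton]
        rw [Nat.odd_iff]
        omega)
      (by
        intro d hd hs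
        simp only [F4, mem_insert, mem_singleton]
        omega)
      (by
        intro d hd hs
        simp only [F1, mem_singleton]
        have := not_sq_neg hd
        simp only [this, not_false_eq_true, and_true]
        omega)
      (by
        intro d hd hs
        simp only [F1, mem_singleton]
        have := not_sq_neg hd
        simp only [this, not_false_eq_true, and_true]
        omega)

end

end Pool.Agent.H28.BR
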