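import Pool.Agent.H28.BR.CLX

set_option autoImplicit false

/-! Project BR: all irrational numbers. -/

namespace Pool.Agent.H28.BR

open Finset Filter Topology MeasureTheory Pool.Agent.H306R2.RZ Pool.Agent.H306R2.RG
  Pool.Agent.Q122.FM
open Pool.Agent.Helper112 (ee)

noncomputable section

theorem one_le_logN {X : ℕ} (hX : 3 ≤ X) : 1 ≤ Real.log X := by
  have hx : (3 : ℝ) ≤ X := by exact_mod_cast hX
  rw [Real.le_log_iff_exp_le (by linarith)]
  have := Real.exp_one_lt_d9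
  linarith

/-- Dirichlet approximation -/
theorem dirichlet (θ : ℝ) (X : ℕ) (hX : 1 ≤ X) : ∃ (b : ℤ) (q : ℕ), 1 ≤ q ∧ q ^ 2 ≤ X ∧
    IsCoprime b (q : ℤ) ∧ |θ - (b : ℝ) / q| ≤ 1 / (q : ℝ) ^ 2 ∧
    |θ - (b : ℝ) / q| ≤ 1 / (Real.sqrt X * q) := by
  have hn : 0 < Nat.sqrt X := Nat.sqrt_pos.2 hX
  obtain ⟨r, hr1, hr2⟩ := Real.exists_rat_abs_sub_le_and_den_le θ hn
  have hd : 0 < r.den := r.den_pos
  have hdR : (0 : ℝ) < r.den := by exact_mod_cast hd
  have hr : (r : ℝ) = (r.num : ℝ) / (r.den : ℝ) := by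
    exact Rat.cast_def r
  refine ⟨r.num, r.den, hd, ?_, ?_, ?_, ?_⟩
  · exact (Nat.pow_le_pow_left hr2 2).trans (Nat.sqrt_le' X)
  · rw [Int.isCoprime_iff_gcd_eq_one]
    exact r.reduced
  · rw [← hr]
    refine hr1.trans ?_
    apply one_div_le_one_div_of_le (by positivity)
    rw [sq]
    apply mul_le_mul_of_nonneg_right _ hdR.le
    have : (r.den : ℝ) ≤ Nat.sqrt X := by exact_mod_cast hr2
    linarith
  · rw [← hr]
    refine hr1.trans ?_
    have hX0 : (0 : ℝ) < X := by exact_mod_cast hX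
    apply one_div_le_one_div_of_le (by positivity)
    apply mul_le_mul_of_nonneg_right _ hdR.le
    rw [Real.sqrt_le_left (by positivity)]
    have h1 : X < (Nat.sqrt X + 1) ^ 2 := Nat.lt_succ_sqrt' X
    exact_mod_cast h1.le

theorem SX_uniform (exp : S_EXP) : ∃ C : ℝ, 0 < C ∧ ∀ ε : ℤ, (ε = 1 ∨ ε = -1) → ∀ (θ : ℝ) (X : ℕ),
    1 ≤ X → ‖SX ε θ X‖ ≤ C * X * lg X := by
  obtain ⟨C, hC, h⟩ := exp (1 / 8) (by norm_num) le_rfl
  have hlim : ∃ K : ℝ, 0 < K ∧ ∀ X : ℕ, 1 ≤ X → lg X ≤ K * (X : ℝ) ^ (1 / 8 : ℝ) := by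
    refine ⟨9, by norm_num, fun X hX => ?_⟩
    have hx : (1 : ℝ) ≤ X := by exact_mod_cast hX
    have h1 := Real.log_le_rpow_div (x := (X : ℝ)) (ε := 1 / 8) (by linarith) (by norm_num)
    have h2 : 1 ≤ (X : ℝ) ^ (1 / 8 : ℝ) := Real.one_le_rpow hx (by norm_num)
    unfold lg
    have h3 : (X : ℝ) ^ (1 / 8 : ℝ) / (1 / 8) = 8 * (X : ℝ) ^ (1 / 8 : ℝ) := by ring
    rw [h3] at h1
    linarith
  obtain ⟨K, hK, hl⟩ := hlim
  refine ⟨C * (1 + K), by positivity, ?_⟩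
  intro ε hε θ X hX
  have h1 := h ε hε θ (round θ) 1 X le_rfl (by simpa using hX) (by simpa using isCoprime_one_right)
    (by
      have := abs_sub_round θ
      simp only [Nat.cast_one, div_one, one_pow]
      linarith)
  refine h1.trans ?_
  have hx : (1 : ℝ) ≤ X := by exact_mod_cast hX
  have hlg : 1 ≤ lg X := lg_one_le hX
  have h2 := hl X hX
  have h3 : (X : ℝ) ^ (7 / 8 : ℝ) * lg X ^ 2 ≤ K * (X * lg X) := by
    calc (X : ℝ) ^ (7 / 8 : ℝ) * lg X ^ 2 = (X : ℝ) ^ (7 / 8 : ℝ) * lg X * lg X := by ring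
      _ ≤ (X : ℝ) ^ (7 / 8 : ℝ) * (K * (X : ℝ) ^ (1 / 8 : ℝ)) * lg X := by gcongr
      _ = K * (((X : ℝ) ^ (7 / 8 : ℝ) * (X : ℝ) ^ (1 / 8 : ℝ)) * lg X) := by ring
      _ = K * (X * lg X) := by
          rw [← Real.rpow_add (by linarith)]
          norm_num
  have h4 : ((1 : ℕ) : ℝ) ^ ((1 / 8 : ℝ) - 1 / 2) = 1 := by simp
  rw [h4, mul_one]
  calc C * ((X : ℝ) * lg X + (X : ℝ) ^ (7 / 8 : ℝ) * lg X ^ 2) ≤ C * ((X : ℝ) * lg X + K * (X * lg X)) := by
        gcongr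
    _ = C * (1 + K) * X * lg X := by ring

theorem gap_of_irrational {θ : ℝ} (hθ : Irrational θ) (D : ℕ) : ∃ η : ℝ, 0 < η ∧
    ∀ q : ℕ, 1 ≤ q → q ≤ D → ∀ b : ℤ, η ≤ |θ - (b : ℝ) / q| := by
  induction D with
  | zero => exact ⟨1, one_pos, fun q h1 h2 => by omega⟩
  | succ D ih =>
    obtain ⟨η, hη, h⟩ := ih
    have hDR : (0 : ℝ) < ((D + 1 : ℕ) : ℝ) := by positivity
    have hirr : Irrational (((D + 1 : ℕ) : ℝ) * θ) := hθ.natCast_mul (by omega)
    have hnd : 0 < |((D + 1 : ℕ) : ℝ) * θ - round (((D + 1 : ℕ) : ℝ) * θ)| := by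
      rw [abs_pos, sub_ne_zero]
      exact hirr.ne_int _
    refine ⟨min η (|((D + 1 : ℕ) : ℝ) * θ - round (((D + 1 : ℕ) : ℝ) * θ)| / ((D + 1 : ℕ) : ℝ)),
      lt_min hη (by positivity), fun q h1 h2 b => ?_⟩
    rcases Nat.lt_or_ge D q with h3 | h3
    · have h4 : q = D + 1 := by omega
      rw [h4]
      refine (min_le_right _ _).trans ?_
      rw [div_le_iff₀ hDR]
      have h5 : |θ - (b : ℝ) / ((D + 1 : ℕ) : ℝ)| * ((D + 1 : ℕ) : ℝ) =
          |((D + 1 : ℕ) : ℝ) * θ - (b : ℝ)| := by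
        rw [← abs_of_pos hDR, ← abs_mul, abs_of_pos hDR]
        congr 1
        field_simp
      rw [h5]
      exact round_le _ _
    · exact (min_le_left _ _).trans (h q h1 h3 b)

theorem t_IRR (exp : S_EXP) : S_IRR := by
  intro θ hθ ε hε
  obtain ⟨C, hC, h⟩ := exp (1 / 8) (by norm_num) le_rfl
  rw [Metric.tendsto_atTop]
  intro δ hδ
  -- the denominators tend to infinity
  obtain ⟨D, hD⟩ : ∃ D : ℕ, ∀ q : ℕ, D < q → (q : ℝ) ^ ((1 / 8 : ℝ) - 1 / 2) < δ / (4 * C) := by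
    have h1 : Tendsto (fun q : ℕ => (q : ℝ) ^ (-(3 / 8) : ℝ)) atTop (𝓝 0) :=
      (tendsto_rpow_neg_atTop (by norm_num)).comp tendsto_natCast_atTop_atTop
    have h2 : ∀ᶠ q : ℕ in atTop, (q : ℝ) ^ (-(3 / 8) : ℝ) < δ / (4 * C) :=
      h1.eventually_lt_const (by positivity)
    obtain ⟨D, hD⟩ := eventually_atTop.1 h2
    refine ⟨D, fun q hq => ?_⟩
    have := hD q hq.le
    rw [show (1 / 8 : ℝ) - 1 / 2 = -(3 / 8) by norm_num]
    exact this
  obtain ⟨η, hη, hgap⟩ := gap_of_irrational hθ D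
  -- large X
  have hl1 : Tendsto (fun X : ℕ => (X : ℝ) ^ (-(1 / 8) : ℝ) * Real.log X) atTop (𝓝 0) := by
    have := (isLittleO_log_rpow_atTop (r := 1 / 8) (by norm_num)).tendsto_div_nhds_zero
    have h2 := this.comp tendsto_natCast_atTop_atTop
    refine h2.congr' ?_
    filter_upwards [eventually_gt_atTop 0] with X hX
    simp only [Function.comp_apply]
    rw [Real.rpow_neg (Nat.cast_nonneg X), div_eq_mul_inv, mul_comm]
  have hl2 : ∀ᶠ X : ℕ in atTop, (X : ℝ) ^ (-(1 / 8) : ℝ) * Real.log X < δ / (8 * C) :=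
    hl1.eventually_lt_const (by positivity)
  have hl3 : ∀ᶠ X : ℕ in atTop, 1 / Real.sqrt X < η := by
    have h1 : Tendsto (fun X : ℕ => 1 / Real.sqrt X) atTop (𝓝 0) := by
      have h2 : Tendsto (fun X : ℕ => Real.sqrt X) atTop atTop :=
        Real.tendsto_sqrt_atTop.comp tendsto_natCast_atTop_atTop
      exact h2.inv_tendsto_atTop.congr fun X => by simp [one_div]
    exact h1.eventually_lt_const hη
  obtain ⟨X0, hX0⟩ := eventually_atTop.1 (hl2.and (hl3.and (eventually_ge_atTop 3)))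
  refine ⟨X0, fun X hX => ?_⟩
  obtain ⟨g2, g3, g4⟩ := hX0 X hX
  have hX1 : 1 ≤ X := by omega
  have hx3 : (3 : ℝ) ≤ X := by exact_mod_cast g4
  have hx0 : (0 : ℝ) < X := by linarith
  have hlog : 1 ≤ Real.log X := one_le_logN g4
  obtain ⟨b, q, hq, hqX, hbq, hθ1, hθ2⟩ := dirichlet θ X hX1
  have hqD : D < q := by
    by_contra hcon
    have h1 := hgap q hq (not_lt.1 hcon) b
    have hq1 : (1 : ℝ) ≤ q := by exact_mod_cast hq
    have h2 : 1 / (Real.sqrt X * q) ≤ 1 / Real.sqrt X := by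
      apply one_div_le_one_div_of_le (Real.sqrt_pos.2 hx0)
      exact le_mul_of_one_le_right (Real.sqrt_nonneg _) hq1
    linarith
  have h1 := h ε hε θ b q X hq hqX hbq hθ1
  have h2 := hD q hqD
  have hlg : lg X ≤ 2 * Real.log X := by unfold lg; linarith
  have hlg0 : 0 ≤ lg X := by unfold lg; linarith
  have hq0 : 0 ≤ (q : ℝ) ^ ((1 / 8 : ℝ) - 1 / 2) := Real.rpow_nonneg (Nat.cast_nonneg q) _
  have hxl : 0 < (X : ℝ) * Real.log X := by positivity
  rw [Real.dist_eq, sub_zero, abs_of_nonneg (by positivity), div_lt_iff₀ hxl]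
  have h78 : (X : ℝ) ^ (7 / 8 : ℝ) = X * (X : ℝ) ^ (-(1 / 8) : ℝ) := by
    nth_rewrite 2 [← Real.rpow_one (X : ℝ)]
    rw [← Real.rpow_add hx0]
    norm_num
  calc ‖SX ε θ X‖ ≤ C * ((X : ℝ) * lg X * (q : ℝ) ^ ((1 / 8 : ℝ) - 1 / 2) +
        (X : ℝ) ^ (7 / 8 : ℝ) * lg X ^ 2) := h1
    _ ≤ C * ((X : ℝ) * (2 * Real.log X) * (q : ℝ) ^ ((1 / 8 : ℝ) - 1 / 2) +
        (X * (X : ℝ) ^ (-(1 / 8) : ℝ)) * (2 * Real.log X) ^ 2) := by
        rw [h78]
        gcongr
    _ = X * Real.log X * (2 * C * (q : ℝ) ^ ((1 / 8 : ℝ) - 1 / 2) +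
        4 * C * ((X : ℝ) ^ (-(1 / 8) : ℝ) * Real.log X)) := by ring
    _ < X * Real.log X * (2 * C * (δ / (4 * C)) + 4 * C * (δ / (8 * C))) := by
        apply mul_lt_mul_of_pos_left _ hxl
        have a1 : 2 * C * (q : ℝ) ^ ((1 / 8 : ℝ) - 1 / 2) < 2 * C * (δ / (4 * C)) :=
          mul_lt_mul_of_pos_left h2 (by positivity)
        have a2 : 4 * C * ((X : ℝ) ^ (-(1 / 8) : ℝ) * Real.log X) < 4 * C * (δ / (8 * C)) :=
          mul_lt_mul_of_pos_left g2 (by positivity)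
        linarith
    _ = δ * (X * Real.log X) := by
        field_simp
        ring

/-- the main term -/
theorem M0_eq (ε : ℤ) (X : ℕ) (hX : 1 ≤ X) : M0 ε X = 3 / Real.pi ^ 2 * (P1 *
    ((X * Real.log X - X + 1) / 2 + (lam (if ε = 1 then 0 else 1) / 2 +
      2 * Real.eulerMascheroniConstant + 2 * Lp) * (X - 1))) := by
  unfold M0 Q1
  set a : ℕ := if ε = 1 then 0 else 1
  have hx : (1 : ℝ) ≤ X := by exact_mod_cast hX
  have e1 : ∀ t : ℝ, P1 * ((Real.log t + lam a) / 2 + 2 * Real.eulerMascheroniConstant + 2 * Lp) =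
      (P1 / 2) * Real.log t + P1 * (lam a / 2 + 2 * Real.eulerMascheroniConstant + 2 * Lp) := by
    intro t; ring
  simp only [e1]
  rw [intervalIntegral.integral_add, intervalIntegral.integral_const_mul, integral_log,
    intervalIntegral.integral_const]
  · simp only [Real.log_one, mul_zero, smul_eq_mul]
    ring
  · apply IntervalIntegrable.const_mul
    exact intervalIntegral.intervalIntegrable_log'
  · exact intervalIntegrable_const

theorem M0_lim (ε : ℤ) : Tendsto (fun X : ℕ => M0 ε X / (X * Real.log X)) atTop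
    (𝓝 (3 / Real.pi ^ 2 * (P1 / 2))) := by
  set a : ℕ := if ε = 1 then 0 else 1 with ha
  set c : ℝ := lam a / 2 + 2 * Real.eulerMascheroniConstant + 2 * Lp with hc
  have hlog : Tendsto (fun X : ℕ => (Real.log X)⁻¹) atTop (𝓝 0) :=
    (Real.tendsto_log_atTop.comp tendsto_natCast_atTop_atTop).inv_tendsto_atTop
  have hinv : Tendsto (fun X : ℕ => ((X : ℝ))⁻¹) atTop (𝓝 0) :=
    (tendsto_natCast_atTop_atTop (R := ℝ)).inv_tendsto_atTop
  have h1 : Tendsto (fun X : ℕ => 3 / Real.pi ^ 2 * (P1 * ((1 - (Real.log X)⁻¹ +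
      (X : ℝ)⁻¹ * (Real.log X)⁻¹) / 2 + c * ((Real.log X)⁻¹ - (X : ℝ)⁻¹ * (Real.log X)⁻¹)))) atTop
      (𝓝 (3 / Real.pi ^ 2 * (P1 * ((1 - 0 + 0 * 0) / 2 + c * (0 - 0 * 0))))) := by
    apply Tendsto.const_mul
    apply Tendsto.const_mul
    apply Tendsto.add
    · apply Tendsto.div_const
      exact (tendsto_const_nhds.sub hlog).add (hinv.mul hlog)
    · apply Tendsto.const_mul
      exact hlog.sub (hinv.mul hlog)
  have e0 : 3 / Real.pi ^ 2 * (P1 * ((1 - 0 + 0 * 0) / 2 + c * (0 - 0 * 0))) =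
      3 / Real.pi ^ 2 * (P1 / 2) := by ring
  rw [e0] at h1
  refine h1.congr' ?_
  filter_upwards [eventually_ge_atTop 3] with X hX
  have hx3 : (3 : ℝ) ≤ X := by exact_mod_cast hX
  have hx0 : (X : ℝ) ≠ 0 := by linarith
  have hlog1 : 1 ≤ Real.log X := one_le_logN hX
  have hl0 : Real.log X ≠ 0 := by linarith
  rw [M0_eq ε X (by omega)]
  field_simp
  ring

theorem S0_lim (fm : S_FM0) (ε : ℤ) (hε : ε = 1 ∨ ε = -1) :
    Tendsto (fun X : ℕ => (∑ n ∈ Ioc 1 X, Lf ε n) / (X * Real.log X)) atTop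
    (𝓝 (3 / Real.pi ^ 2 * (P1 / 2))) := by
  obtain ⟨C, hC, h⟩ := fm
  have h1 := M0_lim ε
  have h2 : Tendsto (fun X : ℕ => ((∑ n ∈ Ioc 1 X, Lf ε n) - M0 ε X) / (X * Real.log X)) atTop
      (𝓝 0) := by
    have h3 : Tendsto (fun X : ℕ => C * (X : ℝ) ^ (-(1 / 30) : ℝ)) atTop (𝓝 0) := by
      have := (tendsto_rpow_neg_atTop (y := 1 / 30) (by norm_num)).comp
        (tendsto_natCast_atTop_atTop (R := ℝ))
      simpa using this.const_mul C
    refine squeeze_zero_norm' ?_ h3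
    filter_upwards [eventually_ge_atTop 3] with X hX
    have hx3 : (3 : ℝ) ≤ X := by exact_mod_cast hX
    have hx0 : (0 : ℝ) < X := by linarith
    have hlog1 : 1 ≤ Real.log X := one_le_logN hX
    rw [Real.norm_eq_abs, abs_div, abs_of_pos (by positivity : 0 < (X : ℝ) * Real.log X),
      div_le_iff₀ (by positivity)]
    refine (h ε hε X (by omega)).trans ?_
    calc C * (X : ℝ) ^ (29 / 30 : ℝ) = C * ((X : ℝ) ^ (-(1 / 30) : ℝ) * (X : ℝ) ^ (1 : ℝ)) := by
          rw [← Real.rpow_add hx0]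
          norm_num
      _ = C * (X : ℝ) ^ (-(1 / 30) : ℝ) * (X * 1) := by rw [Real.rpow_one]; ring
      _ ≤ C * (X : ℝ) ^ (-(1 / 30) : ℝ) * (X * Real.log X) := by
          gcongr
  have h3 := h2.add h1
  rw [zero_add] at h3
  refine h3.congr fun X => ?_
  rw [← add_div]
  congr 1
  ring

theorem t_WIE (exp : S_EXP) (fm : S_FM0) : S_WIE := by
  intro α hα ε hε c hc
  obtain ⟨K, hK, huni⟩ := SX_uniform exp
  have irr := t_IRR exp
  have e1 : ∀ X : ℕ, (∑ n ∈ Ioc 1 X, (Lf ε n : ℂ) * ∑' h : ℤ, c h * ee (h * (α * n))) /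
      ((X : ℂ) * Real.log X) = ∑' h : ℤ, c h * SX ε (h * α) X / ((X : ℂ) * Real.log X) := by
    intro X
    have hs : ∀ n : ℕ, Summable fun h : ℤ => (Lf ε n : ℂ) * (c h * ee (h * (α * n))) := by
      intro n
      apply Summable.mul_left
      apply Summable.of_norm
      refine hc.congr fun h => ?_
      rw [norm_mul, norm_ee, mul_one]
    have h1 : ∑ n ∈ Ioc 1 X, (Lf ε n : ℂ) * ∑' h : ℤ, c h * ee (h * (α * n)) =
        ∑' h : ℤ, ∑ n ∈ Ioc 1 X, (Lf ε n : ℂ) * (c h * ee (h * (α * n))) := by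
      rw [Summable.tsum_finsetSum fun n _ => hs n]
      apply sum_congr rfl
      intro n _
      rw [tsum_mul_left]
    rw [h1, ← tsum_div_const]
    apply tsum_congr
    intro h
    congr 1
    unfold SX
    rw [Finset.mul_sum]
    apply sum_congr rfl
    intro n _
    rw [show (h : ℝ) * α * n = h * (α * n) by ring]
    ring
  simp only [e1]
  have e2 : c 0 * (3 / Real.pi ^ 2 * (P1 / 2) : ℝ) =
      ∑' h : ℤ, if h = 0 then c 0 * ((3 / Real.pi ^ 2 * (P1 / 2) : ℝ) : ℂ) else 0 := by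
    rw [tsum_ite_eq]
  rw [e2]
  apply tendsto_tsum_of_dominated_convergence (bound := fun h => ‖c h‖ * (2 * K))
  · exact hc.mul_right _
  · intro h
    by_cases h0 : h = 0
    · rw [if_pos h0, h0]
      have h1 := (S0_lim fm ε hε)
      have h2 : Tendsto (fun X : ℕ => (((∑ n ∈ Ioc 1 X, Lf ε n) / (X * Real.log X) : ℝ) : ℂ)) atTop
          (𝓝 ((3 / Real.pi ^ 2 * (P1 / 2) : ℝ) : ℂ)) := (Complex.continuous_ofReal.tendsto _).comp h1
      have h3 := h2.const_mul (c 0)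
      refine h3.congr fun X => ?_
      unfold SX
      push_cast
      rw [mul_div_assoc]
      congr 2
      apply sum_congr rfl
      intro n _
      have : ee (0 * α * (n : ℝ)) = 1 := by
        rw [zero_mul, zero_mul]
        exact Pool.Agent.Helper112.ls_ee_zero
      rw [this, mul_one]
    · rw [if_neg h0]
      have hirr : Irrational ((h : ℝ) * α) := hα.intCast_mul h0
      have h1 := irr _ hirr ε hε
      rw [tendsto_zero_iff_norm_tendsto_zero]
      have h2 := h1.const_mul ‖c h‖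
      rw [mul_zero] at h2
      refine h2.congr fun X => ?_
      rw [norm_div, norm_mul, norm_mul, Complex.norm_natCast, Complex.norm_real, Real.norm_eq_abs,
        abs_of_nonneg (Real.log_natCast_nonneg X), mul_div_assoc]
  · filter_upwards [eventually_ge_atTop 3] with X hX
    intro h
    have hx3 : (3 : ℝ) ≤ X := by exact_mod_cast hX
    have hlog1 : 1 ≤ Real.log X := one_le_logN hX
    rw [norm_div, norm_mul, norm_mul, Complex.norm_natCast, Complex.norm_real, Real.norm_eq_abs,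
        abs_of_nonneg (Real.log_natCast_nonneg X), mul_div_assoc]
    apply mul_le_mul_of_nonneg_left _ (norm_nonneg _)
    rw [div_le_iff₀ (by positivity)]
    refine (huni ε hε _ X (by omega)).trans ?_
    have : lg X ≤ 2 * Real.log X := by unfold lg; linarith
    calc K * X * lg X ≤ K * X * (2 * Real.log X) := by gcongr
      _ = _ := by ring

end

end Pool.Agent.H28.BR
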