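import Pool.Agent.H28.BR.Stm

set_option autoImplicit false

/-!
Project BR (helper28), job KRA: the kernel representation for all odd `n`
-/

namespace Pool.Agent.H28.BR

open Finset Filter Topology MeasureTheory Pool.Agent.H306R2.RZ Pool.Agent.H306R2.RG
  Pool.Agent.Q122.FM

noncomputable section

lemma EA_eq (p : Par) (N d : ℕ) (z : ℝ) :
    EA p N d z = ∑ i ∈ range N, ∑ n ∈ (Icc 1 N).filter (fun n => Odd n),
      p.η ^ i * js (p.e * (d : ℤ)) n / Real.sqrt ((2 : ℝ) ^ i * n) *
        IG p.a (((2 : ℝ) ^ i * n) ^ 2 * z) := by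
  unfold EA EN Pool.Agent.Q122.FM.ES
  rw [← Finset.sum_add_distrib]
  apply Finset.sum_congr rfl
  intro i _
  rw [← Finset.sum_filter_add_sum_filter_not ((Icc 1 N).filter (fun n => Odd n))
    (fun n => ¬ IsSquare n), Finset.filter_filter, Finset.filter_filter]
  simp only [not_not]

theorem t_KRA (igf : S_IGF) : S_KRA := by
  intro p hp N d z hz
  obtain ⟨_, _, ha, _⟩ := hp
  have hm : ∀ (i n : ℕ), n ∈ (Icc 1 N).filter (fun n => Odd n) →
      (1 : ℝ) ≤ (2 : ℝ) ^ i * n := by
    intro i n hn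
    have h1 := Finset.mem_Icc.mp (Finset.mem_filter.mp hn).1
    have h2 : (1 : ℝ) ≤ 2 ^ i := one_le_pow₀ (by norm_num)
    have h3 : (1 : ℝ) ≤ n := by exact_mod_cast h1.1
    nlinarith
  have hfun : ∀ w : ℝ, w ^ (-(3 / 4) : ℝ) * NA p.e (kw p N w) N d =
      ∑ i ∈ range N, ∑ n ∈ (Icc 1 N).filter (fun n => Odd n),
        (p.η ^ i * js (p.e * (d : ℤ)) n) * (w ^ (-(3 / 4) : ℝ) *
          (((2 : ℝ) ^ i * n) ^ p.a * w ^ ((p.a : ℝ) / 2) *
            Real.exp (-(Real.pi * ((2 : ℝ) ^ i * n) ^ 2 * w)))) := by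
    intro w
    unfold NA kw
    rw [Finset.sum_comm, Finset.mul_sum]
    apply Finset.sum_congr rfl
    intro n _
    rw [Finset.mul_sum, Finset.mul_sum]
    apply Finset.sum_congr rfl
    intro i _
    ring
  simp only [hfun]
  constructor
  · apply integrable_finsetSum
    intro i _
    apply integrable_finsetSum
    intro n hn
    exact (igf p.a ha ((2 : ℝ) ^ i * n) z (hm i n hn) hz).1.const_mul _
  · rw [integral_finsetSum]
    · rw [EA_eq]
      apply Finset.sum_congr rfl
      intro i _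
      rw [integral_finsetSum]
      · apply Finset.sum_congr rfl
        intro n hn
        rw [integral_const_mul, ← (igf p.a ha ((2 : ℝ) ^ i * n) z (hm i n hn) hz).2]
        ring
      · intro n hn
        exact (igf p.a ha ((2 : ℝ) ^ i * n) z (hm i n hn) hz).1.const_mul _
    · intro i _
      apply integrable_finsetSum
      intro n hn
      exact (igf p.a ha ((2 : ℝ) ^ i * n) z (hm i n hn) hz).1.const_mul _

end

end Pool.Agent.H28.BR
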