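import Pool.Agent.H28.BR.Stm2
import Pool.Graph.R_pool_sql_team_seeded_3997aac3.Q122.MB.MBF

set_option autoImplicit false

/-!
Project BR2 (helper28), job LOW: preparations
-/

namespace Pool.Agent.H28.BR2

open Finset Filter Topology MeasureTheory Pool.Agent.H306R2.RZ Pool.Agent.H306R2.RG
  Pool.Agent.Q122.FM Pool.Agent.Q122.MB Pool.Agent.H28.BR
open Pool.Agent.H75.BR (tnt cT tnt_cases tnt_nonneg tnt_supp)

noncomputable section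

/-- the squarefree `d ≡ 1 (8)` in `(Y/2, Y]` -/
def DS (Y : ℕ) : Finset ℕ := (Ioc (Y / 2) Y).filter (fun d => d % 8 = 1 ∧ Squarefree d)

lemma tnt_le' {Δ : ℝ} (h0 : 0 < Δ) (h1 : Δ ≤ 1 / 2) (x : ℝ) : tnt Δ x ≤ Δ := by
  have hy0 := Int.fract_nonneg x
  have hy1 := Int.fract_lt_one x
  rcases tnt_cases h0 h1 x with ⟨h, e⟩ | ⟨h, e⟩ | e
  · rw [e]; linarith
  · rw [e]; linarith
  · rw [e]; exact h0.le

lemma DS_mem {Y d : ℕ} (h : d ∈ DS Y) : Odd d ∧ Squarefree d ∧ Y / 2 < d ∧ d ≤ Y ∧ d % 8 = 1 := by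
  simp only [DS, mem_filter, mem_Ioc] at h
  exact ⟨Nat.odd_iff.2 (by omega), h.2.2, h.1.1, h.1.2, h.2.1⟩

lemma sum_DS (f : ℕ → ℝ) (Y : ℕ) : ∑ d ∈ DS Y, f d =
    ∑ d ∈ (Icc 1 Y).filter (fun d => d % 8 = 1 ∧ Squarefree d), f d -
      ∑ d ∈ (Icc 1 (Y / 2)).filter (fun d => d % 8 = 1 ∧ Squarefree d), f d := by
  rw [eq_sub_iff_add_eq, add_comm]
  unfold DS
  rw [← sum_union]
  · congr 1
    ext d
    simp only [mem_union, mem_filter, mem_Icc, mem_Ioc]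
    constructor
    · rintro (⟨⟨h1, h2⟩, h3⟩ | ⟨⟨h1, h2⟩, h3⟩)
      · exact ⟨⟨h1, by omega⟩, h3⟩
      · exact ⟨⟨by omega, h2⟩, h3⟩
    · rintro ⟨⟨h1, h2⟩, h3⟩
      by_cases h : d ≤ Y / 2
      · exact Or.inl ⟨⟨h1, h⟩, h3⟩
      · exact Or.inr ⟨⟨by omega, h2⟩, h3⟩
  · rw [Finset.disjoint_left]
    intro d hd
    simp only [mem_filter, mem_Icc, mem_Ioc] at hd ⊢
    intro hc
    omega

/-- the twisted first moment with the weight -/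
def FW (ε : ℤ) (k N0 Y : ℕ) (w : ℕ → ℝ) : ℝ :=
  ∑ d ∈ DS Y, w d * (LLg (F8 ε) d (1 / 2) * DD (2 * ε) N0 d ^ (2 * k - 2))

theorem low1 (spl : S_SPL) (dp : S_DP) (rep : S_REP)
    (k : ℕ) (hk : 1 ≤ k) (ce : ℝ) (hce : 0 < ce)
    (ebl : ∀ e : ℤ, (e = 1 ∨ e = -1 ∨ e = 2 ∨ e = -2) → ∀ a : ℕ, (a = 0 ∨ a = 1) →
      ∀ N0 M N d : ℕ, ∀ z : ℝ, 1 ≤ M → M ^ 2 ≤ N0 → N0 ≤ N → Odd d → 0 < z → (N0 : ℝ) ^ 2 * z ≤ 1 →
      ce * (∏ p ∈ d.primeFactors, (1 + ((k * (k + 1) / 2 : ℕ) : ℝ) / p))⁻¹ *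
          Real.log M ^ (k * (k + 1) / 2) ≤
        EBS e a (Gp N0 (2 * k - 2)) (N0 ^ (2 * k - 2)) N d z)
    (α C δ : ℝ) (hC : 0 < C) (hδ1 : δ ≤ 1)
    (wns : ∀ a : ℕ, (a = 0 ∨ a = 1) →
      ∀ e : ℤ, (e = 1 ∨ e = -1 ∨ e = 2 ∨ e = -2) → ∀ β : ℕ → ℝ, (∀ b, 0 ≤ β b) →
      ∀ B : ℕ, 1 ≤ B → ∑ b ∈ Icc 1 B, β b ≤ B →
      ∀ c' : ℕ, c' < 8 → Odd c' → ∀ X N : ℕ, 3 ≤ X → B ≤ X → ∀ Δ γ : ℝ, 0 < Δ → Δ ≤ 1 / 2 →
      |∑ d ∈ (Icc 1 X).filter (fun d => d % 8 = c' ∧ Squarefree d),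
          tnt Δ (8 * α * d + γ) * EBN e a β B N d (1 / (8 * (d : ℝ)))| ≤
        C * (B : ℝ) ^ 4 * (X : ℝ) ^ (1 - δ))
    (ε : ℤ) (hε : ε = 1 ∨ ε = -1) (Y N0 M : ℕ) (hY : 6 ≤ Y) (hM : 1 ≤ M) (hMN : M ^ 2 ≤ N0)
    (hB : N0 ^ (2 * k - 2) ≤ Y / 2) (hN0Y : N0 ^ 2 ≤ 4 * Y) (Δ γ : ℝ) (hΔ : 0 < Δ) (hΔ1 : Δ ≤ 1 / 2) :
    ce * Real.log M ^ (k * (k + 1) / 2) * (∑ d ∈ DS Y, tnt Δ (8 * α * d + γ) *
        (∏ p ∈ d.primeFactors, (1 + ((k * (k + 1) / 2 : ℕ) : ℝ) / p))⁻¹) -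
      2 * C * ((N0 ^ (2 * k - 2) : ℕ) : ℝ) ^ 4 * (Y : ℝ) ^ (1 - δ) ≤
    gm (1 / 2 + (aS ε : ℝ)) / 2 * FW ε k N0 Y (fun d => tnt Δ (8 * α * d + γ)) := by
  have hN0 : 1 ≤ N0 := le_trans (Nat.one_le_pow _ _ hM) hMN
  obtain ⟨d1, d2, d3, d4⟩ := dp N0 (2 * k - 2) hN0
  set β : ℕ → ℝ := Gp N0 (2 * k - 2) with hβ
  set B : ℕ := N0 ^ (2 * k - 2) with hBdef
  have hB1 : 1 ≤ B := Nat.one_le_pow _ _ hN0
  set K : ℕ := k * (k + 1) / 2 with hK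
  set e : ℤ := 2 * ε with he
  have he' : e = 1 ∨ e = -1 ∨ e = 2 ∨ e = -2 := by
    rcases hε with rfl | rfl <;> simp [he]
  have ha : aS ε = 0 ∨ aS ε = 1 := by
    unfold aS; split_ifs <;> simp
  have hfam : Fam (F8 ε) := ⟨ε, hε, Or.inl rfl⟩
  have hpar : par (F8 ε) = ⟨e, 8, aS ε, 0⟩ := rfl
  set p : Par := ⟨e, 8, aS ε, 0⟩ with hp
  set g0 := gm (1 / 2 + (aS ε : ℝ)) with hg0
  set w : ℕ → ℝ := fun d => tnt Δ (8 * α * d + γ) with hw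
  have hw0 : ∀ d, 0 ≤ w d := fun d => tnt_nonneg hΔ hΔ1 _
  have hY2 : 3 ≤ Y / 2 := by omega
  have hYY : Y / 2 ≤ Y := Nat.div_le_self _ _
  have hYr : (0 : ℝ) < Y := by
    have : 0 < Y := by omega
    exact_mod_cast this
  -- for every N
  have key : ∀ N, N0 ≤ N → ce * Real.log M ^ K * (∑ d ∈ DS Y, w d *
        (∏ p ∈ d.primeFactors, (1 + (K : ℝ) / p))⁻¹) -
      2 * C * (B : ℝ) ^ 4 * (Y : ℝ) ^ (1 - δ) ≤
      ∑ d ∈ DS Y, w d * (RB e β B d *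
        (EN p N d (1 / (8 * (d : ℝ))) + Pool.Agent.Q122.FM.ES p N d (1 / (8 * (d : ℝ))))) := by
    intro N hN
    have hN1 : 1 ≤ N := hN0.trans hN
    have e1 : ∑ d ∈ DS Y, w d * (RB e β B d *
        (EN p N d (1 / (8 * (d : ℝ))) + Pool.Agent.Q122.FM.ES p N d (1 / (8 * (d : ℝ))))) =
        ∑ d ∈ DS Y, w d * EBN e (aS ε) β B N d (1 / (8 * (d : ℝ))) +
        ∑ d ∈ DS Y, w d * EBS e (aS ε) β B N d (1 / (8 * (d : ℝ))) := by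
      rw [← sum_add_distrib]
      apply sum_congr rfl
      intro d _
      rw [← spl e (aS ε) β B N d (1 / (8 * (d : ℝ))) hN1]
      ring
    have hβB : ∑ b ∈ Icc 1 B, β b ≤ B := by rw [hBdef]; push_cast; exact d4
    have e2 : |∑ d ∈ DS Y, w d * EBN e (aS ε) β B N d (1 / (8 * (d : ℝ)))| ≤
        2 * C * (B : ℝ) ^ 4 * (Y : ℝ) ^ (1 - δ) := by
      rw [sum_DS (fun d => w d * EBN e (aS ε) β B N d (1 / (8 * (d : ℝ))))]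
      have f1 := wns (aS ε) ha e he' β d2 B hB1 hβB 1 (by norm_num) (by decide) Y N (by omega)
        (hB.trans hYY) Δ γ hΔ hΔ1
      have f2 := wns (aS ε) ha e he' β d2 B hB1 hβB 1 (by norm_num) (by decide) (Y / 2) N hY2
        hB Δ γ hΔ hΔ1
      have f3 : (((Y / 2 : ℕ) : ℝ)) ^ (1 - δ) ≤ (Y : ℝ) ^ (1 - δ) := by
        apply Real.rpow_le_rpow (by positivity) _ (by linarith)
        exact_mod_cast hYY
      have f4 : C * (B : ℝ) ^ 4 * (((Y / 2 : ℕ) : ℝ)) ^ (1 - δ) ≤ C * (B : ℝ) ^ 4 * (Y : ℝ) ^ (1 - δ) :=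
        mul_le_mul_of_nonneg_left f3 (by positivity)
      refine (abs_sub _ _).trans ?_
      linarith
    have e3 : ce * Real.log M ^ K * (∑ d ∈ DS Y, w d *
        (∏ p ∈ d.primeFactors, (1 + (K : ℝ) / p))⁻¹) ≤
        ∑ d ∈ DS Y, w d * EBS e (aS ε) β B N d (1 / (8 * (d : ℝ))) := by
      rw [mul_sum]
      apply sum_le_sum
      intro d hd
      obtain ⟨hdo, _, hd1, hd2, _⟩ := DS_mem hd
      have hd0 : (0 : ℝ) < d := by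
        have : 0 < d := by omega
        exact_mod_cast this
      have hNz : (N0 : ℝ) ^ 2 * (1 / (8 * (d : ℝ))) ≤ 1 := by
        rw [mul_one_div, div_le_one (by positivity)]
        have : N0 ^ 2 ≤ 8 * d := by omega
        exact_mod_cast this
      have := ebl e he' (aS ε) ha N0 M N d (1 / (8 * (d : ℝ))) hM hMN hN hdo (by positivity) hNz
      calc _ = w d * (ce * (∏ p ∈ d.primeFactors, (1 + (K : ℝ) / p))⁻¹ * Real.log M ^ K) := by ring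
        _ ≤ _ := mul_le_mul_of_nonneg_left this (hw0 d)
    rw [e1]
    have := neg_le_of_abs_le e2
    linarith
  -- the limit
  have hlim : Tendsto (fun N => ∑ d ∈ DS Y, w d * (RB e β B d *
        (EN p N d (1 / (8 * (d : ℝ))) + Pool.Agent.Q122.FM.ES p N d (1 / (8 * (d : ℝ)))))) atTop
      (𝓝 (g0 / 2 * FW ε k N0 Y w)) := by
    have e1 : g0 / 2 * FW ε k N0 Y w = ∑ d ∈ DS Y, w d * (RB e β B d *
        (g0 / 2 * LLg (F8 ε) d (1 / 2))) := by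
      unfold FW
      rw [mul_sum]
      apply sum_congr rfl
      intro d _
      rw [hβ, hBdef, RB_eq dp e N0 (2 * k - 2) d hN0]
      ring
    rw [e1]
    apply tendsto_finsetSum
    intro d hd
    obtain ⟨hdo, hds, _, _, _⟩ := DS_mem hd
    have := rep (F8 ε) hfam d hdo hds
    rw [hpar] at this
    exact (this.const_mul (RB e β B d)).const_mul (w d)
  exact ge_of_tendsto hlim (eventually_atTop.2 ⟨N0, fun N hN => key N hN⟩)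

end

end Pool.Agent.H28.BR2
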