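import Pool.Graph.R_pool_sql_team_seeded_3997aac3.Q122.FM.All
import Pool.Agent.H28.BR.KRA
import Pool.Agent.H28.BR.NSW
import Pool.Agent.H28.BR.EXP
import Pool.Agent.H28.BR.IRR
import Pool.Agent.H28.BR.FAR
import Pool.Agent.H50.BR.Tmg
import Pool.Agent.H50.BR.Arc
import Pool.Agent.H58.BR.Trap
import Pool.Agent.H68.BR.GWE
import Pool.Agent.H68.BR.PTW
import Pool.Agent.H75.BR.Pos
import Pool.Agent.H95.BR.Ags

set_option autoImplicit false

/-! Project BR: the statements, as far as they do not use KIN, VSM -/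

namespace Pool.Agent.H28.BR

open Pool.Agent.Q122.FM

theorem aps : S_APS := t_APS
theorem tmg : S_TMG := Pool.Agent.H50.BR.t_TMG t_FAR t_GAP
theorem ags : S_AGS := Pool.Agent.H95.BR.t_AGS tmg
theorem kra : S_KRA := t_KRA igf
theorem ptw : S_PTW := Pool.Agent.H68.BR.t_PTW aps
theorem gwe : S_GWE := Pool.Agent.H68.BR.t_GWE kra ls1 ker ks
theorem gwl : S_GWL := t_GWL gwe rep frz fdd
theorem mexp (kin : S_KIN) (vsm : S_VSM) : S_EXP :=
  t_EXP (t_CLX (t_NSW ker kra kin vsm ptw) ags gwe ra) rep frz fdd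
theorem trap : S_TRAP := Pool.Agent.H58.BR.t_TRAP
theorem nlv : S_NLV := Pool.Agent.H50.BR.t_NLV
theorem arc : S_ARC := Pool.Agent.H50.BR.t_ARC
theorem bty : S_BTY := Pool.Agent.H50.BR.t_BTY

end Pool.Agent.H28.BR
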