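import Pool.Agent.H28.BR.CLB

set_option autoImplicit false

/-! Project BR2 (helper28), job PSI -/

namespace Pool.Agent.H28.BR2

open Finset Filter Topology MeasureTheory Pool.Agent.H306R2.RZ Pool.Agent.H306R2.RG
  Pool.Agent.Q122.FM Pool.Agent.Q122.MB Pool.Agent.H28.BR
open Pool.Agent.H50.BR (nd_nonneg)

noncomputable section

lemma nd_le (x : ℝ) (z : ℤ) : nd x ≤ |x - z| := by
  unfold nd
  exact round_le x z

lemma nd_mul_le (s : ℕ) (x : ℝ) (b : ℕ) (hs : 1 ≤ s) : nd (s * x) ≤ s * nd (x - (b : ℝ) / s) := by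
  have hs0 : (0 : ℝ) < s := by exact_mod_cast hs
  have h := nd_le ((s : ℝ) * x) (b + s * round (x - (b : ℝ) / s))
  refine h.trans (le_of_eq ?_)
  unfold nd
  rw [← abs_of_pos hs0, ← abs_mul, abs_of_pos hs0]
  congr 1
  push_cast
  field_simp
  ring

theorem t_PSI : S_PSI := by
  intro α c τ hα m h s L hm hh hs hL
  obtain ⟨hc, hτ, hα⟩ := hα
  have hm0 : (0 : ℝ) < m := by exact_mod_cast hm
  have hh0 : (0 : ℝ) < h := by exact_mod_cast hh
  have hs0 : (0 : ℝ) < s := by exact_mod_cast hs
  set β : ℝ := 8 * m * (h * (8 * α)) with hβ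
  have h1 : c / (64 * m * h * s : ℝ) ^ τ ≤ nd (s * β) := by
    have h2 := hα (64 * m * h * s) (Nat.mul_pos (Nat.mul_pos (Nat.mul_pos (by norm_num) hm) hh) hs)
    have e1 : (((64 * m * h * s : ℕ) : ℝ)) * α = s * β := by
      rw [hβ]
      push_cast
      ring
    rw [e1] at h2
    push_cast at h2
    exact h2
  set t : ℝ := c / (64 * m * h * s : ℝ) ^ τ / s with ht
  have ht0 : 0 < t := by positivity
  have h3 : ∀ b : ℕ, gd L (β - (b : ℝ) / s) ≤ 1 / t := by
    intro b
    apply gd_le_inv hL ht0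
    have h4 := nd_mul_le s β b hs
    rw [ht, div_le_iff₀ hs0]
    linarith
  unfold Psi
  calc ∑ b ∈ (range s).filter (fun b => b.Coprime s), gd L (β - (b : ℝ) / s)
      ≤ ∑ b ∈ (range s).filter (fun b => b.Coprime s), 1 / t := Finset.sum_le_sum fun b _ => h3 b
    _ = (((range s).filter (fun b => b.Coprime s)).card : ℝ) * (1 / t) := by
        rw [Finset.sum_const, nsmul_eq_mul]
    _ ≤ (s : ℝ) * (1 / t) := by
        apply mul_le_mul_of_nonneg_right _ (by positivity)
        have : ((range s).filter (fun b => b.Coprime s)).card ≤ s := by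
          refine (card_filter_le _ _).trans ?_
          rw [card_range]
        exact_mod_cast this
    _ = _ := by
        rw [ht]
        field_simp

end

end Pool.Agent.H28.BR2
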