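import Mathlib
import Pool.Graph.R_pool_sql_team_seeded_3997aac3.Q122.FM.Stm

set_option autoImplicit false

/-!
# Project BR (helper28), MP_ea46f5_nt: the first moment of `L(1/2, χ_D)` along irrational rotations

Notation: `e(x) = exp(2πix)` is `ee x`; `js k n` is the Jacobi symbol as a real number; `kw, kap, EN,
ES, RA, Par, W, MT, Q1` are the objects of the library project FM (`Q122.FM.Stm`).
The library proves `S_LS1, S_IGF, S_KER, S_RA, S_SQ, S_REP, S_FRZ, S_FDD, S_FIN` (see the module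
`Pool.Graph.R_pool_sql_team_seeded_3997aac3.Results.MP_ea46f5_nt.FirstMomentShortIntervals`
for the names of the proofs).
-/

namespace Pool.Agent.H28.BR

open Finset Filter Topology MeasureTheory Pool.Agent.H306R2.RZ Pool.Agent.H306R2.RG
  Pool.Agent.Q122.FM
open Pool.Agent.Helper112 (ee)

noncomputable section

/-! ### definitions -/

/-- distance to the nearest integer -/
def nd (x : ℝ) : ℝ := |x - round x|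

/-- majorant of `min (L, 1/(2‖x‖))` -/
def gd (L x : ℝ) : ℝ := 2 * L / (1 + 2 * L * nd x)

/-- sum over the fractions with denominator `s` (for `s = 1`: `b = 0`) -/
def Psi (s : ℕ) (L β : ℝ) : ℝ :=
  ∑ b ∈ (range s).filter (fun b => b.Coprime s), gd L (β - (b : ℝ) / s)

/-- `1 + log X` -/
def lg (X : ℕ) : ℝ := 1 + Real.log X

/-- `b/q` is an approximation of `θ` of quality `8/q²` with `q ≤ 4 √X` -/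
def App (θ : ℝ) (b : ℤ) (q X : ℕ) : Prop :=
  1 ≤ q ∧ q ^ 2 ≤ 16 * X ∧ IsCoprime b (q : ℤ) ∧ |θ - (b : ℝ) / q| ≤ 8 / (q : ℝ) ^ 2

/-- the sum over the squarefree parts -/
def TT (X : ℕ) (θ : ℝ) (m g M : ℕ) : ℝ :=
  ∑ s ∈ Icc 1 M, 1 / (s : ℝ) * Real.exp (-((s : ℝ) ^ 2 * (g : ℝ) ^ 4 / (32 * X))) *
    Psi s ((X : ℝ) / (8 * m) + 1) (8 * m * θ)

/-- sum over all odd `n ≤ N` -/
def NA (e : ℤ) (k : ℕ → ℝ) (N d : ℕ) : ℝ :=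
  ∑ n ∈ (Icc 1 N).filter (fun n => Odd n), js (e * (d : ℤ)) n * k n

/-- all odd `n` in the truncated formula -/
def EA (p : Par) (N d : ℕ) (z : ℝ) : ℝ := EN p N d z + ES p N d z

open Classical in
/-- `L(1/2, χ_D)` for `D = ε n` fundamental, `0` otherwise -/
def Lf (ε : ℤ) (n : ℕ) : ℝ := if IsFund (ε * (n : ℤ)) then LHalf (ε * (n : ℤ)) else 0

/-- the exponential sum -/
def SX (ε : ℤ) (θ : ℝ) (X : ℕ) : ℂ := ∑ n ∈ Ioc 1 X, (Lf ε n : ℂ) * ee (θ * n)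

/-- the main term of the first moment -/
def M0 (ε : ℤ) (X : ℕ) : ℝ :=
  3 / Real.pi ^ 2 * ∫ t in (1 : ℝ)..(X : ℝ), Q1 (if ε = 1 then 0 else 1) (Real.log t)

/-! ### A. character sums -/

/-- CHS: complete the sum: for `s ≥ 3` use `Pool.Agent.Q176.FM.js_eq` (Gauss sum expansion of `js`, real
part of a complex number; `8r` runs through the units with `r`), `js` real = half the sum of the expansion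
and its conjugate, then `‖∑_{j < m} e(x j)‖ ≤ min (m, 1/(2‖x‖)) ≤ gd m x ≤ gd L x`. -/
def S_CHS : Prop := ∀ (s : ℕ), Odd s → Squarefree s → ∀ (c u : ℤ) (m : ℕ) (L β : ℝ), (m : ℝ) ≤ L →
  ‖∑ j ∈ Ioc u (u + m), (js (8 * j + c) s : ℂ) * ee (β * j)‖ ≤ 2 / Real.sqrt s * Psi s L β

/-- APS: `d = m t`, `t ≡ m c (mod 8)`, `t = 8 j + c'`; `js (e m t) s = js (e m) s · js t s`; the `t` form an
interval with at most `X/(8m) + 1` members in the class. Uses CHS. -/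
def S_APS : Prop := ∀ (s : ℕ), Odd s → Squarefree s → ∀ (e : ℤ) (c m D0 X : ℕ) (θ : ℝ), c < 8 → Odd c →
  Odd m →
  ‖∑ d ∈ (Ioc D0 X).filter (fun d => m ∣ d ∧ d % 8 = c), (js (e * (d : ℤ)) s : ℂ) * ee (θ * d)‖ ≤
    2 / Real.sqrt s * Psi s ((X : ℝ) / (8 * m) + 1) (8 * m * θ)

/-! ### B. Farey fractions -/

/-- FAR: the fractions `b/s`, `s ≤ S`, `(b,s) = 1`, `0 ≤ b < s` are `1/S²`-separated modulo one, so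
`k = ⌊S² fract(b/s - β)⌋` is injective into `range (S²)`, and `‖b/s - β‖ ≥ min (k, S² - 1 - k)/S²`. -/
def S_FAR : Prop := ∃ C : ℝ, 0 < C ∧ ∀ (S : ℕ) (L β : ℝ), 1 ≤ S → 0 ≤ L →
  ∑ s ∈ Icc 1 S, Psi s L β ≤ C * (L + (S : ℝ) ^ 2 * (1 + Real.log S))

/-- GAP: if `128 m s ≤ q` then `‖8mθ - b/s‖ ≥ 1/(qs) - 64m/q² ≥ 1/(2qs)` for all `b` (`q ∤ 8ms` and `b₀` is
prime to `q`), and `gd L x ≤ 1/‖x‖ ≤ 2 gd (qs) x` if `qs‖x‖ ≥ 1/2`. -/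
def S_GAP : Prop := ∀ (θ : ℝ) (b : ℤ) (q X : ℕ), App θ b q X → ∀ (m s : ℕ) (L : ℝ), 1 ≤ m → 1 ≤ s →
  128 * m * s ≤ q → 0 ≤ L → Psi s L (8 * m * θ) ≤ 2 * Psi s ((q : ℝ) * s) (8 * m * θ)

/-- TMG: Abel summation (`f(s) = e^{-s²g⁴/(32X)}/s` is decreasing). `s ≤ q/(128m)`: by GAP the partial sums up to
`S` are at most `2 ∑_{s ≤ S} Psi s (qS) ≤ C(qS + S²(1 + log S))` (gd is increasing in L), contribution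
`≤ C q (1 + log q)`. Other `s`: partial sums `≤ C(L + S²(1+log S))`, contribution at most
`C(L f(s₁+1) + ∑ (1 + log s) e^{-s²g⁴/(32X)})`. -/
def S_TMG : Prop := ∃ C : ℝ, 0 < C ∧ ∀ (θ : ℝ) (b : ℤ) (q X : ℕ), 1 ≤ X → App θ b q X →
  ∀ (m g M : ℕ), 1 ≤ m → 1 ≤ g →
  TT X θ m g M ≤ C * ((X : ℝ) * min (1 / (m : ℝ)) (1 / (q : ℝ)) +
    (if m ≤ q then (q : ℝ) * (1 + Real.log q) else 0) + Real.sqrt X / (g : ℝ) ^ 2 * lg X)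

/-- AGS: `min (1/m, 1/q) ≤ m^{-(1/2+κ)} q^{-(1/2-κ)}`, `m = [a²,g] ≥ max(a², g)` so
`m^{-(1/2+κ)} ≤ a^{-(1+κ)} g^{-κ/2}`; if `m ≤ q` use `1 ≤ (q/m)^{1/2+κ}`, and `q^{3/2+κ}(1+log q) ≤ C q^{7/4} ≤ C' X^{7/8}`. -/
def S_AGS : Prop := ∀ κ : ℝ, 0 < κ → κ ≤ 1 / 8 → ∃ C : ℝ, 0 < C ∧
  ∀ (θ : ℝ) (b : ℤ) (q X : ℕ), 1 ≤ X → App θ b q X → ∀ (A G M : ℕ),
  ∑ a ∈ Icc 1 A, ∑ g ∈ Icc 1 G, 1 / (g : ℝ) * TT X θ (Nat.lcm (a ^ 2) g) g M ≤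
    C * ((X : ℝ) * (q : ℝ) ^ (κ - 1 / 2) + (X : ℝ) ^ (7 / 8 : ℝ) + A * Real.sqrt X * lg X)

/-! ### C. the sum over `d` -/

/-- KRA: as in the proof of `S_KER` (`Q275.FM.t_KER`), for all odd `n` (squares included); `EA = EN + ES`. -/
def S_KRA : Prop := ∀ p : Par, p.ok → ∀ (N d : ℕ) (z : ℝ), 0 < z →
  IntegrableOn (fun w : ℝ => w ^ (-(3 / 4) : ℝ) * NA p.e (kw p N w) N d) (Set.Ioi z) ∧
  EA p N d z = ∫ w in Set.Ioi z, w ^ (-(3 / 4) : ℝ) * NA p.e (kw p N w) N d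

/-- KIN: substitution `u = n² w`: `∫ = n^{-1/2} ∫_{n²z}^∞ u^{-7/8} e^{-u} du ≤ n^{-1/2} e^{-n²z/2} ∫_0^∞ u^{-7/8} e^{-u/2} du`. -/
def S_KIN : Prop := ∃ C : ℝ, 0 < C ∧ ∀ (n : ℕ) (z : ℝ), 1 ≤ n → 0 < z →
  IntegrableOn (fun w : ℝ => w ^ (-(3 / 4) : ℝ) * kap ((n : ℝ) ^ 2 * w)) (Set.Ioi z) ∧
  ∫ w in Set.Ioi z, w ^ (-(3 / 4) : ℝ) * kap ((n : ℝ) ^ 2 * w) ≤
    C / Real.sqrt n * Real.exp (-((n : ℝ) ^ 2 * z / 2))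

/-- VSM -/
def S_VSM : Prop := ∃ C : ℝ, 0 < C ∧ ∀ X N : ℕ, 1 ≤ X →
  ∑ v ∈ Icc 1 N, 1 / (v : ℝ) * Real.exp (-((v : ℝ) ^ 4 / (32 * X))) ≤ C * lg X

/-- PTW: write `n = s u²`, `s` odd squarefree (library: `Q122.FM.Dec`, `Dec2`: `sqf_unique`, `js_sq`, `cop_sum`,
`div_swap`), `js (e d) (s u²) = js (e d) s · 1_{(u,d)=1}`, `1_{(u,d)=1} = ∑_{g | u, g | d} μ(g)`, `u = g v`, and APS with
`m = [a²,g]`. If `a` or `g` is even there is no `d`. -/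
def S_PTW : Prop := ∀ e : ℤ, (e = 1 ∨ e = -1 ∨ e = 2 ∨ e = -2) → ∀ k K : ℕ → ℝ,
  (∀ n, 1 ≤ n → |k n| ≤ K n) → (∀ n, 0 ≤ K n) → ∀ (c a D0 X N : ℕ) (θ : ℝ), c < 8 → Odd c → 1 ≤ a →
  ‖∑ d ∈ (Ioc D0 X).filter (fun d => a ^ 2 ∣ d ∧ d % 8 = c), ee (θ * d) * (NA e k N d : ℂ)‖ ≤
    2 * ∑ s ∈ Icc 1 N, ∑ g ∈ Icc 1 N, ∑ v ∈ Icc 1 N, K (s * (g * v) ^ 2) * (1 / Real.sqrt s) *
      Psi s ((X : ℝ) / (8 * (Nat.lcm (a ^ 2) g : ℕ)) + 1) (8 * (Nat.lcm (a ^ 2) g : ℕ) * θ)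

/-- NSW: from KRA, KIN, VSM, PTW and the first part of `S_KER`: interchange the sum over `d` and the integral over
`w` (`d > 1/(rw)` is an interval `Ioc ⌊1/(rw)⌋₊ X`), `K n = C kap (n² w)`, integrate (KIN with `z = 1/(rX)`),
`e^{-s²g⁴v⁴/(16X)} ≤ e^{-s²g⁴/(32X)} e^{-v⁴/(32X)}`. -/
def S_NSW : Prop := ∃ C : ℝ, 0 < C ∧ ∀ p : Par, p.ok → ∀ c : ℕ, c < 8 → Odd c →
  ∀ (X A N : ℕ) (θ : ℝ), 1 ≤ X →
  ‖∑ d ∈ (Icc 1 X).filter (fun d => d % 8 = c),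
      ((∑ a ∈ (Icc 1 A).filter (fun a => a ^ 2 ∣ d), ((ArithmeticFunction.moebius a : ℤ) : ℝ) : ℝ) : ℂ) *
        (ee (θ * d) * (EA p N d (1 / (p.r * (d : ℝ))) : ℂ))‖ ≤
    C * lg X * ∑ a ∈ Icc 1 A, ∑ g ∈ Icc 1 N, 1 / (g : ℝ) * TT X θ (Nat.lcm (a ^ 2) g) g N

/-- GWE: the proof of `S_J2` (`Q153.FM.t_J2`, with `h = 1`) with `u d` instead of `RA A d` gives `EN`;
`|ES p N d z| ≤ C (1 + log(1/z))` (KIN and VSM, or directly), and Cauchy-Schwarz. Small `X` by `S_FRZ`. -/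
def S_GWE : Prop := ∃ C : ℝ, 0 < C ∧ ∀ p : Par, p.ok → ∀ c : ℕ, c < 8 → Odd c →
  ∀ (X N : ℕ) (u : ℕ → ℝ), 1 ≤ X →
  ∑ d ∈ (Icc 1 X).filter (fun d => d % 8 = c), |u d| * |EA p N d (1 / (p.r * (d : ℝ)))| ≤
    C * Real.sqrt (∑ d ∈ Icc 1 X, u d ^ 2) * Real.sqrt X * lg X ^ (3 / 2 : ℝ)

/-- CLX: `1_{d squarefree} = RA A d + ∑_{a ≤ A, a² | d} μ(a)` with `A = ⌈X^{1/4}⌉`; NSW + AGS, GWE + `S_RA`. -/
def S_CLX : Prop := ∀ κ : ℝ, 0 < κ → κ ≤ 1 / 8 → ∃ C : ℝ, 0 < C ∧ ∀ p : Par, p.ok →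
  ∀ c : ℕ, c < 8 → Odd c → ∀ (θ : ℝ) (b : ℤ) (q X N : ℕ), 1 ≤ X → App θ b q X →
  ‖∑ d ∈ (Icc 1 X).filter (fun d => d % 8 = c ∧ Squarefree d),
      ee (θ * d) * (EA p N d (1 / (p.r * (d : ℝ))) : ℂ)‖ ≤
    C * ((X : ℝ) * lg X * (q : ℝ) ^ (κ - 1 / 2) + (X : ℝ) ^ (7 / 8 : ℝ) * lg X ^ 2)

/-! ### D. the L-values -/

/-- EXP: `N → ∞` (`S_REP`), the families (`S_FDD`), `8θ, 4θ, θ` -/
def S_EXP : Prop := ∀ κ : ℝ, 0 < κ → κ ≤ 1 / 8 → ∃ C : ℝ, 0 < C ∧ ∀ ε : ℤ, (ε = 1 ∨ ε = -1) →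
  ∀ (θ : ℝ) (b : ℤ) (q X : ℕ), 1 ≤ q → q ^ 2 ≤ X → IsCoprime b (q : ℤ) →
  |θ - (b : ℝ) / q| ≤ 1 / (q : ℝ) ^ 2 →
  ‖SX ε θ X‖ ≤ C * ((X : ℝ) * lg X * (q : ℝ) ^ (κ - 1 / 2) + (X : ℝ) ^ (7 / 8 : ℝ) * lg X ^ 2)

/-- GWL: few discriminants contribute little (GWE, `S_REP`, `S_FDD`) -/
def S_GWL : Prop := ∃ C : ℝ, 0 < C ∧ ∀ ε : ℤ, (ε = 1 ∨ ε = -1) → ∀ (X : ℕ) (T : Finset ℕ), 1 ≤ X →
  T ⊆ Ioc 1 X → ∑ n ∈ T, |Lf ε n| ≤ C * Real.sqrt (T.card) * Real.sqrt X * lg X ^ (3 / 2 : ℝ)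

/-- FM0: the first moment with a power saving, from `S_FIN` with `H = ⌈X^{1/4}⌉` (`S_GWL` or `S_FRZ`-type bounds
`|Lf ε n| ≤ C n^{1/4}` for the edges; `∑_{x ≤ X} W ε x H = H ∑_{n ≤ X} Lf ε n + edges`). -/
def S_FM0 : Prop := ∃ C : ℝ, 0 < C ∧ ∀ ε : ℤ, (ε = 1 ∨ ε = -1) → ∀ X : ℕ, 1 ≤ X →
  |∑ n ∈ Ioc 1 X, Lf ε n - M0 ε X| ≤ C * (X : ℝ) ^ (29 / 30 : ℝ)

/-! ### E. equidistribution -/

/-- TRAP: with `F(x) = B₂(fract x)/2`, `B₂(t) = t² - t + 1/6`, and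
`ψ(x) = v + (F(x - v) - F(x - v - Δ) - F(x) + F(x - Δ))/Δ` one has `ψ(x) = 1_{fract x < v}` if `fract x ≥ Δ` and
`fract (x - v) ≥ Δ`, and `|ψ(x) - v| ≤ 1` always; Fourier series of `B₂`: Mathlib `hasSum_one_div_nat_pow_mul_cos`. -/
def S_TRAP : Prop := ∀ (I : Finset ℕ) (w : ℕ → ℝ) (α β v Δ : ℝ), 0 ≤ v → v ≤ 1 → 0 < Δ → Δ ≤ 1 →
  |∑ n ∈ I.filter (fun n : ℕ => Int.fract (α * n + β) < v), w n - v * ∑ n ∈ I, w n| ≤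
    1 / Δ * ∑' h : ℕ, ‖∑ n ∈ I, (w n : ℂ) * ee (((h : ℝ) + 1) * α * n)‖ / ((h : ℝ) + 1) ^ 2 +
    3 * ∑ n ∈ I.filter (fun n : ℕ => Int.fract (α * n + β) < Δ ∨ Int.fract (α * n + β - v) < Δ), |w n|

/-- NLV: irrational numbers which are not Liouville numbers (`Liouville` of Mathlib); the same for `-1/α`. -/
def S_NLV : Prop := ∀ α : ℝ, Irrational α → ¬ Liouville α → ∃ (c : ℝ) (τ : ℕ), 0 < c ∧ 1 ≤ τ ∧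
  (∀ h : ℕ, 1 ≤ h → c / (h : ℝ) ^ τ ≤ nd (h * α)) ∧ ∀ h : ℕ, 1 ≤ h → c / (h : ℝ) ^ τ ≤ nd (h * (-(1 / α)))

/-- ARC: two members have a difference `h` with `nd (h α) < Δ`, so `h > (c/Δ)^{1/τ}`; pigeonhole. -/
def S_ARC : Prop := ∀ (α c : ℝ) (τ : ℕ), 0 < c → 1 ≤ τ →
  (∀ h : ℕ, 1 ≤ h → c / (h : ℝ) ^ τ ≤ nd (h * α)) → ∃ C : ℝ, 0 < C ∧ ∀ (X : ℕ) (β Δ : ℝ), 1 ≤ X →
  0 < Δ → Δ ≤ 1 → (((Ioc 1 X).filter (fun n : ℕ => Int.fract (α * n + β) < Δ)).card : ℝ) ≤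
    C * ((X : ℝ) * Δ ^ (1 / (τ : ℝ)) + 1)

/-- BHR: the first moment in Bohr sets, power saving. EXP with `κ = 1/8` and Dirichlet approximation of `h α` with
`q ≤ √X` (so `q ≥ (c√X)^{1/τ}/h`), FM0, TRAP, GWL, ARC, and `‖SX‖ ≤ C X lg X` (EXP with `q = 1`). -/
def S_BHR : Prop := ∀ (α c : ℝ) (τ : ℕ), 0 < c → 1 ≤ τ →
  (∀ h : ℕ, 1 ≤ h → c / (h : ℝ) ^ τ ≤ nd (h * α)) → ∃ C δ : ℝ, 0 < C ∧ 0 < δ ∧
  ∀ ε : ℤ, (ε = 1 ∨ ε = -1) → ∀ (X : ℕ) (β v : ℝ), 1 ≤ X → 0 ≤ v → v ≤ 1 →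
  |∑ n ∈ (Ioc 1 X).filter (fun n : ℕ => Int.fract (α * n + β) < v), Lf ε n - v * M0 ε X| ≤
    C * (X : ℝ) ^ (1 - δ)

/-- BTY: Beatty sequences: `n = ⌊α m + β⌋` for an integer `m` iff `fract (-(1/α) n + β/α) < 1/α`. -/
def S_BTY : Prop := ∀ (α β : ℝ) (n : ℕ), 1 < α →
  ((∃ m : ℤ, ⌊α * m + β⌋ = (n : ℤ)) ↔ Int.fract (-(1 / α) * n + β / α) < 1 / α)

/-- IRR: every irrational `θ`: EXP with the Dirichlet approximation, `q → ∞` -/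
def S_IRR : Prop := ∀ θ : ℝ, Irrational θ → ∀ ε : ℤ, (ε = 1 ∨ ε = -1) →
  Tendsto (fun X : ℕ => ‖SX ε θ X‖ / (X * Real.log X)) atTop (𝓝 0)

/-- WIE: weights with absolutely convergent Fourier series, every irrational `α`: dominated convergence, IRR, FM0 and
`M0 ε X ∼ (3/π²)(P1/2) X log X`. -/
def S_WIE : Prop := ∀ α : ℝ, Irrational α → ∀ ε : ℤ, (ε = 1 ∨ ε = -1) → ∀ c : ℤ → ℂ,
  Summable (fun h => ‖c h‖) →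
  Tendsto (fun X : ℕ => (∑ n ∈ Ioc 1 X, (Lf ε n : ℂ) * ∑' h : ℤ, c h * ee (h * (α * n))) /
    ((X : ℂ) * Real.log X)) atTop (𝓝 (c 0 * (3 / Real.pi ^ 2 * (P1 / 2) : ℝ)))

/-- POS: every irrational `α`, every arc: at least `c X/log X` discriminants in the Bohr set with positive central
value: WIE with a tent function supported in the arc (its Fourier series from the one of `B₂`), GWL. -/
def S_POS : Prop := ∀ α : ℝ, Irrational α → ∀ β v : ℝ, 0 < v → v ≤ 1 → ∃ c : ℝ, 0 < c ∧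
  ∀ ε : ℤ, (ε = 1 ∨ ε = -1) → ∀ᶠ X : ℕ in atTop, c * X / Real.log X ≤
    (((Ioc 1 X).filter (fun n : ℕ => Int.fract (α * n + β) < v ∧ 0 < Lf ε n)).card : ℝ)

end

end Pool.Agent.H28.BR
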