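import Pool.Agent.H28.BR.Stm3

set_option autoImplicit false

/-! Project BR3, two additions: uniformity in the arc, residue classes -/

namespace Pool.Agent.H28.BR3

open Finset Filter Topology MeasureTheory
open Pool.Agent.Helper112 (ee)

noncomputable section

/-- UNI: uniformity in the arc. Grid of step `1/K`: for `0 ≤ t`, `fract (x + β) < v` implies
`fract (x + β + t) < v + t` (or `1 ≤ v + t`, where the arc is everything); so the arc `(β, v)` is contained in an arc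
`(j/K, i/K)` with `i/K ≤ v + 2/K`, and `j` matters modulo `K` only: finitely many limits. Lower bound: the complement
of the arc `(β, v)` is contained in the arc `(β - v, 1 - v)`. -/
def S_UNI : Prop := ∀ (w : ℕ → ℝ) (α : ℝ), (∀ n, 0 ≤ w n) →
  (∀ᶠ X : ℕ in atTop, 0 < ∑ n ∈ Ioc 1 X, w n) →
  (∀ β v : ℝ, 0 ≤ v → v ≤ 1 →
    Tendsto (fun X : ℕ => (∑ n ∈ (Ioc 1 X).filter (fun n : ℕ => Int.fract (α * n + β) < v), w n) /
      ∑ n ∈ Ioc 1 X, w n) atTop (𝓝 v)) →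
  ∀ δ : ℝ, 0 < δ → ∃ X0 : ℕ, ∀ X : ℕ, X0 ≤ X → ∀ β v : ℝ, 0 ≤ v → v ≤ 1 →
  |∑ n ∈ (Ioc 1 X).filter (fun n : ℕ => Int.fract (α * n + β) < v), w n - v * ∑ n ∈ Ioc 1 X, w n| ≤
    δ * ∑ n ∈ Ioc 1 X, w n

/-- CLS: residue classes: `1_{n ≡ b (q)} = (1/q) ∑_{j < q} e(j (n - b)/q)`, and `θ + j/q` is irrational -/
def S_CLS : Prop := ∀ w : ℕ → ℝ, (∀ n, 0 ≤ w n) → (∀ᶠ X : ℕ in atTop, 0 < ∑ n ∈ Ioc 1 X, w n) →
  (∀ θ : ℝ, Irrational θ → Tendsto (fun X : ℕ => ‖∑ n ∈ Ioc 1 X, (w n : ℂ) * ee (θ * n)‖ /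
    ∑ n ∈ Ioc 1 X, w n) atTop (𝓝 0)) →
  ∀ q b : ℕ, 1 ≤ q → ∀ θ : ℝ, Irrational θ →
  Tendsto (fun X : ℕ => ‖∑ n ∈ (Ioc 1 X).filter (fun n => n % q = b), (w n : ℂ) * ee (θ * n)‖ /
    ∑ n ∈ Ioc 1 X, w n) atTop (𝓝 0)

end

end Pool.Agent.H28.BR3
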